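import Pool.Agent.Lib.MP_bbc38a_co.Defs

set_option autoImplicit false
open Classical

namespace Pool.Bbc38

/-- roles of the bounded clique -/
noncomputable def codesU (k t m m1 : ℕ) : Finset Role :=
  ((Finset.range (m + k)).biUnion (fun i => (Finset.range (hc t m i)).image (fun h => Role.gh i h)))
  ∪ ((Finset.range (m + k)) ×ˢ (Finset.range k)).image (fun q => Role.gl q.1 q.2)
  ∪ ((Finset.range m1) ×ˢ (Finset.range t)).image (fun q => Role.h1 q.1 q.2)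

/-- roles of the level two hubs -/
noncomputable def codesW (t m2 : ℕ) : Finset Role :=
  ((Finset.range m2) ×ˢ (Finset.range t)).image (fun q => Role.h2 q.1 q.2)

theorem mem_codesU {k t m m1 : ℕ} {r : Role} : r ∈ codesU k t m m1 ↔
    (∃ i h, i < m + k ∧ h < hc t m i ∧ r = .gh i h) ∨
    (∃ i l, i < m + k ∧ l < k ∧ r = .gl i l) ∨
    (∃ j h, j < m1 ∧ h < t ∧ r = .h1 j h) := by
  unfold codesU
  simp only [Finset.mem_union, Finset.mem_biUnion, Finset.mem_range, Finset.mem_image,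
    Finset.mem_product, Prod.exists]
  constructor
  · rintro ((⟨i, hi, h, hh, rfl⟩ | ⟨i, l, ⟨hi, hl⟩, rfl⟩) | ⟨j, h, ⟨hj, hh⟩, rfl⟩)
    · exact Or.inl ⟨i, h, hi, hh, rfl⟩
    · exact Or.inr (Or.inl ⟨i, l, hi, hl, rfl⟩)
    · exact Or.inr (Or.inr ⟨j, h, hj, hh, rfl⟩)
  · rintro (⟨i, h, hi, hh, rfl⟩ | ⟨i, l, hi, hl, rfl⟩ | ⟨j, h, hj, hh, rfl⟩)
    · exact Or.inl (Or.inl ⟨i, hi, h, hh, rfl⟩)
    · exact Or.inl (Or.inr ⟨i, l, ⟨hi, hl⟩, rfl⟩)
    · exact Or.inr ⟨j, h, ⟨hj, hh⟩, rfl⟩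

theorem mem_codesW {t m2 : ℕ} {r : Role} : r ∈ codesW t m2 ↔
    (∃ j h, j < m2 ∧ h < t ∧ r = .h2 j h) := by
  unfold codesW
  simp only [Finset.mem_image, Finset.mem_product, Finset.mem_range, Prod.exists]
  constructor
  · rintro ⟨j, h, ⟨hj, hh⟩, rfl⟩; exact ⟨j, h, hj, hh, rfl⟩
  · rintro ⟨j, h, hj, hh, rfl⟩; exact ⟨j, h, ⟨hj, hh⟩, rfl⟩

/-- enumeration of a finset by a finset of roles of the same size -/
theorem exists_enum {n : ℕ} (U : Finset (Fin n)) (R : Finset Role) (h : U.card = R.card) :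
    ∃ rU : Fin n → Role, (∀ x ∈ U, rU x ∈ R) ∧ (∀ x ∈ U, ∀ y ∈ U, rU x = rU y → x = y) ∧
      (∀ r ∈ R, ∃ x ∈ U, rU x = r) := by
  let e := Finset.equivOfCardEq h
  refine ⟨fun x => if hx : x ∈ U then (e ⟨x, hx⟩ : R).1 else .A, ?_, ?_, ?_⟩
  · intro x hx
    simp only [hx, dif_pos]
    exact (e ⟨x, hx⟩).2
  · intro x hx y hy hxy
    simp only [hx, hy, dif_pos] at hxy
    have := e.injective (Subtype.ext hxy)
    exact congrArg Subtype.val this
  · intro r hr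
    refine ⟨(e.symm ⟨r, hr⟩).1, (e.symm ⟨r, hr⟩).2, ?_⟩
    simp

section
variable {n : ℕ}

/-- the role function -/
noncomputable def roleFn (G : SimpleGraph (Fin n)) (A B X U W : Finset (Fin n))
    (rU rW : Fin n → Role) (m1 m2 : ℕ) (τ : ℝ) (x : Fin n) : Role :=
  if x ∈ A then .A else if x ∈ B then .B else if x ∈ X then .X else if x ∈ U then rU x
  else if x ∈ W then rW x
  else if h : (τ ≤ ((cn G {x} A).card : ℝ) ∧
      ∃ j, j < m1 ∧ ∀ u ∈ U, ∀ i, rU u = .h1 j i → G.Adj x u) then .r1 h.2.choose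
  else if h : (∃ j, j < m2 ∧ ∀ u ∈ W, ∀ i, rW u = .h2 j i → G.Adj x u) then .r2 h.choose
  else .r2 0

end

theorem build_cfg {n s k t m : ℕ} (G : SimpleGraph (Fin n)) (m1 m2 : ℕ)
    (A B X U W : Finset (Fin n))
    (hAB : Disjoint A B) (hAX : Disjoint A X) (hAU : Disjoint A U) (hAW : Disjoint A W)
    (hBX : Disjoint B X) (hBU : Disjoint B U) (hBW : Disjoint B W)
    (hXU : Disjoint X U) (hXW : Disjoint X W) (hUW : Disjoint U W)
    (rU rW : Fin n → Role)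
    (hUm : ∀ x ∈ U, rU x ∈ codesU k t m m1)
    (hUi : ∀ x ∈ U, ∀ y ∈ U, rU x = rU y → x = y)
    (hUs : ∀ r ∈ codesU k t m m1, ∃ x ∈ U, rU x = r)
    (hWm : ∀ x ∈ W, rW x ∈ codesW t m2)
    (hWi : ∀ x ∈ W, ∀ y ∈ W, rW x = rW y → x = y)
    (hWs : ∀ r ∈ codesW t m2, ∃ x ∈ W, rW x = r)
    (J : SimpleGraph (Fin n)) (hJG : J ≤ G)
    (hJs : ∀ u v, J.Adj u v → (u ∈ A ∧ v ∈ A) ∨ (u ∈ B ∧ v ∈ B)) (hJc : LocCol J s k)
    (hUcl : ∀ u ∈ U, ∀ v ∈ U, u ≠ v → G.Adj u v)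
    (hUA : ∀ a ∈ A, ∀ u ∈ U, G.Adj a u)
    (hUB : ∀ b ∈ B, ∀ u ∈ U, (isG (rU u)) → G.Adj b u)
    (hcov : ∀ x, x ∉ W → ∃ j, j < m2 ∧ ∀ u ∈ W, ∀ i, rW u = .h2 j i → G.Adj x u)
    (τ : ℝ) :
    ∃ c : Cfg n s k t m G, c.m1 = m1 ∧ c.m2 = m2 ∧ c.J = J ∧ c.verts isA = A ∧ c.verts isB = B ∧
      c.verts isX = X ∧ c.verts isH2 = W ∧ c.verts (fun r => isX r ∨ isG r ∨ isH1 r) = X ∪ U ∧
      c.verts (fun r => ¬ isR1 r ∧ ¬ isR2 r) = A ∪ B ∪ X ∪ U ∪ W ∧
      (∀ y, isR1 (c.role y) → y ∉ A ∪ B ∪ X ∪ U ∪ W ∧ τ ≤ ((cn G {y} A).card : ℝ)) ∧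
      (∀ y, isR2 (c.role y) → y ∉ A ∪ B ∪ X ∪ U ∪ W ∧ (((cn G {y} A).card : ℝ) < τ ∨
        ∀ j, j < m1 → ∃ u ∈ U, ∃ i, rU u = .h1 j i ∧ ¬ G.Adj y u)) := by
  set ρ := roleFn G A B X U W rU rW m1 m2 τ with hρ
  have hdA : ∀ x, x ∈ A → ρ x = .A := fun x hx => by simp [hρ, roleFn, hx]
  have hdB : ∀ x, x ∈ B → ρ x = .B := fun x hx => by
    have h1 : x ∉ A := fun h => (Finset.disjoint_left.mp hAB) h hx
    simp [hρ, roleFn, hx, h1]
  have hdX : ∀ x, x ∈ X → ρ x = .X := fun x hx => by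
    have h1 : x ∉ A := fun h => (Finset.disjoint_left.mp hAX) h hx
    have h2 : x ∉ B := fun h => (Finset.disjoint_left.mp hBX) h hx
    simp [hρ, roleFn, hx, h1, h2]
  have hdU : ∀ x, x ∈ U → ρ x = rU x := fun x hx => by
    have h1 : x ∉ A := fun h => (Finset.disjoint_left.mp hAU) h hx
    have h2 : x ∉ B := fun h => (Finset.disjoint_left.mp hBU) h hx
    have h3 : x ∉ X := fun h => (Finset.disjoint_left.mp hXU) h hx
    simp [hρ, roleFn, hx, h1, h2, h3]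
  have hdW : ∀ x, x ∈ W → ρ x = rW x := fun x hx => by
    have h1 : x ∉ A := fun h => (Finset.disjoint_left.mp hAW) h hx
    have h2 : x ∉ B := fun h => (Finset.disjoint_left.mp hBW) h hx
    have h3 : x ∉ X := fun h => (Finset.disjoint_left.mp hXW) h hx
    have h4 : x ∉ U := fun h => (Finset.disjoint_left.mp hUW) h hx
    simp [hρ, roleFn, hx, h1, h2, h3, h4]
  -- full case analysis
  have hcase : ∀ x, (x ∈ A ∧ ρ x = .A) ∨ (x ∈ B ∧ ρ x = .B) ∨ (x ∈ X ∧ ρ x = .X) ∨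
      (x ∈ U ∧ ρ x = rU x ∧ rU x ∈ codesU k t m m1) ∨ (x ∈ W ∧ ρ x = rW x ∧ rW x ∈ codesW t m2) ∨
      (x ∉ A ∪ B ∪ X ∪ U ∪ W ∧ ∃ j, ρ x = .r1 j ∧ j < m1 ∧ τ ≤ ((cn G {x} A).card : ℝ) ∧
        ∀ u ∈ U, ∀ i, rU u = .h1 j i → G.Adj x u) ∨
      (x ∉ A ∪ B ∪ X ∪ U ∪ W ∧ ∃ j, ρ x = .r2 j ∧ j < m2 ∧
        (∀ u ∈ W, ∀ i, rW u = .h2 j i → G.Adj x u) ∧ (((cn G {x} A).card : ℝ) < τ ∨
        ∀ j, j < m1 → ∃ u ∈ U, ∃ i, rU u = .h1 j i ∧ ¬ G.Adj x u)) := by
    intro x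
    by_cases h1 : x ∈ A
    · exact Or.inl ⟨h1, hdA x h1⟩
    by_cases h2 : x ∈ B
    · exact Or.inr (Or.inl ⟨h2, hdB x h2⟩)
    by_cases h3 : x ∈ X
    · exact Or.inr (Or.inr (Or.inl ⟨h3, hdX x h3⟩))
    by_cases h4 : x ∈ U
    · exact Or.inr (Or.inr (Or.inr (Or.inl ⟨h4, hdU x h4, hUm x h4⟩)))
    by_cases h5 : x ∈ W
    · exact Or.inr (Or.inr (Or.inr (Or.inr (Or.inl ⟨h5, hdW x h5, hWm x h5⟩))))
    have hnot : x ∉ A ∪ B ∪ X ∪ U ∪ W := by
      simp only [Finset.mem_union, not_or]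
      exact ⟨⟨⟨⟨h1, h2⟩, h3⟩, h4⟩, h5⟩
    by_cases h6 : (τ ≤ ((cn G {x} A).card : ℝ) ∧
      ∃ j, j < m1 ∧ ∀ u ∈ U, ∀ i, rU u = .h1 j i → G.Adj x u)
    · refine Or.inr (Or.inr (Or.inr (Or.inr (Or.inr (Or.inl ⟨hnot, h6.2.choose, ?_, ?_, h6.1, ?_⟩)))))
      · simp only [hρ, roleFn, h1, h2, h3, h4, h5, if_false]
        rw [dif_pos h6]
      · exact h6.2.choose_spec.1
      · exact h6.2.choose_spec.2
    · have h7 := hcov x h5
      refine Or.inr (Or.inr (Or.inr (Or.inr (Or.inr (Or.inr ⟨hnot, h7.choose, ?_, ?_, ?_, ?_⟩)))))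
      · simp only [hρ, roleFn, h1, h2, h3, h4, h5, if_false]
        rw [dif_neg h6, dif_pos h7]
      · exact h7.choose_spec.1
      · exact h7.choose_spec.2
      · rw [not_and_or, not_le] at h6
        rcases h6 with h6 | h6
        · exact Or.inl h6
        · right
          intro j hj
          by_contra hcon
          apply h6
          refine ⟨j, hj, fun u hu i hi => ?_⟩
          by_contra hadj
          exact hcon ⟨u, hu, i, hi, hadj⟩
  -- decoding lemmas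
  have decA : ∀ x, ρ x = .A → x ∈ A := by
    intro x hx
    rcases hcase x with h | h | h | h | h | h | h
    · exact h.1
    · rw [h.2] at hx; cases hx
    · rw [h.2] at hx; cases hx
    · rw [h.2.1] at hx; rw [hx] at h
      rcases mem_codesU.mp h.2.2 with ⟨i, l, _, _, h'⟩ | ⟨i, l, _, _, h'⟩ | ⟨i, l, _, _, h'⟩ <;> cases h'
    · rw [h.2.1] at hx; rw [hx] at h
      rcases mem_codesW.mp h.2.2 with ⟨i, l, _, _, h'⟩; cases h'
    · obtain ⟨_, j, hj, _⟩ := h; rw [hj] at hx; cases hx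
    · obtain ⟨_, j, hj, _⟩ := h; rw [hj] at hx; cases hx
  have decB : ∀ x, ρ x = .B → x ∈ B := by
    intro x hx
    rcases hcase x with h | h | h | h | h | h | h
    · rw [h.2] at hx; cases hx
    · exact h.1
    · rw [h.2] at hx; cases hx
    · rw [h.2.1] at hx; rw [hx] at h
      rcases mem_codesU.mp h.2.2 with ⟨i, l, _, _, h'⟩ | ⟨i, l, _, _, h'⟩ | ⟨i, l, _, _, h'⟩ <;> cases h'
    · rw [h.2.1] at hx; rw [hx] at h
      rcases mem_codesW.mp h.2.2 with ⟨i, l, _, _, h'⟩; cases h'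
    · obtain ⟨_, j, hj, _⟩ := h; rw [hj] at hx; cases hx
    · obtain ⟨_, j, hj, _⟩ := h; rw [hj] at hx; cases hx
  have decX : ∀ x, ρ x = .X → x ∈ X := by
    intro x hx
    rcases hcase x with h | h | h | h | h | h | h
    · rw [h.2] at hx; cases hx
    · rw [h.2] at hx; cases hx
    · exact h.1
    · rw [h.2.1] at hx; rw [hx] at h
      rcases mem_codesU.mp h.2.2 with ⟨i, l, _, _, h'⟩ | ⟨i, l, _, _, h'⟩ | ⟨i, l, _, _, h'⟩ <;> cases h'
    · rw [h.2.1] at hx; rw [hx] at h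
      rcases mem_codesW.mp h.2.2 with ⟨i, l, _, _, h'⟩; cases h'
    · obtain ⟨_, j, hj, _⟩ := h; rw [hj] at hx; cases hx
    · obtain ⟨_, j, hj, _⟩ := h; rw [hj] at hx; cases hx
  have decGH : ∀ x i h, ρ x = .gh i h → x ∈ U ∧ rU x = .gh i h ∧ i < m + k ∧ h < hc t m i := by
    intro x i h hx
    rcases hcase x with g | g | g | g | g | g | g
    · rw [g.2] at hx; cases hx
    · rw [g.2] at hx; cases hx
    · rw [g.2] at hx; cases hx
    · rw [g.2.1] at hx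
      refine ⟨g.1, hx, ?_⟩
      rw [hx] at g
      rcases mem_codesU.mp g.2.2 with ⟨i', l, h1, h2, h'⟩ | ⟨i', l, _, _, h'⟩ | ⟨i', l, _, _, h'⟩
      · cases h'; exact ⟨h1, h2⟩
      · cases h'
      · cases h'
    · rw [g.2.1] at hx; rw [hx] at g
      rcases mem_codesW.mp g.2.2 with ⟨i, l, _, _, h'⟩; cases h'
    · obtain ⟨_, j, hj, _⟩ := g; rw [hj] at hx; cases hx
    · obtain ⟨_, j, hj, _⟩ := g; rw [hj] at hx; cases hx
  have decGL : ∀ x i h, ρ x = .gl i h → x ∈ U ∧ rU x = .gl i h ∧ i < m + k ∧ h < k := by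
    intro x i h hx
    rcases hcase x with g | g | g | g | g | g | g
    · rw [g.2] at hx; cases hx
    · rw [g.2] at hx; cases hx
    · rw [g.2] at hx; cases hx
    · rw [g.2.1] at hx
      refine ⟨g.1, hx, ?_⟩
      rw [hx] at g
      rcases mem_codesU.mp g.2.2 with ⟨i', l, h1, h2, h'⟩ | ⟨i', l, h1, h2, h'⟩ | ⟨i', l, _, _, h'⟩
      · cases h'
      · cases h'; exact ⟨h1, h2⟩
      · cases h'
    · rw [g.2.1] at hx; rw [hx] at g
      rcases mem_codesW.mp g.2.2 with ⟨i, l, _, _, h'⟩; cases h'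
    · obtain ⟨_, j, hj, _⟩ := g; rw [hj] at hx; cases hx
    · obtain ⟨_, j, hj, _⟩ := g; rw [hj] at hx; cases hx
  have decH1 : ∀ x j h, ρ x = .h1 j h → x ∈ U ∧ rU x = .h1 j h ∧ j < m1 ∧ h < t := by
    intro x i h hx
    rcases hcase x with g | g | g | g | g | g | g
    · rw [g.2] at hx; cases hx
    · rw [g.2] at hx; cases hx
    · rw [g.2] at hx; cases hx
    · rw [g.2.1] at hx
      refine ⟨g.1, hx, ?_⟩
      rw [hx] at g
      rcases mem_codesU.mp g.2.2 with ⟨i', l, h1, h2, h'⟩ | ⟨i', l, _, _, h'⟩ | ⟨i', l, h1, h2, h'⟩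
      · cases h'
      · cases h'
      · cases h'; exact ⟨h1, h2⟩
    · rw [g.2.1] at hx; rw [hx] at g
      rcases mem_codesW.mp g.2.2 with ⟨i, l, _, _, h'⟩; cases h'
    · obtain ⟨_, j, hj, _⟩ := g; rw [hj] at hx; cases hx
    · obtain ⟨_, j, hj, _⟩ := g; rw [hj] at hx; cases hx
  have decH2 : ∀ x j h, ρ x = .h2 j h → x ∈ W ∧ rW x = .h2 j h ∧ j < m2 ∧ h < t := by
    intro x i h hx
    rcases hcase x with g | g | g | g | g | g | g
    · rw [g.2] at hx; cases hx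
    · rw [g.2] at hx; cases hx
    · rw [g.2] at hx; cases hx
    · rw [g.2.1] at hx; rw [hx] at g
      rcases mem_codesU.mp g.2.2 with ⟨i', l, h1, h2, h'⟩ | ⟨i', l, _, _, h'⟩ | ⟨i', l, h1, h2, h'⟩ <;>
        cases h'
    · rw [g.2.1] at hx
      refine ⟨g.1, hx, ?_⟩
      rw [hx] at g
      rcases mem_codesW.mp g.2.2 with ⟨i, l, h1, h2, h'⟩; cases h'; exact ⟨h1, h2⟩
    · obtain ⟨_, j, hj, _⟩ := g; rw [hj] at hx; cases hx
    · obtain ⟨_, j, hj, _⟩ := g; rw [hj] at hx; cases hx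
  have decR1 : ∀ x j, ρ x = .r1 j → x ∉ A ∪ B ∪ X ∪ U ∪ W ∧ j < m1 ∧
      τ ≤ ((cn G {x} A).card : ℝ) ∧ ∀ u ∈ U, ∀ i, rU u = .h1 j i → G.Adj x u := by
    intro x j hx
    rcases hcase x with g | g | g | g | g | g | g
    · rw [g.2] at hx; cases hx
    · rw [g.2] at hx; cases hx
    · rw [g.2] at hx; cases hx
    · rw [g.2.1] at hx; rw [hx] at g
      rcases mem_codesU.mp g.2.2 with ⟨i', l, h1, h2, h'⟩ | ⟨i', l, _, _, h'⟩ | ⟨i', l, h1, h2, h'⟩ <;>
        cases h'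
    · rw [g.2.1] at hx; rw [hx] at g
      rcases mem_codesW.mp g.2.2 with ⟨i, l, _, _, h'⟩; cases h'
    · obtain ⟨g0, j', hj, g1, g2, g3⟩ := g; rw [hj] at hx; cases hx; exact ⟨g0, g1, g2, g3⟩
    · obtain ⟨_, j, hj, _⟩ := g; rw [hj] at hx; cases hx
  have decR2 : ∀ x j, ρ x = .r2 j → x ∉ A ∪ B ∪ X ∪ U ∪ W ∧ j < m2 ∧
      (∀ u ∈ W, ∀ i, rW u = .h2 j i → G.Adj x u) ∧ (((cn G {x} A).card : ℝ) < τ ∨
        ∀ j, j < m1 → ∃ u ∈ U, ∃ i, rU u = .h1 j i ∧ ¬ G.Adj x u) := by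
    intro x j hx
    rcases hcase x with g | g | g | g | g | g | g
    · rw [g.2] at hx; cases hx
    · rw [g.2] at hx; cases hx
    · rw [g.2] at hx; cases hx
    · rw [g.2.1] at hx; rw [hx] at g
      rcases mem_codesU.mp g.2.2 with ⟨i', l, h1, h2, h'⟩ | ⟨i', l, _, _, h'⟩ | ⟨i', l, h1, h2, h'⟩ <;>
        cases h'
    · rw [g.2.1] at hx; rw [hx] at g
      rcases mem_codesW.mp g.2.2 with ⟨i, l, _, _, h'⟩; cases h'
    · obtain ⟨_, j, hj, _⟩ := g; rw [hj] at hx; cases hx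
    · obtain ⟨g0, j', hj, g1, g2, g3⟩ := g; rw [hj] at hx; cases hx; exact ⟨g0, g1, g2, g3⟩
  refine ⟨{
    role := ρ
    J := J
    m1 := m1
    m2 := m2
    J_le := hJG
    J_role := ?_
    J_col := hJc
    gh_lt := ?_
    gh_inj := ?_
    gh_ex := ?_
    gl_ex := ?_
    h1_lt := ?_
    h1_inj := ?_
    h1_ex := ?_
    h2_lt := ?_
    h2_inj := ?_
    h2_ex := ?_
    r1_lt := ?_
    r2_lt := ?_
    adj_A_gh := ?_
    adj_A_gl := ?_
    adj_A_h1 := ?_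
    adj_B_gh := ?_
    adj_B_gl := ?_
    adj_gh_gl := ?_
    adj_h1_r1 := ?_
    adj_h2_r2 := ?_ }, rfl, rfl, rfl, ?_, ?_, ?_, ?_, ?_, ?_, ?_, ?_⟩
  · intro u v huv
    rcases hJs u v huv with h | h
    · exact Or.inl ⟨hdA u h.1, hdA v h.2⟩
    · exact Or.inr ⟨hdB u h.1, hdB v h.2⟩
  · intro u i h hu; exact (decGH u i h hu).2.2
  · intro u v i h hu hv
    obtain ⟨a1, a2, _⟩ := decGH u i h hu
    obtain ⟨b1, b2, _⟩ := decGH v i h hv
    exact hUi u a1 v b1 (a2.trans b2.symm)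
  · intro i h hi hh
    obtain ⟨x, hx, hr⟩ := hUs (.gh i h) (mem_codesU.mpr (Or.inl ⟨i, h, hi, hh, rfl⟩))
    exact ⟨x, (hdU x hx).trans hr⟩
  · intro i l hi hl
    obtain ⟨x, hx, hr⟩ := hUs (.gl i l) (mem_codesU.mpr (Or.inr (Or.inl ⟨i, l, hi, hl, rfl⟩)))
    exact ⟨x, (hdU x hx).trans hr⟩
  · intro u j h hu; exact (decH1 u j h hu).2.2
  · intro u v i h hu hv
    obtain ⟨a1, a2, _⟩ := decH1 u i h hu
    obtain ⟨b1, b2, _⟩ := decH1 v i h hv
    exact hUi u a1 v b1 (a2.trans b2.symm)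
  · intro j h hj hh
    obtain ⟨x, hx, hr⟩ := hUs (.h1 j h) (mem_codesU.mpr (Or.inr (Or.inr ⟨j, h, hj, hh, rfl⟩)))
    exact ⟨x, (hdU x hx).trans hr⟩
  · intro u j h hu; exact (decH2 u j h hu).2.2
  · intro u v i h hu hv
    obtain ⟨a1, a2, _⟩ := decH2 u i h hu
    obtain ⟨b1, b2, _⟩ := decH2 v i h hv
    exact hWi u a1 v b1 (a2.trans b2.symm)
  · intro j h hj hh
    obtain ⟨x, hx, hr⟩ := hWs (.h2 j h) (mem_codesW.mpr ⟨j, h, hj, hh, rfl⟩)
    exact ⟨x, (hdW x hx).trans hr⟩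
  · intro u j hu; exact (decR1 u j hu).2.1
  · intro u j hu; exact (decR2 u j hu).2.1
  · intro a v i h ha hv; exact hUA a (decA a ha) v (decGH v i h hv).1
  · intro a v i h ha hv; exact hUA a (decA a ha) v (decGL v i h hv).1
  · intro a v i h ha hv; exact hUA a (decA a ha) v (decH1 v i h hv).1
  · intro b v i h hb hv
    obtain ⟨a1, a2, _⟩ := decGH v i h hv
    exact hUB b (decB b hb) v a1 (by rw [a2]; trivial)
  · intro b v i h hb hv
    obtain ⟨a1, a2, _⟩ := decGL v i h hv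
    exact hUB b (decB b hb) v a1 (by rw [a2]; trivial)
  · intro u v i h l hu hv
    obtain ⟨a1, a2, _⟩ := decGH u i h hu
    obtain ⟨b1, b2, _⟩ := decGL v i l hv
    refine hUcl u a1 v b1 ?_
    rintro rfl
    rw [a2] at b2; cases b2
  · intro u v j h hu hv
    obtain ⟨a1, a2, _⟩ := decH1 u j h hu
    obtain ⟨b1, b2, b3, b4⟩ := decR1 v j hv
    exact (b4 u a1 h a2).symm
  · intro u v j h hu hv
    obtain ⟨a1, a2, _⟩ := decH2 u j h hu
    obtain ⟨b1, b2, b3, b4⟩ := decR2 v j hv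
    exact (b3 u a1 h a2).symm
  · ext x
    simp only [Cfg.verts, Finset.mem_filter, Finset.mem_univ, true_and]
    constructor
    · intro hx
      apply decA
      revert hx
      cases ρ x <;> simp [isA]
    · intro hx; rw [hdA x hx]; trivial
  · ext x
    simp only [Cfg.verts, Finset.mem_filter, Finset.mem_univ, true_and]
    constructor
    · intro hx
      apply decB
      revert hx
      cases ρ x <;> simp [isB]
    · intro hx; rw [hdB x hx]; trivial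
  · ext x
    simp only [Cfg.verts, Finset.mem_filter, Finset.mem_univ, true_and]
    constructor
    · intro hx
      apply decX
      revert hx
      cases ρ x <;> simp [isX]
    · intro hx; rw [hdX x hx]; trivial
  · ext x
    simp only [Cfg.verts, Finset.mem_filter, Finset.mem_univ, true_and]
    constructor
    · intro hx
      have : ∃ j h, ρ x = .h2 j h := by
        revert hx
        cases ρ x <;> simp [isH2]
      obtain ⟨j, h, hjh⟩ := this
      exact (decH2 x j h hjh).1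
    · intro hx
      rw [hdW x hx]
      obtain ⟨j, h, _, _, hr⟩ := mem_codesW.mp (hWm x hx)
      rw [hr]; trivial
  · ext x
    simp only [Cfg.verts, Finset.mem_filter, Finset.mem_univ, true_and, Finset.mem_union]
    constructor
    · intro hx
      have : ρ x = .X ∨ (∃ j h, ρ x = .gh j h) ∨ (∃ j h, ρ x = .gl j h) ∨ (∃ j h, ρ x = .h1 j h) := by
        revert hx
        cases ρ x <;> simp [isX, isG, isH1]
      rcases this with h | ⟨j, h, hjh⟩ | ⟨j, h, hjh⟩ | ⟨j, h, hjh⟩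
      · exact Or.inl (decX x h)
      · exact Or.inr (decGH x j h hjh).1
      · exact Or.inr (decGL x j h hjh).1
      · exact Or.inr (decH1 x j h hjh).1
    · rintro (hx | hx)
      · rw [hdX x hx]; exact Or.inl trivial
      · rw [hdU x hx]
        rcases mem_codesU.mp (hUm x hx) with ⟨i, l, _, _, h'⟩ | ⟨i, l, _, _, h'⟩ | ⟨i, l, _, _, h'⟩
        · rw [h']; exact Or.inr (Or.inl trivial)
        · rw [h']; exact Or.inr (Or.inl trivial)
        · rw [h']; exact Or.inr (Or.inr trivial)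
  · ext x
    simp only [Cfg.verts, Finset.mem_filter, Finset.mem_univ, true_and]
    constructor
    · intro hx
      rcases hcase x with g | g | g | g | g | g | g
      · simp [g.1]
      · simp [g.1]
      · simp [g.1]
      · simp [g.1]
      · simp [g.1]
      · obtain ⟨_, j, hj, _⟩ := g
        rw [hj] at hx; exact absurd trivial hx.1
      · obtain ⟨_, j, hj, _⟩ := g
        rw [hj] at hx; exact absurd trivial hx.2
    · intro hx
      constructor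
      · intro h
        have : ∃ j, ρ x = .r1 j := by
          revert h
          cases ρ x <;> simp [isR1]
        obtain ⟨j, hj⟩ := this
        exact (decR1 x j hj).1 hx
      · intro h
        have : ∃ j, ρ x = .r2 j := by
          revert h
          cases ρ x <;> simp [isR2]
        obtain ⟨j, hj⟩ := this
        exact (decR2 x j hj).1 hx
  · intro y hy
    have : ∃ j, ρ y = .r1 j := by
      revert hy
      change isR1 (ρ y) → _
      cases ρ y <;> simp [isR1]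
    obtain ⟨j, hj⟩ := this
    exact ⟨(decR1 y j hj).1, (decR1 y j hj).2.2.1⟩
  · intro y hy
    have : ∃ j, ρ y = .r2 j := by
      revert hy
      change isR2 (ρ y) → _
      cases ρ y <;> simp [isR2]
    obtain ⟨j, hj⟩ := this
    exact ⟨(decR2 y j hj).1, (decR2 y j hj).2.2.2⟩

end Pool.Bbc38
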