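import Pool.Agent.Lib.MP_bbc38a_co.Defs


set_option autoImplicit false
open Classical

namespace Pool.Bbc38

theorem greedy_cliques {n : ℕ} (G : SimpleGraph (Fin n)) (S0 : Finset (Fin n)) (N0 : ℕ) (c0 : ℝ)
    (h : ∀ S ⊆ S0, c0 ≤ (S.card : ℝ) → ∃ T ⊆ S, T.card = N0 ∧ G.IsClique (T : Set (Fin n)))
    (M : ℕ) (hM : (M : ℝ) * N0 + c0 ≤ (S0.card : ℝ)) :
    ∃ T : Fin M → Finset (Fin n), (∀ i, T i ⊆ S0) ∧ (∀ i, (T i).card = N0) ∧
      (∀ i, G.IsClique (T i : Set (Fin n))) ∧ (∀ i j, i ≠ j → Disjoint (T i) (T j)) := by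
  induction M with
  | zero => exact ⟨fun i => i.elim0, fun i => i.elim0, fun i => i.elim0, fun i => i.elim0,
      fun i => i.elim0⟩
  | succ M ih =>
    have hN : (0 : ℝ) ≤ N0 := Nat.cast_nonneg _
    obtain ⟨T, h1, h2, h3, h4⟩ := ih (by push_cast at hM; linarith)
    set U : Finset (Fin n) := Finset.univ.biUnion T with hU
    have hUc : U.card ≤ M * N0 := by
      refine Finset.card_biUnion_le.trans ?_
      simp [h2]
    have hSc : c0 ≤ ((S0 \ U).card : ℝ) := by
      have h5 : S0.card ≤ (S0 \ U).card + U.card := by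
        have := Finset.le_card_sdiff U S0
        omega
      have h6 : (S0.card : ℝ) ≤ ((S0 \ U).card : ℝ) + (U.card : ℝ) := by exact_mod_cast h5
      have h7 : (U.card : ℝ) ≤ M * N0 := by exact_mod_cast hUc
      push_cast at hM
      linarith
    obtain ⟨T', ht1, ht2, ht3⟩ := h (S0 \ U) Finset.sdiff_subset hSc
    have hdis : ∀ i, Disjoint (T i) T' := by
      intro i
      rw [Finset.disjoint_left]
      intro a ha ha'
      have := ht1 ha'
      rw [Finset.mem_sdiff] at this
      exact this.2 (Finset.mem_biUnion.2 ⟨i, Finset.mem_univ _, ha⟩)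
    refine ⟨Fin.snoc T T', ?_, ?_, ?_, ?_⟩
    · intro i
      refine Fin.lastCases ?_ (fun i => ?_) i
      · simpa using ht1.trans Finset.sdiff_subset
      · simpa using h1 i
    · intro i
      refine Fin.lastCases ?_ (fun i => ?_) i
      · simpa using ht2
      · simpa using h2 i
    · intro i
      refine Fin.lastCases ?_ (fun i => ?_) i
      · simpa using ht3
      · simpa using h3 i
    · intro i j
      refine Fin.lastCases ?_ (fun i => ?_) i
      · refine Fin.lastCases ?_ (fun j => ?_) j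
        · intro hne; exact absurd rfl hne
        · intro _; simpa using (hdis j).symm
      · refine Fin.lastCases ?_ (fun j => ?_) j
        · intro _; simpa using hdis i
        · intro hne
          simpa using h4 i j (fun hij => hne (by rw [hij]))

theorem J_of_cliques {n : ℕ} (G : SimpleGraph (Fin n)) (s k N0 : ℕ) (hN0 : 0 < N0)
    (J0 : SimpleGraph (Fin N0)) (δ : ℝ) (hδ : 0 < δ) (hloc : LocCol J0 s k)
    (hks : ∀ D : Finset (Fin N0), δ * N0 ≤ (D.card : ℝ) → HasKs J0 s k (D : Set (Fin N0)))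
    (M : ℕ) (hM : 0 < M) (T : Fin M → Finset (Fin n)) (hc : ∀ i, (T i).card = N0)
    (hcl : ∀ i, G.IsClique (T i : Set (Fin n))) (hdis : ∀ i j, i ≠ j → Disjoint (T i) (T j)) :
    ∃ J : SimpleGraph (Fin n), J ≤ G ∧
      (∀ u v, J.Adj u v → (∃ i, u ∈ T i) ∧ (∃ i, v ∈ T i)) ∧ LocCol J s k ∧
      ∀ D : Finset (Fin n), (∀ v ∈ D, ∃ i, v ∈ T i) → δ * (M * N0 : ℕ) ≤ (D.card : ℝ) →
        HasKs J s k (D : Set (Fin n)) := by
  have e : ∀ i, (Fin N0 ≃ T i) := fun i => ((T i).equivFinOfCardEq (hc i)).symm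
  have hmem : ∀ i a, ((e i a : T i) : Fin n) ∈ T i := fun i a => (e i a).2
  have hinj : ∀ i a b, ((e i a : T i) : Fin n) = ((e i b : T i) : Fin n) → a = b := by
    intro i a b h
    exact (e i).injective (Subtype.ext h)
  have huniq : ∀ i j v, v ∈ T i → v ∈ T j → i = j := by
    intro i j v hi hj
    by_contra hne
    exact (Finset.disjoint_left.1 (hdis i j hne)) hi hj
  let J : SimpleGraph (Fin n) :=
    { Adj := fun u v => ∃ i a b, J0.Adj a b ∧ ((e i a : T i) : Fin n) = u ∧
        ((e i b : T i) : Fin n) = v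
      symm := ⟨fun u v ⟨i, a, b, h, h1, h2⟩ => ⟨i, b, a, h.symm, h2, h1⟩⟩
      loopless := ⟨fun u ⟨i, a, b, h, h1, h2⟩ => by
        have : a = b := hinj i a b (h1.trans h2.symm)
        subst this
        exact J0.loopless.irrefl a h⟩ }
  have hJ : ∀ u v, J.Adj u v ↔ ∃ i a b, J0.Adj a b ∧ ((e i a : T i) : Fin n) = u ∧
        ((e i b : T i) : Fin n) = v := fun _ _ => Iff.rfl
  refine ⟨J, ?_, ?_, ?_, ?_⟩
  · intro u v huv
    rw [hJ] at huv
    obtain ⟨i, a, b, h, rfl, rfl⟩ := huv
    refine hcl i (hmem i a) (hmem i b) ?_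
    intro hab
    have := hinj i a b hab
    exact h.ne this
  · intro u v huv
    rw [hJ] at huv
    obtain ⟨i, a, b, h, rfl, rfl⟩ := huv
    exact ⟨⟨i, hmem i a⟩, ⟨i, hmem i b⟩⟩
  · intro Y hY
    have hcol : ∀ i : Fin M, ∃ c : Fin N0 → Fin s,
        ∀ u ∈ (Finset.univ.filter (fun a : Fin N0 => ((e i a : T i) : Fin n) ∈ Y)),
        ∀ v ∈ (Finset.univ.filter (fun a : Fin N0 => ((e i a : T i) : Fin n) ∈ Y)),
          J0.Adj u v → c u ≠ c v := by
      intro i
      refine hloc _ (le_trans ?_ hY)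
      refine Finset.card_le_card_of_injOn (fun a => ((e i a : T i) : Fin n)) ?_ ?_
      · intro a ha
        simpa using ha
      · intro a _ b _ hab
        exact hinj i a b hab
    choose c hcc using hcol
    let c0 : Fin s := c ⟨0, hM⟩ ⟨0, hN0⟩
    refine ⟨fun v => if h : ∃ q : Fin M × Fin N0, ((e q.1 q.2 : T q.1) : Fin n) = v then
      c (Classical.choose h).1 (Classical.choose h).2 else c0, ?_⟩
    have hval : ∀ i a, (if h : ∃ q : Fin M × Fin N0,
        ((e q.1 q.2 : T q.1) : Fin n) = ((e i a : T i) : Fin n) then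
      c (Classical.choose h).1 (Classical.choose h).2 else c0) = c i a := by
      intro i a
      have h : ∃ q : Fin M × Fin N0, ((e q.1 q.2 : T q.1) : Fin n) = ((e i a : T i) : Fin n) :=
        ⟨(i, a), rfl⟩
      rw [dif_pos h]
      have hsp := Classical.choose_spec h
      generalize Classical.choose h = q at hsp
      obtain ⟨j, b⟩ := q
      have hij : j = i := huniq j i _ (hmem j b) (by
        have := hmem i a
        rw [← hsp] at this
        exact this)
      subst hij
      have := hinj j b a hsp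
      subst this
      rfl
    intro u hu v hv huv
    rw [hJ] at huv
    obtain ⟨i, a, b, h, rfl, rfl⟩ := huv
    simp only [hval]
    exact hcc i a (by simpa using hu) b (by simpa using hv) h
  · intro D hD hcard
    have hsum : (D.card : ℝ) ≤ ∑ i : Fin M, ((D ∩ T i).card : ℝ) := by
      have h1 : D ⊆ Finset.univ.biUnion (fun i => D ∩ T i) := by
        intro v hv
        obtain ⟨i, hi⟩ := hD v hv
        exact Finset.mem_biUnion.2 ⟨i, Finset.mem_univ _, Finset.mem_inter.2 ⟨hv, hi⟩⟩
      have h2 := (Finset.card_le_card h1).trans Finset.card_biUnion_le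
      exact_mod_cast h2
    have hex : ∃ i : Fin M, δ * N0 ≤ ((D ∩ T i).card : ℝ) := by
      by_contra hcon
      push Not at hcon
      have hne : (Finset.univ : Finset (Fin M)).Nonempty := ⟨⟨0, hM⟩, Finset.mem_univ _⟩
      have h3 : ∑ i : Fin M, ((D ∩ T i).card : ℝ) < ∑ _i : Fin M, δ * N0 :=
        Finset.sum_lt_sum_of_nonempty hne (fun i _ => hcon i)
      rw [Finset.sum_const, Finset.card_univ, Fintype.card_fin, nsmul_eq_mul] at h3
      push_cast at hcard
      have h4 : δ * ((M : ℝ) * N0) = M * (δ * N0) := by ring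
      rw [h4] at hcard
      linarith
    obtain ⟨i, hi⟩ := hex
    have hcardeq : (Finset.univ.filter (fun a : Fin N0 => ((e i a : T i) : Fin n) ∈ D)).card =
        (D ∩ T i).card := by
      refine Finset.card_bij (fun a _ => ((e i a : T i) : Fin n)) ?_ ?_ ?_
      · intro a ha
        rw [Finset.mem_inter]
        exact ⟨by simpa using ha, hmem i a⟩
      · intro a _ b _ hab
        exact hinj i a b hab
      · intro v hv
        rw [Finset.mem_inter] at hv
        refine ⟨(e i).symm ⟨v, hv.2⟩, ?_, ?_⟩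
        · simp [hv.1]
        · simp
    obtain ⟨φ, h1, h2, h3⟩ := hks (Finset.univ.filter
      (fun a : Fin N0 => ((e i a : T i) : Fin n) ∈ D)) (by rw [hcardeq]; exact hi)
    refine ⟨fun c a => ((e i (φ c a) : T i) : Fin n), ?_, ?_, ?_⟩
    · intro c a
      have := h1 c a
      simpa using this
    · intro c a c' a' h
      exact h2 c a c' a' (hinj i _ _ h)
    · intro c a c' a' hne
      exact (hJ _ _).2 ⟨i, _, _, h3 c a c' a' hne, rfl, rfl⟩

/-- union of two locally colourable graphs with disjoint supports -/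
theorem LocCol.sup {V : Type} {J J' : SimpleGraph V} {s k : ℕ} (hJ : LocCol J s k)
    (hJ' : LocCol J' s k) (A B : Set V) (hA : ∀ u v, J.Adj u v → u ∈ A ∧ v ∈ A)
    (hB : ∀ u v, J'.Adj u v → u ∈ B ∧ v ∈ B) (hAB : Disjoint A B) :
    LocCol (J ⊔ J') s k := by
  intro Y hY
  obtain ⟨c, hc⟩ := hJ Y hY
  obtain ⟨c', hc'⟩ := hJ' Y hY
  refine ⟨fun v => if v ∈ A then c v else c' v, ?_⟩
  intro u hu v hv huv
  rw [SimpleGraph.sup_adj] at huv
  rcases huv with h | h
  · obtain ⟨h1, h2⟩ := hA u v h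
    simp only [h1, h2, if_true]
    exact hc u hu v hv h
  · obtain ⟨h1, h2⟩ := hB u v h
    have h1' : u ∉ A := fun h' => Set.disjoint_left.1 hAB h' h1
    have h2' : v ∉ A := fun h' => Set.disjoint_left.1 hAB h' h2
    simp only [h1', h2', if_false]
    exact hc' u hu v hv h

end Pool.Bbc38
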