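import Pool.Agent.Lib.MP_bbc38a_co.UpDet
import Pool.Agent.Lib.MP_bbc38a_co.BuildCfg
import Pool.Agent.Lib.MP_bbc38a_co.JClq

set_option autoImplicit false
open Classical

namespace Pool.Bbc38

theorem HasKs.mono {V : Type} {J J' : SimpleGraph V} {s k : ℕ} {D D' : Set V}
    (h : HasKs J s k D) (hJ : J ≤ J') (hD : D ⊆ D') : HasKs J' s k D' := by
  obtain ⟨φ, h1, h2, h3⟩ := h
  exact ⟨φ, fun c i => hD (h1 c i), h2, fun c i c' i' hc => hJ (h3 c i c' i' hc)⟩

theorem cn_subset {n : ℕ} (G : SimpleGraph (Fin n)) (X S : Finset (Fin n)) : cn G X S ⊆ S :=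
  Finset.filter_subset _ _

theorem mem_cn {n : ℕ} {G : SimpleGraph (Fin n)} {X S : Finset (Fin n)} {z : Fin n} :
    z ∈ cn G X S ↔ z ∈ S ∧ ∀ x ∈ X, G.Adj x z := by
  simp [cn]

theorem cn_pair {n : ℕ} (G : SimpleGraph (Fin n)) (x y : Fin n) (S : Finset (Fin n)) :
    cn G {x, y} S = cn G {x} (cn G {y} S) := by
  ext z
  simp only [mem_cn, Finset.mem_insert, Finset.mem_singleton, forall_eq_or_imp, forall_eq]
  tauto

theorem cn_union {n : ℕ} (G : SimpleGraph (Fin n)) (X Y S : Finset (Fin n)) :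
    cn G (X ∪ Y) S = cn G X (cn G Y S) := by
  ext z
  simp only [mem_cn, Finset.mem_union]
  constructor
  · rintro ⟨h1, h2⟩
    exact ⟨⟨h1, fun x hx => h2 x (Or.inr hx)⟩, fun x hx => h2 x (Or.inl hx)⟩
  · rintro ⟨⟨h1, h2⟩, h3⟩
    exact ⟨h1, fun x hx => hx.elim (h3 x) (h2 x)⟩

theorem card_biUnion_fin {n N0 : ℕ} (M : ℕ) (T : Fin M → Finset (Fin n))
    (hc : ∀ i, (T i).card = N0) (hd : ∀ i j, i ≠ j → Disjoint (T i) (T j)) :
    ((Finset.univ : Finset (Fin M)).biUnion T).card = M * N0 := by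
  rw [Finset.card_biUnion (fun i _ j _ hij => hd i j hij)]
  simp [hc]

theorem asm_det {n s k t m : ℕ} (G : SimpleGraph (Fin n)) (F : SimpleGraph (Fin k))
    (hcol : F.Colorable (s + 2)) (hnot : ¬ InS F s t m) (hin : InS F s t (m + 1))
    (htri : ∀ u v : Fin k, F.Adj u v → ∃ w : Fin k, F.Adj u w ∧ F.Adj v w)
    (m1 m2 N0 : ℕ) (hN0 : 0 < N0)
    (V1 V2 V3 W X : Finset (Fin n))
    (h12 : Disjoint V1 V2) (h13 : Disjoint V1 V3) (h1W : Disjoint V1 W) (h1X : Disjoint V1 X)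
    (h23 : Disjoint V2 V3) (h2W : Disjoint V2 W) (h2X : Disjoint V2 X)
    (h3W : Disjoint V3 W) (h3X : Disjoint V3 X) (hXW : Disjoint X W)
    (rW : Fin n → Role)
    (hWm : ∀ x ∈ W, rW x ∈ codesW t m2)
    (hWi : ∀ x ∈ W, ∀ y ∈ W, rW x = rW y → x = y)
    (hWs : ∀ r ∈ codesW t m2, ∃ x ∈ W, rW x = r)
    (J0 : SimpleGraph (Fin N0)) (δJ : ℝ) (hδJ : 0 < δJ) (hloc : LocCol J0 s k)
    (hks : ∀ D : Finset (Fin N0), δJ * N0 ≤ (D.card : ℝ) → HasKs J0 s k (D : Set (Fin N0)))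
    (κ1 κ3 ca cb d0 τ a0 η ε b0 Δ c1 : ℝ) (K0 K1 C C2 M : ℕ)
    -- random graph properties
    (hclq2 : ∃ U ⊆ V2, U.card = (codesU k t m m1).card ∧ G.IsClique (U : Set (Fin n)))
    (hcom1 : ∀ Y : Finset (Fin n), Y.card ≤ (codesU k t m m1).card →
      κ1 * (V1.card : ℝ) ≤ ((cn G Y V1).card : ℝ))
    (hcom3 : ∀ Y : Finset (Fin n), Y.card ≤ k + 1 + t + (codesU k t m 0).card →
      κ3 * (V3.card : ℝ) ≤ ((cn G Y V3).card : ℝ))
    (hclq1 : ∀ S ⊆ V1, ca ≤ (S.card : ℝ) → ∃ T ⊆ S, T.card = N0 ∧ G.IsClique (T : Set (Fin n)))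
    (hclq3 : ∀ S ⊆ V3, cb ≤ (S.card : ℝ) → ∃ T ⊆ S, T.card = N0 ∧ G.IsClique (T : Set (Fin n)))
    (hcov2 : ∀ x, x ∉ W → ∃ j, j < m2 ∧ ∀ u ∈ W, ∀ i, rW u = .h2 j i → G.Adj x u)
    (hcov1 : ∀ Q : Fin m1 → Finset (Fin n), (∀ j, Q j ⊆ V2) → (∀ j, (Q j).card ≤ t) →
      (∀ i j, i ≠ j → Disjoint (Q i) (Q j)) →
      ((Finset.univ.filter (fun x => (∀ j, x ∉ Q j) ∧
          ∀ j, ∃ u ∈ Q j, ¬ G.Adj x u)).card : ℝ) ≤ η * n)
    (hbad : ∀ S ⊆ V1, τ ≤ (S.card : ℝ) → (Finset.univ.filter (fun x => x ∉ S ∧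
          ((cn G {x} S).card : ℝ) < d0)).card ≤ K1)
    (hlight : ∀ A ⊆ V1, a0 ≤ (A.card : ℝ) → ((Finset.univ.filter (fun x => x ∉ A ∧
        ((cn G {x} A).card : ℝ) < τ)).card : ℝ) ≤ η * n)
    (hpairs : (((V3 ×ˢ (Finset.univ : Finset (Fin n))).filter
        (fun q => q.2 ∉ X ∧ (cn G {q.1, q.2} X).card < k)).card : ℝ) ≤ ε * b0 * n)
    (hdeg : ∀ v, ((cn G {v} Finset.univ).card : ℝ) ≤ Δ)
    -- numerical conditions
    (hb0 : b0 = V3.card) (hb0p : 0 < b0) (hX : X.card ≤ K0) (hd0 : 0 < d0) (hC0 : 0 < C)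
    (hC : 2 * k * ((M * N0 : ℕ) : ℝ) ≤ C * d0) (hM0 : 0 < M)
    (hM : (M : ℝ) * N0 + ca ≤ κ1 * V1.card) (ha0 : a0 ≤ (M : ℝ) * N0)
    (hJ1 : δJ * ((M * N0 : ℕ) : ℝ) ≤ d0 / 2 / 2 ^ C)
    (hJ2 : δJ * b0 ≤ κ3 * b0 - cb - N0) (hB3 : cb + N0 ≤ κ3 * b0)
    (hJ3 : δJ ≤ c1 / 4 / 2 ^ C2) (hε : 0 < ε) (hc1 : c1 = ε / 2 ^ K0)
    (hC2 : 4 * k ≤ C2 * c1) (hC20 : 0 < C2) (hn : (C2 : ℝ) ≤ c1 / 2 * n) (hΔ0 : 0 ≤ Δ)
    (hη : 0 ≤ η) :
    ∃ H : SimpleGraph (Fin n), (H ≤ G ∧ ¬ F.IsContained H ∧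
      ∀ u v : Fin n, G.Adj u v → ¬ H.Adj u v →
        F.IsContained (H ⊔ SimpleGraph.fromEdgeSet {s(u, v)})) ∧
      (H.edgeSet.ncard : ℝ) ≤
      ((V1.card : ℝ) + V3.card + K0 + (codesU k t m m1).card + W.card) ^ 2
      + ((M * N0 : ℕ) : ℝ) * Δ
      + b0 * (2 * η * n)
      + 2 * ε * b0 * n
      + ((K0 : ℝ) + (codesU k t m m1).card) * n
      + (W.card : ℝ) * (2 * η * n)
      + (n : ℝ) * m1 * C + (K1 : ℝ) * n
      + (2 * η * n) * m2 * k := by
  obtain ⟨U, hUV, hUcard, hUclq⟩ := hclq2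
  obtain ⟨rU, hUm, hUi, hUs⟩ := exists_enum U _ hUcard
  -- level one core
  set S1 := cn G U V1 with hS1
  have hS1V : S1 ⊆ V1 := cn_subset _ _ _
  obtain ⟨T, hTS, hTc, hTq, hTd⟩ := greedy_cliques G S1 N0 ca
    (fun S hS hca => hclq1 S (hS.trans hS1V) hca) M
    (le_trans hM (hcom1 U hUcard.le))
  set A := (Finset.univ : Finset (Fin M)).biUnion T with hA
  have hAcard : A.card = M * N0 := card_biUnion_fin M T hTc hTd
  have hAS : A ⊆ S1 := by
    intro x hx
    rw [hA, Finset.mem_biUnion] at hx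
    obtain ⟨i, _, hi⟩ := hx
    exact hTS i hi
  -- level two core
  set U0 := U.filter (fun u => isG (rU u)) with hU0
  have hU0card : U0.card ≤ (codesU k t m 0).card := by
    apply Finset.card_le_card_of_injOn rU
    · intro u hu
      have hu' : u ∈ U0 := hu
      rw [hU0, Finset.mem_filter] at hu'
      rcases mem_codesU.mp (hUm u hu'.1) with ⟨i, h, hi, hh, hr⟩ | ⟨i, l, hi, hl, hr⟩ | ⟨j, h, hj, hh, hr⟩
      · rw [hr]; exact mem_codesU.mpr (Or.inl ⟨i, h, hi, hh, rfl⟩)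
      · rw [hr]; exact mem_codesU.mpr (Or.inr (Or.inl ⟨i, l, hi, hl, rfl⟩))
      · have := hu'.2
        rw [hr] at this
        exact absurd this (by simp [isG])
    · intro u hu v hv huv
      have hu' : u ∈ U0 := hu
      have hv' : v ∈ U0 := hv
      rw [hU0, Finset.mem_filter] at hu' hv'
      exact hUi u hu'.1 v hv'.1 huv
  set S3 := cn G U0 V3 with hS3
  have hS3V : S3 ⊆ V3 := cn_subset _ _ _
  have hS3card : κ3 * b0 ≤ (S3.card : ℝ) := by
    rw [hb0]
    exact hcom3 U0 (by omega)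
  have hN0r : (0 : ℝ) < N0 := by exact_mod_cast hN0
  set M3 := ⌊((S3.card : ℝ) - cb) / N0⌋₊ with hM3
  have hM3a : (M3 : ℝ) * N0 + cb ≤ S3.card := by
    have h1 : (M3 : ℝ) ≤ ((S3.card : ℝ) - cb) / N0 :=
      Nat.floor_le (div_nonneg (by linarith) hN0r.le)
    have := mul_le_mul_of_nonneg_right h1 hN0r.le
    rw [div_mul_cancel₀ _ hN0r.ne'] at this
    linarith
  have hM3b : (S3.card : ℝ) - cb - N0 < (M3 : ℝ) * N0 := by
    have h1 : ((S3.card : ℝ) - cb) / N0 < (M3 : ℝ) + 1 := Nat.lt_floor_add_one _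
    have := mul_lt_mul_of_pos_right h1 hN0r
    rw [div_mul_cancel₀ _ hN0r.ne'] at this
    linarith
  obtain ⟨T3, hT3S, hT3c, hT3q, hT3d⟩ := greedy_cliques G S3 N0 cb
    (fun S hS hca => hclq3 S (hS.trans hS3V) hca) M3 hM3a
  have hM30 : 0 < M3 := by
    have : (0 : ℝ) < (M3 : ℝ) * N0 := by linarith
    have h2 : (0 : ℝ) < M3 := by
      by_contra hcon
      push Not at hcon
      have : (M3 : ℝ) * N0 ≤ 0 := mul_nonpos_of_nonpos_of_nonneg hcon hN0r.le
      linarith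
    exact_mod_cast h2
  set B := (Finset.univ : Finset (Fin M3)).biUnion T3 with hB
  have hBcard : B.card = M3 * N0 := card_biUnion_fin M3 T3 hT3c hT3d
  have hBS : B ⊆ S3 := by
    intro x hx
    rw [hB, Finset.mem_biUnion] at hx
    obtain ⟨i, _, hi⟩ := hx
    exact hT3S i hi
  have hAV : A ⊆ V1 := hAS.trans hS1V
  have hBV : B ⊆ V3 := hBS.trans hS3V
  have hBle : (B.card : ℝ) ≤ b0 := by
    rw [hb0]; exact_mod_cast Finset.card_le_card hBV
  -- the graph J
  obtain ⟨JA, hJA1, hJA2, hJA3, hJA4⟩ := J_of_cliques G s k N0 hN0 J0 δJ hδJ hloc hks M hM0 T hTc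
    hTq hTd
  obtain ⟨JB, hJB1, hJB2, hJB3, hJB4⟩ := J_of_cliques G s k N0 hN0 J0 δJ hδJ hloc hks M3 hM30 T3
    hT3c hT3q hT3d
  have hmA : ∀ x, x ∈ A ↔ ∃ i, x ∈ T i := by
    intro x; rw [hA]; simp
  have hmB : ∀ x, x ∈ B ↔ ∃ i, x ∈ T3 i := by
    intro x; rw [hB]; simp
  have hdAB : Disjoint A B := Finset.disjoint_of_subset_left hAV
    (Finset.disjoint_of_subset_right hBV h13)
  have hJc : LocCol (JA ⊔ JB) s k := by
    refine LocCol.sup hJA3 hJB3 (A : Set (Fin n)) (B : Set (Fin n)) ?_ ?_ ?_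
    · intro u v huv
      exact ⟨(hmA u).mpr (hJA2 u v huv).1, (hmA v).mpr (hJA2 u v huv).2⟩
    · intro u v huv
      exact ⟨(hmB u).mpr (hJB2 u v huv).1, (hmB v).mpr (hJB2 u v huv).2⟩
    · exact_mod_cast hdAB
  -- the configuration
  obtain ⟨c, hcm1, hcm2, hcJ, hcA, hcB, hcX, hcW, hcXU, hcSp, hcR1, hcR2⟩ :=
    build_cfg (s := s) (k := k) (t := t) (m := m) G m1 m2 A B X U W hdAB
    (Finset.disjoint_of_subset_left hAV h1X)
    (Finset.disjoint_of_subset_left hAV (Finset.disjoint_of_subset_right hUV h12))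
    (Finset.disjoint_of_subset_left hAV h1W)
    (Finset.disjoint_of_subset_left hBV h3X)
    (Finset.disjoint_of_subset_left hBV (Finset.disjoint_of_subset_right hUV h23.symm))
    (Finset.disjoint_of_subset_left hBV h3W)
    (Finset.disjoint_of_subset_right hUV h2X.symm)
    hXW
    (Finset.disjoint_of_subset_left hUV h2W)
    rU rW hUm hUi hUs hWm hWi hWs (JA ⊔ JB) (sup_le hJA1 hJB1)
    (by
      intro u v huv
      rcases huv with h | h
      · exact Or.inl ⟨(hmA u).mpr (hJA2 u v h).1, (hmA v).mpr (hJA2 u v h).2⟩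
      · exact Or.inr ⟨(hmB u).mpr (hJB2 u v h).1, (hmB v).mpr (hJB2 u v h).2⟩)
    hJc
    (fun u hu v hv huv => hUclq (Finset.mem_coe.mpr hu) (Finset.mem_coe.mpr hv) huv)
    (fun a ha u hu => ((mem_cn.mp (hAS ha)).2 u hu).symm)
    (fun b hb u hu hg => ((mem_cn.mp (hBS hb)).2 u (Finset.mem_filter.mpr ⟨hu, hg⟩)).symm)
    hcov2 τ
  -- bound on R2
  have hR2 : ((c.verts isR2).card : ℝ) ≤ 2 * η * n := by
    set Q : Fin m1 → Finset (Fin n) := fun j => U.filter (fun u => ∃ i, rU u = .h1 j i) with hQ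
    have hc1' := hcov1 Q (fun j => (Finset.filter_subset _ _).trans hUV) ?_ ?_
    · have hl := hlight A hAV (by rw [hAcard]; push_cast; exact ha0)
      have hsub : c.verts isR2 ⊆ (Finset.univ.filter (fun x => x ∉ A ∧
          ((cn G {x} A).card : ℝ) < τ)) ∪ (Finset.univ.filter (fun x => (∀ j, x ∉ Q j) ∧
          ∀ j, ∃ u ∈ Q j, ¬ G.Adj x u)) := by
        intro y hy
        rw [Cfg.verts, Finset.mem_filter] at hy
        obtain ⟨hy1, hy2⟩ := hcR2 y hy.2
        simp only [Finset.mem_union, not_or] at hy1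
        rw [Finset.mem_union, Finset.mem_filter, Finset.mem_filter]
        rcases hy2 with hy2 | hy2
        · exact Or.inl ⟨Finset.mem_univ _, hy1.1.1.1.1, hy2⟩
        · right
          refine ⟨Finset.mem_univ _, fun j hj => hy1.1.2 (Finset.mem_filter.mp hj).1, ?_⟩
          intro j
          obtain ⟨u, hu, i, hi, hadj⟩ := hy2 j j.2
          exact ⟨u, Finset.mem_filter.mpr ⟨hu, i, hi⟩, hadj⟩
      have h3 := Finset.card_le_card hsub
      have h4 := Finset.card_union_le (Finset.univ.filter (fun x => x ∉ A ∧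
          ((cn G {x} A).card : ℝ) < τ)) (Finset.univ.filter (fun x => (∀ j, x ∉ Q j) ∧
          ∀ j, ∃ u ∈ Q j, ¬ G.Adj x u))
      have h5 : ((c.verts isR2).card : ℝ) ≤ ((Finset.univ.filter (fun x => x ∉ A ∧
          ((cn G {x} A).card : ℝ) < τ)).card : ℝ) + ((Finset.univ.filter (fun x => (∀ j, x ∉ Q j) ∧
          ∀ j, ∃ u ∈ Q j, ¬ G.Adj x u)).card : ℝ) := by
        exact_mod_cast h3.trans h4
      linarith
    · intro j
      have : ((Finset.range t).image (fun i => Role.h1 j i)).card ≤ t :=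
        Finset.card_image_le.trans (by simp)
      refine le_trans (Finset.card_le_card_of_injOn rU ?_ ?_) this
      · intro u hu
        have hu' : u ∈ Q j := hu
        rw [hQ, Finset.mem_filter] at hu'
        obtain ⟨i, hi⟩ := hu'.2
        rcases mem_codesU.mp (hUm u hu'.1) with ⟨i', h, _, hh, hr⟩ | ⟨i', l, _, hl, hr⟩ | ⟨j', h, hj, hh, hr⟩
        · rw [hi] at hr; cases hr
        · rw [hi] at hr; cases hr
        · rw [hi] at hr
          have h1 : (j : ℕ) = j' ∧ i = h := by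
            constructor
            · injection hr
            · injection hr
          rw [Finset.mem_coe, Finset.mem_image]
          exact ⟨i, Finset.mem_range.mpr (by rw [h1.2]; exact hh), hi.symm⟩
      · intro u hu v hv huv
        have hu' : u ∈ Q j := hu
        have hv' : v ∈ Q j := hv
        rw [hQ, Finset.mem_filter] at hu' hv'
        exact hUi u hu'.1 v hv'.1 huv
    · intro i j hij
      rw [Finset.disjoint_left]
      intro u hu hv
      rw [hQ, Finset.mem_filter] at hu hv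
      obtain ⟨_, a, ha⟩ := hu
      obtain ⟨_, b, hb⟩ := hv
      rw [ha] at hb
      apply hij
      injection hb with hb1
      exact Fin.ext hb1
  -- apply the deterministic theorem
  have hup := upper_det c F hcol hnot hin htri d0 hd0 C hC0 (by rw [hcA, hAcard]; exact hC)
    (by
      intro D hD hDc
      rw [hcA] at hD
      rw [hcJ]
      refine (hJA4 D (fun v hv => (hmA v).mp (hD hv)) (hJ1.trans hDc)).mono le_sup_left
        (Set.Subset.refl _))
    (by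
      intro Y hY
      rw [hcB, hcJ]
      refine HasKs.mono (hJB4 (cn G Y B) (fun v hv => (hmB v).mp (cn_subset _ _ _ hv)) ?_)
        le_sup_right (Set.Subset.refl _)
      have h1 : κ3 * b0 ≤ ((cn G (Y ∪ U0) V3).card : ℝ) := by
        rw [hb0]
        apply hcom3
        refine (Finset.card_union_le _ _).trans ?_
        omega
      rw [cn_union] at h1
      have h2 : cn G Y (cn G U0 V3) ⊆ cn G Y B ∪ (S3 \ B) := by
        intro z hz
        rw [mem_cn] at hz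
        rw [Finset.mem_union, mem_cn, Finset.mem_sdiff]
        by_cases hzB : z ∈ B
        · exact Or.inl ⟨hzB, hz.2⟩
        · exact Or.inr ⟨hz.1, hzB⟩
      have h3 : ((cn G Y (cn G U0 V3)).card : ℝ) ≤ (cn G Y B).card + (S3 \ B).card := by
        exact_mod_cast (Finset.card_le_card h2).trans (Finset.card_union_le _ _)
      have h4 : ((S3 \ B).card : ℝ) = S3.card - B.card := by
        rw [Finset.card_sdiff_of_subset hBS, Nat.cast_sub (Finset.card_le_card hBS)]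
      have h5 : (B.card : ℝ) = (M3 : ℝ) * N0 := by rw [hBcard]; push_cast; rfl
      have h6 : δJ * ((M3 * N0 : ℕ) : ℝ) ≤ δJ * b0 := by
        apply mul_le_mul_of_nonneg_left _ hδJ.le
        rw [← hBcard]; exact hBle
      linarith)
    K0 (by rw [hcX]; exact hX) ε b0 hε hb0p (by rw [hcB]; exact hBle)
    (by
      rw [hcB, hcX]
      refine le_trans ?_ hpairs
      exact_mod_cast Finset.card_le_card (by
        intro q hq
        rw [Finset.mem_filter, Finset.mem_product] at hq ⊢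
        refine ⟨⟨hBV hq.1.1, Finset.mem_univ _⟩, ?_, hq.2⟩
        have := hq.1.2
        rw [Cfg.verts, Finset.mem_filter] at this
        have h2 := (hcR1 q.2 this.2).1
        simp only [Finset.mem_union, not_or] at h2
        exact h2.1.1.2))
    c1 hc1 C2 hC2 hC20 hn
    (by
      intro D hD hDc
      rw [hcB] at hD
      rw [hcJ]
      refine (hJB4 D (fun v hv => (hmB v).mp (hD hv)) (le_trans ?_ hDc)).mono le_sup_right
        (Set.Subset.refl _)
      have h6 : δJ * ((M3 * N0 : ℕ) : ℝ) ≤ δJ * b0 := by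
        apply mul_le_mul_of_nonneg_left _ hδJ.le
        rw [← hBcard]; exact hBle
      have h7 : δJ * b0 ≤ c1 / 4 / 2 ^ C2 * b0 := mul_le_mul_of_nonneg_right hJ3 hb0p.le
      calc δJ * ((M3 * N0 : ℕ) : ℝ) ≤ c1 / 4 / 2 ^ C2 * b0 := h6.trans h7
        _ = c1 / 4 * b0 / 2 ^ C2 := by ring)
    K1 Δ hdeg
    (by
      intro y hy
      obtain ⟨hy1, hy2⟩ := hcR1 y hy
      refine le_trans (Finset.card_le_card ?_) (hbad (cn G {y} A) ((cn_subset _ _ _).trans hAV) hy2)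
      intro x hx
      rw [Finset.mem_filter] at hx ⊢
      rw [hcA, cn_pair] at hx
      refine ⟨hx.1, ?_, hx.2.2⟩
      intro hxS
      have hxA : x ∈ c.verts isA := by rw [hcA]; exact cn_subset _ _ _ hxS
      rw [Cfg.verts, Finset.mem_filter] at hxA
      exact hx.2.1 hxA.2)
  obtain ⟨H, hH1, hH2⟩ := hup
  refine ⟨H, hH1, hH2.trans ?_⟩
  rw [hcSp, hcA, hcB, hcXU, hcW, hcm1, hcm2, hAcard]
  have hUc : (U.card : ℝ) = (codesU k t m m1).card := by rw [hUcard]
  have hsp : ((A ∪ B ∪ X ∪ U ∪ W).card : ℝ) ≤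
      (V1.card : ℝ) + V3.card + K0 + (codesU k t m m1).card + W.card := by
    have h1 : (A ∪ B ∪ X ∪ U ∪ W).card ≤ A.card + B.card + X.card + U.card + W.card := by
      refine (Finset.card_union_le _ _).trans (Nat.add_le_add_right ?_ _)
      refine (Finset.card_union_le _ _).trans (Nat.add_le_add_right ?_ _)
      refine (Finset.card_union_le _ _).trans (Nat.add_le_add_right ?_ _)
      exact Finset.card_union_le _ _
    have h2 : A.card ≤ V1.card := Finset.card_le_card hAV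
    have h3 : B.card ≤ V3.card := Finset.card_le_card hBV
    have h4 : (A ∪ B ∪ X ∪ U ∪ W).card ≤ V1.card + V3.card + K0 + (codesU k t m m1).card + W.card := by
      omega
    exact_mod_cast h4
  have hXU' : ((X ∪ U).card : ℝ) ≤ (K0 : ℝ) + (codesU k t m m1).card := by
    have h1 : (X ∪ U).card ≤ X.card + U.card := Finset.card_union_le _ _
    have h2 : (X ∪ U).card ≤ K0 + (codesU k t m m1).card := by omega
    exact_mod_cast h2
  have hn0 : (0 : ℝ) ≤ n := Nat.cast_nonneg _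
  have hsq : ((A ∪ B ∪ X ∪ U ∪ W).card : ℝ) ^ 2 ≤
      ((V1.card : ℝ) + V3.card + K0 + (codesU k t m m1).card + W.card) ^ 2 :=
    pow_le_pow_left₀ (Nat.cast_nonneg _) hsp 2
  have hBR : (B.card : ℝ) * (c.verts isR2).card ≤ b0 * (2 * η * n) :=
    mul_le_mul hBle hR2 (Nat.cast_nonneg _) hb0p.le
  have hWR : (W.card : ℝ) * (c.verts isR2).card ≤ (W.card : ℝ) * (2 * η * n) :=
    mul_le_mul_of_nonneg_left hR2 (Nat.cast_nonneg _)
  have hXn : ((X ∪ U).card : ℝ) * n ≤ ((K0 : ℝ) + (codesU k t m m1).card) * n :=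
    mul_le_mul_of_nonneg_right hXU' hn0
  have hRm : ((c.verts isR2).card : ℝ) * m2 * k ≤ (2 * η * n) * m2 * k := by
    apply mul_le_mul_of_nonneg_right _ (Nat.cast_nonneg _)
    exact mul_le_mul_of_nonneg_right hR2 (Nat.cast_nonneg _)
  linarith
end Pool.Bbc38
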