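import Pool.Agent.Lib.MP_bbc38a_co.Defs


set_option autoImplicit false
open Classical

namespace Pool.Bbc38

/-- a vertex of small `H`-degree has many `H`-neighbours of large `H`-degree -/
private theorem lowdet_light {n : ℕ} (G H : SimpleGraph (Fin n)) (hHG : H ≤ G)
    (hsat : ∀ u v, G.Adj u v → ¬ H.Adj u v → ∃ w, H.Adj u w ∧ H.Adj v w)
    (σ D M : ℝ) (hM : 0 < M) (hMD : M ≤ D)
    (hP : ∀ (v : Fin n) (S : Finset (Fin n)), v ∉ S → (S.card : ℝ) ≤ σ →
      M + M * D <
        ((Finset.univ.filter (fun u => u ∉ S ∧ G.Adj v u ∧ ∀ w ∈ S, ¬ G.Adj w u)).card : ℝ))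
    (v : Fin n) (hv : (H.degree v : ℝ) ≤ M) :
    σ < ((Finset.univ.filter (fun w => H.Adj v w ∧ D < (H.degree w : ℝ))).card : ℝ) := by
  by_contra hcon
  push Not at hcon
  set S := Finset.univ.filter (fun w => H.Adj v w ∧ D < (H.degree w : ℝ)) with hS
  have hvS : v ∉ S := by
    rw [hS, Finset.mem_filter]; rintro ⟨-, h, -⟩; exact H.loopless.irrefl v h
  have h1 := hP v S hvS hcon
  set U := Finset.univ.filter (fun u => u ∉ S ∧ G.Adj v u ∧ ∀ w ∈ S, ¬ G.Adj w u) with hU
  set N := H.neighborFinset v with hN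
  have hsub : U ⊆ N ∪ (N.filter (fun w => w ∉ S)).biUnion (fun w => H.neighborFinset w) := by
    intro u hu
    rw [hU, Finset.mem_filter] at hu
    obtain ⟨-, huS, hvu, hadj⟩ := hu
    rw [Finset.mem_union]
    by_cases h : H.Adj v u
    · left; rw [hN, SimpleGraph.mem_neighborFinset]; exact h
    · right
      obtain ⟨w, hw1, hw2⟩ := hsat v u hvu h
      rw [Finset.mem_biUnion]
      refine ⟨w, Finset.mem_filter.2 ⟨?_, fun hwS => hadj w hwS (hHG hw2.symm)⟩, ?_⟩
      · rw [hN, SimpleGraph.mem_neighborFinset]; exact hw1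
      · rw [SimpleGraph.mem_neighborFinset]; exact hw2.symm
  have hNcard : (N.card : ℝ) ≤ M := by rw [hN, SimpleGraph.card_neighborFinset_eq_degree]; exact hv
  have hD : 0 ≤ D := hM.le.trans hMD
  have h2 : (((N.filter (fun w => w ∉ S)).biUnion (fun w => H.neighborFinset w)).card : ℝ) ≤
      M * D := by
    calc (((N.filter (fun w => w ∉ S)).biUnion (fun w => H.neighborFinset w)).card : ℝ)
        ≤ ((∑ w ∈ N.filter (fun w => w ∉ S), (H.neighborFinset w).card : ℕ) : ℝ) := by
          exact_mod_cast Finset.card_biUnion_le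
      _ = ∑ w ∈ N.filter (fun w => w ∉ S), ((H.neighborFinset w).card : ℝ) := by push_cast; rfl
      _ ≤ ∑ w ∈ N.filter (fun w => w ∉ S), D := by
          refine Finset.sum_le_sum fun w hw => ?_
          rw [Finset.mem_filter, hN, SimpleGraph.mem_neighborFinset, hS, Finset.mem_filter] at hw
          rw [SimpleGraph.card_neighborFinset_eq_degree]
          by_contra hlt
          push Not at hlt
          exact hw.2 ⟨Finset.mem_univ _, hw.1, hlt⟩
      _ = ((N.filter (fun w => w ∉ S)).card : ℝ) * D := by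
          rw [Finset.sum_const, nsmul_eq_mul]
      _ ≤ M * D := by
          refine mul_le_mul_of_nonneg_right ?_ hD
          exact (Nat.cast_le.2 (Finset.card_filter_le _ _)).trans hNcard
  have h3 : (U.card : ℝ) ≤ N.card +
      ((N.filter (fun w => w ∉ S)).biUnion (fun w => H.neighborFinset w)).card := by
    exact_mod_cast (Finset.card_le_card hsub).trans (Finset.card_union_le _ _)
  linarith

theorem lower_det {n : ℕ} (G H : SimpleGraph (Fin n)) (hHG : H ≤ G)
    (hsat : ∀ u v, G.Adj u v → ¬ H.Adj u v → ∃ w, H.Adj u w ∧ H.Adj v w)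
    (σ D M : ℝ) (hσ : 0 ≤ σ) (hM : 0 < M) (hMD : M ≤ D)
    (hP : ∀ (v : Fin n) (S : Finset (Fin n)), v ∉ S → (S.card : ℝ) ≤ σ →
      M + M * D <
        ((Finset.univ.filter (fun u => u ∉ S ∧ G.Adj v u ∧ ∀ w ∈ S, ¬ G.Adj w u)).card : ℝ)) :
    σ * n ≤ (H.edgeSet.ncard : ℝ) * (1 + 2 * σ / M) := by
  have hE : H.edgeSet.ncard = H.edgeFinset.card := by
    rw [Set.ncard_eq_toFinset_card', SimpleGraph.edgeFinset]
  rw [hE]
  set E : ℝ := (H.edgeFinset.card : ℝ) with hEdef
  set Lt := Finset.univ.filter (fun v => (H.degree v : ℝ) ≤ M) with hLt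
  set Hv := Finset.univ.filter (fun v => ¬ (H.degree v : ℝ) ≤ M) with hHv
  have hcard : (Lt.card : ℝ) + Hv.card = n := by
    have := Finset.card_filter_add_card_filter_not (s := (Finset.univ : Finset (Fin n)))
      (fun v => (H.degree v : ℝ) ≤ M)
    rw [Finset.card_univ, Fintype.card_fin] at this
    exact_mod_cast this
  -- heavy vertices
  have hheavy : (Hv.card : ℝ) * M ≤ 2 * E := by
    have h1 : ∑ v, (H.degree v : ℝ) = 2 * E := by
      rw [hEdef]; exact_mod_cast H.sum_degrees_eq_twice_card_edges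
    calc (Hv.card : ℝ) * M = ∑ v ∈ Hv, M := by rw [Finset.sum_const, nsmul_eq_mul]
      _ ≤ ∑ v ∈ Hv, (H.degree v : ℝ) := by
          refine Finset.sum_le_sum fun v hv => ?_
          rw [hHv, Finset.mem_filter] at hv
          exact (not_le.1 hv.2).le
      _ ≤ ∑ v, (H.degree v : ℝ) := Finset.sum_le_sum_of_subset_of_nonneg (Finset.subset_univ _)
          fun _ _ _ => Nat.cast_nonneg _
      _ = 2 * E := h1
  -- light vertices
  have hlight : σ * Lt.card ≤ E := by
    set P := Lt.sigma (fun v => Finset.univ.filter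
      (fun w => H.Adj v w ∧ D < (H.degree w : ℝ))) with hPdef
    have h1 : (P.card : ℝ) ≤ E := by
      rw [hEdef, Nat.cast_le]
      refine Finset.card_le_card_of_injOn (fun x => s(x.1, x.2)) ?_ ?_
      · rintro ⟨v, w⟩ hx
        rw [Finset.mem_coe, hPdef, Finset.mem_sigma] at hx
        rw [Finset.mem_coe, SimpleGraph.mem_edgeFinset, SimpleGraph.mem_edgeSet]
        exact (Finset.mem_filter.1 hx.2).2.1
      · rintro ⟨v, w⟩ hx ⟨v', w'⟩ hx' he
        rw [Finset.mem_coe, hPdef, Finset.mem_sigma] at hx hx'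
        have b1 := Finset.mem_filter.1 hx.1
        have b2 := Finset.mem_filter.1 hx'.2
        simp only [Sym2.eq_iff] at he
        rcases he with ⟨rfl, rfl⟩ | ⟨rfl, rfl⟩
        · rfl
        · exfalso
          have a1 : (H.degree v : ℝ) ≤ M := b1.2
          have a2 : D < (H.degree v : ℝ) := b2.2.2
          linarith
    have h2 : σ * Lt.card ≤ (P.card : ℝ) := by
      rw [hPdef, Finset.card_sigma]
      push_cast
      calc σ * Lt.card = ∑ v ∈ Lt, σ := by rw [Finset.sum_const, nsmul_eq_mul, mul_comm]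
        _ ≤ _ := by
          refine Finset.sum_le_sum fun v hv => ?_
          rw [hLt, Finset.mem_filter] at hv
          exact (lowdet_light G H hHG hsat σ D M hM hMD hP v hv.2).le
    linarith
  have h4 : σ * (Hv.card : ℝ) ≤ E * (2 * σ / M) := by
    have : σ * (Hv.card : ℝ) = (Hv.card * M) * (σ / M) := by field_simp
    rw [this]
    calc (Hv.card * M) * (σ / M) ≤ (2 * E) * (σ / M) :=
          mul_le_mul_of_nonneg_right hheavy (by positivity)
      _ = E * (2 * σ / M) := by ring
  calc σ * n = σ * Lt.card + σ * Hv.card := by rw [← hcard]; ring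
    _ ≤ E + E * (2 * σ / M) := add_le_add hlight h4
    _ = E * (1 + 2 * σ / M) := by ring

end Pool.Bbc38
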