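import Pool.Agent.Lib.MP_bbc38a_co.WLow
import Pool.Agent.Lib.MP_bbc38a_co.LowDet

set_option autoImplicit false
open Classical

namespace Pool.Bbc38

theorem Pr_eq (p : ℝ) (n : ℕ) (P : SimpleGraph (Fin n) → Prop) (inst : DecidablePred P)
    (S : Set (SimpleGraph (Fin n))) (h : ∀ G, G ∈ S ↔ P G) :
    Pr p n S = ∑ G ∈ (Finset.univ : Finset (SimpleGraph (Fin n))).filter P,
      p ^ G.edgeSet.ncard * (1 - p) ^ (n.choose 2 - G.edgeSet.ncard) := by
  unfold Pr
  apply Finset.sum_congr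
  · ext G
    simp [h]
  · intro G _
    rfl

theorem low_common {n k : ℕ} (G H : SimpleGraph (Fin n)) (F : SimpleGraph (Fin k))
    (htri : ∀ u v : Fin k, F.Adj u v → ∃ w : Fin k, F.Adj u w ∧ F.Adj v w)
    (hfree : ¬ F.IsContained H)
    (hsat : ∀ u v : Fin n, G.Adj u v → ¬ H.Adj u v →
      F.IsContained (H ⊔ SimpleGraph.fromEdgeSet {s(u, v)})) :
    ∀ u v, G.Adj u v → ¬ H.Adj u v → ∃ w, H.Adj u w ∧ H.Adj v w := by
  intro u v huv hnuv
  obtain ⟨φ⟩ := hsat u v huv hnuv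
  -- some edge of `F` goes to `uv`
  by_contra hcon
  apply hfree
  have key : ∀ a b, F.Adj a b → H.Adj (φ a) (φ b) := by
    intro a b hab
    by_contra hnH
    have h1 : (H ⊔ SimpleGraph.fromEdgeSet {s(u, v)}).Adj (φ a) (φ b) := φ.toHom.map_rel hab
    rw [SimpleGraph.sup_adj, SimpleGraph.fromEdgeSet_adj, Set.mem_singleton_iff] at h1
    rcases h1 with h1 | h1
    · exact hnH h1
    · obtain ⟨w, hw1, hw2⟩ := htri a b hab
      have hinj := φ.injective
      have e1 : (H ⊔ SimpleGraph.fromEdgeSet {s(u, v)}).Adj (φ a) (φ w) := φ.toHom.map_rel hw1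
      have e2 : (H ⊔ SimpleGraph.fromEdgeSet {s(u, v)}).Adj (φ b) (φ w) := φ.toHom.map_rel hw2
      rw [SimpleGraph.sup_adj, SimpleGraph.fromEdgeSet_adj, Set.mem_singleton_iff] at e1 e2
      have hwa : φ w ≠ φ a := fun h => hw1.ne (hinj h).symm
      have hwb : φ w ≠ φ b := fun h => hw2.ne (hinj h).symm
      have hab' : s(φ a, φ b) = s(u, v) := h1.1
      rw [Sym2.eq_iff] at hab'
      have f1 : H.Adj (φ a) (φ w) := by
        rcases e1 with e1 | e1
        · exact e1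
        · exfalso
          have h2 := e1.1
          rw [Sym2.eq_iff] at h2
          rcases hab' with ⟨h3, h4⟩ | ⟨h3, h4⟩ <;> rcases h2 with ⟨h5, h6⟩ | ⟨h5, h6⟩
          · exact hwb (h6.trans h4.symm)
          · exact hwa (h6.trans h3.symm)
          · exact hwa (h6.trans h3.symm)
          · exact hwb (h6.trans h4.symm)
      have f2 : H.Adj (φ b) (φ w) := by
        rcases e2 with e2 | e2
        · exact e2
        · exfalso
          have h2 := e2.1
          rw [Sym2.eq_iff] at h2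
          rcases hab' with ⟨h3, h4⟩ | ⟨h3, h4⟩ <;> rcases h2 with ⟨h5, h6⟩ | ⟨h5, h6⟩
          · exact hwb (h6.trans h4.symm)
          · exact hwa (h6.trans h3.symm)
          · exact hwa (h6.trans h3.symm)
          · exact hwb (h6.trans h4.symm)
      rcases hab' with ⟨h3, h4⟩ | ⟨h3, h4⟩
      · rw [h3] at f1
        rw [h4] at f2
        exact hcon ⟨φ w, f1, f2⟩
      · rw [h3] at f1
        rw [h4] at f2
        exact hcon ⟨φ w, f2, f1⟩
  exact ⟨⟨⟨φ, fun {a b} hab => key a b hab⟩, φ.injective⟩⟩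

theorem whp_lower {p : ℝ} (hp0 : 0 < p) (hp1 : p < 1) {k : ℕ} (F : SimpleGraph (Fin k))
    (htri : ∀ u v : Fin k, F.Adj u v → ∃ w : Fin k, F.Adj u w ∧ F.Adj v w)
    (ε : ℝ) (hε : 0 < ε) :
    Whp p (fun n => {G | ∀ H : SimpleGraph (Fin n), (H ≤ G ∧ ¬ F.IsContained H ∧
      ∀ u v : Fin n, G.Adj u v → ¬ H.Adj u v →
        F.IsContained (H ⊔ SimpleGraph.fromEdgeSet {s(u, v)})) →
      (1 - ε) * ((n : ℝ) * LL p n) ≤ (H.edgeSet.ncard : ℝ)}) := by
  set l0 := Real.log (1 / (1 - p)) with hl0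
  have hl0p : 0 < l0 := by
    apply Real.log_pos
    rw [lt_div_iff₀ (by linarith)]; linarith
  obtain ⟨e, he0, he1, he2⟩ : ∃ e : ℝ, 0 < e ∧ e < 1 ∧ 1 - ε ≤ (1 - e) - e := by
    refine ⟨min (ε / 2) (1 / 2), lt_min (by linarith) (by norm_num),
      lt_of_le_of_lt (min_le_right _ _) (by norm_num), ?_⟩
    have := min_le_left (ε / 2) (1 / 2)
    linarith
  refine Whp.mono hp0.le hp1.le (whp_low hp0 hp1 e he0 he1) ?_
  have hL : Filter.Tendsto (fun n : ℕ => Real.log (n : ℝ)) Filter.atTop Filter.atTop :=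
    Real.tendsto_log_atTop.comp tendsto_natCast_atTop_atTop
  -- growth facts
  have hg : ∀ᶠ x : ℝ in Filter.atTop,
      (Real.log x) ^ 2 + (Real.log x) ^ 2 * x ^ (e / 4) < x ^ (e / 2) ∧
      (Real.log x) ^ 2 ≤ x ^ (e / 4) := by
    have h1 : (fun x : ℝ => Real.log x) =o[Filter.atTop] (fun x : ℝ => x ^ (e / 16)) :=
      isLittleO_log_rpow_atTop (by linarith)
    have h2 := h1.bound (show (0 : ℝ) < 1 / 2 by norm_num)
    filter_upwards [h2, Filter.eventually_ge_atTop (1 : ℝ), Filter.eventually_gt_atTop (1 : ℝ)]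
      with x hx hx1 hx1'
    have hlog : 0 ≤ Real.log x := Real.log_nonneg hx1
    rw [Real.norm_eq_abs, Real.norm_eq_abs, abs_of_nonneg hlog,
      abs_of_nonneg (Real.rpow_nonneg (by linarith) _)] at hx
    set y := x ^ (e / 16) with hy
    have hy1 : 1 ≤ y := Real.one_le_rpow hx1 (by linarith)
    have hy2 : y ^ 2 = x ^ (e / 8) := by
      rw [hy, ← Real.rpow_natCast, ← Real.rpow_mul (by linarith)]
      congr 1; push_cast; ring
    have hy4 : y ^ 4 = x ^ (e / 4) := by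
      rw [hy, ← Real.rpow_natCast, ← Real.rpow_mul (by linarith)]
      congr 1; push_cast; ring
    have hy8 : y ^ 8 = x ^ (e / 2) := by
      rw [hy, ← Real.rpow_natCast, ← Real.rpow_mul (by linarith)]
      congr 1; push_cast; ring
    have hsq : (Real.log x) ^ 2 ≤ 1 / 4 * y ^ 2 := by
      calc (Real.log x) ^ 2 ≤ (1 / 2 * y) ^ 2 := pow_le_pow_left₀ hlog hx 2
        _ = 1 / 4 * y ^ 2 := by ring
    rw [← hy4, ← hy8]
    have hy0 : 0 < y := by linarith
    have p2 : y ^ 2 ≤ y ^ 4 := pow_le_pow_right₀ hy1 (by norm_num)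
    have p6 : y ^ 6 ≤ y ^ 8 := pow_le_pow_right₀ hy1 (by norm_num)
    have p48 : y ^ 4 ≤ y ^ 8 := pow_le_pow_right₀ hy1 (by norm_num)
    have p8 : 0 < y ^ 8 := by positivity
    constructor
    · have h3 : (Real.log x) ^ 2 * y ^ 4 ≤ 1 / 4 * y ^ 2 * y ^ 4 :=
        mul_le_mul_of_nonneg_right hsq (by positivity)
      have h4 : 1 / 4 * y ^ 2 * y ^ 4 = 1 / 4 * y ^ 6 := by ring
      nlinarith
    · nlinarith [sq_nonneg y]
  have hg' := tendsto_natCast_atTop_atTop (R := ℝ) |>.eventually hg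
  filter_upwards [hg', hL.eventually_ge_atTop 1, hL.eventually_ge_atTop (2 * (1 - e) / (l0 * e))]
    with n hn1 hn2 hn3
  intro G hG H hH
  obtain ⟨hHG, hfree, hsat⟩ := hH
  have hcom := low_common G H F htri hfree hsat
  set x := Real.log (n : ℝ) with hx
  have hLLeq : LL p n = x / l0 := rfl
  have hx0 : 0 < x := by linarith
  have hσ : 0 ≤ (1 - e) * LL p n := by
    rw [hLLeq]; apply mul_nonneg (by linarith); positivity
  have hdet := lower_det G H hHG hcom ((1 - e) * LL p n) ((n : ℝ) ^ (e / 4)) (x ^ 2) hσ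
    (by positivity) hn1.2 (fun v S hv hS => lt_of_lt_of_le hn1.1 (hG v S hv hS))
  -- `2 σ / M ≤ e`
  have h5 : 2 * ((1 - e) * LL p n) / x ^ 2 ≤ e := by
    rw [hLLeq, div_le_iff₀ (by positivity)]
    rw [div_le_iff₀ (by positivity)] at hn3
    have : 2 * ((1 - e) * (x / l0)) = (2 * (1 - e)) * x / l0 := by ring
    rw [this, div_le_iff₀ hl0p]
    nlinarith
  have hE : (0 : ℝ) ≤ H.edgeSet.ncard := Nat.cast_nonneg _
  have h6 : (1 - e) * LL p n * n ≤ (H.edgeSet.ncard : ℝ) * (1 + e) := by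
    refine hdet.trans ?_
    apply mul_le_mul_of_nonneg_left _ hE
    linarith
  have h7 : 0 ≤ (n : ℝ) * LL p n := by
    rw [hLLeq]; positivity
  have h8 : (1 - ε) * ((n : ℝ) * LL p n) ≤ ((1 - e) - e) * ((n : ℝ) * LL p n) :=
    mul_le_mul_of_nonneg_right he2 h7
  -- `(1 - 2e)(1+e) ≤ 1 - e`
  by_contra hcon
  push Not at hcon
  have h9 : (H.edgeSet.ncard : ℝ) < ((1 - e) - e) * ((n : ℝ) * LL p n) := lt_of_lt_of_le hcon h8
  have h10 : (H.edgeSet.ncard : ℝ) * (1 + e) < ((1 - e) - e) * ((n : ℝ) * LL p n) * (1 + e) :=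
    mul_lt_mul_of_pos_right h9 (by linarith)
  have h11 : ((1 - e) - e) * ((n : ℝ) * LL p n) * (1 + e) ≤ (1 - e) * ((n : ℝ) * LL p n) := by
    have : ((1 - e) - e) * (1 + e) ≤ 1 - e := by nlinarith
    nlinarith
  nlinarith

end Pool.Bbc38
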