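import Pool.Agent.Lib.MP_bbc38a_co.BuildCfg

set_option autoImplicit false
open Classical

namespace Pool.Bbc38

/-- an interval block of vertices -/
noncomputable def blk (a b n : ℕ) : Finset (Fin n) :=
  Finset.univ.filter (fun x => a ≤ x.val ∧ x.val < b)

theorem blk_card (a b n : ℕ) (h : b ≤ n) : (blk a b n).card = b - a := by
  have : (blk a b n).map Fin.valEmbedding = Finset.Ico a b := by
    ext x
    simp only [blk, Finset.mem_map, Finset.mem_filter, Finset.mem_univ, true_and,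
      Fin.valEmbedding_apply, Finset.mem_Ico]
    constructor
    · rintro ⟨y, hy, rfl⟩; exact hy
    · intro hx
      exact ⟨⟨x, lt_of_lt_of_le hx.2 h⟩, hx, rfl⟩
  rw [← Finset.card_map, this, Nat.card_Ico]

theorem blk_disj (a b c d n : ℕ) (h : b ≤ c) : Disjoint (blk a b n) (blk c d n) := by
  rw [Finset.disjoint_left]
  intro x hx hy
  simp only [blk, Finset.mem_filter, Finset.mem_univ, true_and] at hx hy
  omega

theorem codesW_card (t m2 : ℕ) : (codesW t m2).card = m2 * t := by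
  unfold codesW
  rw [Finset.card_image_of_injective, Finset.card_product, Finset.card_range, Finset.card_range]
  intro a b hab
  injection hab with h1 h2
  exact Prod.ext h1 h2

theorem tendsto_log_nat : Filter.Tendsto (fun n : ℕ => Real.log (n : ℝ)) Filter.atTop Filter.atTop :=
  Real.tendsto_log_atTop.comp tendsto_natCast_atTop_atTop

theorem ev_log_ge (c : ℝ) : ∀ᶠ n : ℕ in Filter.atTop, c ≤ Real.log (n : ℝ) :=
  tendsto_log_nat.eventually_ge_atTop c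

theorem ev_sq_le (D1 D2 c : ℝ) (hc : 0 < c) :
    ∀ᶠ n : ℕ in Filter.atTop, (D1 * Real.log (n : ℝ) + D2) ^ 2 ≤ c * n := by
  have h1 : (fun x : ℝ => (D1 * Real.log x + D2) ^ 2) =o[Filter.atTop] (fun x : ℝ => x) := by
    have h2 : (fun x : ℝ => D1 * Real.log x + D2) =o[Filter.atTop] (fun x : ℝ => x ^ (1 / 2 : ℝ)) := by
      apply Asymptotics.IsLittleO.add
      · exact (isLittleO_log_rpow_atTop (by norm_num)).const_mul_left D1
      · apply Asymptotics.isLittleO_const_left.mpr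
        right
        exact Filter.Tendsto.comp tendsto_norm_atTop_atTop (tendsto_rpow_atTop (by norm_num))
    have h3 := h2.pow (n := 2) (by norm_num)
    refine h3.congr' (Filter.EventuallyEq.refl _ _) ?_
    filter_upwards [Filter.eventually_ge_atTop (0 : ℝ)] with x hx
    rw [← Real.rpow_natCast, ← Real.rpow_mul hx]
    norm_num
  have h2 := h1.bound hc
  have h3 := tendsto_natCast_atTop_atTop (R := ℝ) |>.eventually h2
  filter_upwards [h3] with n hn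
  have h4 : ‖((D1 * Real.log (n : ℝ) + D2) ^ 2 : ℝ)‖ = (D1 * Real.log (n : ℝ) + D2) ^ 2 := by
    rw [Real.norm_eq_abs, abs_of_nonneg (sq_nonneg _)]
  have h5 : ‖((n : ℕ) : ℝ)‖ = (n : ℝ) := by
    rw [Real.norm_eq_abs, abs_of_nonneg (Nat.cast_nonneg _)]
  rw [h4, h5] at hn
  exact hn

theorem ev_main (D1 D2 D3 c : ℝ) (hc : 0 < c) :
    ∀ᶠ n : ℕ in Filter.atTop,
      (D1 * Real.log (n : ℝ) + D2) ^ 2 + D3 * n ≤ c * (n * Real.log (n : ℝ)) := by
  filter_upwards [ev_sq_le D1 D2 (c / 2) (by linarith), ev_log_ge 1, ev_log_ge (2 * D3 / c)]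
    with n h1 h2 h3
  have hn : (0 : ℝ) ≤ n := Nat.cast_nonneg _
  have h4 : c / 2 * (n : ℝ) ≤ c / 2 * (n * Real.log (n : ℝ)) := by
    apply mul_le_mul_of_nonneg_left _ (by linarith)
    nlinarith
  have h5 : D3 * (n : ℝ) ≤ c / 2 * (n * Real.log (n : ℝ)) := by
    have h6 : 2 * D3 ≤ c * Real.log (n : ℝ) := by
      rw [div_le_iff₀ hc] at h3; linarith
    nlinarith
  linarith

theorem ev_lin_le (D1 D2 : ℝ) : ∀ᶠ n : ℕ in Filter.atTop, D1 * Real.log (n : ℝ) + D2 ≤ n := by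
  filter_upwards [ev_sq_le D1 D2 1 one_pos, Filter.eventually_ge_atTop 1] with n h1 h2
  have hn : (1 : ℝ) ≤ n := by exact_mod_cast h2
  by_contra hcon
  push Not at hcon
  nlinarith

theorem LL_eq {p : ℝ} (n : ℕ) : LL p n = Real.log (n : ℝ) / Real.log (1 / (1 - p)) := rfl


theorem exists_ceil (c : ℝ) (hc : 0 ≤ c) : ∃ v : ℕ → ℕ, (∀ n : ℕ, c * Real.log (n : ℝ) ≤ (v n : ℝ)) ∧
    (∀ᶠ n : ℕ in Filter.atTop, (v n : ℝ) ≤ c * Real.log n + 1) := by
  refine ⟨fun n => ⌈c * Real.log n⌉₊, fun n => Nat.le_ceil _, ?_⟩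
  filter_upwards [ev_log_ge 0] with n hn
  exact (Nat.ceil_lt_add_one (mul_nonneg hc hn)).le

theorem exists_floor : ∃ v : ℕ → ℕ, (∀ n : ℕ, Real.log (n : ℝ) < (v n : ℝ) + 1) ∧
    (∀ᶠ n : ℕ in Filter.atTop, (v n : ℝ) ≤ Real.log n) := by
  refine ⟨fun n => ⌊Real.log n⌋₊, fun n => Nat.lt_floor_add_one _, ?_⟩
  filter_upwards [ev_log_ge 0] with n hn
  exact Nat.floor_le hn

theorem exists_blocks (v1 v2 v3 w : ℕ → ℕ) (K0 : ℕ)
    (htot : ∀ᶠ n : ℕ in Filter.atTop, v1 n + v2 n + v3 n + K0 + w n ≤ n) :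
    ∃ V1 V2 V3 X W : (n : ℕ) → Finset (Fin n),
      (∀ᶠ n : ℕ in Filter.atTop, (V1 n).card = v1 n) ∧
      (∀ᶠ n : ℕ in Filter.atTop, (V2 n).card = v2 n) ∧
      (∀ᶠ n : ℕ in Filter.atTop, (V3 n).card = v3 n) ∧
      (∀ᶠ n : ℕ in Filter.atTop, (X n).card = K0) ∧
      (∀ᶠ n : ℕ in Filter.atTop, (W n).card = w n) ∧
      (∀ n, Disjoint (V1 n) (V2 n)) ∧ (∀ n, Disjoint (V1 n) (V3 n)) ∧
      (∀ n, Disjoint (V1 n) (X n)) ∧ (∀ n, Disjoint (V1 n) (W n)) ∧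
      (∀ n, Disjoint (V2 n) (V3 n)) ∧ (∀ n, Disjoint (V2 n) (X n)) ∧
      (∀ n, Disjoint (V2 n) (W n)) ∧ (∀ n, Disjoint (V3 n) (X n)) ∧
      (∀ n, Disjoint (V3 n) (W n)) ∧ (∀ n, Disjoint (X n) (W n)) := by
  refine ⟨fun n => blk 0 (v1 n) n, fun n => blk (v1 n) (v1 n + v2 n) n,
    fun n => blk (v1 n + v2 n) (v1 n + v2 n + v3 n) n,
    fun n => blk (v1 n + v2 n + v3 n) (v1 n + v2 n + v3 n + K0) n,
    fun n => blk (v1 n + v2 n + v3 n + K0) (v1 n + v2 n + v3 n + K0 + w n) n,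
    ?_, ?_, ?_, ?_, ?_, ?_, ?_, ?_, ?_, ?_, ?_, ?_, ?_, ?_, ?_⟩
  · filter_upwards [htot] with n h
    rw [blk_card _ _ _ (by omega)]; omega
  · filter_upwards [htot] with n h
    rw [blk_card _ _ _ (by omega)]; omega
  · filter_upwards [htot] with n h
    rw [blk_card _ _ _ (by omega)]; omega
  · filter_upwards [htot] with n h
    rw [blk_card _ _ _ (by omega)]; omega
  · filter_upwards [htot] with n h
    rw [blk_card _ _ _ (by omega)]; omega
  all_goals exact fun n => blk_disj _ _ _ _ _ (by omega)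

theorem exists_rW (m2 : ℕ → ℕ) (t : ℕ) (W : (n : ℕ) → Finset (Fin n))
    (hWc : ∀ᶠ n : ℕ in Filter.atTop, (W n).card = m2 n * t) :
    ∃ (rW : (n : ℕ) → Fin n → Role) (Q : (n : ℕ) → ℕ → Finset (Fin n)),
      (∀ᶠ n : ℕ in Filter.atTop, (∀ x ∈ W n, rW n x ∈ codesW t (m2 n)) ∧
        (∀ x ∈ W n, ∀ y ∈ W n, rW n x = rW n y → x = y) ∧
        (∀ r ∈ codesW t (m2 n), ∃ x ∈ W n, rW n x = r)) ∧
      (∀ n j u, u ∈ Q n j ↔ u ∈ W n ∧ ∃ i, rW n u = .h2 j i) ∧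
      (∀ᶠ n : ℕ in Filter.atTop, ∀ j < m2 n, (Q n j).card ≤ t) ∧
      (∀ᶠ n : ℕ in Filter.atTop, ∀ i < m2 n, ∀ j < m2 n, i ≠ j → Disjoint (Q n i) (Q n j)) := by
  have hrW : ∀ n, ∃ rW : Fin n → Role, (W n).card = m2 n * t →
      ((∀ x ∈ W n, rW x ∈ codesW t (m2 n)) ∧
      (∀ x ∈ W n, ∀ y ∈ W n, rW x = rW y → x = y) ∧
      (∀ r ∈ codesW t (m2 n), ∃ x ∈ W n, rW x = r)) := by
    intro n
    by_cases h : (W n).card = m2 n * t
    · obtain ⟨r, h1, h2, h3⟩ := exists_enum (W n) (codesW t (m2 n)) (by rw [h, codesW_card])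
      exact ⟨r, fun _ => ⟨h1, h2, h3⟩⟩
    · exact ⟨fun _ => .A, fun h' => absurd h' h⟩
  choose rW hrW using hrW
  refine ⟨rW, fun n j => (W n).filter (fun u => ∃ i, rW n u = .h2 j i), ?_, ?_, ?_, ?_⟩
  · filter_upwards [hWc] with n hn
    exact hrW n hn
  · intro n j u
    rw [Finset.mem_filter]
  · filter_upwards [hWc] with n hn j hj
    obtain ⟨hWm, hWi, hWs⟩ := hrW n hn
    have : ((Finset.range t).image (fun i => Role.h2 j i)).card ≤ t :=
      Finset.card_image_le.trans (by simp)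
    refine le_trans (Finset.card_le_card_of_injOn (rW n) ?_ ?_) this
    · intro u hu
      rw [Finset.mem_coe, Finset.mem_filter] at hu
      obtain ⟨i, hi⟩ := hu.2
      rcases mem_codesW.mp (hWm u hu.1) with ⟨j', h, hj, hh, hr⟩
      rw [hi] at hr
      have h1 : j = j' ∧ i = h := by
        constructor
        · injection hr
        · injection hr
      rw [Finset.mem_coe, Finset.mem_image]
      exact ⟨i, Finset.mem_range.mpr (by rw [h1.2]; exact hh), hi.symm⟩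
    · intro u hu v hv huv
      rw [Finset.mem_coe, Finset.mem_filter] at hu hv
      exact hWi u hu.1 v hv.1 huv
  · filter_upwards with n i _ j _ hij
    rw [Finset.disjoint_left]
    intro u hu hv
    rw [Finset.mem_filter] at hu hv
    obtain ⟨_, a, ha⟩ := hu
    obtain ⟨_, b, hb⟩ := hv
    rw [ha] at hb
    apply hij
    injection hb

/-- the choice of the number of cliques -/
theorem exists_M (L p ε : ℝ) (N0 : ℕ) (hL : 0 < L) (hp : 0 < p) (hε : 0 < ε) (hN0 : 0 < N0) :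
    ∃ M : ℕ, 0 < M ∧ (1 + ε) * L / p ≤ (M : ℝ) * N0 ∧
      (M : ℝ) * N0 ≤ (1 + ε) * L / p + N0 := by
  have hN0r : (0 : ℝ) < N0 := by exact_mod_cast hN0
  refine ⟨⌈(1 + ε) * L / p / N0⌉₊, ?_, ?_, ?_⟩
  · rw [Nat.ceil_pos]; positivity
  · have := Nat.le_ceil ((1 + ε) * L / p / N0)
    rw [div_le_iff₀ hN0r] at this
    exact this
  · have h1 : ((⌈(1 + ε) * L / p / N0⌉₊ : ℕ) : ℝ) < (1 + ε) * L / p / N0 + 1 :=
      Nat.ceil_lt_add_one (by positivity)
    have h2 := mul_lt_mul_of_pos_right h1 hN0r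
    have h3 : ((1 + ε) * L / p / N0 + 1) * N0 = (1 + ε) * L / p + N0 := by
      rw [add_mul ((1 + ε) * L / p / N0), div_mul_cancel₀ _ hN0r.ne', one_mul]
    linarith

/-- the final numerical inequality -/
theorem final_num (x n l0 ε ε0 p N0 η εp K C1 C4 k t m1 C K0 K1 N2 v1 v3 m2 MN L : ℝ)
    (hx : 0 ≤ x) (hn0 : 0 ≤ n) (hl0 : 0 < l0) (hε : 0 < ε) (hp : 0 < p)
    (hη : 0 < η) (hεp : 0 < εp) (hK : 0 < K) (hC4 : 0 < C4) (hk : 0 ≤ k) (ht : 0 ≤ t)
    (hv10 : 0 ≤ v1) (hv30 : 0 ≤ v3) (hm20 : 0 ≤ m2) (hK0 : 0 ≤ K0) (hN2 : 0 ≤ N2)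
    (hεsq : (1 + ε) ^ 2 ≤ 1 + ε0 / 2) (hεp' : εp = ε0 / (16 * l0 * K))
    (hη' : η = ε0 / (16 * l0 * (K + (t + k) * C4)))
    (hL : L = x / l0)
    (g1 : v1 ≤ C1 * x + 1) (g3 : v3 ≤ K * x + 1) (g4 : m2 ≤ C4 * x + 1)
    (hMup : MN ≤ (1 + ε) * L / p + N0)
    (g14 : ((C1 + K + C4 * t) * x + (1 + 1 + K0 + N2 + t)) ^ 2 +
      ((1 + ε) * p * N0 + 2 * η + 2 * εp + K0 + N2 + 2 * η * t + m1 * C + K1 + 2 * η * k) * n
        ≤ ε0 / (4 * l0) * (n * x)) :
    (v1 + v3 + K0 + N2 + m2 * t) ^ 2 + MN * ((1 + ε) * p * n) + v3 * (2 * η * n)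
      + 2 * εp * v3 * n + (K0 + N2) * n + (m2 * t) * (2 * η * n) + n * m1 * C + K1 * n
      + (2 * η * n) * m2 * k ≤ (1 + ε0) * (n * L) := by
  have e1 : (v1 + v3 + K0 + N2 + m2 * t) ^ 2 ≤
      ((C1 + K + C4 * t) * x + (1 + 1 + K0 + N2 + t)) ^ 2 := by
    apply pow_le_pow_left₀ (by positivity)
    have h6 : m2 * t ≤ (C4 * x + 1) * t := mul_le_mul_of_nonneg_right g4 ht
    linarith
  have e2 : MN * ((1 + ε) * p * n) ≤ ((1 + ε) ^ 2 * (x / l0) + (1 + ε) * p * N0) * n := by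
    have h1 : MN * ((1 + ε) * p * n) ≤ ((1 + ε) * L / p + N0) * ((1 + ε) * p * n) :=
      mul_le_mul_of_nonneg_right hMup (by positivity)
    have h2 : ((1 + ε) * L / p + N0) * ((1 + ε) * p * n) =
        ((1 + ε) ^ 2 * (x / l0) + (1 + ε) * p * N0) * n := by
      rw [hL]; field_simp
    linarith
  have e3 : v3 * (2 * η * n) ≤ (K * x + 1) * (2 * η * n) :=
    mul_le_mul_of_nonneg_right g3 (by positivity)
  have e4 : 2 * εp * v3 * n ≤ 2 * εp * (K * x + 1) * n := by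
    apply mul_le_mul_of_nonneg_right _ hn0
    exact mul_le_mul_of_nonneg_left g3 (by positivity)
  have e5 : (m2 * t) * (2 * η * n) ≤ ((C4 * x + 1) * t) * (2 * η * n) := by
    apply mul_le_mul_of_nonneg_right _ (by positivity)
    exact mul_le_mul_of_nonneg_right g4 ht
  have e6 : (2 * η * n) * m2 * k ≤ (2 * η * n) * (C4 * x + 1) * k := by
    apply mul_le_mul_of_nonneg_right _ hk
    exact mul_le_mul_of_nonneg_left g4 (by positivity)
  have e7 : (1 + ε) ^ 2 / l0 + 2 * η * K + 2 * εp * K + 2 * η * t * C4 + 2 * η * k * C4 ≤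
      (1 + ε0) / l0 - ε0 / (4 * l0) := by
    have h1 : 2 * εp * K = ε0 / (8 * l0) := by
      rw [hεp']; field_simp; ring
    have h2 : 2 * η * K + 2 * η * t * C4 + 2 * η * k * C4 = ε0 / (8 * l0) := by
      rw [hη']
      have h3 : K + (t + k) * C4 ≠ 0 := by positivity
      field_simp
      ring
    have h3 : (1 + ε) ^ 2 / l0 ≤ (1 + ε0 / 2) / l0 := div_le_div_of_nonneg_right hεsq hl0.le
    have h4 : (1 + ε0) / l0 - ε0 / (4 * l0) = (1 + ε0 / 2) / l0 + ε0 / (8 * l0) + ε0 / (8 * l0) := by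
      field_simp; ring
    rw [h4]
    linarith
  have e8 : ((1 + ε) ^ 2 / l0 + 2 * η * K + 2 * εp * K + 2 * η * t * C4 + 2 * η * k * C4) *
      (n * x) ≤ ((1 + ε0) / l0 - ε0 / (4 * l0)) * (n * x) :=
    mul_le_mul_of_nonneg_right e7 (by positivity)
  have e9 : (1 + ε0) * (n * L) = (1 + ε0) / l0 * (n * x) := by
    rw [hL]; field_simp
  rw [e9]
  have e11 : ((1 + ε0) / l0 - ε0 / (4 * l0)) * (n * x) =
    (1 + ε0) / l0 * (n * x) - ε0 / (4 * l0) * (n * x) := by ring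
  have e12 : ((C1 + K + C4 * t) * x + (1 + 1 + K0 + N2 + t)) ^ 2
      + ((1 + ε) ^ 2 * (x / l0) + (1 + ε) * p * N0) * n
      + (K * x + 1) * (2 * η * n) + 2 * εp * (K * x + 1) * n + (K0 + N2) * n
      + ((C4 * x + 1) * t) * (2 * η * n) + n * m1 * C + K1 * n
      + (2 * η * n) * (C4 * x + 1) * k =
      ((C1 + K + C4 * t) * x + (1 + 1 + K0 + N2 + t)) ^ 2 +
      ((1 + ε) * p * N0 + 2 * η + 2 * εp + K0 + N2 + 2 * η * t + m1 * C + K1 + 2 * η * k) * n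
      + ((1 + ε) ^ 2 / l0 + 2 * η * K + 2 * εp * K + 2 * η * t * C4 + 2 * η * k * C4) * (n * x) := by
    ring
  linarith

end Pool.Bbc38
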