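import Pool.Agent.Lib.MP_bbc38a_co.Defs


set_option autoImplicit false
open Classical

namespace Pool.Bbc38

/-- renumbering of the values of a function on `Fin k` -/
private noncomputable def combR {k : ℕ} (cls : Fin k → ℕ) (i : ℕ) : ℕ :=
  if h : ∃ u : Fin k, cls u = i then (Classical.choose h).val else 0

private lemma combR_lt {k : ℕ} (cls : Fin k → ℕ) (v : Fin k) : combR cls (cls v) < k := by
  have h : ∃ u : Fin k, cls u = cls v := ⟨v, rfl⟩
  unfold combR
  rw [dif_pos h]
  exact (Classical.choose h).isLt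

private lemma combR_inj {k : ℕ} (cls : Fin k → ℕ) (u v : Fin k)
    (h : combR cls (cls u) = combR cls (cls v)) : cls u = cls v := by
  have hu : ∃ w : Fin k, cls w = cls u := ⟨u, rfl⟩
  have hv : ∃ w : Fin k, cls w = cls v := ⟨v, rfl⟩
  unfold combR at h
  rw [dif_pos hu, dif_pos hv] at h
  have h1 := Classical.choose_spec hu
  have h2 := Classical.choose_spec hv
  have h3 : Classical.choose hu = Classical.choose hv := Fin.ext h
  rw [← h1, ← h2, h3]

private lemma comb_zero {k : ℕ} (F : SimpleGraph (Fin k)) (s : ℕ) (h : InS F s 0 0) :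
    F.Colorable (s + 1) := by
  obtain ⟨core, col, cls, hub, h1, h2, h3⟩ := h
  have hnh : ∀ v, v ∉ core → v ∉ hub := by
    intro v hv hvh
    have h4 := h3 (cls v)
    have h5 : v ∈ (Finset.univ.filter (fun w : Fin k => w ∉ core ∧ w ∈ hub ∧ cls w = cls v)) := by
      simp [hv, hvh]
    have h6 := Finset.card_pos.2 ⟨v, h5⟩
    have h7 : hc 0 0 (cls v) = 0 := by simp [hc]
    rw [h7] at h4
    omega
  let f : Fin k → Fin (s + 1) := fun v => if v ∈ core then (col v).castSucc else Fin.last s
  refine ⟨SimpleGraph.Coloring.mk f ?_⟩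
  intro u v huv
  show f u ≠ f v
  simp only [f]
  by_cases hu : u ∈ core <;> by_cases hv : v ∈ core
  · rw [if_pos hu, if_pos hv]
    intro h
    exact h1 u v hu hv huv (Fin.castSucc_injective _ h)
  · rw [if_pos hu, if_neg hv]
    exact (Fin.castSucc_lt_last _).ne
  · rw [if_neg hu, if_pos hv]
    exact (Fin.castSucc_lt_last _).ne'
  · exfalso
    have := (h2 u v hu hv huv).2
    have h4 := hnh u hu
    have h5 := hnh v hv
    tauto

private lemma comb_top {k : ℕ} (F : SimpleGraph (Fin k)) (s : ℕ) (hs : 1 ≤ s)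
    (h : F.Colorable (s + 2)) : InS F s k 0 := by
  obtain ⟨c⟩ := h
  refine ⟨{v | (c v).val < s}, fun v => if h : (c v).val < s then ⟨(c v).val, h⟩ else ⟨0, hs⟩,
    fun _ => 0, {v | (c v).val = s}, ?_, ?_, ?_⟩
  · intro u v hu hv huv
    have hu' : (c u).val < s := hu
    have hv' : (c v).val < s := hv
    beta_reduce
    rw [dif_pos hu', dif_pos hv']
    intro h
    have h1 : (c u).val = (c v).val := by
      have := congrArg Fin.val h
      simpa using this
    exact c.valid huv (Fin.ext h1)
  · intro u v hu hv huv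
    refine ⟨rfl, ?_⟩
    have hu' : ¬ (c u).val < s := hu
    have hv' : ¬ (c v).val < s := hv
    change ((c u).val = s ↔ ¬ (c v).val = s)
    have h1 : (c u).val ≠ (c v).val := fun h => c.valid huv (Fin.ext h)
    have h2 := (c u).isLt
    have h3 := (c v).isLt
    omega
  · intro i
    have : hc k 0 i = k := by simp [hc]
    rw [this]
    refine (Finset.card_le_univ _).trans ?_
    simp

private lemma comb_renum {k : ℕ} (F : SimpleGraph (Fin k)) (s t : ℕ) (h : InS F s (t + 1) 0) :
    InS F s t k := by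
  obtain ⟨core, col, cls, hub, h1, h2, h3⟩ := h
  refine ⟨core, col, fun v => combR cls (cls v), hub, h1, ?_, ?_⟩
  · intro u v hu hv huv
    obtain ⟨h4, h5⟩ := h2 u v hu hv huv
    exact ⟨by simp only [h4], h5⟩
  · intro i
    rcases Finset.eq_empty_or_nonempty
      (Finset.univ.filter (fun v : Fin k => v ∉ core ∧ v ∈ hub ∧ combR cls (cls v) = i)) with he | he
    · rw [he]; simp
    · obtain ⟨v0, hv0⟩ := he
      simp only [Finset.mem_filter, Finset.mem_univ, true_and] at hv0
      have hik : i < k := by rw [← hv0.2.2]; exact combR_lt cls v0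
      have h4 : hc t k i = t + 1 := by simp [hc, hik]
      have h5 := h3 (cls v0)
      have h6 : hc (t + 1) 0 (cls v0) = t + 1 := by simp [hc]
      rw [h4]
      rw [h6] at h5
      refine (Finset.card_le_card ?_).trans h5
      intro v hv
      simp only [Finset.mem_filter, Finset.mem_univ, true_and] at hv ⊢
      refine ⟨hv.1, hv.2.1, combR_inj cls v v0 ?_⟩
      rw [hv.2.2, hv0.2.2]

/-- choice of `s`, `t`, `m` -/
theorem exists_params {k : ℕ} (F : SimpleGraph (Fin k)) (hne : F.edgeSet.Nonempty)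
    (htri : ∀ u v : Fin k, F.Adj u v → ∃ w : Fin k, F.Adj u w ∧ F.Adj v w) :
    ∃ s t m : ℕ, 1 ≤ s ∧ F.Colorable (s + 2) ∧ ¬ InS F s t m ∧ InS F s t (m + 1) := by
  -- a triangle
  obtain ⟨e, he⟩ := hne
  obtain ⟨u, v, w, huv, huw, hvw⟩ : ∃ u v w, F.Adj u v ∧ F.Adj u w ∧ F.Adj v w := by
    induction e using Sym2.ind with
    | _ u v =>
      have huv : F.Adj u v := by simpa using he
      obtain ⟨w, h1, h2⟩ := htri u v huv
      exact ⟨u, v, w, huv, h1, h2⟩
  -- the chromatic number
  have hex : ∃ c, F.Colorable c := ⟨k, by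
    have := F.colorable_of_fintype
    simpa using this⟩
  let χ := Nat.find hex
  have hχ : F.Colorable χ := Nat.find_spec hex
  have hχmin : ∀ c, c < χ → ¬ F.Colorable c := fun c hc => Nat.find_min hex hc
  have hχ3 : 3 ≤ χ := by
    by_contra hlt
    push Not at hlt
    obtain ⟨c⟩ := hχ
    have h1 : (c u).val ≠ (c v).val := fun h => c.valid huv (Fin.ext h)
    have h2 : (c u).val ≠ (c w).val := fun h => c.valid huw (Fin.ext h)
    have h3 : (c v).val ≠ (c w).val := fun h => c.valid hvw (Fin.ext h)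
    have h4 := (c u).isLt
    have h5 := (c v).isLt
    have h6 := (c w).isLt
    omega
  obtain ⟨s, hs⟩ : ∃ s, χ = s + 2 := ⟨χ - 2, by omega⟩
  have hs1 : 1 ≤ s := by omega
  have hcol : F.Colorable (s + 2) := by rw [← hs]; exact hχ
  have h00 : ¬ InS F s 0 0 := fun h => hχmin (s + 1) (by omega) (comb_zero F s h)
  have hk0 : InS F s k 0 := comb_top F s hs1 hcol
  have hex2 : ∃ t, InS F s t 0 := ⟨k, hk0⟩
  obtain ⟨t, ht⟩ : ∃ t, Nat.find hex2 = t + 1 := by
    rcases Nat.eq_zero_or_pos (Nat.find hex2) with h | h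
    · exfalso
      have := Nat.find_spec hex2
      rw [h] at this
      exact h00 this
    · exact ⟨Nat.find hex2 - 1, by omega⟩
  have ht1 : InS F s (t + 1) 0 := by rw [← ht]; exact Nat.find_spec hex2
  have ht0 : ¬ InS F s t 0 := Nat.find_min hex2 (by omega)
  have hex3 : ∃ m, InS F s t m := ⟨k, comb_renum F s t ht1⟩
  obtain ⟨m, hm⟩ : ∃ m, Nat.find hex3 = m + 1 := by
    rcases Nat.eq_zero_or_pos (Nat.find hex3) with h | h
    · exfalso
      have := Nat.find_spec hex3
      rw [h] at this
      exact ht0 this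
    · exact ⟨Nat.find hex3 - 1, by omega⟩
  refine ⟨s, t, m, hs1, hcol, Nat.find_min hex3 (by omega), ?_⟩
  rw [← hm]
  exact Nat.find_spec hex3

end Pool.Bbc38
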