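import Pool.Agent.Lib.MP_bbc38a_co.Defs


set_option autoImplicit false
open Classical

namespace Pool.Bbc38

theorem hypcol_dc {N M : ℕ} (e : Fin M → Finset (Fin N)) (T : Finset (Fin M))
    (A : Finset (Fin N)) :
    ∑ i ∈ T, (A.filter (fun v => v ∈ e i)).card = ∑ v ∈ A, (T.filter (fun i => v ∈ e i)).card := by
  simp only [Finset.card_filter]
  exact Finset.sum_comm

/-- some hyperedge meets the union of the others in at most one vertex -/
theorem hypcol_leaf {N M : ℕ} (s : ℕ) (hs : 2 ≤ s) (e : Fin M → Finset (Fin N))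
    (he : ∀ i, (e i).card = s) (T : Finset (Fin M))
    (hT : (s - 1) * T.card + 1 ≤ (T.biUnion e).card) :
    ∃ i ∈ T, (e i ∩ (T.erase i).biUnion e).card ≤ 1 := by
  by_contra hcon
  push Not at hcon
  set U := T.biUnion e with hU
  set deg : Fin N → ℕ := fun v => (T.filter (fun i => v ∈ e i)).card with hdeg
  set A := U.filter (fun v => 2 ≤ deg v) with hA
  have h1 : ∑ i ∈ T, (U.filter (fun v => v ∈ e i)).card = ∑ v ∈ U, deg v := hypcol_dc e T U
  have h2 : ∑ i ∈ T, (A.filter (fun v => v ∈ e i)).card = ∑ v ∈ A, deg v := hypcol_dc e T A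
  have h3 : ∀ i ∈ T, (U.filter (fun v => v ∈ e i)).card = s := by
    intro i hi
    rw [← he i]
    congr 1
    ext v
    simp only [Finset.mem_filter, hU, Finset.mem_biUnion]
    constructor
    · rintro ⟨_, h⟩; exact h
    · intro h; exact ⟨⟨i, hi, h⟩, h⟩
  have h4 : ∀ i ∈ T, 2 ≤ (A.filter (fun v => v ∈ e i)).card := by
    intro i hi
    refine le_trans (hcon i hi) (Finset.card_le_card ?_)
    intro v hv
    simp only [Finset.mem_inter, Finset.mem_biUnion, Finset.mem_erase] at hv
    obtain ⟨hvi, j, ⟨hji, hj⟩, hvj⟩ := hv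
    simp only [hA, Finset.mem_filter, hU, Finset.mem_biUnion]
    refine ⟨⟨⟨i, hi, hvi⟩, ?_⟩, hvi⟩
    have : ({i, j} : Finset (Fin M)) ⊆ T.filter (fun i => v ∈ e i) := by
      intro l hl
      simp only [Finset.mem_insert, Finset.mem_singleton] at hl
      rw [Finset.mem_filter]
      rcases hl with rfl | rfl
      · exact ⟨hi, hvi⟩
      · exact ⟨hj, hvj⟩
    have h := Finset.card_le_card this
    rw [Finset.card_pair (Ne.symm hji)] at h
    exact h
  have h5 : s * T.card = ∑ v ∈ U, deg v := by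
    rw [← h1, Finset.sum_congr rfl h3, Finset.sum_const, smul_eq_mul, mul_comm]
  have h6 : 2 * T.card ≤ ∑ v ∈ A, deg v := by
    rw [← h2]
    have := Finset.sum_le_sum h4
    rw [Finset.sum_const, smul_eq_mul] at this
    omega
  have h7 : 2 * A.card ≤ ∑ v ∈ A, deg v := by
    have : ∑ v ∈ A, 2 ≤ ∑ v ∈ A, deg v := Finset.sum_le_sum (fun v hv => by
      rw [hA, Finset.mem_filter] at hv
      exact hv.2)
    rw [Finset.sum_const, smul_eq_mul] at this
    omega
  have h8 : ∑ v ∈ U, deg v = ∑ v ∈ A, deg v + ∑ v ∈ U.filter (fun v => ¬ 2 ≤ deg v), deg v :=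
    (Finset.sum_filter_add_sum_filter_not U (fun v => 2 ≤ deg v) deg).symm
  have h9 : (U.filter (fun v => ¬ 2 ≤ deg v)).card ≤
      ∑ v ∈ U.filter (fun v => ¬ 2 ≤ deg v), deg v := by
    rw [Finset.card_eq_sum_ones]
    apply Finset.sum_le_sum
    intro v hv
    rw [Finset.mem_filter, hU, Finset.mem_biUnion] at hv
    obtain ⟨⟨i, hi, hvi⟩, _⟩ := hv
    exact Finset.card_pos.2 ⟨i, Finset.mem_filter.2 ⟨hi, hvi⟩⟩
  have h10 : A.card + (U.filter (fun v => ¬ 2 ≤ deg v)).card = U.card :=
    Finset.card_filter_add_card_filter_not (s := U) (fun v => 2 ≤ deg v)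
  obtain ⟨s', rfl⟩ : ∃ s', s = s' + 1 := ⟨s - 1, by omega⟩
  rw [Nat.add_sub_cancel] at hT
  rw [Nat.add_mul, Nat.one_mul] at h5
  omega

/-- a rainbow colouring of the hyperedges of a sparse family -/
theorem hypcol_rainbow {N M : ℕ} (s K : ℕ) (hs : 2 ≤ s) (e : Fin M → Finset (Fin N))
    (he : ∀ i, (e i).card = s)
    (hT : ∀ T : Finset (Fin M), T.Nonempty → T.card ≤ K →
        (s - 1) * T.card + 1 ≤ (T.biUnion e).card) (T : Finset (Fin M)) (hK : T.card ≤ K) :
    ∃ c : Fin N → Fin s, ∀ i ∈ T, ∀ u ∈ e i, ∀ v ∈ e i, u ≠ v → c u ≠ c v := by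
  induction hn : T.card generalizing T with
  | zero =>
    rw [Finset.card_eq_zero] at hn
    subst hn
    exact ⟨fun _ => ⟨0, by omega⟩, fun i hi => absurd hi (Finset.notMem_empty i)⟩
  | succ n ih =>
    have hne : T.Nonempty := by
      rw [← Finset.card_pos]; omega
    obtain ⟨i, hi, hle⟩ := hypcol_leaf s hs e he T (hT T hne hK)
    obtain ⟨c, hc⟩ := ih (T.erase i) (by rw [Finset.card_erase_of_mem hi]; omega)
      (by rw [Finset.card_erase_of_mem hi]; omega)
    -- a bijection of e i with Fin s respecting c on the intersection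
    have hbij : ∃ g : Fin N → Fin s, (∀ u ∈ e i, ∀ v ∈ e i, u ≠ v → g u ≠ g v) ∧
        ∀ w ∈ e i ∩ (T.erase i).biUnion e, g w = c w := by
      have heq : Fintype.card {x // x ∈ e i} = Fintype.card (Fin s) := by
        rw [Fintype.card_coe, he i, Fintype.card_fin]
      obtain ⟨φ⟩ := Fintype.card_eq.1 heq
      rcases (e i ∩ (T.erase i).biUnion e).eq_empty_or_nonempty with h0 | ⟨w, hw⟩
      · refine ⟨fun v => if h : v ∈ e i then φ ⟨v, h⟩ else ⟨0, by omega⟩, ?_, ?_⟩
        · intro u hu v hv huv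
          simp only [dif_pos hu, dif_pos hv]
          intro h
          exact huv (congrArg Subtype.val (φ.injective h))
        · intro w hw
          rw [h0] at hw
          exact absurd hw (Finset.notMem_empty w)
      · have hwi : w ∈ e i := (Finset.mem_inter.1 hw).1
        refine ⟨fun v => if h : v ∈ e i then Equiv.swap (φ ⟨w, hwi⟩) (c w) (φ ⟨v, h⟩)
          else ⟨0, by omega⟩, ?_, ?_⟩
        · intro u hu v hv huv
          simp only [dif_pos hu, dif_pos hv]
          intro h
          exact huv (congrArg Subtype.val (φ.injective ((Equiv.swap _ _).injective h)))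
        · intro w' hw'
          have hww : w' = w := by
            by_contra hne'
            have h2 : ({w', w} : Finset (Fin N)) ⊆ e i ∩ (T.erase i).biUnion e := by
              intro l hl
              simp only [Finset.mem_insert, Finset.mem_singleton] at hl
              rcases hl with rfl | rfl
              · exact hw'
              · exact hw
            have h3 := Finset.card_le_card h2
            rw [Finset.card_pair hne'] at h3
            omega
          subst hww
          simp only [dif_pos hwi, Equiv.swap_apply_left]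
    obtain ⟨g, hg1, hg2⟩ := hbij
    refine ⟨fun v => if v ∈ e i then g v else c v, ?_⟩
    intro j hj u hu v hv huv
    by_cases hji : j = i
    · subst hji
      simp only [if_pos hu, if_pos hv]
      exact hg1 u hu v hv huv
    · have hval : ∀ x ∈ e j, (if x ∈ e i then g x else c x) = c x := by
        intro x hx
        by_cases hxi : x ∈ e i
        · rw [if_pos hxi]
          apply hg2
          rw [Finset.mem_inter, Finset.mem_biUnion]
          exact ⟨hxi, j, Finset.mem_erase.2 ⟨hji, hj⟩, hx⟩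
        · rw [if_neg hxi]
      simp only
      rw [hval u hu, hval v hv]
      exact hc j (Finset.mem_erase.2 ⟨hji, hj⟩) u hu v hv huv

/-- local sparsity implies local `s`-colourability of the union of cliques -/
theorem hyp_col {N M : ℕ} (s k : ℕ) (hs : 2 ≤ s) (e : Fin M → Finset (Fin N))
    (he : ∀ i, (e i).card = s)
    (hT : ∀ T : Finset (Fin M), T.Nonempty → T.card ≤ k * k →
        (s - 1) * T.card + 1 ≤ (T.biUnion e).card) :
    ∀ Y : Finset (Fin N), Y.card ≤ k → ∃ c : Fin N → Fin s, ∀ u ∈ Y, ∀ v ∈ Y, u ≠ v →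
      (∃ i, u ∈ e i ∧ v ∈ e i) → c u ≠ c v := by
  intro Y hY
  set P := (Y ×ˢ Y).filter (fun q => ∃ i, q.1 ∈ e i ∧ q.2 ∈ e i) with hP
  have hch : ∀ q : Fin N × Fin N, q ∈ P → ∃ i, q.1 ∈ e i ∧ q.2 ∈ e i := by
    intro q hq
    rw [hP, Finset.mem_filter] at hq
    exact hq.2
  rcases P.eq_empty_or_nonempty with hM | ⟨q0, hq0⟩
  · refine ⟨fun _ => ⟨0, by omega⟩, fun u hu v hv huv hi => ?_⟩
    have hq : (u, v) ∈ P := by
      rw [hP, Finset.mem_filter, Finset.mem_product]
      exact ⟨⟨hu, hv⟩, hi⟩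
    rw [hM] at hq
    exact absurd hq (Finset.notMem_empty _)
  have : Nonempty (Fin M) := by
    obtain ⟨i, _⟩ := hch q0 hq0
    exact ⟨i⟩
  choose! f hf using hch
  obtain ⟨c, hc⟩ : ∃ c : Fin N → Fin s, ∀ i ∈ P.image f, ∀ u ∈ e i, ∀ v ∈ e i, u ≠ v →
      c u ≠ c v := by
    apply hypcol_rainbow s (k * k) hs e he hT
    calc (P.image f).card ≤ P.card := Finset.card_image_le
      _ ≤ (Y ×ˢ Y).card := Finset.card_filter_le _ _
      _ = Y.card * Y.card := Finset.card_product _ _
      _ ≤ k * k := Nat.mul_le_mul hY hY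
  refine ⟨c, fun u hu v hv huv hi => ?_⟩
  have hq : (u, v) ∈ P := by
    rw [hP, Finset.mem_filter, Finset.mem_product]
    exact ⟨⟨hu, hv⟩, hi⟩
  have := hf (u, v) hq
  exact hc (f (u, v)) (Finset.mem_image.2 ⟨_, hq, rfl⟩) u this.1 v this.2 huv

end Pool.Bbc38
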