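import Pool.Agent.Lib.MP_bbc38a_co.HypG
import Pool.Agent.Lib.MP_bbc38a_co.HypCol


set_option autoImplicit false
open Classical

namespace Pool.Bbc38

/-- an injection of `Fin k` into a large finset -/
theorem exj0_inj {α : Type} (D : Finset α) (k : ℕ) (h : k ≤ D.card) :
    ∃ f : Fin k → α, (∀ i, f i ∈ D) ∧ Function.Injective f := by
  obtain ⟨T, hT, hc⟩ := Finset.exists_subset_card_eq h
  refine ⟨fun i => ((T.equivFinOfCardEq hc).symm i : α), fun i => hT ?_, ?_⟩
  · exact ((T.equivFinOfCardEq hc).symm i).2
  · intro i j hij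
    exact (T.equivFinOfCardEq hc).symm.injective (Subtype.ext hij)

/-- the blow-up of the union of the cliques on the sets `e i` -/
def exj0_graph {N M q : ℕ} (e : Fin M → Finset (Fin N)) : SimpleGraph (Fin (N * q)) where
  Adj u v := (finProdFinEquiv.symm u).1 ≠ (finProdFinEquiv.symm v).1 ∧
    ∃ i, (finProdFinEquiv.symm u).1 ∈ e i ∧ (finProdFinEquiv.symm v).1 ∈ e i
  symm := ⟨fun _ _ h => ⟨h.1.symm, h.2.elim fun i hi => ⟨i, hi.2, hi.1⟩⟩⟩
  loopless := ⟨fun _ h => h.1 rfl⟩

theorem exists_J0 (s k : ℕ) (hs : 1 ≤ s) (δ : ℝ) (hδ : 0 < δ) :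
    ∃ (N : ℕ) (J0 : SimpleGraph (Fin N)), 0 < N ∧ LocCol J0 s k ∧
      ∀ D : Finset (Fin N), δ * N ≤ (D.card : ℝ) → HasKs J0 s k (D : Set (Fin N)) := by
  rcases Nat.eq_or_lt_of_le hs with h1 | h2
  · subst h1
    obtain ⟨N, hN⟩ := exists_nat_ge (k / δ)
    have hN' : (k : ℝ) ≤ δ * N := by
      rw [div_le_iff₀ hδ] at hN; linarith
    refine ⟨N + 1, ⊥, Nat.succ_pos _, ?_, ?_⟩
    · intro Y _
      exact ⟨fun _ => 0, fun u _ v _ h => absurd h (by simp)⟩
    · intro D hD
      have hk : k ≤ D.card := by
        have : (k : ℝ) ≤ D.card := by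
          push_cast at hD; nlinarith
        exact_mod_cast this
      obtain ⟨f, hf, hi⟩ := exj0_inj D k hk
      refine ⟨fun _ i => f i, fun _ i => hf i, ?_, ?_⟩
      · intro c i c' i' h
        exact ⟨Subsingleton.elim _ _, hi h⟩
      · intro c i c' i' h
        exact absurd (Subsingleton.elim c c') h
  · have hs2 : 2 ≤ s := h2
    obtain ⟨N, M, e, hN, he, hT, hS⟩ := exists_hyp s (k * k) hs2 (δ / 2) (by linarith)
    have hcol := hyp_col s k hs2 e he hT
    obtain ⟨q, hq⟩ := exists_nat_ge (2 * k / δ)
    have hq' : 2 * (k : ℝ) ≤ δ * q := by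
      rw [div_le_iff₀ hδ] at hq; linarith
    refine ⟨N * (q + 1), exj0_graph e, Nat.mul_pos hN (Nat.succ_pos _), ?_, ?_⟩
    · intro Y hY
      obtain ⟨c, hc⟩ := hcol (Y.image (fun u => (finProdFinEquiv.symm u).1))
        (Finset.card_image_le.trans hY)
      refine ⟨fun u => c (finProdFinEquiv.symm u).1, ?_⟩
      intro u hu v hv huv
      exact hc _ (Finset.mem_image_of_mem _ hu) _ (Finset.mem_image_of_mem _ hv) huv.1 huv.2
    · intro D hD
      let fib : Fin N → Finset (Fin (N * (q + 1))) := fun u =>
        D.filter (fun x => (finProdFinEquiv.symm x).1 = u)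
      let S : Finset (Fin N) := Finset.univ.filter (fun u => k ≤ (fib u).card)
      have hfibq : ∀ u, (fib u).card ≤ q + 1 := by
        intro u
        have : (fib u) ⊆ (Finset.univ : Finset (Fin (q + 1))).image
            (fun a => finProdFinEquiv (u, a)) := by
          intro x hx
          simp only [fib, Finset.mem_filter] at hx
          simp only [Finset.mem_image, Finset.mem_univ, true_and]
          refine ⟨(finProdFinEquiv.symm x).2, ?_⟩
          rw [← hx.2]
          exact finProdFinEquiv.apply_symm_apply x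
        calc (fib u).card ≤ _ := Finset.card_le_card this
          _ ≤ (Finset.univ : Finset (Fin (q + 1))).card := Finset.card_image_le
          _ = q + 1 := by simp
      have hsum : D.card = ∑ u : Fin N, (fib u).card :=
        Finset.card_eq_sum_card_fiberwise (fun x _ => Finset.mem_coe.2 (Finset.mem_univ _))
      have hle : ∀ u : Fin N, (fib u).card ≤ k + (if k ≤ (fib u).card then q + 1 else 0) := by
        intro u
        split_ifs with h
        · exact (hfibq u).trans (by omega)
        · omega
      have hD2 : D.card ≤ N * k + S.card * (q + 1) := by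
        rw [hsum]
        calc ∑ u : Fin N, (fib u).card
            ≤ ∑ u : Fin N, (k + (if k ≤ (fib u).card then q + 1 else 0)) :=
              Finset.sum_le_sum (fun u _ => hle u)
          _ = N * k + S.card * (q + 1) := by
              rw [Finset.sum_add_distrib, ← Finset.sum_filter]
              simp [S]
      have hSc : δ / 2 * N ≤ (S.card : ℝ) := by
        have h3 : (D.card : ℝ) ≤ N * k + S.card * (q + 1) := by exact_mod_cast hD2
        push_cast at hD
        have hNpos : (0 : ℝ) < N := by exact_mod_cast hN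
        have hqpos : (0 : ℝ) < (q : ℝ) + 1 := by positivity
        by_contra hcon
        rw [not_le] at hcon
        have h4 : (S.card : ℝ) * (q + 1) < δ / 2 * N * (q + 1) :=
          mul_lt_mul_of_pos_right hcon hqpos
        have h5 : (N : ℝ) * k ≤ δ / 2 * N * (q + 1) := by
          have : (k : ℝ) ≤ δ / 2 * (q + 1) := by nlinarith
          calc (N : ℝ) * k ≤ N * (δ / 2 * (q + 1)) := mul_le_mul_of_nonneg_left this hNpos.le
            _ = δ / 2 * N * (q + 1) := by ring
        nlinarith
      obtain ⟨i, hi⟩ := hS S hSc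
      have hfk : ∀ u : Fin N, ∃ f : Fin k → Fin (N * (q + 1)), u ∈ S →
          (∀ j, f j ∈ fib u) ∧ Function.Injective f := by
        intro u
        by_cases hu : u ∈ S
        · obtain ⟨f, h1, h2⟩ := exj0_inj (fib u) k (Finset.mem_filter.1 hu).2
          exact ⟨f, fun _ => ⟨h1, h2⟩⟩
        · exact ⟨fun _ => finProdFinEquiv (u, 0), fun h => absurd h hu⟩
      choose f hf' using hfk
      have hf : ∀ u, u ∈ S → ∀ j, f u j ∈ fib u := fun u hu => (hf' u hu).1
      have hfi : ∀ u, u ∈ S → Function.Injective (f u) := fun u hu => (hf' u hu).2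
      let en : Fin s → Fin N := fun c => (((e i).equivFinOfCardEq (he i)).symm c : Fin N)
      have hen : ∀ c, en c ∈ e i := fun c => (((e i).equivFinOfCardEq (he i)).symm c).2
      have henS : ∀ c, en c ∈ S := fun c => hi (hen c)
      have heni : Function.Injective en := by
        intro a b hab
        exact ((e i).equivFinOfCardEq (he i)).symm.injective (Subtype.ext hab)
      have hfst : ∀ c j, (finProdFinEquiv.symm (f (en c) j)).1 = en c := by
        intro c j
        exact (Finset.mem_filter.1 (hf (en c) (henS c) j)).2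
      refine ⟨fun c j => f (en c) j, ?_, ?_, ?_⟩
      · intro c j
        exact (Finset.mem_filter.1 (hf (en c) (henS c) j)).1
      · intro c j c' j' h
        have hcc : en c = en c' := by
          rw [← hfst c j, ← hfst c' j']
          exact congrArg (fun x => (finProdFinEquiv.symm x).1) h
        have hcc' : c = c' := heni hcc
        subst hcc'
        exact ⟨rfl, hfi (en c) (henS c) h⟩
      · intro c j c' j' h
        refine ⟨?_, i, ?_, ?_⟩
        · rw [hfst, hfst]
          exact fun h' => h (heni h')
        · rw [hfst]; exact hen c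
        · rw [hfst]; exact hen c'

end Pool.Bbc38
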