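import Pool.Agent.Lib.MP_bbc38a_co.TailXS


set_option autoImplicit false
open Classical

namespace Pool.Bbc38

theorem wbad_card_le {n : ℕ} (V : Finset (Fin n)) (k : ℕ) :
    (((V.powerset ×ˢ (Finset.univ : Finset (Fin n)).powersetCard k)).card : ℝ) ≤
      Real.exp (V.card * Real.log 2) * (n : ℝ) ^ k := by
  rw [Finset.card_product, Finset.card_powerset, Finset.card_powersetCard, Finset.card_univ,
    Fintype.card_fin]
  push_cast
  have h1 : (2 : ℝ) ^ V.card = Real.exp (V.card * Real.log 2) := by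
    rw [← Real.exp_log (show (0 : ℝ) < 2 by norm_num), ← Real.exp_nat_mul, Real.exp_log (by norm_num)]
  rw [h1]
  gcongr
  exact_mod_cast Nat.choose_le_pow n k

theorem whp_bad {p : ℝ} (hp0 : 0 < p) (hp1 : p < 1) (ε : ℝ) (hε : 0 < ε) :
    ∃ δ : ℝ, 0 < δ ∧ ∀ C : ℝ, ∃ K1 : ℕ, ∀ V : (n : ℕ) → Finset (Fin n),
      (∀ᶠ n : ℕ in Filter.atTop, ((V n).card : ℝ) ≤ C * Real.log n) →
      Whp p (fun n => {G | ∀ S ⊆ V n, (1 + ε) * LL p n ≤ (S.card : ℝ) →
        (Finset.univ.filter (fun x => x ∉ S ∧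
          ((cn G {x} S).card : ℝ) < δ * Real.log n)).card ≤ K1}) := by
  set b : ℝ := Real.log (1 / (1 - p)) with hb
  have hq : 0 < 1 - p := by linarith
  have hb0 : 0 < b := by
    apply Real.log_pos
    rw [lt_div_iff₀ hq]
    linarith
  set β : ℝ := (1 + ε / 2) / (1 + ε) with hβ
  have hβ0 : 0 < β := by positivity
  have hβ1 : β < 1 := by
    rw [hβ, div_lt_one (by positivity)]
    linarith
  set θ : ℝ := Real.exp (-(β * b)) with hθ
  have hθ1 : 1 - p < θ := by
    have h1 : 1 - p = Real.exp (-b) := by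
      rw [hb, one_div, Real.log_inv, neg_neg, Real.exp_log hq]
    rw [h1, hθ, Real.exp_lt_exp]
    nlinarith
  obtain ⟨κ, hκ, htail⟩ := tailXS_small hp0 hp1 θ hθ1
  refine ⟨κ * (1 + ε) / b, by positivity, fun C => ?_⟩
  obtain ⟨K1, hK1⟩ := exists_nat_gt (2 * (C * Real.log 2) / ε)
  refine ⟨K1, fun V hV => ?_⟩
  set a : ℝ := ε / 2 * (K1 + 1) - C * Real.log 2 with ha
  have ha0 : 0 < a := by
    rw [div_lt_iff₀ hε] at hK1
    rw [ha]
    nlinarith
  have hu : Filter.Tendsto (fun n : ℕ => Real.exp (-(a * Real.log n))) Filter.atTop (nhds 0) := by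
    refine Real.tendsto_exp_neg_atTop_nhds_zero.comp ?_
    exact (Real.tendsto_log_atTop.comp tendsto_natCast_atTop_atTop).const_mul_atTop ha0
  refine whp_of_compl_le hp0.le hp1.le _ _ hu ?_
  filter_upwards [hV, Filter.eventually_ge_atTop 1] with n hVn hn1
  have hn : (0 : ℝ) < n := by exact_mod_cast hn1
  have hlog : 0 ≤ Real.log n := Real.log_nonneg (by exact_mod_cast hn1)
  have hL : LL p n = Real.log n / b := rfl
  set I : Finset (Finset (Fin n) × Finset (Fin n)) :=
    ((V n).powerset ×ˢ (Finset.univ : Finset (Fin n)).powersetCard (K1 + 1)).filter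
      (fun q => Disjoint q.2 q.1 ∧ (1 + ε) * LL p n ≤ (q.1.card : ℝ)) with hI
  set B : Finset (Fin n) × Finset (Fin n) → Set (SimpleGraph (Fin n)) := fun q =>
    {G | (∑ x ∈ q.2, ((cn G {x} q.1).card : ℝ)) ≤ κ * (q.2.card * q.1.card : ℕ)} with hB
  have hsub : {G : SimpleGraph (Fin n) | ∀ S ⊆ V n, (1 + ε) * LL p n ≤ (S.card : ℝ) →
        (Finset.univ.filter (fun x => x ∉ S ∧
          ((cn G {x} S).card : ℝ) < κ * (1 + ε) / b * Real.log n)).card ≤ K1}ᶜ
      ⊆ {G | ∃ i ∈ I, G ∈ B i} := by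
    intro G hG
    rw [Set.mem_compl_iff, Set.mem_ofPred_eq] at hG
    push Not at hG
    obtain ⟨S, hSV, hSL, hcard⟩ := hG
    obtain ⟨X, hXsub, hXcard⟩ := Finset.exists_subset_card_eq (Nat.succ_le_of_lt hcard)
    refine ⟨(S, X), ?_, ?_⟩
    · rw [hI, Finset.mem_filter, Finset.mem_product, Finset.mem_powerset,
        Finset.mem_powersetCard]
      refine ⟨⟨hSV, Finset.subset_univ _, hXcard⟩, ?_, hSL⟩
      rw [Finset.disjoint_left]
      intro x hx hxS
      exact (Finset.mem_filter.1 (hXsub hx)).2.1 hxS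
    · show (∑ x ∈ X, ((cn G {x} S).card : ℝ)) ≤ κ * (X.card * S.card : ℕ)
      calc (∑ x ∈ X, ((cn G {x} S).card : ℝ)) ≤ ∑ x ∈ X, κ * (S.card : ℝ) := by
            refine Finset.sum_le_sum fun x hx => ?_
            have h1 := (Finset.mem_filter.1 (hXsub hx)).2.2
            refine h1.le.trans ?_
            rw [hL] at hSL
            calc κ * (1 + ε) / b * Real.log n = κ * ((1 + ε) * (Real.log n / b)) := by ring
              _ ≤ κ * (S.card : ℝ) := by gcongr
        _ = κ * (X.card * S.card : ℕ) := by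
            rw [Finset.sum_const, nsmul_eq_mul]
            push_cast
            ring
  refine (Pr_mono hp0.le hp1.le hsub).trans ((Pr_exists_le hp0.le hp1.le I B).trans ?_)
  have hterm : ∀ i ∈ I, Pr p n (B i) ≤ Real.exp (-((1 + ε / 2) * (K1 + 1) * Real.log n)) := by
    intro i hi
    rw [hI, Finset.mem_filter, Finset.mem_product, Finset.mem_powerset,
        Finset.mem_powersetCard] at hi
    obtain ⟨⟨_, _, hXcard⟩, hdis, hSL⟩ := hi
    refine (htail n i.2 i.1 hdis).trans ?_
    rw [hθ, ← Real.exp_nat_mul, Real.exp_le_exp]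
    rw [hXcard]
    push_cast
    rw [hL] at hSL
    have h1 : β * b * ((1 + ε) * (Real.log n / b)) = (1 + ε / 2) * Real.log n := by
      rw [hβ]
      field_simp
    have h2 : (1 + ε / 2) * Real.log n ≤ β * b * (i.1.card : ℝ) := by
      rw [← h1]
      gcongr
    have h3 : (0 : ℝ) ≤ K1 + 1 := by positivity
    nlinarith [mul_le_mul_of_nonneg_left h2 h3]
  calc ∑ i ∈ I, Pr p n (B i)
      ≤ ∑ _i ∈ I, Real.exp (-((1 + ε / 2) * (K1 + 1) * Real.log n)) := Finset.sum_le_sum hterm
    _ = (I.card : ℝ) * Real.exp (-((1 + ε / 2) * (K1 + 1) * Real.log n)) := by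
        rw [Finset.sum_const, nsmul_eq_mul]
    _ ≤ (Real.exp ((V n).card * Real.log 2) * (n : ℝ) ^ (K1 + 1)) *
          Real.exp (-((1 + ε / 2) * (K1 + 1) * Real.log n)) := by
        gcongr
        refine le_trans ?_ (wbad_card_le (V n) (K1 + 1))
        exact_mod_cast Finset.card_filter_le _ _
    _ ≤ (Real.exp (C * Real.log n * Real.log 2) * Real.exp ((K1 + 1) * Real.log n)) *
          Real.exp (-((1 + ε / 2) * (K1 + 1) * Real.log n)) := by
        have h2 : (n : ℝ) ^ (K1 + 1) = Real.exp ((K1 + 1) * Real.log n) := by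
          have := Real.exp_nat_mul (Real.log n) (K1 + 1)
          rw [Real.exp_log hn] at this
          rw [← this]
          push_cast
          ring_nf
        rw [h2]
        have h3 : 0 ≤ Real.log 2 := Real.log_nonneg (by norm_num)
        gcongr
    _ = Real.exp (-(a * Real.log n)) := by
        rw [← Real.exp_add, ← Real.exp_add, ha]
        ring_nf

end Pool.Bbc38
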