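import Pool.Agent.Lib.MP_bbc38a_co.TailXS


set_option autoImplicit false
open Classical

namespace Pool.Bbc38

/-- the edges inside `T` -/
noncomputable def wclq_E {n : ℕ} (T : Finset (Fin n)) : Finset (Sym2 (Fin n)) :=
  T.offDiag.image (fun q => s(q.1, q.2))

theorem wclq_mem_E {n : ℕ} (T : Finset (Fin n)) (e : Sym2 (Fin n)) :
    e ∈ wclq_E T ↔ ∃ x ∈ T, ∃ y ∈ T, x ≠ y ∧ e = s(x, y) := by
  simp only [wclq_E, Finset.mem_image, Finset.mem_offDiag, Prod.exists]
  constructor
  · rintro ⟨x, y, ⟨hx, hy, hxy⟩, rfl⟩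
    exact ⟨x, hx, y, hy, hxy, rfl⟩
  · rintro ⟨x, hx, y, hy, hxy, rfl⟩
    exact ⟨x, y, ⟨hx, hy, hxy⟩, rfl⟩

theorem wclq_card_E {n : ℕ} (T : Finset (Fin n)) : (wclq_E T).card ≤ T.card * T.card := by
  refine le_trans Finset.card_image_le ?_
  rw [Finset.offDiag_card]
  exact Nat.sub_le _ _

theorem wclq_idx {n : ℕ} (S : Finset (Fin n)) (m : ℕ) (h : S.card = m) :
    ∃ idx : Fin n → ℕ, Set.InjOn idx (S : Set (Fin n)) ∧ S.image idx = Finset.range m := by
  let e : S ≃ Fin m := Finset.equivFinOfCardEq h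
  refine ⟨fun x => if hx : x ∈ S then (e ⟨x, hx⟩ : ℕ) else 0, ?_, ?_⟩
  · intro x hx y hy hxy
    have hx' : x ∈ S := hx
    have hy' : y ∈ S := hy
    simp only [hx', hy', dif_pos] at hxy
    have := e.injective (Fin.ext hxy)
    exact congrArg Subtype.val this
  · ext k
    simp only [Finset.mem_image, Finset.mem_range]
    constructor
    · rintro ⟨x, hx, rfl⟩
      simp only [hx, dif_pos]
      exact (e ⟨x, hx⟩).2
    · intro hk
      refine ⟨(e.symm ⟨k, hk⟩ : S), (e.symm ⟨k, hk⟩).2, ?_⟩
      simp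

/-- many `N`-subsets pairwise sharing at most one element -/
theorem wclq_lines {n : ℕ} (S : Finset (Fin n)) (N a : ℕ) (h : N * (2 * N * a) ≤ S.card) :
    ∃ T : ℕ × ℕ → Finset (Fin n),
      (∀ i ∈ Finset.range a ×ˢ Finset.range (N * a), T i ⊆ S ∧ (T i).card = N) ∧
      (∀ i ∈ Finset.range a ×ˢ Finset.range (N * a),
        ∀ j ∈ Finset.range a ×ˢ Finset.range (N * a), i ≠ j →
        ∀ x y, x ∈ T i → x ∈ T j → y ∈ T i → y ∈ T j → x = y) := by
  obtain ⟨S', hS', hcard⟩ := Finset.exists_subset_card_eq h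
  obtain ⟨idx, hinj, himg⟩ := wclq_idx S' _ hcard
  set M := 2 * N * a with hM
  refine ⟨fun i => S'.filter (fun x => idx x % M = i.1 * (idx x / M) + i.2), ?_, ?_⟩
  · rintro ⟨α, β⟩ hi
    simp only [Finset.mem_product, Finset.mem_range] at hi
    refine ⟨(Finset.filter_subset _ _).trans hS', ?_⟩
    -- the positions
    have hlt : ∀ k, k < N → α * k + β < M := by
      intro k hk
      have h1 : α * k ≤ N * a := by
        calc α * k ≤ a * N := Nat.mul_le_mul hi.1.le hk.le
          _ = N * a := Nat.mul_comm _ _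
      have h2 : M = N * a + N * a := by rw [hM]; ring
      omega
    have hMpos : ∀ k, k < N → 0 < M := fun k hk => lt_of_le_of_lt (Nat.zero_le _) (hlt k hk)
    have hpos : ∀ k, k < N → (k * M + (α * k + β)) / M = k ∧
        (k * M + (α * k + β)) % M = α * k + β := by
      intro k hk
      have h1 := hlt k hk
      have h2 := hMpos k hk
      constructor
      · rw [Nat.mul_comm, Nat.mul_add_div h2, Nat.div_eq_of_lt h1, Nat.add_zero]
      · rw [Nat.mul_comm, Nat.mul_add_mod, Nat.mod_eq_of_lt h1]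
    have himage : (S'.filter (fun x => idx x % M = α * (idx x / M) + β)).image idx =
        (Finset.range N).image (fun k => k * M + (α * k + β)) := by
      ext q
      simp only [Finset.mem_image, Finset.mem_filter, Finset.mem_range]
      constructor
      · rintro ⟨x, ⟨hx, hx2⟩, rfl⟩
        have hx3 : idx x < N * M := by
          have : idx x ∈ S'.image idx := Finset.mem_image_of_mem _ hx
          rw [himg] at this
          exact Finset.mem_range.mp this
        refine ⟨idx x / M, ?_, ?_⟩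
        · exact Nat.div_lt_of_lt_mul (by rw [Nat.mul_comm]; exact hx3)
        · rw [← hx2, Nat.mul_comm]
          exact Nat.div_add_mod _ _
      · rintro ⟨k, hk, rfl⟩
        have hk1 := hlt k hk
        have hk2 : k * M + (α * k + β) < N * M := by
          have : (k + 1) * M ≤ N * M := Nat.mul_le_mul_right _ hk
          have h3 : (k + 1) * M = k * M + M := by ring
          omega
        have hk3 : k * M + (α * k + β) ∈ S'.image idx := by
          rw [himg]
          exact Finset.mem_range.mpr hk2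
        obtain ⟨x, hx, hxk⟩ := Finset.mem_image.mp hk3
        refine ⟨x, ⟨hx, ?_⟩, hxk⟩
        rw [hxk, (hpos k hk).1, (hpos k hk).2]
    have hc1 : ((S'.filter (fun x => idx x % M = α * (idx x / M) + β)).image idx).card =
        (S'.filter (fun x => idx x % M = α * (idx x / M) + β)).card := by
      apply Finset.card_image_of_injOn
      intro x hx y hy hxy
      simp only [Finset.coe_filter, Set.mem_ofPred_eq] at hx hy
      exact hinj hx.1 hy.1 hxy
    have hc2 : ((Finset.range N).image (fun k => k * M + (α * k + β))).card = N := by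
      rw [Finset.card_image_of_injOn, Finset.card_range]
      intro k hk k' hk' hkk
      simp only [Finset.coe_range, Set.mem_Iio] at hk hk'
      have h1 := (hpos k hk).1
      have h2 := (hpos k' hk').1
      simp only at hkk
      rw [hkk] at h1
      exact h1.symm.trans h2
    show (S'.filter (fun x => idx x % M = α * (idx x / M) + β)).card = N
    rw [← hc1, himage, hc2]
  · rintro ⟨α, β⟩ - ⟨α', β'⟩ - hij x y hx hx' hy hy'
    simp only [Finset.mem_filter] at hx hx' hy hy'
    have hdiv : idx x / M = idx y / M := by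
      by_contra hne
      apply hij
      have e1 : α * (idx x / M) + β = α' * (idx x / M) + β' := by rw [← hx.2, ← hx'.2]
      have e2 : α * (idx y / M) + β = α' * (idx y / M) + β' := by rw [← hy.2, ← hy'.2]
      have e3 : ((α : ℤ) - α') * ((idx x / M : ℕ) - (idx y / M : ℕ) : ℤ) = 0 := by
        have e1' : (α : ℤ) * (idx x / M : ℕ) + β = α' * (idx x / M : ℕ) + β' := by
          exact_mod_cast e1
        have e2' : (α : ℤ) * (idx y / M : ℕ) + β = α' * (idx y / M : ℕ) + β' := by
          exact_mod_cast e2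
        linear_combination e1' - e2'
      rcases mul_eq_zero.mp e3 with h3 | h3
      · have : α = α' := by omega
        subst this
        have : β = β' := by omega
        rw [this]
      · exfalso
        apply hne
        omega
    apply hinj hx.1 hy.1
    have h1 : idx x % M = idx y % M := by rw [hx.2, hy.2, hdiv]
    rw [← Nat.div_add_mod (idx x) M, ← Nat.div_add_mod (idx y) M, hdiv, h1]

/-- fixed set: exponential bound -/
theorem wclq_fixed {p : ℝ} (hp0 : 0 < p) (hp1 : p < 1) {n : ℕ} (N a : ℕ) (hN : 1 ≤ N)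
    (S : Finset (Fin n)) (h : N * (2 * N * a) ≤ S.card) :
    Pr p n {G | ¬ ∃ T ⊆ S, T.card = N ∧ G.IsClique (T : Set (Fin n))} ≤
      Real.exp (-(p ^ (N * N) * (a : ℝ) ^ 2)) := by
  obtain ⟨T, hT1, hT2⟩ := wclq_lines S N a h
  set I := Finset.range a ×ˢ Finset.range (N * a) with hI
  have hD : Disj I (fun i => wclq_E (T i)) (fun _ => (∅ : Finset (Sym2 (Fin n)))) := by
    refine ⟨?_, ?_, ?_⟩
    · intro i _ e he
      simp only [Finset.union_empty] at he
      obtain ⟨x, _, y, _, hxy, rfl⟩ := (wclq_mem_E _ _).mp he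
      simpa using hxy
    · intro i _
      exact Finset.disjoint_empty_right _
    · intro i hi j hj hij
      simp only [Finset.union_empty]
      rw [Finset.disjoint_left]
      intro e he he'
      obtain ⟨x, hx, y, hy, hxy, rfl⟩ := (wclq_mem_E _ _).mp he
      obtain ⟨x', hx', y', hy', _, he2⟩ := (wclq_mem_E _ _).mp he'
      rw [Sym2.eq_iff] at he2
      rcases he2 with ⟨rfl, rfl⟩ | ⟨rfl, rfl⟩
      · exact hxy (hT2 i hi j hj hij _ _ hx hx' hy hy')
      · exact hxy (hT2 i hi j hj hij _ _ hx hy' hy hx')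
  have h1 := tail_zero hp0.le hp1.le I (fun i => wclq_E (T i)) (fun _ => ∅) hD (p ^ (N * N)) (by
    intro i hi
    simp only [Finset.card_empty, pow_zero, mul_one]
    refine pow_le_pow_of_le_one hp0.le hp1.le ?_
    have := wclq_card_E (T i)
    rw [(hT1 i hi).2] at this
    exact this)
  have h2 : Pr p n {G | ¬ ∃ T ⊆ S, T.card = N ∧ G.IsClique (T : Set (Fin n))} ≤
      Pr p n {G | cnt I (fun i => wclq_E (T i)) (fun _ => ∅) G = 0} := by
    apply Pr_mono hp0.le hp1.le
    intro G hG
    simp only [Set.mem_ofPred_eq] at hG ⊢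
    rw [cnt, Finset.card_eq_zero]
    apply Finset.eq_empty_of_forall_notMem
    intro i hi
    rw [Finset.mem_filter] at hi
    apply hG
    refine ⟨T i, (hT1 i hi.1).1, (hT1 i hi.1).2, ?_⟩
    intro x hx y hy hxy
    exact hi.2.1 _ ((wclq_mem_E _ _).mpr ⟨x, hx, y, hy, hxy, rfl⟩)
  refine h2.trans (h1.trans ?_)
  have hq0 : 0 ≤ p ^ (N * N) := pow_nonneg hp0.le _
  have hq1 : p ^ (N * N) ≤ 1 := pow_le_one₀ hp0.le hp1.le
  have hcard : a ^ 2 ≤ I.card := by
    rw [hI, Finset.card_product, Finset.card_range, Finset.card_range]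
    calc a ^ 2 = a * (1 * a) := by ring
      _ ≤ a * (N * a) := Nat.mul_le_mul_left _ (Nat.mul_le_mul_right _ hN)
  calc (1 - p ^ (N * N)) ^ I.card ≤ (1 - p ^ (N * N)) ^ (a ^ 2) :=
        pow_le_pow_of_le_one (by linarith) (by linarith) hcard
    _ ≤ (Real.exp (-(p ^ (N * N)))) ^ (a ^ 2) := by
        apply pow_le_pow_left₀ (by linarith)
        have := Real.add_one_le_exp (-(p ^ (N * N)))
        linarith
    _ = Real.exp (-(p ^ (N * N) * (a : ℝ) ^ 2)) := by
        rw [← Real.exp_nat_mul]
        congr 1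
        push_cast
        ring

theorem wclq_tendsto (C c3 : ℝ) (hc3 : 0 < c3) :
    Filter.Tendsto (fun n : ℕ => Real.exp (C * Real.log n - c3 * Real.log n ^ 2))
      Filter.atTop (nhds 0) := by
  have hlog : Filter.Tendsto (fun n : ℕ => Real.log (n : ℝ)) Filter.atTop Filter.atTop :=
    Real.tendsto_log_atTop.comp tendsto_natCast_atTop_atTop
  apply Real.tendsto_exp_atBot.comp
  have h1 : (fun n : ℕ => C * Real.log n - c3 * Real.log n ^ 2) =
      fun n : ℕ => Real.log n * (C - c3 * Real.log n) := by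
    funext n
    ring
  rw [h1]
  apply Filter.Tendsto.atTop_mul_atBot₀ hlog
  apply Filter.tendsto_atBot_add_const_left
  simp only [← neg_mul]
  exact Filter.Tendsto.const_mul_atTop_of_neg (by linarith) hlog

theorem whp_clq {p : ℝ} (hp0 : 0 < p) (hp1 : p < 1) (N : ℕ) (C c : ℝ) (hc : 0 < c)
    (V : (n : ℕ) → Finset (Fin n))
    (hV : ∀ᶠ n : ℕ in Filter.atTop, ((V n).card : ℝ) ≤ C * Real.log n) :
    Whp p (fun n => {G | ∀ S ⊆ V n, c * Real.log n ≤ (S.card : ℝ) →
      ∃ T ⊆ S, T.card = N ∧ G.IsClique (T : Set (Fin n))}) := by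
  have hlog : Filter.Tendsto (fun n : ℕ => Real.log (n : ℝ)) Filter.atTop Filter.atTop :=
    Real.tendsto_log_atTop.comp tendsto_natCast_atTop_atTop
  rcases Nat.eq_zero_or_pos N with hN | hN
  · -- trivial case
    subst hN
    refine whp_of_compl_le hp0.le hp1.le _ (fun _ => 0) tendsto_const_nhds ?_
    refine Filter.Eventually.of_forall fun n => ?_
    have h1 : {G : SimpleGraph (Fin n) | ∀ S ⊆ V n, c * Real.log n ≤ (S.card : ℝ) →
        ∃ T ⊆ S, T.card = 0 ∧ G.IsClique (T : Set (Fin n))} = Set.univ := by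
      apply Set.eq_univ_of_forall
      intro G S _ _
      exact ⟨∅, Finset.empty_subset _, rfl, by simp⟩
    simp only [h1]
    rw [Pr_compl, Pr_univ, sub_self]
  set q : ℝ := p ^ (N * N) with hq
  have hqpos : 0 < q := pow_pos hp0 _
  have hNr : (0 : ℝ) < N := by exact_mod_cast hN
  set d : ℝ := c / (4 * N ^ 2) with hd
  have hdpos : 0 < d := by positivity
  refine whp_of_compl_le hp0.le hp1.le _
    (fun n => Real.exp ((C * Real.log 2) * Real.log n - (q * d ^ 2) * Real.log n ^ 2))
    (wclq_tendsto _ _ (by positivity)) ?_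
  filter_upwards [hV, hlog.eventually_ge_atTop (4 * N ^ 2 / c)] with n hVn hn
  have hlogn : 0 ≤ Real.log n := le_trans (by positivity) hn
  have hn' : 4 * (N : ℝ) ^ 2 ≤ c * Real.log n := by
    rw [div_le_iff₀ hc] at hn
    linarith
  set I := (V n).powerset.filter (fun S => c * Real.log n ≤ (S.card : ℝ)) with hI
  have hsub : {G : SimpleGraph (Fin n) | ∀ S ⊆ V n, c * Real.log n ≤ (S.card : ℝ) →
      ∃ T ⊆ S, T.card = N ∧ G.IsClique (T : Set (Fin n))}ᶜ ⊆
      {G | ∃ S ∈ I, G ∈ {G : SimpleGraph (Fin n) |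
        ¬ ∃ T ⊆ S, T.card = N ∧ G.IsClique (T : Set (Fin n))}} := by
    intro G hG
    simp only [Set.mem_compl_iff, Set.mem_ofPred_eq, not_forall] at hG
    obtain ⟨S, hS1, hS2, hS3⟩ := hG
    refine ⟨S, ?_, hS3⟩
    rw [hI, Finset.mem_filter, Finset.mem_powerset]
    exact ⟨hS1, hS2⟩
  have hone : ∀ S ∈ I, Pr p n {G : SimpleGraph (Fin n) |
      ¬ ∃ T ⊆ S, T.card = N ∧ G.IsClique (T : Set (Fin n))} ≤
      Real.exp (-((q * d ^ 2) * Real.log n ^ 2)) := by
    intro S hS
    rw [hI, Finset.mem_filter] at hS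
    set a := S.card / (2 * N * N) with ha
    have h1 : N * (2 * N * a) ≤ S.card := by
      calc N * (2 * N * a) = 2 * N * N * a := by ring
        _ ≤ S.card := Nat.mul_div_le _ _
    refine (wclq_fixed hp0 hp1 N a hN S h1).trans ?_
    apply Real.exp_le_exp.mpr
    have h2 : d * Real.log n ≤ a := by
      have h3 : S.card < 2 * N * N * (a + 1) := by
        rw [ha]
        exact Nat.lt_mul_div_succ _ (by positivity)
      have h4 : (S.card : ℝ) < 2 * N * N * (a + 1) := by exact_mod_cast h3
      have h5 : d * Real.log n = (c * Real.log n) / (4 * N ^ 2) := by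
        rw [hd]
        ring
      rw [h5, div_le_iff₀ (by positivity)]
      nlinarith [hS.2]
    have h6 : (d * Real.log n) ^ 2 ≤ (a : ℝ) ^ 2 :=
      pow_le_pow_left₀ (by positivity) h2 2
    have h7 : q * (d * Real.log n) ^ 2 ≤ q * (a : ℝ) ^ 2 :=
      mul_le_mul_of_nonneg_left h6 hqpos.le
    have h8 : q * (d * Real.log n) ^ 2 = (q * d ^ 2) * Real.log n ^ 2 := by ring
    linarith
  calc Pr p n _ ≤ Pr p n {G | ∃ S ∈ I, G ∈ {G : SimpleGraph (Fin n) |
        ¬ ∃ T ⊆ S, T.card = N ∧ G.IsClique (T : Set (Fin n))}} := Pr_mono hp0.le hp1.le hsub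
    _ ≤ ∑ S ∈ I, Pr p n {G : SimpleGraph (Fin n) |
        ¬ ∃ T ⊆ S, T.card = N ∧ G.IsClique (T : Set (Fin n))} :=
        Pr_exists_le hp0.le hp1.le I _
    _ ≤ ∑ S ∈ I, Real.exp (-((q * d ^ 2) * Real.log n ^ 2)) := Finset.sum_le_sum hone
    _ = (I.card : ℝ) * Real.exp (-((q * d ^ 2) * Real.log n ^ 2)) := by
        rw [Finset.sum_const, nsmul_eq_mul]
    _ ≤ Real.exp ((C * Real.log 2) * Real.log n) *
        Real.exp (-((q * d ^ 2) * Real.log n ^ 2)) := by
        apply mul_le_mul_of_nonneg_right _ (Real.exp_nonneg _)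
        have h1 : I.card ≤ 2 ^ (V n).card := by
          rw [← Finset.card_powerset]
          exact Finset.card_filter_le _ _
        have h2 : (I.card : ℝ) ≤ (2 : ℝ) ^ (V n).card := by exact_mod_cast h1
        refine h2.trans ?_
        have h3 : (2 : ℝ) ^ (V n).card = Real.exp ((V n).card * Real.log 2) := by
          rw [Real.exp_nat_mul, Real.exp_log (by norm_num)]
        rw [h3]
        apply Real.exp_le_exp.mpr
        have h4 : 0 ≤ Real.log 2 := Real.log_nonneg (by norm_num)
        nlinarith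
    _ = Real.exp ((C * Real.log 2) * Real.log n - (q * d ^ 2) * Real.log n ^ 2) := by
        rw [← Real.exp_add]
        congr 1

end Pool.Bbc38
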