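import Pool.Agent.Lib.MP_bbc38a_co.TailXS


set_option autoImplicit false
open Classical

namespace Pool.Bbc38

/-- the set of values of a partial tuple -/
noncomputable def wcommon_set {n l : ℕ} (f : Fin l → Option (Fin n)) : Finset (Fin n) :=
  Finset.univ.filter (fun v => ∃ i, f i = some v)

theorem wcommon_set_card {n l : ℕ} (f : Fin l → Option (Fin n)) :
    (wcommon_set f).card ≤ l := by
  have h : wcommon_set f ⊆ (Finset.univ : Finset (Fin l)).biUnion (fun i => (f i).toFinset) := by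
    intro v hv
    simp only [wcommon_set, Finset.mem_filter, Finset.mem_univ, true_and] at hv
    obtain ⟨i, hi⟩ := hv
    simp only [Finset.mem_biUnion, Finset.mem_univ, true_and]
    exact ⟨i, by simp [hi]⟩
  calc (wcommon_set f).card ≤ ((Finset.univ : Finset (Fin l)).biUnion
        (fun i => (f i).toFinset)).card := Finset.card_le_card h
    _ ≤ ∑ i : Fin l, ((f i).toFinset).card := Finset.card_biUnion_le
    _ ≤ ∑ _i : Fin l, 1 := by
        apply Finset.sum_le_sum
        intro i _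
        cases f i <;> simp
    _ = l := by simp

theorem wcommon_set_surj {n l : ℕ} (X : Finset (Fin n)) (hX : X.card ≤ l) :
    ∃ f : Fin l → Option (Fin n), wcommon_set f = X := by
  refine ⟨fun i => if h : i.1 < X.card then some (X.equivFin.symm ⟨i.1, h⟩).1 else none, ?_⟩
  ext v
  simp only [wcommon_set, Finset.mem_filter, Finset.mem_univ, true_and]
  constructor
  · rintro ⟨i, hi⟩
    split_ifs at hi with h
    simp only [Option.some.injEq] at hi
    rw [← hi]
    exact (X.equivFin.symm ⟨i.1, h⟩).2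
  · intro hv
    refine ⟨⟨(X.equivFin ⟨v, hv⟩).1, lt_of_lt_of_le (X.equivFin ⟨v, hv⟩).2 hX⟩, ?_⟩
    have h : (X.equivFin ⟨v, hv⟩).1 < X.card := (X.equivFin ⟨v, hv⟩).2
    simp only [h, dif_pos, Fin.eta, Equiv.symm_apply_apply]

theorem wcommon_one {p : ℝ} (hp0 : 0 < p) (hp1 : p < 1) (l : ℕ) {n : ℕ} (V X : Finset (Fin n))
    (hX : X.card ≤ l) (h : ℝ) :
    Pr p n {G | ((cn G X V).card : ℝ) ≤ h} ≤
      (1 / 2 : ℝ) ^ (-h) * (1 - (1 - 1 / 2) * p ^ l) ^ (V \ X).card := by
  have hD : Disj (V \ X) (fun z => X.image (fun x => s(x, z)))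
      (fun _ => (∅ : Finset (Sym2 (Fin n)))) := by
    refine ⟨?_, ?_, ?_⟩
    · intro z hz e he
      simp only [Finset.union_empty, Finset.mem_image] at he
      obtain ⟨x, hx, rfl⟩ := he
      rw [Sym2.mk_isDiag_iff]
      rintro rfl
      exact (Finset.mem_sdiff.1 hz).2 hx
    · intro z _
      exact Finset.disjoint_empty_right _
    · intro z hz z' hz' hne
      simp only [Finset.union_empty]
      rw [Finset.disjoint_left]
      intro e he he'
      simp only [Finset.mem_image] at he he'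
      obtain ⟨x, hx, rfl⟩ := he
      obtain ⟨x', hx', h'⟩ := he'
      rw [Sym2.eq_iff] at h'
      rcases h' with ⟨_, h2⟩ | ⟨h1, h2⟩
      · exact hne h2.symm
      · subst h1
        exact (Finset.mem_sdiff.1 hz).2 hx'
  have key := tail_low hp0.le hp1.le (V \ X) (fun z => X.image (fun x => s(x, z)))
    (fun _ => (∅ : Finset (Sym2 (Fin n)))) hD (p ^ l) (by
      intro z _
      simp only [Finset.card_empty, pow_zero, mul_one]
      exact pow_le_pow_of_le_one hp0.le hp1.le (le_trans Finset.card_image_le hX))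
    (1 / 2) (by norm_num) (by norm_num) h
  refine le_trans (Pr_mono hp0.le hp1.le ?_) key
  intro G hG
  simp only [Set.mem_ofPred_eq] at hG ⊢
  refine le_trans ?_ hG
  have : cnt (V \ X) (fun z => X.image (fun x => s(x, z)))
      (fun _ => (∅ : Finset (Sym2 (Fin n)))) G ≤ (cn G X V).card := by
    apply Finset.card_le_card
    intro z hz
    obtain ⟨hz1, h1, _⟩ := Finset.mem_filter.1 hz
    have hzV := (Finset.mem_sdiff.1 hz1).1
    refine Finset.mem_filter.2 ⟨hzV, fun x hx => ?_⟩
    have := h1 s(x, z) (Finset.mem_image.2 ⟨x, hx, rfl⟩)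
    rwa [SimpleGraph.mem_edgeSet] at this
  exact_mod_cast this

theorem whp_common {p : ℝ} (hp0 : 0 < p) (hp1 : p < 1) (l : ℕ) :
    ∃ κ K : ℝ, 0 < κ ∧ 0 < K ∧ ∀ V : (n : ℕ) → Finset (Fin n),
      (∀ᶠ n : ℕ in Filter.atTop, K * Real.log n ≤ ((V n).card : ℝ)) →
      Whp p (fun n => {G | ∀ X : Finset (Fin n), X.card ≤ l →
        κ * ((V n).card : ℝ) ≤ ((cn G X (V n)).card : ℝ)}) := by
  set r : ℝ := 1 - (1 - 1 / 2) * p ^ l with hr
  have hpl0 : 0 < p ^ l := pow_pos hp0 l
  have hpl1 : p ^ l ≤ 1 := pow_le_one₀ hp0.le hp1.le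
  have hr0 : 0 < r := by rw [hr]; nlinarith
  have hr1 : r < 1 := by rw [hr]; nlinarith
  have hlog : Real.log r < 0 := Real.log_neg hr0 hr1
  have hlog2 : 0 < Real.log 2 := Real.log_pos (by norm_num)
  refine ⟨-Real.log r / (2 * Real.log 2), 2 * (l + 1) / (-Real.log r), ?_, ?_, ?_⟩
  · apply div_pos <;> linarith
  · apply div_pos
    · positivity
    · linarith
  intro V hV
  set κ : ℝ := -Real.log r / (2 * Real.log 2) with hκ
  have hκl : κ * Real.log 2 = -Real.log r / 2 := by
    rw [hκ]; field_simp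
  refine whp_of_compl_le hp0.le hp1.le _
    (fun n : ℕ => (2 ^ l * r ^ (-(l : ℝ))) * ((n : ℝ))⁻¹) ?_ ?_
  · have := (tendsto_inv_atTop_nhds_zero_nat (𝕜 := ℝ)).const_mul (2 ^ l * r ^ (-(l : ℝ)))
    simpa using this
  · filter_upwards [hV, Filter.eventually_ge_atTop 1] with n hn hn1
    have hnpos : (0 : ℝ) < n := by exact_mod_cast hn1
    have hsub : ({G : SimpleGraph (Fin n) | ∀ X : Finset (Fin n), X.card ≤ l →
        κ * ((V n).card : ℝ) ≤ ((cn G X (V n)).card : ℝ)})ᶜ ⊆
        {G | ∃ f ∈ (Finset.univ : Finset (Fin l → Option (Fin n))),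
          G ∈ {G : SimpleGraph (Fin n) |
            ((cn G (wcommon_set f) (V n)).card : ℝ) ≤ κ * ((V n).card : ℝ)}} := by
      intro G hG
      simp only [Set.mem_compl_iff, Set.mem_ofPred_eq, not_forall, not_le] at hG
      obtain ⟨X, hX, hlt⟩ := hG
      obtain ⟨f, hf⟩ := wcommon_set_surj X hX
      refine ⟨f, Finset.mem_univ _, ?_⟩
      simp only [Set.mem_ofPred_eq]
      rw [hf]
      exact hlt.le
    refine le_trans (Pr_mono hp0.le hp1.le hsub) ?_
    refine le_trans (Pr_exists_le hp0.le hp1.le _ _) ?_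
    have hone : ∀ f ∈ (Finset.univ : Finset (Fin l → Option (Fin n))),
        Pr p n {G : SimpleGraph (Fin n) |
            ((cn G (wcommon_set f) (V n)).card : ℝ) ≤ κ * ((V n).card : ℝ)} ≤
          r ^ (-(l : ℝ)) * (n : ℝ) ^ (-((l : ℝ) + 1)) := by
      intro f _
      refine le_trans (wcommon_one hp0 hp1 l (V n) (wcommon_set f) (wcommon_set_card f) _) ?_
      rw [← hr]
      have hcard : (V n).card ≤ (V n \ wcommon_set f).card + l := by
        have h1 := Finset.le_card_sdiff (wcommon_set f) (V n)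
        have h2 := wcommon_set_card f
        omega
      have hcardR : ((V n).card : ℝ) ≤ ((V n \ wcommon_set f).card : ℝ) + l := by
        exact_mod_cast hcard
      have e1 : (1 / 2 : ℝ) ^ (-(κ * ((V n).card : ℝ))) =
          Real.exp (-Real.log r / 2 * ((V n).card : ℝ)) := by
        rw [Real.rpow_def_of_pos (by norm_num)]
        congr 1
        rw [one_div, Real.log_inv]
        have : -Real.log 2 * -(κ * ((V n).card : ℝ)) = (κ * Real.log 2) * ((V n).card : ℝ) := by
          ring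
        rw [this, hκl]
      have e2 : r ^ (V n \ wcommon_set f).card =
          Real.exp (Real.log r * ((V n \ wcommon_set f).card : ℝ)) := by
        rw [← Real.rpow_natCast, Real.rpow_def_of_pos hr0]
      have e3 : r ^ (-(l : ℝ)) = Real.exp (Real.log r * (-(l : ℝ))) := by
        rw [Real.rpow_def_of_pos hr0]
      have e4 : (n : ℝ) ^ (-((l : ℝ) + 1)) = Real.exp (Real.log n * (-((l : ℝ) + 1))) := by
        rw [Real.rpow_def_of_pos hnpos]
      rw [e1, e2, e3, e4, ← Real.exp_add, ← Real.exp_add]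
      apply Real.exp_le_exp.2
      have h1 : Real.log r * ((V n \ wcommon_set f).card : ℝ) ≤
          Real.log r * (((V n).card : ℝ) - l) := by
        apply mul_le_mul_of_nonpos_left _ hlog.le
        linarith
      have h2 : (l + 1 : ℝ) * Real.log n ≤ -Real.log r / 2 * ((V n).card : ℝ) := by
        have hpos : 0 < -Real.log r / 2 := by linarith
        have := mul_le_mul_of_nonneg_left hn hpos.le
        refine le_trans (le_of_eq ?_) this
        have hne : Real.log r ≠ 0 := hlog.ne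
        have hcalc : -Real.log r / 2 * (2 * (l + 1) / -Real.log r * Real.log n) =
            (Real.log r / Real.log r) * ((l + 1 : ℝ) * Real.log n) := by
          field_simp
        rw [hcalc, div_self hne, one_mul]
      nlinarith
    refine le_trans (Finset.sum_le_sum hone) ?_
    rw [Finset.sum_const, Finset.card_univ, Fintype.card_fun, Fintype.card_option,
      Fintype.card_fin, Fintype.card_fin, nsmul_eq_mul]
    push_cast
    have h1 : ((n : ℝ) + 1) ^ l ≤ 2 ^ l * (n : ℝ) ^ l := by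
      rw [← mul_pow]
      apply pow_le_pow_left₀ (by positivity)
      have : (1 : ℝ) ≤ n := by exact_mod_cast hn1
      linarith
    have h2 : (n : ℝ) ^ l * (n : ℝ) ^ (-((l : ℝ) + 1)) = (n : ℝ)⁻¹ := by
      rw [← Real.rpow_natCast, ← Real.rpow_add hnpos]
      have : (l : ℝ) + -((l : ℝ) + 1) = -1 := by ring
      rw [this, Real.rpow_neg_one]
    have h3 : 0 ≤ r ^ (-(l : ℝ)) := (Real.rpow_pos_of_pos hr0 _).le
    have h4 : 0 ≤ (n : ℝ) ^ (-((l : ℝ) + 1)) := (Real.rpow_pos_of_pos hnpos _).le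
    calc ((n : ℝ) + 1) ^ l * (r ^ (-(l : ℝ)) * (n : ℝ) ^ (-((l : ℝ) + 1)))
        ≤ (2 ^ l * (n : ℝ) ^ l) * (r ^ (-(l : ℝ)) * (n : ℝ) ^ (-((l : ℝ) + 1))) :=
          mul_le_mul_of_nonneg_right h1 (mul_nonneg h3 h4)
      _ = 2 ^ l * r ^ (-(l : ℝ)) * ((n : ℝ) ^ l * (n : ℝ) ^ (-((l : ℝ) + 1))) := by ring
      _ = 2 ^ l * r ^ (-(l : ℝ)) * (n : ℝ)⁻¹ := by rw [h2]

end Pool.Bbc38
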