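import Pool.Agent.Lib.MP_bbc38a_co.TailXS


set_option autoImplicit false
open Classical

namespace Pool.Bbc38

/-- the pattern: `x` is adjacent to all of `Q` -/
noncomputable def wcov1_E {n : ℕ} (x : Fin n) (Q : Finset (Fin n)) : Finset (Sym2 (Fin n)) :=
  Q.image (fun u => s(x, u))

theorem wcov1_mem {n : ℕ} (x : Fin n) (Q : Finset (Fin n)) (e : Sym2 (Fin n)) :
    e ∈ wcov1_E x Q ↔ ∃ u ∈ Q, s(x, u) = e := by
  simp [wcov1_E]

theorem wcov1_card {n : ℕ} (x : Fin n) (Q : Finset (Fin n)) : (wcov1_E x Q).card ≤ Q.card :=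
  Finset.card_image_le

theorem wcov1_holds {n : ℕ} (x : Fin n) (Q : Finset (Fin n)) (G : SimpleGraph (Fin n)) :
    Holds (wcov1_E x Q) ∅ G ↔ ∀ u ∈ Q, G.Adj x u := by
  constructor
  · intro h u hu
    exact h.1 _ ((wcov1_mem x Q _).2 ⟨u, hu, rfl⟩)
  · intro h
    refine ⟨?_, by simp⟩
    intro e he
    obtain ⟨u, hu, rfl⟩ := (wcov1_mem x Q _).1 he
    exact h u hu

theorem wcov1_nd {n : ℕ} (x : Fin n) (Q : Finset (Fin n)) (hx : x ∉ Q) :
    ∀ e ∈ wcov1_E x Q ∪ ∅, ¬ e.IsDiag := by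
  intro e he
  rw [Finset.union_empty] at he
  obtain ⟨u, hu, rfl⟩ := (wcov1_mem x Q _).1 he
  rw [Sym2.mk_isDiag_iff]
  rintro rfl
  exact hx hu

theorem wcov1_q {p : ℝ} (hp0 : 0 < p) (hp1 : p < 1) {n : ℕ} (t : ℕ) (x : Fin n)
    (Q : Finset (Fin n)) (hQ : Q.card ≤ t) :
    p ^ t ≤ p ^ (wcov1_E x Q).card * (1 - p) ^ (∅ : Finset (Sym2 (Fin n))).card := by
  rw [Finset.card_empty, pow_zero, mul_one]
  exact pow_le_pow_of_le_one hp0.le hp1.le ((wcov1_card x Q).trans hQ)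

/-- fixed `Q` and fixed set `X` of uncovered vertices -/
theorem wcov1_one {p : ℝ} (hp0 : 0 < p) (hp1 : p < 1) {n : ℕ} (t m : ℕ) (X : Finset (Fin n))
    (Q : Fin m → Finset (Fin n)) (hQ : ∀ j, (Q j).card ≤ t)
    (hd : ∀ i j, i ≠ j → Disjoint (Q i) (Q j)) (hx : ∀ x ∈ X, ∀ j, x ∉ Q j) :
    Pr p n {G | ∀ x ∈ X, ∀ j, ¬ ∀ u ∈ Q j, G.Adj x u} ≤ (1 - p ^ t) ^ (X.card * m) := by
  have hD : Disj (X ×ˢ (Finset.univ : Finset (Fin m))) (fun z => wcov1_E z.1 (Q z.2))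
      (fun _ => (∅ : Finset (Sym2 (Fin n)))) := by
    refine ⟨?_, ?_, ?_⟩
    · intro i hi
      rw [Finset.mem_product] at hi
      exact wcov1_nd i.1 (Q i.2) (hx i.1 hi.1 i.2)
    · intro i _
      exact Finset.disjoint_empty_right _
    · intro i hi j hj hij
      rw [Finset.mem_product] at hi hj
      rw [Finset.union_empty, Finset.union_empty, Finset.disjoint_left]
      intro e he he'
      obtain ⟨u, hu, rfl⟩ := (wcov1_mem i.1 (Q i.2) _).1 he
      obtain ⟨u', hu', h⟩ := (wcov1_mem j.1 (Q j.2) _).1 he'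
      rw [Sym2.eq_iff] at h
      rcases h with ⟨h1, h2⟩ | ⟨h1, h2⟩
      · subst h2
        by_cases h3 : i.2 = j.2
        · exact hij (Prod.ext h1.symm h3)
        · exact (Finset.disjoint_left.1 (hd i.2 j.2 h3)) hu hu'
      · rw [← h1] at hu
        exact hx j.1 hj.1 i.2 hu
  have h1 := tail_zero hp0.le hp1.le (X ×ˢ (Finset.univ : Finset (Fin m)))
    (fun z => wcov1_E z.1 (Q z.2)) (fun _ => (∅ : Finset (Sym2 (Fin n)))) hD (p ^ t)
    (fun i _ => wcov1_q hp0 hp1 t i.1 (Q i.2) (hQ i.2))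
  rw [Finset.card_product, Finset.card_univ, Fintype.card_fin] at h1
  refine le_trans (Pr_mono hp0.le hp1.le ?_) h1
  intro G hG
  change cnt _ _ _ G = 0
  unfold cnt
  rw [Finset.card_eq_zero, Finset.filter_eq_empty_iff]
  intro z hz
  rw [wcov1_holds]
  rw [Finset.mem_product] at hz
  exact hG z.1 hz.1 z.2

theorem whp_cover1 {p : ℝ} (hp0 : 0 < p) (hp1 : p < 1) (t : ℕ) (η : ℝ) (hη : 0 < η) :
    ∃ m1 : ℕ, 0 < m1 ∧ ∀ V : (n : ℕ) → Finset (Fin n),
      (∀ᶠ n : ℕ in Filter.atTop, ((V n).card : ℝ) ≤ Real.log n) →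
      Whp p (fun n => {G | ∀ Q : Fin m1 → Finset (Fin n), (∀ j, Q j ⊆ V n) →
        (∀ j, (Q j).card ≤ t) → (∀ i j, i ≠ j → Disjoint (Q i) (Q j)) →
        ((Finset.univ.filter (fun x => (∀ j, x ∉ Q j) ∧
          ∀ j, ∃ u ∈ Q j, ¬ G.Adj x u)).card : ℝ) ≤ η * n}) := by
  have hq : 0 < p ^ t := pow_pos hp0 t
  have hq1 : p ^ t ≤ 1 := pow_le_one₀ hp0.le hp1.le
  obtain ⟨m0, hm0⟩ := exists_nat_ge (2 / (p ^ t * η))
  refine ⟨m0 + 1, Nat.succ_pos _, ?_⟩
  set m := m0 + 1 with hm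
  have hmq : 2 ≤ p ^ t * η * m := by
    have h1 : (m : ℝ) = m0 + 1 := by rw [hm]; push_cast; ring
    have h2 : 2 / (p ^ t * η) * (p ^ t * η) = 2 := by field_simp
    have h3 : (m0 : ℝ) * (p ^ t * η) ≥ 2 / (p ^ t * η) * (p ^ t * η) :=
      mul_le_mul_of_nonneg_right hm0 (by positivity)
    have h4 : 0 < p ^ t * η := by positivity
    rw [h1]
    nlinarith
  intro V hV
  refine whp_of_compl_le hp0.le hp1.le _ (fun n : ℕ => (n : ℝ) ^ m * Real.exp (-(n : ℝ))) ?_ ?_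
  · exact (Real.tendsto_pow_mul_exp_neg_atTop_nhds_zero m).comp tendsto_natCast_atTop_atTop
  filter_upwards [hV, Filter.eventually_ge_atTop 1] with n hV hn
  have hn0 : (0 : ℝ) < n := by exact_mod_cast hn
  -- index set of the union bound
  set I : Finset ((Fin m → Finset (Fin n)) × Finset (Fin n)) :=
    ((Fintype.piFinset (fun _ : Fin m => (V n).powerset)) ×ˢ
      (Finset.univ : Finset (Finset (Fin n)))).filter (fun z =>
        (∀ j, (z.1 j).card ≤ t) ∧ (∀ i j, i ≠ j → Disjoint (z.1 i) (z.1 j)) ∧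
        (∀ x ∈ z.2, ∀ j, x ∉ z.1 j) ∧ η * n ≤ (z.2.card : ℝ)) with hI
  set B : ((Fin m → Finset (Fin n)) × Finset (Fin n)) → Set (SimpleGraph (Fin n)) :=
    fun z => {G | ∀ x ∈ z.2, ∀ j, ¬ ∀ u ∈ z.1 j, G.Adj x u} with hB
  have hsub : ({G | ∀ Q : Fin m → Finset (Fin n), (∀ j, Q j ⊆ V n) →
        (∀ j, (Q j).card ≤ t) → (∀ i j, i ≠ j → Disjoint (Q i) (Q j)) →
        ((Finset.univ.filter (fun x => (∀ j, x ∉ Q j) ∧
          ∀ j, ∃ u ∈ Q j, ¬ G.Adj x u)).card : ℝ) ≤ η * n} : Set (SimpleGraph (Fin n)))ᶜ ⊆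
      {G | ∃ z ∈ I, G ∈ B z} := by
    intro G hG
    by_contra hcon
    apply hG
    intro Q hQV hQt hQd
    by_contra h2
    apply hcon
    push Not at h2
    refine ⟨(Q, Finset.univ.filter (fun x => (∀ j, x ∉ Q j) ∧ ∀ j, ∃ u ∈ Q j, ¬ G.Adj x u)), ?_, ?_⟩
    · rw [hI, Finset.mem_filter, Finset.mem_product]
      refine ⟨⟨?_, Finset.mem_univ _⟩, hQt, hQd, ?_, h2.le⟩
      · rw [Fintype.mem_piFinset]
        intro j
        rw [Finset.mem_powerset]
        exact hQV j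
      · intro x hx j
        rw [Finset.mem_filter] at hx
        exact hx.2.1 j
    · intro x hx j hadj
      rw [Finset.mem_filter] at hx
      obtain ⟨u, hu, h3⟩ := hx.2.2 j
      exact h3 (hadj u hu)
  refine (Pr_mono hp0.le hp1.le hsub).trans ?_
  refine (Pr_exists_le hp0.le hp1.le I B).trans ?_
  have hterm : ∀ z ∈ I, Pr p n (B z) ≤ Real.exp (-(2 * (n : ℝ))) := by
    intro z hz
    rw [hI, Finset.mem_filter] at hz
    obtain ⟨-, hz1, hz2, hz3, hz4⟩ := hz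
    refine (wcov1_one hp0 hp1 t m z.2 z.1 hz1 hz2 hz3).trans ?_
    have h1 : (1 - p ^ t) ≤ Real.exp (-(p ^ t)) := by
      have := Real.add_one_le_exp (-(p ^ t))
      linarith
    have h2 : (1 - p ^ t) ^ (z.2.card * m) ≤ Real.exp (-(p ^ t)) ^ (z.2.card * m) :=
      pow_le_pow_left₀ (by linarith) h1 _
    refine h2.trans ?_
    rw [← Real.exp_nat_mul]
    apply Real.exp_le_exp.2
    push_cast
    have h5 : η * n * (m * p ^ t) ≤ (z.2.card : ℝ) * (m * p ^ t) :=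
      mul_le_mul_of_nonneg_right hz4 (by positivity)
    have h6 : 2 * (n : ℝ) ≤ p ^ t * η * m * n := mul_le_mul_of_nonneg_right hmq hn0.le
    nlinarith
  refine (Finset.sum_le_sum hterm).trans ?_
  rw [Finset.sum_const, nsmul_eq_mul]
  -- cardinality of the index set
  have hcardI : I.card ≤ (2 ^ (V n).card) ^ m * 2 ^ n := by
    rw [hI]
    refine (Finset.card_filter_le _ _).trans ?_
    rw [Finset.card_product, Fintype.card_piFinset]
    simp
  have hexp1 : (2 : ℝ) ≤ Real.exp 1 := by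
    have := Real.add_one_le_exp (1 : ℝ)
    linarith
  have h2V : ((2 : ℝ) ^ (V n).card) ≤ n := by
    calc (2 : ℝ) ^ (V n).card ≤ Real.exp 1 ^ (V n).card :=
          pow_le_pow_left₀ (by norm_num) hexp1 _
      _ = Real.exp ((V n).card : ℝ) := by rw [← Real.exp_nat_mul, mul_one]
      _ ≤ Real.exp (Real.log n) := Real.exp_le_exp.2 hV
      _ = n := Real.exp_log hn0
  have h2n : ((2 : ℝ) ^ n) ≤ Real.exp n := by
    calc (2 : ℝ) ^ n ≤ Real.exp 1 ^ n := pow_le_pow_left₀ (by norm_num) hexp1 _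
      _ = Real.exp (n : ℝ) := by rw [← Real.exp_nat_mul, mul_one]
  have hcardR : (I.card : ℝ) ≤ (n : ℝ) ^ m * Real.exp n := by
    have h7 : (I.card : ℝ) ≤ ((2 : ℝ) ^ (V n).card) ^ m * 2 ^ n := by exact_mod_cast hcardI
    refine h7.trans ?_
    apply mul_le_mul (pow_le_pow_left₀ (by positivity) h2V m) h2n (by positivity) (by positivity)
  calc (I.card : ℝ) * Real.exp (-(2 * (n : ℝ)))
      ≤ (n : ℝ) ^ m * Real.exp n * Real.exp (-(2 * (n : ℝ))) :=
        mul_le_mul_of_nonneg_right hcardR (Real.exp_pos _).le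
    _ = (n : ℝ) ^ m * Real.exp (-(n : ℝ)) := by
        rw [mul_assoc, ← Real.exp_add]
        congr 2
        ring

end Pool.Bbc38
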