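import Pool.Agent.Lib.MP_bbc38a_co.TailXS


set_option autoImplicit false
open Classical

namespace Pool.Bbc38

theorem wdeg_disj {n : ℕ} (v : Fin n) :
    Disj (Finset.univ.erase v) (fun u : Fin n => ({s(v, u)} : Finset (Sym2 (Fin n))))
      (fun _ => (∅ : Finset (Sym2 (Fin n)))) := by
  refine ⟨?_, ?_, ?_⟩
  · intro u hu e he
    simp only [Finset.union_empty, Finset.mem_singleton] at he
    subst he
    rw [Sym2.mk_isDiag_iff]
    exact fun h => (Finset.ne_of_mem_erase hu) h.symm
  · intro i _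
    exact Finset.disjoint_empty_right _
  · intro u hu u' hu' hne
    simp only [Finset.union_empty, Finset.disjoint_singleton]
    intro h
    rw [Sym2.eq_iff] at h
    rcases h with ⟨_, h2⟩ | ⟨h1, h2⟩
    · exact hne h2
    · exact hne (h2.trans h1)

theorem wdeg_cnt {n : ℕ} (v : Fin n) (G : SimpleGraph (Fin n)) :
    cnt (Finset.univ.erase v) (fun u : Fin n => ({s(v, u)} : Finset (Sym2 (Fin n))))
      (fun _ => (∅ : Finset (Sym2 (Fin n)))) G = (cn G {v} Finset.univ).card := by
  unfold cnt cn Holds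
  congr 1
  ext u
  simp only [Finset.mem_filter, Finset.mem_erase, Finset.mem_univ, and_true, Finset.mem_singleton,
    forall_eq, SimpleGraph.mem_edgeSet, Finset.notMem_empty, false_imp_iff, implies_true, true_and]
  constructor
  · exact fun h => h.2
  · exact fun h => ⟨h.ne', h⟩

theorem wdeg_tend {ρ : ℝ} (h0 : 0 < ρ) (h1 : ρ < 1) :
    Filter.Tendsto (fun n : ℕ => (n : ℝ) * ρ ^ n) Filter.atTop (nhds 0) :=
  tendsto_self_mul_const_pow_of_lt_one h0.le h1

theorem whp_deg {p : ℝ} (hp0 : 0 < p) (hp1 : p < 1) (ε : ℝ) (hε : 0 < ε) :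
    Whp p (fun n => {G | ∀ v, ((cn G {v} Finset.univ).card : ℝ) ≤ (1 + ε) * p * n}) := by
  set l : ℝ := 1 + ε / 2 with hl
  have hl1 : 1 < l := by rw [hl]; linarith
  have hl0 : 0 < l := by linarith
  set β : ℝ := (1 + ε) * p with hβ
  have hβ0 : 0 < β := by positivity
  have hb1 : 1 ≤ 1 + (l - 1) * p := by nlinarith
  set ρ : ℝ := l ^ (-β) * (1 + (l - 1) * p) with hρ
  have hρ0 : 0 < ρ := mul_pos (Real.rpow_pos_of_pos hl0 _) (by linarith)
  have hρ1 : ρ < 1 := by
    have h1 : l ^ (-β) ≤ Real.exp (-(β * ((l - 1) / l))) := by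
      rw [Real.rpow_def_of_pos hl0]
      apply Real.exp_le_exp.2
      have h2 : 1 - l⁻¹ ≤ Real.log l := Real.one_sub_inv_le_log_of_pos hl0
      have h3 : (l - 1) / l = 1 - l⁻¹ := by field_simp
      rw [h3]
      nlinarith
    have h2 : 1 + (l - 1) * p ≤ Real.exp ((l - 1) * p) := by
      have := Real.add_one_le_exp ((l - 1) * p)
      linarith
    calc ρ ≤ Real.exp (-(β * ((l - 1) / l))) * Real.exp ((l - 1) * p) :=
          mul_le_mul h1 h2 (by linarith) (Real.exp_pos _).le
      _ = Real.exp (-((l - 1) * p * ((1 + ε) / l - 1))) := by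
          rw [← Real.exp_add]; congr 1; rw [hβ]; ring
      _ < 1 := by
          rw [Real.exp_lt_one_iff]
          have h3 : 1 < (1 + ε) / l := by
            rw [one_lt_div hl0, hl]; linarith
          have h4 : 0 < (l - 1) * p := mul_pos (by linarith) hp0
          have h5 : 0 < (1 + ε) / l - 1 := by linarith
          have := mul_pos h4 h5
          linarith
  refine whp_of_compl_le hp0.le hp1.le _ (fun n : ℕ => (n : ℝ) * ρ ^ n) (wdeg_tend hρ0 hρ1)
    (Filter.Eventually.of_forall fun n => ?_)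
  have hsub : {G : SimpleGraph (Fin n) |
      ∀ v, ((cn G {v} Finset.univ).card : ℝ) ≤ (1 + ε) * p * n}ᶜ ⊆
      {G | ∃ v ∈ (Finset.univ : Finset (Fin n)),
        G ∈ {G : SimpleGraph (Fin n) | β * n ≤ ((cn G {v} Finset.univ).card : ℝ)}} := by
    intro G hG
    have hG' : ¬ ∀ v, ((cn G {v} Finset.univ).card : ℝ) ≤ (1 + ε) * p * n := hG
    push Not at hG'
    obtain ⟨v, hv⟩ := hG'
    exact ⟨v, Finset.mem_univ _, hv.le⟩
  refine (Pr_mono hp0.le hp1.le hsub).trans ?_
  refine (Pr_exists_le hp0.le hp1.le _ _).trans ?_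
  have hone : ∀ v ∈ (Finset.univ : Finset (Fin n)),
      Pr p n {G : SimpleGraph (Fin n) | β * n ≤ ((cn G {v} Finset.univ).card : ℝ)} ≤ ρ ^ n := by
    intro v _
    have := tail_up hp0.le hp1.le (Finset.univ.erase v)
      (fun u : Fin n => ({s(v, u)} : Finset (Sym2 (Fin n))))
      (fun _ => (∅ : Finset (Sym2 (Fin n)))) (wdeg_disj v) p (fun i _ => by simp) l hl1.le (β * n)
    simp only [wdeg_cnt] at this
    refine this.trans ?_
    rw [tailxs_rpow hl0, hρ, mul_pow]
    apply mul_le_mul_of_nonneg_left _ (pow_nonneg (Real.rpow_nonneg hl0.le _) _)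
    apply pow_le_pow_right₀ hb1
    refine (Finset.card_le_card (Finset.erase_subset _ _)).trans ?_
    simp
  refine (Finset.sum_le_sum hone).trans (le_of_eq ?_)
  simp

end Pool.Bbc38
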