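import Pool.Agent.Lib.MP_bbc38a_co.TailXS


set_option autoImplicit false
open Classical

namespace Pool.Bbc38

theorem wlight_LL {p : ℝ} (hp0 : 0 < p) (hp1 : p < 1) :
    Filter.Tendsto (fun n : ℕ => LL p n) Filter.atTop Filter.atTop := by
  have hb : 1 < 1 / (1 - p) := by
    rw [one_lt_div (by linarith)]; linarith
  have := (Real.tendsto_logb_atTop hb).comp (tendsto_natCast_atTop_atTop (R := ℝ))
  exact this

/-- bound for one pair `(A, X)` -/
theorem wlight_one {p : ℝ} (hp0 : 0 < p) (hp1 : p < 1) {α ρ c : ℝ} (hρ0 : 0 < ρ) (hρ1 : ρ < 1)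
    (hρ : ∀ (n : ℕ) (X S : Finset (Fin n)), Disjoint X S →
      Pr p n {G | (∑ x ∈ X, ((cn G {x} S).card : ℝ)) ≤ α * (X.card * S.card : ℕ)} ≤
        ρ ^ (X.card * S.card)) {n : ℕ} (X A : Finset (Fin n)) (hXA : Disjoint X A)
    (hc : c ≤ (X.card : ℝ) * (A.card : ℝ)) :
    Pr p n {G | (∑ x ∈ X, ((cn G {x} A).card : ℝ)) ≤ α * (X.card * A.card : ℕ)} ≤ ρ ^ c := by
  refine (hρ n X A hXA).trans ?_
  rw [← Real.rpow_natCast]
  apply Real.rpow_le_rpow_of_exponent_ge hρ0 hρ1.le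
  push_cast
  exact hc

theorem whp_light {p : ℝ} (hp0 : 0 < p) (hp1 : p < 1) (ε ε' η C : ℝ) (hε' : 0 < ε')
    (hεε : ε' < ε) (hη : 0 < η) (V : (n : ℕ) → Finset (Fin n))
    (hV : ∀ᶠ n : ℕ in Filter.atTop, ((V n).card : ℝ) ≤ C * Real.log n) :
    Whp p (fun n => {G | ∀ A ⊆ V n, (1 + ε) * LL p n / p ≤ (A.card : ℝ) →
      ((Finset.univ.filter (fun x => x ∉ A ∧
        ((cn G {x} A).card : ℝ) < (1 + ε') * LL p n)).card : ℝ) ≤ η * n}) := by
  have _hV := hV
  have h1ε : 0 < 1 + ε := by linarith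
  set α : ℝ := (1 + ε') * p / (1 + ε) with hα
  have hαp : α < p := by
    rw [hα, div_lt_iff₀ h1ε]
    nlinarith
  have hα0 : 0 < α := by positivity
  obtain ⟨ρ, hρ0, hρ1, hρ⟩ := tailXS_alpha hp0 hp1 α hαp
  set c0 : ℝ := η * ((1 + ε) / p) with hc0
  have hc0p : 0 < c0 := by positivity
  -- 4 * ρ ^ (c0 * L) is eventually ≤ 1/2
  have hlim : Filter.Tendsto (fun n : ℕ => 4 * ρ ^ (c0 * LL p n)) Filter.atTop (nhds 0) := by
    have h1 : Filter.Tendsto (fun n : ℕ => c0 * LL p n) Filter.atTop Filter.atTop :=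
      (wlight_LL hp0 hp1).const_mul_atTop hc0p
    have h2 := (tendsto_rpow_atTop_of_base_lt_one ρ (by linarith) hρ1).comp h1
    simpa [Function.comp_def] using h2.const_mul 4
  have hhalf : Filter.Tendsto (fun n : ℕ => (1 / 2 : ℝ) ^ n) Filter.atTop (nhds 0) :=
    tendsto_pow_atTop_nhds_zero_of_lt_one (by norm_num) (by norm_num)
  refine whp_of_compl_le hp0.le hp1.le _ _ hhalf ?_
  filter_upwards [(hlim.eventually (gt_mem_nhds (show (0 : ℝ) < 1 / 2 by norm_num))),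
    (wlight_LL hp0 hp1).eventually_ge_atTop 0] with n hn hL
  set L := LL p n with hLdef
  set T : Finset (Finset (Fin n) × Finset (Fin n)) :=
    Finset.univ.filter (fun q => Disjoint q.1 q.2 ∧ c0 * L * n ≤ (q.1.card : ℝ) * (q.2.card : ℝ))
    with hT
  have hsub : {G : SimpleGraph (Fin n) | ∀ A ⊆ V n, (1 + ε) * L / p ≤ (A.card : ℝ) →
      ((Finset.univ.filter (fun x => x ∉ A ∧
        ((cn G {x} A).card : ℝ) < (1 + ε') * L)).card : ℝ) ≤ η * n}ᶜ ⊆
      {G | ∃ q ∈ T, G ∈ {G : SimpleGraph (Fin n) |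
        (∑ x ∈ q.1, ((cn G {x} q.2).card : ℝ)) ≤ α * (q.1.card * q.2.card : ℕ)}} := by
    intro G hG
    have hG' : ¬ ∀ A ⊆ V n, (1 + ε) * L / p ≤ (A.card : ℝ) →
      ((Finset.univ.filter (fun x => x ∉ A ∧
        ((cn G {x} A).card : ℝ) < (1 + ε') * L)).card : ℝ) ≤ η * n := hG
    push Not at hG'
    obtain ⟨A, hAV, hA, hX⟩ := hG'
    set X := Finset.univ.filter (fun x => x ∉ A ∧ ((cn G {x} A).card : ℝ) < (1 + ε') * L) with hXd
    refine ⟨(X, A), ?_, ?_⟩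
    · rw [hT, Finset.mem_filter]
      refine ⟨Finset.mem_univ _, ?_, ?_⟩
      · rw [Finset.disjoint_left]
        intro x hx
        exact (Finset.mem_filter.1 hx).2.1
      · have h1 : c0 * L * n = (η * n) * ((1 + ε) * L / p) := by rw [hc0]; ring
        rw [h1]
        have h2 : 0 ≤ (1 + ε) * L / p := by positivity
        exact mul_le_mul hX.le hA h2 (Nat.cast_nonneg _)
    · change (∑ x ∈ X, ((cn G {x} A).card : ℝ)) ≤ α * (X.card * A.card : ℕ)
      have h3 : ∀ x ∈ X, ((cn G {x} A).card : ℝ) ≤ α * A.card := by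
        intro x hx
        have h4 := (Finset.mem_filter.1 hx).2.2
        refine h4.le.trans ?_
        rw [hα]
        have h5 : (1 + ε) * L ≤ A.card * p := by
          rwa [div_le_iff₀ hp0] at hA
        rw [div_mul_eq_mul_div, le_div_iff₀ h1ε]
        nlinarith
      refine (Finset.sum_le_sum h3).trans (le_of_eq ?_)
      rw [Finset.sum_const, nsmul_eq_mul]
      push_cast
      ring
  refine (Pr_mono hp0.le hp1.le hsub).trans ?_
  refine (Pr_exists_le hp0.le hp1.le _ _).trans ?_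
  have hone : ∀ q ∈ T, Pr p n {G : SimpleGraph (Fin n) |
        (∑ x ∈ q.1, ((cn G {x} q.2).card : ℝ)) ≤ α * (q.1.card * q.2.card : ℕ)} ≤
        ρ ^ (c0 * L * n) := by
    intro q hq
    rw [hT, Finset.mem_filter] at hq
    exact wlight_one hp0 hp1 hρ0 hρ1 hρ q.1 q.2 hq.2.1 hq.2.2
  refine (Finset.sum_le_sum hone).trans ?_
  rw [Finset.sum_const, nsmul_eq_mul]
  have hcard : (T.card : ℝ) ≤ 4 ^ n := by
    have h1 : T.card ≤ Fintype.card (Finset (Fin n) × Finset (Fin n)) := Finset.card_le_univ _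
    rw [Fintype.card_prod, Fintype.card_finset, Fintype.card_fin, ← mul_pow] at h1
    calc (T.card : ℝ) ≤ (((2 * 2) ^ n : ℕ) : ℝ) := by exact_mod_cast h1
      _ = 4 ^ n := by push_cast; norm_num
  have hpow : ρ ^ (c0 * L * n) = (ρ ^ (c0 * L)) ^ n := by
    rw [Real.rpow_mul hρ0.le, Real.rpow_natCast]
  rw [hpow]
  calc (T.card : ℝ) * (ρ ^ (c0 * L)) ^ n ≤ 4 ^ n * (ρ ^ (c0 * L)) ^ n := by gcongr
    _ = (4 * ρ ^ (c0 * L)) ^ n := by rw [mul_pow]
    _ ≤ (1 / 2) ^ n := by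
        apply pow_le_pow_left₀ (by positivity)
        exact hn.le

end Pool.Bbc38
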