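import Pool.Agent.Lib.MP_bbc38a_co.TailXS


set_option autoImplicit false
open Classical

namespace Pool.Bbc38

/-- many vertices of `U` with few neighbours in `S` are unlikely -/
theorem wpairs_bad {p : ℝ} (hp0 : 0 < p) (hp1 : p < 1) (θ κ : ℝ) (hθ0 : 0 < θ) (hθ1 : θ < 1)
    (hκ : ∀ (n : ℕ) (X S : Finset (Fin n)), Disjoint X S →
      Pr p n {G | (∑ x ∈ X, ((cn G {x} S).card : ℝ)) ≤ κ * (X.card * S.card : ℕ)} ≤
        θ ^ (X.card * S.card)) {n : ℕ} (S U : Finset (Fin n)) (hSU : Disjoint U S)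
    (h : ℝ) (hh : h ≤ κ * S.card) (c : ℝ) :
    Pr p n {G | c ≤ ((U.filter (fun y => ((cn G {y} S).card : ℝ) < h)).card : ℝ)} ≤
      2 ^ U.card * θ ^ ((S.card : ℝ) * c) := by
  have hsub : {G | c ≤ ((U.filter (fun y => ((cn G {y} S).card : ℝ) < h)).card : ℝ)} ⊆
      {G | ∃ Y ∈ U.powerset.filter (fun Y => c ≤ (Y.card : ℝ)),
        G ∈ {G | (∑ x ∈ Y, ((cn G {x} S).card : ℝ)) ≤ κ * (Y.card * S.card : ℕ)}} := by
    intro G hG
    rw [Set.mem_ofPred_eq] at hG ⊢
    refine ⟨U.filter (fun y => ((cn G {y} S).card : ℝ) < h), ?_, ?_⟩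
    · rw [Finset.mem_filter, Finset.mem_powerset]
      exact ⟨Finset.filter_subset _ _, hG⟩
    · rw [Set.mem_ofPred_eq]
      calc _ ≤ ∑ x ∈ U.filter (fun y => ((cn G {y} S).card : ℝ) < h), κ * S.card := by
            refine Finset.sum_le_sum fun x hx => ?_
            rw [Finset.mem_filter] at hx
            exact hx.2.le.trans hh
        _ = _ := by
            rw [Finset.sum_const, nsmul_eq_mul]; push_cast; ring
  refine (Pr_mono hp0.le hp1.le hsub).trans ((Pr_exists_le hp0.le hp1.le _ _).trans ?_)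
  have hb : ∀ Y ∈ U.powerset.filter (fun Y => c ≤ (Y.card : ℝ)),
      Pr p n {G | (∑ x ∈ Y, ((cn G {x} S).card : ℝ)) ≤ κ * (Y.card * S.card : ℕ)} ≤
        θ ^ ((S.card : ℝ) * c) := by
    intro Y hY
    rw [Finset.mem_filter, Finset.mem_powerset] at hY
    refine (hκ n Y S (hSU.mono_left hY.1)).trans ?_
    rw [← Real.rpow_natCast]
    apply Real.rpow_le_rpow_of_exponent_ge hθ0 hθ1.le
    push_cast
    rw [mul_comm (Y.card : ℝ)]
    exact mul_le_mul_of_nonneg_left hY.2 (Nat.cast_nonneg _)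
  refine (Finset.sum_le_sum hb).trans ?_
  rw [Finset.sum_const, nsmul_eq_mul]
  refine mul_le_mul_of_nonneg_right ?_ (Real.rpow_nonneg hθ0.le _)
  have h1 := Finset.card_filter_le U.powerset (fun Y => c ≤ (Y.card : ℝ))
  rw [Finset.card_powerset] at h1
  exact_mod_cast h1

theorem wpairs_cn {n : ℕ} (G : SimpleGraph (Fin n)) (b y : Fin n) (X : Finset (Fin n)) :
    cn G {b, y} X = cn G {y} (cn G {b} X) := by
  ext z
  simp only [cn, Finset.mem_filter, Finset.mem_insert, Finset.mem_singleton, forall_eq_or_imp,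
    forall_eq, and_assoc]

theorem wpairs_count {n : ℕ} (G : SimpleGraph (Fin n)) (V X : Finset (Fin n)) (k : ℕ)
    (h c1 c2 : ℝ) (hc2 : 0 ≤ c2)
    (h1 : ((V.filter (fun b => ((cn G {b} X).card : ℝ) < h)).card : ℝ) ≤ c1)
    (h2 : ∀ S ⊆ X, h ≤ (S.card : ℝ) →
      (((Finset.univ \ X).filter (fun y => ((cn G {y} S).card : ℝ) < k)).card : ℝ) ≤ c2) :
    (((V ×ˢ (Finset.univ : Finset (Fin n))).filter
      (fun q => q.2 ∉ X ∧ (cn G {q.1, q.2} X).card < k)).card : ℝ) ≤ c1 * n + V.card * c2 := by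
  have e1 : (((V ×ˢ (Finset.univ : Finset (Fin n))).filter
      (fun q => q.2 ∉ X ∧ (cn G {q.1, q.2} X).card < k)).card : ℝ) =
      ∑ b ∈ V, (((Finset.univ : Finset (Fin n)).filter
        (fun y => y ∉ X ∧ (cn G {b, y} X).card < k)).card : ℝ) := by
    rw [Finset.card_filter]
    push_cast
    rw [Finset.sum_product]
    refine Finset.sum_congr rfl fun b _ => ?_
    rw [Finset.card_filter]
    push_cast
    rfl
  rw [e1]
  have e2 : ∀ b ∈ V, (((Finset.univ : Finset (Fin n)).filter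
        (fun y => y ∉ X ∧ (cn G {b, y} X).card < k)).card : ℝ) ≤
        (if ((cn G {b} X).card : ℝ) < h then (n : ℝ) else 0) + c2 := by
    intro b _
    split_ifs with hb
    · have h3 : (((Finset.univ : Finset (Fin n)).filter
        (fun y => y ∉ X ∧ (cn G {b, y} X).card < k)).card : ℝ) ≤ n := by
        have := Finset.card_filter_le (Finset.univ : Finset (Fin n))
          (fun y => y ∉ X ∧ (cn G {b, y} X).card < k)
        rw [Finset.card_univ, Fintype.card_fin] at this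
        exact_mod_cast this
      linarith
    · rw [not_lt] at hb
      have h3 := h2 (cn G {b} X) (Finset.filter_subset _ _) hb
      have h4 : ((Finset.univ : Finset (Fin n)).filter
        (fun y => y ∉ X ∧ (cn G {b, y} X).card < k)) =
          (Finset.univ \ X).filter (fun y => ((cn G {y} (cn G {b} X)).card : ℝ) < k) := by
        ext y
        simp only [Finset.mem_filter, Finset.mem_univ, true_and, Finset.mem_sdiff, wpairs_cn,
          Nat.cast_lt]
      rw [h4]
      linarith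
  refine (Finset.sum_le_sum e2).trans ?_
  rw [Finset.sum_add_distrib, Finset.sum_const, nsmul_eq_mul, ← Finset.sum_filter,
    Finset.sum_const, nsmul_eq_mul]
  have h5 : ((V.filter (fun b => ((cn G {b} X).card : ℝ) < h)).card : ℝ) * n ≤ c1 * n :=
    mul_le_mul_of_nonneg_right h1 (Nat.cast_nonneg _)
  linarith

theorem whp_pairs {p : ℝ} (hp0 : 0 < p) (hp1 : p < 1) (k : ℕ) (ε : ℝ) (hε : 0 < ε) :
    ∃ K0 : ℕ, ∀ V X : (n : ℕ) → Finset (Fin n),
      (∀ᶠ n : ℕ in Filter.atTop, Real.log n ≤ ((V n).card : ℝ)) →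
      (∀ᶠ n : ℕ in Filter.atTop, (X n).card = K0) →
      (∀ᶠ n : ℕ in Filter.atTop, Disjoint (V n) (X n)) →
      Whp p (fun n => {G | ((((V n) ×ˢ (Finset.univ : Finset (Fin n))).filter
        (fun q => q.2 ∉ X n ∧ (cn G {q.1, q.2} (X n)).card < k)).card : ℝ) ≤
          ε * ((V n).card : ℝ) * n}) := by
  set θ : ℝ := 1 - p / 2 with hθ
  have hθ0 : 0 < θ := by rw [hθ]; linarith
  have hθ1 : θ < 1 := by rw [hθ]; linarith
  obtain ⟨κ, hκ0, hκ⟩ := tailXS_small hp0 hp1 θ (by rw [hθ]; linarith)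
  -- choice of the size of `X`
  have ht : ∀ a : ℝ, 0 < a → ∀ᶠ K : ℕ in Filter.atTop, 2 * θ ^ (a * (K : ℝ)) < 1 := by
    intro a ha
    have h1 : Filter.Tendsto (fun K : ℕ => θ ^ (a * (K : ℝ))) Filter.atTop (nhds 0) :=
      (tendsto_rpow_atTop_of_base_lt_one θ (by linarith) hθ1).comp
        (Filter.Tendsto.const_mul_atTop ha tendsto_natCast_atTop_atTop)
    have h2 := h1.const_mul 2
    rw [mul_zero] at h2
    exact h2.eventually (gt_mem_nhds one_pos)
  have hk : ∀ᶠ K : ℕ in Filter.atTop, (k : ℝ) ≤ κ * κ * (K : ℝ) :=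
    (Filter.Tendsto.const_mul_atTop (mul_pos hκ0 hκ0)
      tendsto_natCast_atTop_atTop).eventually_ge_atTop _
  obtain ⟨K0, hK1, hK2, hK3⟩ := ((ht (ε / 4) (by positivity)).and
    ((ht (κ * (ε / 4)) (by positivity)).and hk)).exists
  refine ⟨K0, fun V X hV hX hd => ?_⟩
  set ρ1 : ℝ := 2 * θ ^ (ε / 4 * (K0 : ℝ)) with hρ1
  set ρ2 : ℝ := 2 * θ ^ (κ * (ε / 4) * (K0 : ℝ)) with hρ2
  have hρ10 : 0 ≤ ρ1 := by positivity
  have hρ20 : 0 ≤ ρ2 := by positivity
  have hVt : Filter.Tendsto (fun n : ℕ => (V n).card) Filter.atTop Filter.atTop := by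
    rw [← tendsto_natCast_atTop_iff (R := ℝ)]
    exact Filter.tendsto_atTop_mono' _ hV
      (Real.tendsto_log_atTop.comp tendsto_natCast_atTop_atTop)
  have hu : Filter.Tendsto (fun n : ℕ => ρ1 ^ (V n).card + 2 ^ K0 * ρ2 ^ n) Filter.atTop
      (nhds 0) := by
    have h1 := (tendsto_pow_atTop_nhds_zero_of_lt_one hρ10 hK1).comp hVt
    have h2 := (tendsto_pow_atTop_nhds_zero_of_lt_one hρ20 hK2).const_mul ((2 : ℝ) ^ K0)
    have h3 := h1.add h2
    rw [mul_zero, add_zero] at h3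
    exact h3
  refine whp_of_compl_le hp0.le hp1.le _ _ hu ?_
  filter_upwards [hV, hX, hd] with n hVn hXn hdn
  -- the two bad events
  set h : ℝ := κ * (X n).card with hh
  have hsub : {G : SimpleGraph (Fin n) | ((((V n) ×ˢ (Finset.univ : Finset (Fin n))).filter
        (fun q => q.2 ∉ X n ∧ (cn G {q.1, q.2} (X n)).card < k)).card : ℝ) ≤
          ε * ((V n).card : ℝ) * n}ᶜ ⊆
      {G | ε / 4 * ((V n).card : ℝ) ≤
        (((V n).filter (fun y => ((cn G {y} (X n)).card : ℝ) < h)).card : ℝ)} ∪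
      {G | ∃ S ∈ (X n).powerset.filter (fun S => h ≤ (S.card : ℝ)),
        G ∈ {G | ε / 4 * (n : ℝ) ≤
          (((Finset.univ \ X n).filter (fun y => ((cn G {y} S).card : ℝ) < k)).card : ℝ)}} := by
    intro G hG
    by_contra hcon
    rw [Set.mem_union, not_or] at hcon
    apply hG
    rw [Set.mem_ofPred_eq]
    have c1 := hcon.1
    have c2 := hcon.2
    simp only [Set.mem_ofPred_eq, not_le, not_exists, not_and, Finset.mem_filter,
      Finset.mem_powerset, and_imp] at c1 c2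
    have := wpairs_count G (V n) (X n) k h (ε / 4 * ((V n).card : ℝ)) (ε / 4 * (n : ℝ))
      (by positivity) c1.le (fun S hS hSh => (c2 S hS hSh).le)
    refine this.trans ?_
    have h6 : (0 : ℝ) ≤ ε * ((V n).card : ℝ) * n := by positivity
    nlinarith
  refine (Pr_mono hp0.le hp1.le hsub).trans ((Pr_union_le hp0.le hp1.le _ _).trans
    (add_le_add ?_ ((Pr_exists_le hp0.le hp1.le _ _).trans ?_)))
  · refine (wpairs_bad hp0 hp1 θ κ hθ0 hθ1 hκ (X n) (V n) hdn h le_rfl _).trans (le_of_eq ?_)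
    rw [hXn, hρ1, mul_pow, ← Real.rpow_mul_natCast hθ0.le]
    congr 2
    ring
  · have hb : ∀ S ∈ (X n).powerset.filter (fun S => h ≤ (S.card : ℝ)),
        Pr p n {G | ε / 4 * (n : ℝ) ≤
          (((Finset.univ \ X n).filter (fun y => ((cn G {y} S).card : ℝ) < k)).card : ℝ)} ≤
          ρ2 ^ n := by
      intro S hS
      rw [Finset.mem_filter, Finset.mem_powerset] at hS
      have hkS : (k : ℝ) ≤ κ * S.card := by
        calc (k : ℝ) ≤ κ * κ * K0 := hK3
          _ = κ * h := by rw [hh, hXn]; ring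
          _ ≤ κ * S.card := mul_le_mul_of_nonneg_left hS.2 hκ0.le
      refine (wpairs_bad hp0 hp1 θ κ hθ0 hθ1 hκ S (Finset.univ \ X n)
        (Finset.sdiff_disjoint.mono_right hS.1) k hkS _).trans ?_
      rw [hρ2, mul_pow, ← Real.rpow_mul_natCast hθ0.le]
      refine mul_le_mul ?_ ?_ (Real.rpow_nonneg hθ0.le _) (by positivity)
      · refine pow_le_pow_right₀ (by norm_num) ?_
        calc (Finset.univ \ X n).card ≤ (Finset.univ : Finset (Fin n)).card :=
              Finset.card_le_card Finset.sdiff_subset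
          _ = n := by rw [Finset.card_univ, Fintype.card_fin]
      · apply Real.rpow_le_rpow_of_exponent_ge hθ0 hθ1.le
        have h7 : κ * K0 ≤ (S.card : ℝ) := by rw [← hXn]; exact hS.2
        have h8 : 0 ≤ ε / 4 * (n : ℝ) := by positivity
        calc κ * (ε / 4) * K0 * n = (κ * K0) * (ε / 4 * n) := by ring
          _ ≤ S.card * (ε / 4 * n) := mul_le_mul_of_nonneg_right h7 h8
    refine (Finset.sum_le_sum hb).trans ?_
    rw [Finset.sum_const, nsmul_eq_mul]
    refine mul_le_mul_of_nonneg_right ?_ (pow_nonneg hρ20 _)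
    have h1 := Finset.card_filter_le (X n).powerset (fun S => h ≤ (S.card : ℝ))
    rw [Finset.card_powerset, hXn] at h1
    exact_mod_cast h1

end Pool.Bbc38
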