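import Pool.Agent.Lib.MP_bbc38a_co.AsmDet
import Pool.Agent.Lib.MP_bbc38a_co.AsmPre
import Pool.Agent.Lib.MP_bbc38a_co.ExJ0
import Pool.Agent.Lib.MP_bbc38a_co.Comb
import Pool.Agent.Lib.MP_bbc38a_co.WDeg
import Pool.Agent.Lib.MP_bbc38a_co.WBad
import Pool.Agent.Lib.MP_bbc38a_co.WLight
import Pool.Agent.Lib.MP_bbc38a_co.WClq
import Pool.Agent.Lib.MP_bbc38a_co.WCommon
import Pool.Agent.Lib.MP_bbc38a_co.WCover1
import Pool.Agent.Lib.MP_bbc38a_co.WCover2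
import Pool.Agent.Lib.MP_bbc38a_co.WPairs

set_option autoImplicit false
open Classical

namespace Pool.Bbc38

theorem exists_natC (a δ : ℝ) (hδ : 0 < δ) : ∃ C : ℕ, 0 < C ∧ a ≤ C * δ := by
  refine ⟨⌈a / δ⌉₊ + 1, by omega, ?_⟩
  have h1 : a / δ ≤ ((⌈a / δ⌉₊ + 1 : ℕ) : ℝ) := by
    push_cast
    exact (Nat.le_ceil _).trans (by linarith)
  rwa [div_le_iff₀ hδ] at h1

theorem whp_upper {p : ℝ} (hp0 : 0 < p) (hp1 : p < 1) {k : ℕ} (F : SimpleGraph (Fin k))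
    (hne : F.edgeSet.Nonempty)
    (htri : ∀ u v : Fin k, F.Adj u v → ∃ w : Fin k, F.Adj u w ∧ F.Adj v w)
    (ε0 : ℝ) (hε0 : 0 < ε0) :
    Whp p (fun n => {G | ∃ H : SimpleGraph (Fin n), (H ≤ G ∧ ¬ F.IsContained H ∧
      ∀ u v : Fin n, G.Adj u v → ¬ H.Adj u v →
        F.IsContained (H ⊔ SimpleGraph.fromEdgeSet {s(u, v)})) ∧
      (H.edgeSet.ncard : ℝ) ≤ (1 + ε0) * ((n : ℝ) * LL p n)}) := by
  obtain ⟨s, t, m, hs, hcol, hnot, hin⟩ := exists_params F hne htri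
  obtain ⟨l0, hl0⟩ : ∃ l0, l0 = Real.log (1 / (1 - p)) := ⟨_, rfl⟩
  have hl0p : 0 < l0 := by
    rw [hl0]
    apply Real.log_pos
    rw [lt_div_iff₀ (by linarith)]; linarith
  have hp0' : 0 ≤ p := hp0.le
  have hp1' : p ≤ 1 := hp1.le
  obtain ⟨ε, hε, hε1, hεsq⟩ : ∃ ε : ℝ, 0 < ε ∧ ε ≤ 1 ∧ (1 + ε) ^ 2 ≤ 1 + ε0 / 2 := by
    refine ⟨min 1 (ε0 / 6), lt_min one_pos (by linarith), min_le_left _ _, ?_⟩
    have h1 : min 1 (ε0 / 6) ≤ 1 := min_le_left _ _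
    have h2 : min 1 (ε0 / 6) ≤ ε0 / 6 := min_le_right _ _
    have h3 : 0 < min 1 (ε0 / 6) := lt_min one_pos (by linarith)
    nlinarith
  -- constants
  obtain ⟨δ, hδ, hbad⟩ := whp_bad hp0 hp1 (ε / 2) (by linarith)
  obtain ⟨cA, hcA⟩ : ∃ cA : ℝ, cA = (1 + ε) / (p * l0) + 1 := ⟨_, rfl⟩
  have hcA0 : 0 < cA := by rw [hcA]; positivity
  obtain ⟨C, hC0, hCr⟩ := exists_natC (2 * k * cA) δ hδ
  obtain ⟨κ3, K3, hκ3, hK3, hcom3⟩ := whp_common hp0 hp1 (k + 1 + t + (codesU k t m 0).card)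
  obtain ⟨K, hK1, hK3'⟩ : ∃ K : ℝ, 1 ≤ K ∧ K3 ≤ K := ⟨max K3 1, le_max_right _ _, le_max_left _ _⟩
  have hK0 : 0 < K := by linarith
  obtain ⟨C4, hC4, hcov2⟩ := whp_cover2 hp0 hp1 t
  obtain ⟨εp, hεp⟩ : ∃ εp : ℝ, εp = ε0 / (16 * l0 * K) := ⟨_, rfl⟩
  have hεp0 : 0 < εp := by rw [hεp]; positivity
  obtain ⟨η, hη⟩ : ∃ η : ℝ, η = ε0 / (16 * l0 * (K + (t + k) * C4)) := ⟨_, rfl⟩
  have hη0 : 0 < η := by rw [hη]; positivity
  obtain ⟨K0, hpairs⟩ := whp_pairs hp0 hp1 k εp hεp0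
  obtain ⟨c1, hc1⟩ : ∃ c1 : ℝ, c1 = εp / 2 ^ K0 := ⟨_, rfl⟩
  have hc10 : 0 < c1 := by rw [hc1]; positivity
  obtain ⟨C2, hC20, hC2r⟩ := exists_natC (4 * k) c1 hc10
  obtain ⟨δJ, hδJ0, hδJ1, hδJ2, hδJ3⟩ : ∃ δJ : ℝ, 0 < δJ ∧ δJ ≤ δ / 2 / 2 ^ C / cA ∧
      δJ ≤ κ3 / 2 ∧ δJ ≤ c1 / 4 / 2 ^ C2 := by
    refine ⟨min (δ / 2 / 2 ^ C / cA) (min (κ3 / 2) (c1 / 4 / 2 ^ C2)), ?_, min_le_left _ _,
      (min_le_right _ _).trans (min_le_left _ _), (min_le_right _ _).trans (min_le_right _ _)⟩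
    apply lt_min
    · positivity
    · apply lt_min <;> positivity
  obtain ⟨N0, J0, hN0, hloc, hks⟩ := exists_J0 s k hs δJ hδJ0
  obtain ⟨m1, hm1, hcov1⟩ := whp_cover1 hp0 hp1 t η hη0
  obtain ⟨N2, hN2⟩ : ∃ N2 : ℕ, N2 = (codesU k t m m1).card := ⟨_, rfl⟩
  obtain ⟨κ1, K1', hκ1, hK1', hcom1⟩ := whp_common hp0 hp1 N2
  obtain ⟨C1, hC1a, hC1b⟩ : ∃ C1 : ℝ, K1' ≤ C1 ∧ (cA + 1) / κ1 ≤ C1 :=
    ⟨max K1' ((cA + 1) / κ1), le_max_left _ _, le_max_right _ _⟩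
  have hC10 : 0 < C1 := lt_of_lt_of_le hK1' hC1a
  obtain ⟨K1, hbad1⟩ := hbad (C1 + 1)
  -- index sets
  obtain ⟨v1, hv1ge, hv1le⟩ := exists_ceil C1 hC10.le
  obtain ⟨v2, hv2ge, hv2le⟩ := exists_floor
  obtain ⟨v3, hv3ge, hv3le⟩ := exists_ceil K hK0.le
  obtain ⟨m2, hm2ge, hm2le⟩ := exists_ceil C4 hC4.le
  have htot : ∀ᶠ n : ℕ in Filter.atTop, v1 n + v2 n + v3 n + K0 + m2 n * t ≤ n := by
    filter_upwards [hv1le, hv2le, hv3le, hm2le,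
      ev_lin_le (C1 + 1 + K + C4 * t) (1 + 1 + K0 + t)] with n h1 h2 h3 h4 h5
    have : ((v1 n + v2 n + v3 n + K0 + m2 n * t : ℕ) : ℝ) ≤ n := by
      push_cast
      have h6 : (m2 n : ℝ) * t ≤ (C4 * Real.log n + 1) * t :=
        mul_le_mul_of_nonneg_right h4 (Nat.cast_nonneg _)
      linarith
    exact_mod_cast this
  obtain ⟨V1, V2, V3, X, W, hV1c, hV2c, hV3c, hXc, hWc, h12, h13, h1X, h1W, h23, h2X, h2W, h3X,
    h3W, hXW⟩ := exists_blocks v1 v2 v3 (fun n => m2 n * t) K0 htot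
  obtain ⟨rW, Q, hrW, hQ, hQc, hQd⟩ := exists_rW m2 t W hWc
  -- the properties
  have P1 := whp_deg hp0 hp1 ε hε
  have P2 := hbad1 V1 (by
    filter_upwards [hV1c, hv1le, ev_log_ge 1] with n h1 h2 h3
    rw [h1]; linarith)
  have P3 := whp_light hp0 hp1 ε (ε / 2) η (C1 + 1) (by linarith) (by linarith) hη0 V1 (by
    filter_upwards [hV1c, hv1le, ev_log_ge 1] with n h1 h2 h3
    rw [h1]; linarith)
  have P4 := whp_clq hp0 hp1 N0 (C1 + 1) 1 one_pos V1 (by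
    filter_upwards [hV1c, hv1le, ev_log_ge 1] with n h1 h2 h3
    rw [h1]; linarith)
  have P5 := whp_clq hp0 hp1 N2 1 (1 / 2) (by norm_num) V2 (by
    filter_upwards [hV2c, hv2le] with n h1 h2
    rw [h1]; linarith)
  have P6 := whp_clq hp0 hp1 N0 (K + 1) (κ3 * K / 4) (by positivity) V3 (by
    filter_upwards [hV3c, hv3le, ev_log_ge 1] with n h1 h2 h3
    rw [h1]; linarith)
  have P7 := hcom1 V1 (by
    filter_upwards [hV1c, ev_log_ge 0] with n h1 h2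
    rw [h1]
    exact le_trans (mul_le_mul_of_nonneg_right hC1a h2) (hv1ge n))
  have P8 := hcom3 V3 (by
    filter_upwards [hV3c, ev_log_ge 0] with n h1 h2
    rw [h1]
    exact le_trans (mul_le_mul_of_nonneg_right hK3' h2) (hv3ge n))
  have P9 := hcov1 V2 (by
    filter_upwards [hV2c, hv2le] with n h1 h2
    rw [h1]; exact h2)
  have P10 := hcov2 m2 Q (by
    filter_upwards with n
    exact hm2ge n) hQc hQd
  have P11 := hpairs V3 X (by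
    filter_upwards [hV3c, ev_log_ge 0] with n h1 h2
    rw [h1]
    refine le_trans ?_ (hv3ge n)
    calc Real.log (n : ℝ) = 1 * Real.log (n : ℝ) := (one_mul _).symm
      _ ≤ K * Real.log (n : ℝ) := mul_le_mul_of_nonneg_right hK1 h2) hXc
    (by filter_upwards with n; exact h3X n)
  refine Whp.mono hp0' hp1' (Whp.inter hp0' hp1' P1 (Whp.inter hp0' hp1' P2 (Whp.inter hp0' hp1' P3
    (Whp.inter hp0' hp1' P4 (Whp.inter hp0' hp1' P5 (Whp.inter hp0' hp1' P6 (Whp.inter hp0' hp1' P7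
    (Whp.inter hp0' hp1' P8 (Whp.inter hp0' hp1' P9 (Whp.inter hp0' hp1' P10 P11)))))))))) ?_
  clear P1 P2 P3 P4 P5 P6 P7 P8 P9 P10 P11 hbad1 hbad hcom1 hcom3 hcov1 hcov2 hpairs
  filter_upwards [hv1le, hv2le, hv3le, hm2le, htot, hV1c, hV2c, hV3c, hXc, hWc, ev_log_ge 4,
    ev_log_ge (N0 : ℝ), ev_log_ge (4 * N0 / (κ3 * K)),
    ev_main (C1 + K + C4 * t) (1 + 1 + K0 + N2 + t)
      ((1 + ε) * p * N0 + 2 * η + 2 * εp + K0 + N2 + 2 * η * t + m1 * C + K1 + 2 * η * k)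
      (ε0 / (4 * l0)) (by positivity), Filter.eventually_ge_atTop (⌈(C2 : ℝ) / (c1 / 2)⌉₊), hrW]
    with n g1 g2 g3 g4 g5 g6 g7 g8 g9 g10 g11 g12 g13 g14 g15 g16
  clear hv1le hv2le hv3le hm2le htot hV1c hV2c hV3c hXc hWc hrW hQc hQd
  rintro G ⟨q1, q2, q3, q4, q5, q6, q7, q8, q9, q10, q11⟩
  have hlog0 : 0 ≤ Real.log (n : ℝ) := by linarith
  obtain ⟨hWm, hWi, hWs⟩ := g16
  have hN0r : (0 : ℝ) < N0 := by exact_mod_cast hN0
  have hLLeq : LL p n = Real.log n / l0 := by rw [hl0]; rfl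
  have hLL0 : 0 < LL p n := by
    rw [hLLeq]
    have : 0 < Real.log (n : ℝ) := by linarith
    positivity
  obtain ⟨M, hMpos, hMlow, hMup⟩ := exists_M (LL p n) p ε N0 hLL0 hp0 hε hN0
  have hMcA : (M : ℝ) * N0 ≤ cA * Real.log n := by
    have h1 : (1 + ε) * LL p n / p = (1 + ε) / (p * l0) * Real.log n := by
      rw [hLLeq]; field_simp
    rw [hcA, add_mul, one_mul, ← h1]
    linarith
  have hb0 : K * Real.log n ≤ ((V3 n).card : ℝ) := by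
    rw [g8]; exact hv3ge n
  have hb0pos : 0 < ((V3 n).card : ℝ) := by
    have : 0 < K * Real.log n := mul_pos hK0 (by linarith)
    linarith
  have hκK : κ3 * K / 4 * Real.log n + N0 ≤ κ3 / 2 * ((V3 n).card : ℝ) := by
    have h1 : 4 * N0 ≤ κ3 * K * Real.log n := by
      rw [div_le_iff₀ (by positivity)] at g13
      linarith
    have h2 : κ3 / 2 * (K * Real.log n) ≤ κ3 / 2 * ((V3 n).card : ℝ) :=
      mul_le_mul_of_nonneg_left hb0 (by positivity)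
    linarith
  have hres := asm_det G F hcol hnot hin htri m1 (m2 n) N0 hN0 (V1 n) (V2 n) (V3 n) (W n) (X n)
    (h12 n) (h13 n) (h1W n) (h1X n) (h23 n) (h2W n) (h2X n) (h3W n) (h3X n) (hXW n)
    (rW n) hWm hWi hWs J0 δJ hδJ0 hloc hks κ1 κ3 (1 * Real.log n) (κ3 * K / 4 * Real.log n)
    (δ * Real.log n) ((1 + ε / 2) * LL p n) ((1 + ε) * LL p n / p) η εp ((V3 n).card : ℝ)
    ((1 + ε) * p * n) c1 K0 K1 C C2 M
    (by
      obtain ⟨T, hT1, hT2, hT3⟩ := q5 (V2 n) (Finset.Subset.refl _) (by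
        rw [g7]
        have := hv2ge n
        linarith)
      exact ⟨T, hT1, hT2.trans hN2, hT3⟩)
    (by rw [← hN2]; exact q7) q8 q4 q6
    (by
      intro x hx
      obtain ⟨j, hj, hj2⟩ := q10 x (fun j _ hj' => hx ((hQ n j x).mp hj').1)
      exact ⟨j, hj, fun u hu i hi => hj2 u ((hQ n j u).mpr ⟨hu, i, hi⟩)⟩)
    q9 q2 q3 q11 q1 rfl hb0pos g9.le (mul_pos hδ (by linarith)) hC0
    (by
      push_cast
      have h1 : 2 * (k : ℝ) * ((M : ℝ) * N0) ≤ 2 * k * (cA * Real.log n) :=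
        mul_le_mul_of_nonneg_left hMcA (by positivity)
      have h2 : 2 * (k : ℝ) * (cA * Real.log n) = (2 * k * cA) * Real.log n := by ring
      have h3 : (2 * k * cA) * Real.log n ≤ (C * δ) * Real.log n :=
        mul_le_mul_of_nonneg_right hCr hlog0
      linarith)
    hMpos
    (by
      have h1 : (cA + 1) * Real.log n ≤ κ1 * ((V1 n).card : ℝ) := by
        rw [g6]
        have h3 : κ1 * (C1 * Real.log n) ≤ κ1 * (v1 n : ℝ) :=
          mul_le_mul_of_nonneg_left (hv1ge n) hκ1.le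
        have h4 : cA + 1 ≤ C1 * κ1 := by rwa [div_le_iff₀ hκ1] at hC1b
        have h5 : (cA + 1) * Real.log n ≤ (C1 * κ1) * Real.log n :=
          mul_le_mul_of_nonneg_right h4 hlog0
        linarith
      linarith)
    hMlow
    (by
      push_cast
      have h1 : δJ * ((M : ℝ) * N0) ≤ δ / 2 / 2 ^ C / cA * (cA * Real.log n) :=
        mul_le_mul hδJ1 hMcA (by positivity) (by positivity)
      have h2 : δ / 2 / 2 ^ C / cA * (cA * Real.log n) = δ * Real.log n / 2 / 2 ^ C := by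
        field_simp
      linarith)
    (by
      have h1 : δJ * ((V3 n).card : ℝ) ≤ κ3 / 2 * ((V3 n).card : ℝ) :=
        mul_le_mul_of_nonneg_right hδJ2 hb0pos.le
      linarith)
    (by
      have h2 : κ3 / 2 * ((V3 n).card : ℝ) ≤ κ3 * ((V3 n).card : ℝ) :=
        mul_le_mul_of_nonneg_right (by linarith) hb0pos.le
      linarith)
    hδJ3 hεp0 hc1 hC2r hC20
    (by
      have h1 : (C2 : ℝ) / (c1 / 2) ≤ n := (Nat.le_ceil _).trans (by exact_mod_cast g15)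
      rw [div_le_iff₀ (by positivity)] at h1
      linarith)
    (by positivity) hη0.le
  obtain ⟨H, hH1, hH2⟩ := hres
  refine ⟨H, hH1, hH2.trans ?_⟩
  rw [g6, g8, g10, ← hN2]
  have hfin := final_num (Real.log n) n l0 ε ε0 p N0 η εp K C1 C4 k t m1 C K0 K1 N2 (v1 n) (v3 n)
    (m2 n) ((M : ℝ) * N0) (LL p n) hlog0 (Nat.cast_nonneg _) hl0p hε hp0 hη0 hεp0 hK0 hC4
    (Nat.cast_nonneg _) (Nat.cast_nonneg _) (Nat.cast_nonneg _) (Nat.cast_nonneg _)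
    (Nat.cast_nonneg _) (Nat.cast_nonneg _) (Nat.cast_nonneg _) hεsq hεp hη hLLeq g1 g3 g4 hMup g14
  push_cast
  linarith

end Pool.Bbc38
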