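import Pool.Agent.Lib.MP_bbc38a_co.Defs


set_option autoImplicit false
open Classical

namespace Pool.Bbc38

theorem averaging {ι α : Type} (A : Finset α) (I : Finset ι) (E : ι → Finset α) (k : ℕ) (d : ℝ)
    (hd0 : 0 < d) (hE : ∀ i ∈ I, E i ⊆ A) (hd : ∀ i ∈ I, d ≤ ((E i).card : ℝ))
    (hI : 2 * k * (A.card : ℝ) ≤ I.card * d) (hI0 : 0 < I.card) :
    ∃ T ⊆ I, T.card = k ∧ d / 2 / 2 ^ I.card ≤ ((A.filter (fun a => ∀ i ∈ T, a ∈ E i)).card : ℝ) := by
  set deg : α → Finset ι := fun a => I.filter (fun i => a ∈ E i) with hdeg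
  set A' := A.filter (fun a => k ≤ (deg a).card) with hA'
  -- double counting
  have h1 : ∑ i ∈ I, (E i).card = ∑ a ∈ A, (deg a).card := by
    have : ∀ i ∈ I, (E i).card = (A.filter (fun a => a ∈ E i)).card := by
      intro i hi
      congr 1
      ext a
      rw [Finset.mem_filter]
      exact ⟨fun h => ⟨hE i hi h, h⟩, fun h => h.2⟩
    rw [Finset.sum_congr rfl this]
    simp only [hdeg, Finset.card_filter]
    exact Finset.sum_comm
  have h2 : ∑ a ∈ A, (deg a).card ≤ A'.card * I.card + A.card * k := by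
    rw [← Finset.sum_filter_add_sum_filter_not A (fun a => k ≤ (deg a).card)]
    apply Nat.add_le_add
    · calc ∑ a ∈ A', (deg a).card ≤ ∑ a ∈ A', I.card :=
            Finset.sum_le_sum (fun a _ => Finset.card_filter_le _ _)
        _ = A'.card * I.card := by rw [Finset.sum_const, smul_eq_mul]
    · calc ∑ a ∈ A.filter (fun a => ¬ k ≤ (deg a).card), (deg a).card
          ≤ ∑ a ∈ A.filter (fun a => ¬ k ≤ (deg a).card), k :=
            Finset.sum_le_sum (fun a ha => by
              rw [Finset.mem_filter] at ha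
              omega)
        _ = (A.filter (fun a => ¬ k ≤ (deg a).card)).card * k := by
            rw [Finset.sum_const, smul_eq_mul]
        _ ≤ A.card * k := Nat.mul_le_mul_right _ (Finset.card_filter_le _ _)
  have h3 : (I.card : ℝ) * d ≤ ∑ i ∈ I, ((E i).card : ℝ) := by
    calc (I.card : ℝ) * d = ∑ i ∈ I, d := by rw [Finset.sum_const, nsmul_eq_mul]
      _ ≤ _ := Finset.sum_le_sum hd
  have h4 : (I.card : ℝ) * d ≤ A'.card * I.card + A.card * k := by
    refine le_trans h3 ?_
    have := le_trans h1.le h2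
    exact_mod_cast this
  have hIpos : (0 : ℝ) < I.card := by exact_mod_cast hI0
  have h5 : d / 2 ≤ (A'.card : ℝ) := by
    have : (I.card : ℝ) * (d / 2) ≤ I.card * A'.card := by nlinarith
    exact le_of_mul_le_mul_left this hIpos
  have hne : A'.Nonempty := by
    rw [← Finset.card_pos]
    have : (0 : ℝ) < A'.card := by linarith
    exact_mod_cast this
  -- choose subsets
  have hch : ∀ a : α, a ∈ A' → ∃ T ⊆ deg a, T.card = k := by
    intro a ha
    rw [hA', Finset.mem_filter] at ha
    exact Finset.exists_subset_card_eq ha.2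
  choose! f hf1 hf2 using hch
  have hmaps : ∀ a ∈ A', f a ∈ I.powersetCard k := by
    intro a ha
    rw [Finset.mem_powersetCard]
    exact ⟨(hf1 a ha).trans (Finset.filter_subset _ _), hf2 a ha⟩
  have hne2 : (I.powersetCard k).Nonempty := by
    obtain ⟨a, ha⟩ := hne
    exact ⟨f a, hmaps a ha⟩
  have hcard : ((I.powersetCard k).card : ℝ) ≤ 2 ^ I.card := by
    have : (I.powersetCard k).card ≤ I.powerset.card := by
      apply Finset.card_le_card
      intro T hT
      rw [Finset.mem_powersetCard] at hT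
      exact Finset.mem_powerset.2 hT.1
    rw [Finset.card_powerset] at this
    exact_mod_cast this
  obtain ⟨T, hT, hTc⟩ := Finset.exists_le_card_fiber_of_nsmul_le_card_of_maps_to
    (b := d / 2 / 2 ^ I.card) hmaps hne2 (by
      rw [nsmul_eq_mul]
      have hp : (0 : ℝ) < 2 ^ I.card := by positivity
      calc ((I.powersetCard k).card : ℝ) * (d / 2 / 2 ^ I.card)
          ≤ 2 ^ I.card * (d / 2 / 2 ^ I.card) := by
            apply mul_le_mul_of_nonneg_right hcard
            positivity
        _ = d / 2 := by field_simp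
        _ ≤ _ := h5)
  rw [Finset.mem_powersetCard] at hT
  refine ⟨T, hT.1, hT.2, le_trans hTc ?_⟩
  have : (A'.filter (fun x => f x = T)) ⊆ A.filter (fun a => ∀ i ∈ T, a ∈ E i) := by
    intro a ha
    rw [Finset.mem_filter] at ha
    have haA : a ∈ A := (Finset.mem_filter.1 ha.1).1
    rw [Finset.mem_filter]
    refine ⟨haA, fun i hi => ?_⟩
    have h := hf1 a ha.1 (by rw [ha.2]; exact hi)
    exact (Finset.mem_filter.1 h).2
  exact_mod_cast Finset.card_le_card this

end Pool.Bbc38
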