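import Pool.Agent.Lib.MP_bbc38a_co.Defs


set_option autoImplicit false
open Classical

namespace Pool.Bbc38

theorem count_mf {α : Type} {s : Finset α} {p : α → Prop} {d : DecidablePred p} {a : α} :
    a ∈ @Finset.filter α p d s ↔ a ∈ s ∧ p a := @Finset.mem_filter α p d s a

theorem count_inst {α : Type} (s : Finset α) (p : α → Prop) (d d' : DecidablePred p) :
    (@Finset.filter α p d s).card ≤ (@Finset.filter α p d' s).card := by
  refine Finset.card_le_card ?_
  intro a ha
  exact count_mf.2 (count_mf.1 ha)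

theorem count_ncard_le {n : ℕ} (H : SimpleGraph (Fin n)) (P : Finset (Fin n × Fin n))
    (h : ∀ u v, H.Adj u v → (u, v) ∈ P ∨ (v, u) ∈ P) : H.edgeSet.ncard ≤ P.card := by
  have h1 : H.edgeSet ⊆
      ((P.image (fun q : Fin n × Fin n => s(q.1, q.2)) : Finset (Sym2 (Fin n))) :
        Set (Sym2 (Fin n))) := by
    intro e he
    induction e using Sym2.ind with
    | _ u v =>
      rw [SimpleGraph.mem_edgeSet] at he
      rw [Finset.mem_coe, Finset.mem_image]
      rcases h u v he with h | h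
      · exact ⟨(u, v), h, rfl⟩
      · exact ⟨(v, u), h, Sym2.eq_swap⟩
  have h2 := Set.ncard_le_ncard h1 (Finset.finite_toSet _)
  rw [Set.ncard_coe_finset] at h2
  exact h2.trans Finset.card_image_le

theorem count_sum {n : ℕ} (X : Finset (Fin n)) (R : Fin n → Fin n → Prop) :
    ((X ×ˢ (Finset.univ : Finset (Fin n))).filter (fun q => R q.1 q.2)).card ≤
      ∑ x ∈ X, (Finset.univ.filter (fun y => R x y)).card := by
  have h1 : ((X ×ˢ (Finset.univ : Finset (Fin n))).filter (fun q => R q.1 q.2)) ⊆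
      X.biUnion (fun x => (Finset.univ.filter (fun y => R x y)).image (Prod.mk x)) := by
    intro q hq
    rw [Finset.mem_filter, Finset.mem_product] at hq
    rw [Finset.mem_biUnion]
    refine ⟨q.1, hq.1.1, ?_⟩
    rw [Finset.mem_image]
    exact ⟨q.2, by rw [Finset.mem_filter]; exact ⟨Finset.mem_univ _, hq.2⟩, rfl⟩
  refine (Finset.card_le_card h1).trans (Finset.card_biUnion_le.trans ?_)
  exact Finset.sum_le_sum (fun x _ => Finset.card_image_le)

theorem count_fib {n : ℕ} (X : Finset (Fin n)) (R : Fin n → Fin n → Prop) (c : ℕ)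
    (h : ∀ x ∈ X, (Finset.univ.filter (fun y => R x y)).card ≤ c) :
    ((X ×ˢ (Finset.univ : Finset (Fin n))).filter (fun q => R q.1 q.2)).card ≤ X.card * c := by
  refine (count_sum X R).trans ?_
  have := Finset.sum_le_card_nsmul X (fun x => (Finset.univ.filter (fun y => R x y)).card) c h
  simpa using this

theorem count_fib_real {n : ℕ} (X : Finset (Fin n)) (R : Fin n → Fin n → Prop) (c : ℝ)
    (h : ∀ x ∈ X, ((Finset.univ.filter (fun y => R x y)).card : ℝ) ≤ c) :
    (((X ×ˢ (Finset.univ : Finset (Fin n))).filter (fun q => R q.1 q.2)).card : ℝ)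
      ≤ X.card * c := by
  have h1 : (((X ×ˢ (Finset.univ : Finset (Fin n))).filter (fun q => R q.1 q.2)).card : ℝ) ≤
      ∑ x ∈ X, ((Finset.univ.filter (fun y => R x y)).card : ℝ) := by
    exact_mod_cast count_sum X R
  refine h1.trans ?_
  have := Finset.sum_le_card_nsmul X (fun x => ((Finset.univ.filter (fun y => R x y)).card : ℝ)) c h
  simpa using this

/-- if each `y` satisfying `Q` has a class `j < m` and every class contains at most `c` of them -/
theorem count_classes {n m c : ℕ} (Q : Fin n → Prop) (K : ℕ → Fin n → Prop)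
    (hK : ∀ y, Q y → ∃ j, j < m ∧ K j y)
    (h : ∀ j, (Finset.univ.filter (fun y => K j y ∧ Q y)).card ≤ c) :
    (Finset.univ.filter (fun y => Q y)).card ≤ m * c := by
  have h1 : (Finset.univ.filter (fun y => Q y)) ⊆
      (Finset.range m).biUnion (fun j => Finset.univ.filter (fun y => K j y ∧ Q y)) := by
    intro y hy
    rw [Finset.mem_filter] at hy
    obtain ⟨j, hj, hKj⟩ := hK y hy.2
    rw [Finset.mem_biUnion]
    refine ⟨j, Finset.mem_range.2 hj, ?_⟩
    rw [Finset.mem_filter]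
    exact ⟨Finset.mem_univ _, hKj, hy.2⟩
  refine (Finset.card_le_card h1).trans (Finset.card_biUnion_le.trans ?_)
  have := Finset.sum_le_card_nsmul (Finset.range m)
    (fun j => (Finset.univ.filter (fun y => K j y ∧ Q y)).card) c (fun j _ => h j)
  simpa using this

theorem count_role (r : Role) :
    isA r ∨ isB r ∨ isX r ∨ isG r ∨ isH1 r ∨ isH2 r ∨ isR1 r ∨ isR2 r := by
  cases r <;> simp [isA, isB, isX, isG, isH1, isH2, isR1, isR2]

theorem count_notA (r : Role) (h : isR1 r ∨ isR2 r ∨ isH2 r) : ¬ isA r := by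
  cases r <;> simp_all [isA, isR1, isR2, isH2]

theorem count_r1 (r : Role) (h : isR1 r) : ∃ j, r = .r1 j := by
  cases r <;> simp_all [isR1]

theorem count_r2 (r : Role) (h : isR2 r) : ∃ j, r = .r2 j := by
  cases r <;> simp_all [isR2]

theorem edge_count {n s k t m : ℕ} {G : SimpleGraph (Fin n)} (c : Cfg n s k t m G)
    (H : SimpleGraph (Fin n)) (hHG : H ≤ G) (Δ D4 d0 : ℝ) (C K1 k' : ℕ)
    (hΔ : ∀ v, ((cn G {v} Finset.univ).card : ℝ) ≤ Δ)
    (h4 : ((((c.verts isB) ×ˢ (c.verts isR1)).filter (fun q => H.Adj q.1 q.2)).card : ℝ) ≤ D4)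
    (hstar : ∀ x, (isR1 (c.role x) ∨ isR2 (c.role x) ∨ isH2 (c.role x)) → ∀ j,
      (Finset.univ.filter (fun y => c.role y = .r1 j ∧ H.Adj x y ∧
        d0 ≤ ((cn G {x, y} (c.verts isA)).card : ℝ))).card ≤ C)
    (hbad : ∀ y, isR1 (c.role y) →
      (Finset.univ.filter (fun x => ¬ isA (c.role x) ∧
        ((cn G {x, y} (c.verts isA)).card : ℝ) < d0)).card ≤ K1)
    (hstar2 : ∀ x, isR2 (c.role x) → ∀ j,
      (Finset.univ.filter (fun y => c.role y = .r2 j ∧ H.Adj x y)).card ≤ k') :
    (H.edgeSet.ncard : ℝ) ≤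
      ((c.verts (fun r => ¬ isR1 r ∧ ¬ isR2 r)).card : ℝ) ^ 2
      + ((c.verts isA).card : ℝ) * Δ
      + ((c.verts isB).card : ℝ) * (c.verts isR2).card
      + D4
      + ((c.verts (fun r => isX r ∨ isG r ∨ isH1 r)).card : ℝ) * n
      + ((c.verts isH2).card : ℝ) * (c.verts isR2).card
      + (n : ℝ) * c.m1 * C + (K1 : ℝ) * n
      + ((c.verts isR2).card : ℝ) * c.m2 * k' := by
  have hmv : ∀ (Q : Role → Prop) (v : Fin n), v ∈ c.verts Q ↔ Q (c.role v) := by
    intro Q v
    simp [Cfg.verts]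
  have hcn : ∀ V : Finset (Fin n), (V.card : ℝ) ≤ n := by
    intro V
    have := Finset.card_le_univ V
    rw [Fintype.card_fin] at this
    exact_mod_cast this
  set P1 : Finset (Fin n × Fin n) :=
    (c.verts (fun r => ¬ isR1 r ∧ ¬ isR2 r)) ×ˢ (c.verts (fun r => ¬ isR1 r ∧ ¬ isR2 r)) with hP1
  set P2 : Finset (Fin n × Fin n) :=
    ((c.verts isA) ×ˢ (Finset.univ : Finset (Fin n))).filter (fun q => G.Adj q.1 q.2) with hP2
  set P3 : Finset (Fin n × Fin n) := (c.verts isB) ×ˢ (c.verts isR2) with hP3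
  set P4 : Finset (Fin n × Fin n) :=
    ((c.verts isB) ×ˢ (c.verts isR1)).filter (fun q => H.Adj q.1 q.2) with hP4
  set P5 : Finset (Fin n × Fin n) :=
    (c.verts (fun r => isX r ∨ isG r ∨ isH1 r)) ×ˢ (Finset.univ : Finset (Fin n)) with hP5
  set P6 : Finset (Fin n × Fin n) := (c.verts isH2) ×ˢ (c.verts isR2) with hP6
  set P7 : Finset (Fin n × Fin n) :=
    ((c.verts (fun r => isR1 r ∨ isR2 r ∨ isH2 r)) ×ˢ (Finset.univ : Finset (Fin n))).filter
      (fun q => isR1 (c.role q.2) ∧ H.Adj q.1 q.2 ∧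
        d0 ≤ ((cn G {q.1, q.2} (c.verts isA)).card : ℝ)) with hP7
  set P8 : Finset (Fin n × Fin n) :=
    ((c.verts isR1) ×ˢ (Finset.univ : Finset (Fin n))).filter
      (fun q => ¬ isA (c.role q.2) ∧ ((cn G {q.2, q.1} (c.verts isA)).card : ℝ) < d0) with hP8
  set P9 : Finset (Fin n × Fin n) :=
    ((c.verts isR2) ×ˢ (Finset.univ : Finset (Fin n))).filter
      (fun q => isR2 (c.role q.2) ∧ H.Adj q.1 q.2) with hP9
  set P : Finset (Fin n × Fin n) :=
    P1 ∪ P2 ∪ P3 ∪ P4 ∪ P5 ∪ P6 ∪ P7 ∪ P8 ∪ P9 with hP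
  have hm : ∀ q, (q ∈ P1 ∨ q ∈ P2 ∨ q ∈ P3 ∨ q ∈ P4 ∨ q ∈ P5 ∨ q ∈ P6 ∨ q ∈ P7 ∨ q ∈ P8 ∨ q ∈ P9) →
      q ∈ P := by
    intro q h
    simp only [hP, Finset.mem_union]
    simp only [or_assoc]
    exact h
  -- the good/bad alternative
  have hgb : ∀ x y, (isR1 (c.role x) ∨ isR2 (c.role x) ∨ isH2 (c.role x)) →
      isR1 (c.role y) → H.Adj x y → (x, y) ∈ P ∨ (y, x) ∈ P := by
    intro x y hx hy hxy
    by_cases hd : d0 ≤ ((cn G {x, y} (c.verts isA)).card : ℝ)
    · left
      have : (x, y) ∈ P7 := by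
        rw [hP7, Finset.mem_filter, Finset.mem_product]
        exact ⟨⟨(hmv _ _).2 hx, Finset.mem_univ _⟩, hy, hxy, hd⟩
      exact hm _ (Or.inr (Or.inr (Or.inr (Or.inr (Or.inr (Or.inr (Or.inl this)))))))
    · right
      have : (y, x) ∈ P8 := by
        rw [hP8, Finset.mem_filter, Finset.mem_product]
        exact ⟨⟨(hmv _ _).2 hy, Finset.mem_univ _⟩, count_notA _ hx, lt_of_not_ge hd⟩
      exact hm _ (Or.inr (Or.inr (Or.inr (Or.inr (Or.inr (Or.inr (Or.inr (Or.inl this))))))))
  have hcov1 : ∀ u v, H.Adj u v → (isR1 (c.role v) ∨ isR2 (c.role v)) →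
      (u, v) ∈ P ∨ (v, u) ∈ P := by
    intro u v huv hv
    rcases count_role (c.role u) with h | h | h | h | h | h | h | h
    · left
      have : (u, v) ∈ P2 := by
        rw [hP2, Finset.mem_filter, Finset.mem_product]
        exact ⟨⟨(hmv _ _).2 h, Finset.mem_univ _⟩, hHG huv⟩
      exact hm _ (Or.inr (Or.inl this))
    · left
      rcases hv with hv | hv
      · have : (u, v) ∈ P4 := by
          rw [hP4, Finset.mem_filter, Finset.mem_product]
          exact ⟨⟨(hmv _ _).2 h, (hmv _ _).2 hv⟩, huv⟩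
        exact hm _ (Or.inr (Or.inr (Or.inr (Or.inl this))))
      · have : (u, v) ∈ P3 := by
          rw [hP3, Finset.mem_product]
          exact ⟨(hmv _ _).2 h, (hmv _ _).2 hv⟩
        exact hm _ (Or.inr (Or.inr (Or.inl this)))
    · left
      have : (u, v) ∈ P5 := by
        rw [hP5, Finset.mem_product]
        exact ⟨(hmv _ _).2 (Or.inl h), Finset.mem_univ _⟩
      exact hm _ (Or.inr (Or.inr (Or.inr (Or.inr (Or.inl this)))))
    · left
      have : (u, v) ∈ P5 := by
        rw [hP5, Finset.mem_product]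
        exact ⟨(hmv _ _).2 (Or.inr (Or.inl h)), Finset.mem_univ _⟩
      exact hm _ (Or.inr (Or.inr (Or.inr (Or.inr (Or.inl this)))))
    · left
      have : (u, v) ∈ P5 := by
        rw [hP5, Finset.mem_product]
        exact ⟨(hmv _ _).2 (Or.inr (Or.inr h)), Finset.mem_univ _⟩
      exact hm _ (Or.inr (Or.inr (Or.inr (Or.inr (Or.inl this)))))
    · rcases hv with hv | hv
      · exact hgb u v (Or.inr (Or.inr h)) hv huv
      · left
        have : (u, v) ∈ P6 := by
          rw [hP6, Finset.mem_product]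
          exact ⟨(hmv _ _).2 h, (hmv _ _).2 hv⟩
        exact hm _ (Or.inr (Or.inr (Or.inr (Or.inr (Or.inr (Or.inl this))))))
    · exact (hgb v u (hv.elim Or.inl (fun h => Or.inr (Or.inl h))) h huv.symm).symm
    · rcases hv with hv | hv
      · exact hgb u v (Or.inr (Or.inl h)) hv huv
      · left
        have : (u, v) ∈ P9 := by
          rw [hP9, Finset.mem_filter, Finset.mem_product]
          exact ⟨⟨(hmv _ _).2 h, Finset.mem_univ _⟩, hv, huv⟩
        exact hm _ (Or.inr (Or.inr (Or.inr (Or.inr (Or.inr (Or.inr (Or.inr (Or.inr this))))))))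
  have hcov : ∀ u v, H.Adj u v → (u, v) ∈ P ∨ (v, u) ∈ P := by
    intro u v huv
    by_cases hv : isR1 (c.role v) ∨ isR2 (c.role v)
    · exact hcov1 u v huv hv
    · by_cases hu : isR1 (c.role u) ∨ isR2 (c.role u)
      · exact (hcov1 v u huv.symm hu).symm
      · left
        have : (u, v) ∈ P1 := by
          rw [hP1, Finset.mem_product]
          exact ⟨(hmv _ _).2 (not_or.1 hu), (hmv _ _).2 (not_or.1 hv)⟩
        exact hm _ (Or.inl this)
  have hE := count_ncard_le H P hcov
  have hPc : P.card ≤ P1.card + P2.card + P3.card + P4.card + P5.card + P6.card + P7.card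
      + P8.card + P9.card := by
    rw [hP]
    refine (Finset.card_union_le _ _).trans (Nat.add_le_add_right ?_ _)
    refine (Finset.card_union_le _ _).trans (Nat.add_le_add_right ?_ _)
    refine (Finset.card_union_le _ _).trans (Nat.add_le_add_right ?_ _)
    refine (Finset.card_union_le _ _).trans (Nat.add_le_add_right ?_ _)
    refine (Finset.card_union_le _ _).trans (Nat.add_le_add_right ?_ _)
    refine (Finset.card_union_le _ _).trans (Nat.add_le_add_right ?_ _)
    refine (Finset.card_union_le _ _).trans (Nat.add_le_add_right ?_ _)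
    exact Finset.card_union_le _ _
  -- the nine estimates
  have e1 : (P1.card : ℝ) = ((c.verts (fun r => ¬ isR1 r ∧ ¬ isR2 r)).card : ℝ) ^ 2 := by
    rw [hP1, Finset.card_product, Nat.cast_mul, sq]
  have e2 : (P2.card : ℝ) ≤ ((c.verts isA).card : ℝ) * Δ := by
    refine count_fib_real (c.verts isA) (fun x y => G.Adj x y) Δ ?_
    intro x _
    refine le_trans (le_of_eq ?_) (hΔ x)
    congr 2
    ext y
    simp [cn]
  have e3 : (P3.card : ℝ) = ((c.verts isB).card : ℝ) * (c.verts isR2).card := by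
    rw [hP3, Finset.card_product, Nat.cast_mul]
  have e5 : (P5.card : ℝ) = ((c.verts (fun r => isX r ∨ isG r ∨ isH1 r)).card : ℝ) * n := by
    rw [hP5, Finset.card_product, Nat.cast_mul, Finset.card_univ, Fintype.card_fin]
  have e6 : (P6.card : ℝ) = ((c.verts isH2).card : ℝ) * (c.verts isR2).card := by
    rw [hP6, Finset.card_product, Nat.cast_mul]
  have e7 : (P7.card : ℝ) ≤ (n : ℝ) * c.m1 * C := by
    have h7 : P7.card ≤ (c.verts (fun r => isR1 r ∨ isR2 r ∨ isH2 r)).card * (c.m1 * C) := by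
      refine le_trans (Finset.card_le_card ?_) (count_fib
        (c.verts (fun r => isR1 r ∨ isR2 r ∨ isH2 r))
        (fun x y => isR1 (c.role y) ∧ H.Adj x y ∧
          d0 ≤ ((cn G {x, y} (c.verts isA)).card : ℝ)) (c.m1 * C) ?_)
      · intro q hq
        rw [hP7] at hq
        exact count_mf.2 (count_mf.1 hq)
      intro x hx
      refine count_classes _ (fun j y => c.role y = .r1 j) ?_ ?_
      · rintro y ⟨hy, -⟩
        obtain ⟨j, hj⟩ := count_r1 _ hy
        exact ⟨j, c.r1_lt y j hj, hj⟩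
      · intro j
        refine (Finset.card_le_card ?_).trans (hstar x ((hmv _ _).1 hx) j)
        intro y hy
        have hy' := count_mf.1 hy
        exact count_mf.2 ⟨hy'.1, hy'.2.1, hy'.2.2.2⟩
    have h7' : (P7.card : ℝ) ≤
        ((c.verts (fun r => isR1 r ∨ isR2 r ∨ isH2 r)).card : ℝ) * (c.m1 * C) := by
      exact_mod_cast h7
    refine h7'.trans ?_
    rw [mul_assoc]
    exact mul_le_mul_of_nonneg_right (hcn _) (by positivity)
  have e8 : (P8.card : ℝ) ≤ (K1 : ℝ) * n := by
    have h8 : P8.card ≤ (c.verts isR1).card * K1 := by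
      refine le_trans (Finset.card_le_card ?_) (count_fib (c.verts isR1)
        (fun y x => ¬ isA (c.role x) ∧ ((cn G {x, y} (c.verts isA)).card : ℝ) < d0) K1 ?_)
      · intro q hq
        rw [hP8] at hq
        exact count_mf.2 (count_mf.1 hq)
      intro y hy
      exact (count_inst _ _ _ _).trans (hbad y ((hmv _ _).1 hy))
    have h8' : (P8.card : ℝ) ≤ ((c.verts isR1).card : ℝ) * K1 := by exact_mod_cast h8
    refine h8'.trans ?_
    rw [mul_comm]
    exact mul_le_mul_of_nonneg_left (hcn _) (by positivity)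
  have e9 : (P9.card : ℝ) ≤ ((c.verts isR2).card : ℝ) * c.m2 * k' := by
    have h9 : P9.card ≤ (c.verts isR2).card * (c.m2 * k') := by
      refine le_trans (Finset.card_le_card ?_) (count_fib (c.verts isR2)
        (fun x y => isR2 (c.role y) ∧ H.Adj x y) (c.m2 * k') ?_)
      · intro q hq
        rw [hP9] at hq
        exact count_mf.2 (count_mf.1 hq)
      intro x hx
      refine count_classes _ (fun j y => c.role y = .r2 j) ?_ ?_
      · rintro y ⟨hy, -⟩
        obtain ⟨j, hj⟩ := count_r2 _ hy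
        exact ⟨j, c.r2_lt y j hj, hj⟩
      · intro j
        refine (Finset.card_le_card ?_).trans (hstar2 x ((hmv _ _).1 hx) j)
        intro y hy
        have hy' := count_mf.1 hy
        exact count_mf.2 ⟨hy'.1, hy'.2.1, hy'.2.2.2⟩
    rw [mul_assoc]
    exact_mod_cast h9
  have hfin : (H.edgeSet.ncard : ℝ) ≤ (P1.card : ℝ) + P2.card + P3.card + P4.card + P5.card
      + P6.card + P7.card + P8.card + P9.card := by
    exact_mod_cast hE.trans hPc
  linarith [hfin, e1, e2, e3, h4, e5, e6, e7, e8, e9]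

end Pool.Bbc38
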