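import Mathlib

/-!
Definitions for MP_bbc38a_co (saturation number of triangle-covered graphs in `G(n,p)`).
-/

set_option autoImplicit false
open Classical

namespace Pool.Bbc38

/-- weight of a graph in `G(n,p)` -/
noncomputable def wt {n : ℕ} (p : ℝ) (G : SimpleGraph (Fin n)) : ℝ :=
  p ^ G.edgeSet.ncard * (1 - p) ^ (n.choose 2 - G.edgeSet.ncard)

/-- probability that `G(n,p)` lies in `S` -/
noncomputable def Pr (p : ℝ) (n : ℕ) (S : Set (SimpleGraph (Fin n))) : ℝ :=
  ∑ G ∈ (Finset.univ : Finset (SimpleGraph (Fin n))).filter (fun G => G ∈ S), wt p G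

/-- with high probability -/
def Whp (p : ℝ) (S : (n : ℕ) → Set (SimpleGraph (Fin n))) : Prop :=
  Filter.Tendsto (fun n : ℕ => Pr p n (S n)) Filter.atTop (nhds 1)

/-- all edges of `E1` are present and all edges of `E0` are absent -/
def Holds {n : ℕ} (E1 E0 : Finset (Sym2 (Fin n))) (G : SimpleGraph (Fin n)) : Prop :=
  (∀ e ∈ E1, e ∈ G.edgeSet) ∧ (∀ e ∈ E0, e ∉ G.edgeSet)

/-- number of indices whose pattern holds -/
noncomputable def cnt {n : ℕ} {ι : Type} (I : Finset ι) (E1 E0 : ι → Finset (Sym2 (Fin n)))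
    (G : SimpleGraph (Fin n)) : ℕ :=
  (I.filter (fun i => Holds (E1 i) (E0 i) G)).card

/-- the patterns are made of genuine pairs and are pairwise disjoint -/
structure Disj {n : ℕ} {ι : Type} (I : Finset ι) (E1 E0 : ι → Finset (Sym2 (Fin n))) : Prop where
  nd : ∀ i ∈ I, ∀ e ∈ E1 i ∪ E0 i, ¬ e.IsDiag
  self : ∀ i ∈ I, Disjoint (E1 i) (E0 i)
  pair : ∀ i ∈ I, ∀ j ∈ I, i ≠ j → Disjoint (E1 i ∪ E0 i) (E1 j ∪ E0 j)

/-- common `G`-neighbours of `X` inside `S` (automatically disjoint from `X`) -/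
noncomputable def cn {n : ℕ} (G : SimpleGraph (Fin n)) (X S : Finset (Fin n)) : Finset (Fin n) :=
  S.filter (fun z => ∀ x ∈ X, G.Adj x z)

/-- `L = log_{1/(1-p)} n` -/
noncomputable def LL (p : ℝ) (n : ℕ) : ℝ := Real.logb (1 / (1 - p)) (n : ℝ)

/-- `D` contains a complete `s`-partite subgraph of `J` with all parts of size `k` -/
def HasKs {V : Type} (J : SimpleGraph V) (s k : ℕ) (D : Set V) : Prop :=
  ∃ φ : Fin s → Fin k → V, (∀ c i, φ c i ∈ D) ∧
    (∀ c i c' i', φ c i = φ c' i' → c = c' ∧ i = i') ∧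
    (∀ c i c' i', c ≠ c' → J.Adj (φ c i) (φ c' i'))

/-- every set of at most `k` vertices spans an `s`-colourable subgraph -/
def LocCol {V : Type} (J : SimpleGraph V) (s k : ℕ) : Prop :=
  ∀ Y : Finset V, Y.card ≤ k → ∃ c : V → Fin s, ∀ u ∈ Y, ∀ v ∈ Y, J.Adj u v → c u ≠ c v

/-- number of hubs allowed in class `i` -/
def hc (t m i : ℕ) : ℕ := if i < m then t + 1 else t

/-- the classes `S(t,m)` : `V(F)` = core part (`s`-colourable) + classes of hubs and leaves -/
def InS {k : ℕ} (F : SimpleGraph (Fin k)) (s t m : ℕ) : Prop :=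
  ∃ (core : Set (Fin k)) (col : Fin k → Fin s) (cls : Fin k → ℕ) (hub : Set (Fin k)),
    (∀ u v, u ∈ core → v ∈ core → F.Adj u v → col u ≠ col v) ∧
    (∀ u v, u ∉ core → v ∉ core → F.Adj u v → cls u = cls v ∧ (u ∈ hub ↔ v ∉ hub)) ∧
    (∀ i, (Finset.univ.filter (fun v : Fin k => v ∉ core ∧ v ∈ hub ∧ cls v = i)).card ≤ hc t m i)

/-- codes of the vertices of a host graph -/
inductive HV (s k : ℕ) : Type
  | core (c : Fin s) (i : Fin k) : HV s k
  | hub (i h : ℕ) : HV s k
  | leaf (i : ℕ) (l : Fin k) : HV s k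

/-- valid codes: classes `i < m` have `t+1` hubs, classes `m ≤ i < m + k` have `t` hubs -/
def HV.ok {s k : ℕ} (t m : ℕ) : HV s k → Prop
  | .core _ _ => True
  | .hub i h => i < m + k ∧ h < hc t m i
  | .leaf i _ => i < m + k

/-- `H` contains the host graph: a complete `s`-partite core, `m` classes with `t+1` hubs and `k`
leaves, and `k` classes with `t` hubs and `k` leaves, everything complete to the core -/
def Host {V : Type} (H : SimpleGraph V) (s k t m : ℕ) : Prop :=
  ∃ φ : HV s k → V,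
    (∀ x y, x.ok t m → y.ok t m → φ x = φ y → x = y) ∧
    (∀ c i c' i', c ≠ c' → H.Adj (φ (.core c i)) (φ (.core c' i'))) ∧
    (∀ c i j h, j < m + k → h < hc t m j → H.Adj (φ (.core c i)) (φ (.hub j h))) ∧
    (∀ c i j l, j < m + k → H.Adj (φ (.core c i)) (φ (.leaf j l))) ∧
    (∀ j h l, j < m + k → h < hc t m j → H.Adj (φ (.hub j h)) (φ (.leaf j l)))

/-- roles of the vertices in the construction -/
inductive Role : Type
  | A : Role
  | B : Role
  | X : Role
  | gh (i h : ℕ) : Role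
  | gl (i l : ℕ) : Role
  | h1 (j h : ℕ) : Role
  | h2 (j h : ℕ) : Role
  | r1 (j : ℕ) : Role
  | r2 (j : ℕ) : Role

/-- the pairs of roles between which all `G`-edges are taken (to be symmetrised) -/
def Allowed : Role → Role → Prop
  | .A, .r1 _ => True
  | .A, .r2 _ => True
  | .A, .h1 _ _ => True
  | .A, .h2 _ _ => True
  | .A, .gh _ _ => True
  | .A, .gl _ _ => True
  | .B, .r2 _ => True
  | .B, .h2 _ _ => True
  | .B, .gh _ _ => True
  | .B, .gl _ _ => True
  | .B, .X => True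
  | .X, .r1 _ => True
  | .h1 j _, .r1 j' => j = j'
  | .h2 j _, .r2 j' => j = j'
  | .gh i _, .gl i' _ => i = i'
  | _, _ => False

/-- the structural part of a configuration in `G` -/
structure Cfg (n s k t m : ℕ) (G : SimpleGraph (Fin n)) where
  role : Fin n → Role
  J : SimpleGraph (Fin n)
  m1 : ℕ
  m2 : ℕ
  J_le : J ≤ G
  J_role : ∀ u v, J.Adj u v → (role u = .A ∧ role v = .A) ∨ (role u = .B ∧ role v = .B)
  J_col : LocCol J s k
  gh_lt : ∀ u i h, role u = .gh i h → i < m + k ∧ h < hc t m i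
  gh_inj : ∀ u v i h, role u = .gh i h → role v = .gh i h → u = v
  gh_ex : ∀ i h, i < m + k → h < hc t m i → ∃ u, role u = .gh i h
  gl_ex : ∀ i l, i < m + k → l < k → ∃ u, role u = .gl i l
  h1_lt : ∀ u j h, role u = .h1 j h → j < m1 ∧ h < t
  h1_inj : ∀ u v j h, role u = .h1 j h → role v = .h1 j h → u = v
  h1_ex : ∀ j h, j < m1 → h < t → ∃ u, role u = .h1 j h
  h2_lt : ∀ u j h, role u = .h2 j h → j < m2 ∧ h < t
  h2_inj : ∀ u v j h, role u = .h2 j h → role v = .h2 j h → u = v
  h2_ex : ∀ j h, j < m2 → h < t → ∃ u, role u = .h2 j h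
  r1_lt : ∀ u j, role u = .r1 j → j < m1
  r2_lt : ∀ u j, role u = .r2 j → j < m2
  adj_A_gh : ∀ a v i h, role a = .A → role v = .gh i h → G.Adj a v
  adj_A_gl : ∀ a v i l, role a = .A → role v = .gl i l → G.Adj a v
  adj_A_h1 : ∀ a v j h, role a = .A → role v = .h1 j h → G.Adj a v
  adj_B_gh : ∀ a v i h, role a = .B → role v = .gh i h → G.Adj a v
  adj_B_gl : ∀ a v i l, role a = .B → role v = .gl i l → G.Adj a v
  adj_gh_gl : ∀ u v i h l, role u = .gh i h → role v = .gl i l → G.Adj u v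
  adj_h1_r1 : ∀ u v j h, role u = .h1 j h → role v = .r1 j → G.Adj u v
  adj_h2_r2 : ∀ u v j h, role u = .h2 j h → role v = .r2 j → G.Adj u v

/-- the initial `F`-free graph `H_0` -/
def Cfg.H0 {n s k t m : ℕ} {G : SimpleGraph (Fin n)} (c : Cfg n s k t m G) :
    SimpleGraph (Fin n) where
  Adj u v := G.Adj u v ∧
    (c.J.Adj u v ∨ Allowed (c.role u) (c.role v) ∨ Allowed (c.role v) (c.role u))
  symm := ⟨fun _ _ h =>
    ⟨h.1.symm, h.2.elim (fun h' => Or.inl h'.symm) (fun h' => Or.inr h'.symm)⟩⟩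
  loopless := ⟨fun u h => G.loopless.irrefl u h.1⟩

/-- vertices with a role satisfying `P` -/
noncomputable def Cfg.verts {n s k t m : ℕ} {G : SimpleGraph (Fin n)} (c : Cfg n s k t m G)
    (P : Role → Prop) : Finset (Fin n) :=
  Finset.univ.filter (fun v => P (c.role v))

/-- role predicates -/
def isA : Role → Prop | .A => True | _ => False
def isB : Role → Prop | .B => True | _ => False
def isX : Role → Prop | .X => True | _ => False
def isG : Role → Prop | .gh _ _ => True | .gl _ _ => True | _ => False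
def isH1 : Role → Prop | .h1 _ _ => True | _ => False
def isH2 : Role → Prop | .h2 _ _ => True | _ => False
def isR1 : Role → Prop | .r1 _ => True | _ => False
def isR2 : Role → Prop | .r2 _ => True | _ => False

end Pool.Bbc38
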