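import Pool.Agent.Lib.MP_bbc38a_co.Embed
import Pool.Agent.Lib.MP_bbc38a_co.Avg


set_option autoImplicit false
open Classical

namespace Pool.Bbc38

/-- pigeonhole over the `k`-subsets of `X` -/
theorem dense_pigeon {α β : Type} (E : Finset α) (X : Finset β) (N : α → Finset β) (k : ℕ)
    (hN : ∀ e ∈ E, N e ⊆ X) (hk : ∀ e ∈ E, k ≤ (N e).card) (hE : E.Nonempty) :
    ∃ A0 ⊆ X, A0.card = k ∧ (E.card : ℝ) / 2 ^ X.card ≤
      ((E.filter (fun e => A0 ⊆ N e)).card : ℝ) := by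
  have hex : ∀ e ∈ E, ∃ A0 : Finset β, A0 ⊆ N e ∧ A0.card = k := fun e he =>
    Finset.exists_subset_card_eq (hk e he)
  choose! f hf1 hf2 using hex
  have hmaps : ∀ e ∈ E, f e ∈ X.powerset.filter (fun A0 => A0.card = k) := fun e he =>
    Finset.mem_filter.2 ⟨Finset.mem_powerset.2 ((hf1 e he).trans (hN e he)), hf2 e he⟩
  obtain ⟨e0, he0⟩ := hE
  have hne : (X.powerset.filter (fun A0 => A0.card = k)).Nonempty := ⟨f e0, hmaps e0 he0⟩
  have hcard : ((X.powerset.filter (fun A0 => A0.card = k)).card : ℝ) ≤ 2 ^ X.card := by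
    have : (X.powerset.filter (fun A0 => A0.card = k)).card ≤ 2 ^ X.card := by
      rw [← Finset.card_powerset]; exact Finset.card_filter_le _ _
    exact_mod_cast this
  have hpos : (0:ℝ) < ((X.powerset.filter (fun A0 => A0.card = k)).card : ℝ) := by
    exact_mod_cast hne.card_pos
  obtain ⟨A0, hA0, hle⟩ := Finset.exists_le_card_fiber_of_nsmul_le_card_of_maps_to hmaps hne
    (b := (E.card : ℝ) / ((X.powerset.filter (fun A0 => A0.card = k)).card : ℝ)) (by
      rw [nsmul_eq_mul, mul_div_cancel₀ _ hpos.ne'])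
  rw [Finset.mem_filter, Finset.mem_powerset] at hA0
  refine ⟨A0, hA0.1, hA0.2, ?_⟩
  calc (E.card : ℝ) / 2 ^ X.card ≤ (E.card : ℝ) /
        ((X.powerset.filter (fun A0 => A0.card = k)).card : ℝ) :=
        div_le_div_of_nonneg_left (Nat.cast_nonneg _) hpos hcard
    _ ≤ _ := hle
    _ ≤ _ := by
        exact_mod_cast Finset.card_le_card (fun e he => by
          rw [Finset.mem_filter] at he ⊢
          exact ⟨he.1, he.2 ▸ hf1 e he.1⟩)

/-- many heavy second coordinates -/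
theorem dense_heavy {α β : Type} (B : Finset α) (R : Finset β) (E : Finset (α × β))
    (hE : E ⊆ B ×ˢ R) (b0 c n : ℝ) (hB : (B.card : ℝ) ≤ b0) (hb0 : 0 < b0)
    (hR : (R.card : ℝ) ≤ n) (hc : 0 < c) (hlt : c * b0 * n < (E.card : ℝ)) :
    c / 2 * n < ((R.filter (fun y => c / 2 * b0 ≤
      ((B.filter (fun b => (b, y) ∈ E)).card : ℝ))).card : ℝ) := by
  have h1 : E.card = ∑ y ∈ R, (B.filter (fun b => (b, y) ∈ E)).card := by
    rw [Finset.card_eq_sum_card_fiberwise (f := Prod.snd) (t := R)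
      (fun e he => (Finset.mem_product.1 (hE he)).2)]
    apply Finset.sum_congr rfl
    intro y _
    apply Finset.card_bij (fun e _ => e.1)
    · rintro ⟨b, y'⟩ he
      rw [Finset.mem_filter] at he
      obtain ⟨h2, h3⟩ := he
      simp only at h3
      subst h3
      exact Finset.mem_filter.2 ⟨(Finset.mem_product.1 (hE h2)).1, h2⟩
    · rintro ⟨b, y1⟩ h1 ⟨b', y2⟩ h2 h
      rw [Finset.mem_filter] at h1 h2
      have e1 := h1.2
      have e2 := h2.2
      simp only at e1 e2 h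
      rw [e1, e2, h]
    · intro b hb
      rw [Finset.mem_filter] at hb
      exact ⟨(b, y), Finset.mem_filter.2 ⟨hb.2, rfl⟩, rfl⟩
  set Y := R.filter (fun y => c / 2 * b0 ≤ ((B.filter (fun b => (b, y) ∈ E)).card : ℝ)) with hY
  have h2 : (E.card : ℝ) ≤ ∑ y ∈ R, ((if y ∈ Y then b0 else 0) + c / 2 * b0) := by
    rw [h1]
    push_cast
    apply Finset.sum_le_sum
    intro y hy
    split_ifs with hyY
    · have : ((B.filter (fun b => (b, y) ∈ E)).card : ℝ) ≤ B.card := by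
        exact_mod_cast Finset.card_filter_le _ _
      have : 0 ≤ c / 2 * b0 := by positivity
      linarith
    · have : ¬ c / 2 * b0 ≤ ((B.filter (fun b => (b, y) ∈ E)).card : ℝ) := fun h =>
        hyY (Finset.mem_filter.2 ⟨hy, h⟩)
      push Not at this
      linarith
  rw [Finset.sum_add_distrib, ← Finset.sum_filter, Finset.sum_const, Finset.sum_const,
    nsmul_eq_mul, nsmul_eq_mul] at h2
  have h3 : R.filter (fun y => y ∈ Y) = Y := by
    ext y
    rw [Finset.mem_filter]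
    exact ⟨fun h => h.2, fun h => ⟨(Finset.mem_filter.1 h).1, h⟩⟩
  rw [h3] at h2
  have h4 : (R.card : ℝ) * (c / 2 * b0) ≤ n * (c / 2 * b0) :=
    mul_le_mul_of_nonneg_right hR (by positivity)
  have h5 : c / 2 * n * b0 < (Y.card : ℝ) * b0 := by
    have : c * b0 * n = c / 2 * n * b0 + n * (c / 2 * b0) := by ring
    linarith
  exact lt_of_mul_lt_mul_right h5 hb0.le

theorem dense_bound {n s k t m : ℕ} {G : SimpleGraph (Fin n)} (c : Cfg n s k t m G)
    (F : SimpleGraph (Fin k)) (hF : F.Colorable (s + 2)) (H : SimpleGraph (Fin n))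
    (hH0 : c.H0 ≤ H) (hfree : ¬ F.IsContained H)
    (K0 : ℕ) (hX : (c.verts isX).card ≤ K0) (ε b0 : ℝ) (hε : 0 < ε) (hb0 : 0 < b0)
    (hB : ((c.verts isB).card : ℝ) ≤ b0)
    (hpairs : ((((c.verts isB) ×ˢ (c.verts isR1)).filter
        (fun q => (cn G {q.1, q.2} (c.verts isX)).card < k)).card : ℝ) ≤ ε * b0 * n)
    (c1 : ℝ) (hc1 : c1 = ε / 2 ^ K0) (C2 : ℕ) (hC2 : 4 * k ≤ C2 * c1) (hC20 : 0 < C2)
    (hn : (C2 : ℝ) ≤ c1 / 2 * n)
    (hJB : ∀ D ⊆ c.verts isB, c1 / 4 * b0 / 2 ^ C2 ≤ (D.card : ℝ) →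
      HasKs c.J s k (D : Set (Fin n))) :
    ((((c.verts isB) ×ˢ (c.verts isR1)).filter (fun q => H.Adj q.1 q.2)).card : ℝ) ≤
      2 * ε * b0 * n := by
  by_contra hcon
  push Not at hcon
  have hc10 : 0 < c1 := by rw [hc1]; positivity
  set P := (c.verts isB) ×ˢ (c.verts isR1) with hP
  set E := P.filter (fun q => H.Adj q.1 q.2) with hE
  set Bad := P.filter (fun q => (cn G {q.1, q.2} (c.verts isX)).card < k) with hBad
  set E1 := E \ Bad with hE1
  have hn0 : (0:ℝ) < n := by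
    have h1 : (0:ℝ) < C2 := by exact_mod_cast hC20
    have h2 := lt_of_lt_of_le h1 hn
    by_contra h
    push Not at h
    nlinarith
  have hE1card : ε * b0 * n < (E1.card : ℝ) := by
    have h1 : E.card ≤ E1.card + Bad.card := by
      rw [hE1]; exact Finset.card_le_card_sdiff_add_card
    have h2 : (E.card : ℝ) ≤ E1.card + Bad.card := by exact_mod_cast h1
    linarith
  have hE1pos : (0:ℝ) < E1.card := lt_trans (by positivity) hE1card
  have hE1ne : E1.Nonempty := by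
    rw [← Finset.card_pos]; exact_mod_cast hE1pos
  obtain ⟨A0, hA0X, hA0k, hA0⟩ := dense_pigeon E1 (c.verts isX)
    (fun q => cn G {q.1, q.2} (c.verts isX)) k (fun e _ => Finset.filter_subset _ _) (by
      intro e he
      rw [hE1, Finset.mem_sdiff] at he
      by_contra h
      push Not at h
      exact he.2 (Finset.mem_filter.2 ⟨(Finset.mem_filter.1 he.1).1, h⟩)) hE1ne
  set E2 := E1.filter (fun e => A0 ⊆ cn G {e.1, e.2} (c.verts isX)) with hE2
  have hE2card : c1 * b0 * n < (E2.card : ℝ) := by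
    have hA0' : (E1.card : ℝ) / 2 ^ (c.verts isX).card ≤ (E2.card : ℝ) := by
      convert hA0
    refine lt_of_lt_of_le ?_ hA0'
    have h1 : (2:ℝ) ^ (c.verts isX).card ≤ 2 ^ K0 := pow_le_pow_right₀ (by norm_num) hX
    have h2 : (E1.card : ℝ) / 2 ^ K0 ≤ (E1.card : ℝ) / 2 ^ (c.verts isX).card :=
      div_le_div_of_nonneg_left (Nat.cast_nonneg _) (by positivity) h1
    refine lt_of_lt_of_le ?_ h2
    rw [lt_div_iff₀ (by positivity), hc1]
    have : ε / 2 ^ K0 * b0 * n * 2 ^ K0 = ε * b0 * n := by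
      field_simp
    rw [this]; exact hE1card
  have hE2P : E2 ⊆ (c.verts isB) ×ˢ (c.verts isR1) := fun e he =>
    (Finset.mem_filter.1 (Finset.mem_sdiff.1 (Finset.mem_filter.1 he).1).1).1
  have hR : ((c.verts isR1).card : ℝ) ≤ n := by
    have := Finset.card_le_univ (c.verts isR1)
    rw [Fintype.card_fin] at this
    exact_mod_cast this
  have hheavy := dense_heavy (c.verts isB) (c.verts isR1) E2 hE2P b0 c1 n hB hb0 hR hc10 hE2card
  set Y := (c.verts isR1).filter (fun y => c1 / 2 * b0 ≤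
      (((c.verts isB).filter (fun b => (b, y) ∈ E2)).card : ℝ)) with hY
  have hYC : C2 ≤ Y.card := by
    have hheavy' : c1 / 2 * n < (Y.card : ℝ) := by convert hheavy
    have : (C2 : ℝ) < Y.card := lt_of_le_of_lt hn hheavy'
    exact_mod_cast this.le
  obtain ⟨I, hIY, hIC⟩ := Finset.exists_subset_card_eq hYC
  obtain ⟨T, hTI, hTk, hD⟩ := averaging (c.verts isB) I
    (fun y => (c.verts isB).filter (fun b => (b, y) ∈ E2)) k (c1 / 2 * b0) (by positivity)
    (fun y _ => Finset.filter_subset _ _)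
    (fun y hy => (Finset.mem_filter.1 (hIY hy)).2)
    (by
      rw [hIC]
      have h1 : 2 * k * ((c.verts isB).card : ℝ) ≤ 2 * k * b0 :=
        mul_le_mul_of_nonneg_left hB (by positivity)
      have h2 : 4 * k * b0 ≤ C2 * c1 * b0 := mul_le_mul_of_nonneg_right hC2 hb0.le
      linarith)
    (by rw [hIC]; exact hC20)
  rw [hIC] at hD
  set D := (c.verts isB).filter (fun a => ∀ i ∈ T, a ∈
    (fun y => (c.verts isB).filter (fun b => (b, y) ∈ E2)) i) with hDdef
  have hDB : D ⊆ c.verts isB := Finset.filter_subset _ _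
  have hDE : ∀ b ∈ D, ∀ y ∈ T, (b, y) ∈ E2 := fun b hb y hy =>
    (Finset.mem_filter.1 ((Finset.mem_filter.1 hb).2 y hy)).2
  have hD' : c1 / 2 * b0 / 2 / 2 ^ C2 ≤ (D.card : ℝ) := by convert hD
  obtain ⟨φ, hφD, hφinj, hφadj⟩ := hJB D hDB (by
    refine le_trans (le_of_eq ?_) hD'
    ring)
  -- facts on pairs of `E2`
  have hE2H : ∀ e ∈ E2, H.Adj e.1 e.2 := fun e he =>
    (Finset.mem_filter.1 (Finset.mem_sdiff.1 (Finset.mem_filter.1 he).1).1).2
  have hE2A : ∀ e ∈ E2, ∀ x ∈ A0, G.Adj e.1 x ∧ G.Adj e.2 x := by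
    intro e he x hx
    have h1 := (Finset.mem_filter.1 he).2 hx
    have h2 := (Finset.mem_filter.1 h1).2
    exact ⟨h2 e.1 (by simp), h2 e.2 (by simp)⟩
  have rB : ∀ b ∈ c.verts isB, c.role b = Role.B := by
    intro b hb
    have := (Finset.mem_filter.1 hb).2
    cases h : c.role b <;> rw [h] at this <;> first | rfl | exact absurd this id
  have rX : ∀ b ∈ c.verts isX, c.role b = Role.X := by
    intro b hb
    have := (Finset.mem_filter.1 hb).2
    cases h : c.role b <;> rw [h] at this <;> first | rfl | exact absurd this id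
  have rR : ∀ b ∈ c.verts isR1, ∃ j, c.role b = Role.r1 j := by
    intro b hb
    have := (Finset.mem_filter.1 hb).2
    cases h : c.role b <;> rw [h] at this <;> first | exact ⟨_, rfl⟩ | exact absurd this id
  have hTR : ∀ y ∈ T, y ∈ c.verts isR1 := fun y hy => (Finset.mem_filter.1 (hIY (hTI hy))).1
  -- adjacencies
  have aBX : ∀ b ∈ D, ∀ x ∈ A0, T.Nonempty → H.Adj b x := by
    rintro b hb x hx ⟨y, hy⟩
    apply hH0
    refine ⟨(hE2A _ (hDE b hb y hy) x hx).1, Or.inr (Or.inl ?_)⟩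
    rw [rB b (hDB hb), rX x (hA0X hx)]
    trivial
  have aXR : ∀ y ∈ T, ∀ x ∈ A0, H.Adj x y := by
    intro y hy x hx
    have h1 : ((c.verts isB).filter (fun b => (b, y) ∈ E2)).Nonempty := by
      rw [← Finset.card_pos]
      have h2 := (Finset.mem_filter.1 (hIY (hTI hy))).2
      have h3 : (0:ℝ) < c1 / 2 * b0 := by positivity
      exact_mod_cast lt_of_lt_of_le h3 h2
    obtain ⟨b, hb⟩ := h1
    have h2 := (Finset.mem_filter.1 hb).2
    apply hH0
    refine ⟨(hE2A _ h2 x hx).2.symm, Or.inr (Or.inl ?_)⟩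
    obtain ⟨j, hj⟩ := rR y (hTR y hy)
    rw [rX x (hA0X hx), hj]
    trivial
  have aBR : ∀ b ∈ D, ∀ y ∈ T, H.Adj b y := fun b hb y hy => hE2H _ (hDE b hb y hy)
  have aJ : ∀ u v, c.J.Adj u v → H.Adj u v := fun u v h => hH0 ⟨c.J_le h, Or.inl h⟩
  apply hfree
  apply embed_ks F (s + 2) hF
  have eA : ∃ g : Fin k → Fin n, Function.Injective g ∧ ∀ i, g i ∈ A0 :=
    ⟨fun i => (A0.orderIsoOfFin hA0k i : Fin n), fun i j h => by
      have := Subtype.ext h
      exact (A0.orderIsoOfFin hA0k).injective this, fun i => (A0.orderIsoOfFin hA0k i).2⟩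
  have eT : ∃ g : Fin k → Fin n, Function.Injective g ∧ ∀ i, g i ∈ T :=
    ⟨fun i => (T.orderIsoOfFin hTk i : Fin n), fun i j h => by
      have := Subtype.ext h
      exact (T.orderIsoOfFin hTk).injective this, fun i => (T.orderIsoOfFin hTk i).2⟩
  obtain ⟨gA, gAi, gAm⟩ := eA
  obtain ⟨gT, gTi, gTm⟩ := eT
  have kinds : ∀ c' : Fin (s + 2), (∃ h : c'.1 < s, True) ∨ c'.1 = s ∨ c'.1 = s + 1 := by
    intro c'
    rcases lt_trichotomy c'.1 s with h | h | h
    · exact Or.inl ⟨h, trivial⟩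
    · exact Or.inr (Or.inl h)
    · exact Or.inr (Or.inr (by have := c'.2; omega))
  let ψ : Fin (s + 2) → Fin k → Fin n := fun c' i =>
    if h : c'.1 < s then φ ⟨c'.1, h⟩ i else if c'.1 = s then gA i else gT i
  have ψ1 : ∀ (c' : Fin (s + 2)) (i : Fin k) (h : c'.1 < s), ψ c' i = φ ⟨c'.1, h⟩ i :=
    fun c' i h => dif_pos h
  have ψ2 : ∀ (c' : Fin (s + 2)) (i : Fin k), c'.1 = s → ψ c' i = gA i := fun c' i h => by
    simp only [ψ]
    rw [dif_neg (by omega), if_pos h]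
  have ψ3 : ∀ (c' : Fin (s + 2)) (i : Fin k), c'.1 = s + 1 → ψ c' i = gT i := fun c' i h => by
    simp only [ψ]
    rw [dif_neg (by omega), if_neg (by omega)]
  have r1 : ∀ (c' : Fin s) (i : Fin k), c.role (φ c' i) = Role.B := fun c' i =>
    rB _ (hDB (hφD c' i))
  have r2 : ∀ i : Fin k, c.role (gA i) = Role.X := fun i => rX _ (hA0X (gAm i))
  have r3 : ∀ i : Fin k, ∃ j, c.role (gT i) = Role.r1 j := fun i => rR _ (hTR _ (gTm i))
  refine ⟨ψ, fun _ _ => Set.mem_univ _, ?_, ?_⟩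
  · intro c' i c'' i' heq
    rcases kinds c' with ⟨h, _⟩ | h | h <;> rcases kinds c'' with ⟨h', _⟩ | h' | h'
    · rw [ψ1 _ _ h, ψ1 _ _ h'] at heq
      obtain ⟨e1, e2⟩ := hφinj _ _ _ _ heq
      exact ⟨Fin.ext (by simpa using e1), e2⟩
    · rw [ψ1 _ _ h, ψ2 _ _ h'] at heq
      have := r1 ⟨c'.1, h⟩ i
      rw [heq, r2] at this
      exact absurd this (by simp)
    · rw [ψ1 _ _ h, ψ3 _ _ h'] at heq
      have := r1 ⟨c'.1, h⟩ i
      obtain ⟨j, hj⟩ := r3 i'
      rw [heq, hj] at this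
      exact absurd this (by simp)
    · rw [ψ2 _ _ h, ψ1 _ _ h'] at heq
      have := r1 ⟨c''.1, h'⟩ i'
      rw [← heq, r2] at this
      exact absurd this (by simp)
    · rw [ψ2 _ _ h, ψ2 _ _ h'] at heq
      exact ⟨Fin.ext (by rw [h, h']), gAi heq⟩
    · rw [ψ2 _ _ h, ψ3 _ _ h'] at heq
      have := r2 i
      obtain ⟨j, hj⟩ := r3 i'
      rw [heq, hj] at this
      exact absurd this (by simp)
    · rw [ψ3 _ _ h, ψ1 _ _ h'] at heq
      have := r1 ⟨c''.1, h'⟩ i'
      obtain ⟨j, hj⟩ := r3 i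
      rw [← heq, hj] at this
      exact absurd this (by simp)
    · rw [ψ3 _ _ h, ψ2 _ _ h'] at heq
      have := r2 i'
      obtain ⟨j, hj⟩ := r3 i
      rw [← heq, hj] at this
      exact absurd this (by simp)
    · rw [ψ3 _ _ h, ψ3 _ _ h'] at heq
      exact ⟨Fin.ext (by rw [h, h']), gTi heq⟩
  · intro c' i c'' i' hne
    have hTne : T.Nonempty := ⟨gT i, gTm i⟩
    rcases kinds c' with ⟨h, _⟩ | h | h <;> rcases kinds c'' with ⟨h', _⟩ | h' | h'
    · rw [ψ1 _ _ h, ψ1 _ _ h']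
      exact aJ _ _ (hφadj _ _ _ _ (fun e => hne (Fin.ext (by simpa using e))))
    · rw [ψ1 _ _ h, ψ2 _ _ h']
      exact aBX _ (hφD _ _) _ (gAm _) hTne
    · rw [ψ1 _ _ h, ψ3 _ _ h']
      exact aBR _ (hφD _ _) _ (gTm _)
    · rw [ψ2 _ _ h, ψ1 _ _ h']
      exact (aBX _ (hφD _ _) _ (gAm _) hTne).symm
    · exact absurd (Fin.ext (by rw [h, h'])) hne
    · rw [ψ2 _ _ h, ψ3 _ _ h']
      exact aXR _ (gTm _) _ (gAm _)
    · rw [ψ3 _ _ h, ψ1 _ _ h']
      exact (aBR _ (hφD _ _) _ (gTm _)).symm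
    · rw [ψ3 _ _ h, ψ2 _ _ h']
      exact (aXR _ (gTm _) _ (gAm _)).symm
    · exact absurd (Fin.ext (by rw [h, h'])) hne

end Pool.Bbc38
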