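import Pool.Agent.Lib.MP_bbc38a_co.Defs


set_option autoImplicit false
open Classical

namespace Pool.Bbc38

/-- the hubs of class `i` outside the core -/
noncomputable def embHubs {k : ℕ} (core : Set (Fin k)) (cls : Fin k → ℕ) (hub : Set (Fin k))
    (i : ℕ) : Finset (Fin k) :=
  Finset.univ.filter (fun v : Fin k => v ∉ core ∧ v ∈ hub ∧ cls v = i)

/-- rank of a vertex in a finite set -/
noncomputable def embRank {k : ℕ} (S : Finset (Fin k)) (v : Fin k) : ℕ :=
  (S.filter (fun u => u < v)).card

theorem embRank_lt {k : ℕ} {S : Finset (Fin k)} {v : Fin k} (hv : v ∈ S) :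
    embRank S v < S.card := by
  refine Finset.card_lt_card (Finset.filter_ssubset.2 ⟨v, hv, lt_irrefl v⟩)

theorem embRank_inj {k : ℕ} {S : Finset (Fin k)} {u v : Fin k} (hu : u ∈ S) (hv : v ∈ S)
    (h : embRank S u = embRank S v) : u = v := by
  have key : ∀ a b : Fin k, a ∈ S → a < b → embRank S a < embRank S b := by
    intro a b ha hab
    refine Finset.card_lt_card ?_
    rw [Finset.ssubset_iff_of_subset]
    · exact ⟨a, Finset.mem_filter.2 ⟨ha, hab⟩, fun h' => lt_irrefl a (Finset.mem_filter.1 h').2⟩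
    · intro x hx
      rw [Finset.mem_filter] at hx ⊢
      exact ⟨hx.1, hx.2.trans hab⟩
  rcases lt_trichotomy u v with h1 | h1 | h1
  · exact absurd h (key u v hu h1).ne
  · exact h1
  · exact absurd h.symm (key v u hv h1).ne

/-- a vertex in each class -/
noncomputable def embRep {k : ℕ} (cls : Fin k → ℕ) (v : Fin k) : Fin k :=
  (⟨v, rfl⟩ : ∃ u, cls u = cls v).choose

theorem embRep_spec {k : ℕ} (cls : Fin k → ℕ) (v : Fin k) : cls (embRep cls v) = cls v :=
  (⟨v, rfl⟩ : ∃ u, cls u = cls v).choose_spec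

theorem embRep_congr {k : ℕ} (cls : Fin k → ℕ) {u v : Fin k} (h : cls u = cls v) :
    embRep cls u = embRep cls v := by
  unfold embRep
  simp only [h]

/-- the code of the class -/
noncomputable def embCode {k : ℕ} (m : ℕ) (cls : Fin k → ℕ) (v : Fin k) : ℕ :=
  if cls v < m then cls v else m + (embRep cls v : ℕ)

theorem embCode_lt {k : ℕ} (m : ℕ) (cls : Fin k → ℕ) (v : Fin k) : embCode m cls v < m + k := by
  unfold embCode
  split_ifs with h
  · omega
  · have := (embRep cls v).2
    omega

theorem embCode_congr {k : ℕ} (m : ℕ) (cls : Fin k → ℕ) {u v : Fin k} (h : cls u = cls v) :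
    embCode m cls u = embCode m cls v := by
  unfold embCode
  rw [h, embRep_congr cls h]

theorem embCode_inj {k : ℕ} (m : ℕ) (cls : Fin k → ℕ) {u v : Fin k}
    (h : embCode m cls u = embCode m cls v) : cls u = cls v := by
  unfold embCode at h
  split_ifs at h with h1 h2 h2
  · exact h
  · omega
  · omega
  · have h3 : embRep cls u = embRep cls v := Fin.ext (by omega)
    rw [← embRep_spec cls u, h3, embRep_spec cls v]

theorem embCode_hc {k : ℕ} (t m : ℕ) (cls : Fin k → ℕ) (v : Fin k) :
    hc t m (embCode m cls v) = hc t m (cls v) := by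
  unfold embCode
  split_ifs with h
  · rfl
  · unfold hc
    rw [if_neg h, if_neg (by omega)]

theorem embed_host {k : ℕ} (F : SimpleGraph (Fin k)) (s t m : ℕ) (hF : InS F s t m)
    {V : Type} (H : SimpleGraph V) (hH : Host H s k t m) : F.IsContained H := by
  obtain ⟨core, col, cls, hub, h1, h2, h3⟩ := hF
  obtain ⟨φ, hinj, hcc, hch, hcl, hhl⟩ := hH
  let ψ : Fin k → HV s k := fun v =>
    if v ∈ core then .core (col v) v
    else if v ∈ hub then .hub (embCode m cls v) (embRank (embHubs core cls hub (cls v)) v)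
    else .leaf (embCode m cls v) v
  have hψc : ∀ v, v ∈ core → ψ v = .core (col v) v := fun v hv => if_pos hv
  have hψh : ∀ v, v ∉ core → v ∈ hub → ψ v =
      .hub (embCode m cls v) (embRank (embHubs core cls hub (cls v)) v) := fun v hv hv' => by
    change (if v ∈ core then _ else if v ∈ hub then _ else _) = _
    rw [if_neg hv, if_pos hv']
  have hψl : ∀ v, v ∉ core → v ∉ hub → ψ v = .leaf (embCode m cls v) v := fun v hv hv' => by
    change (if v ∈ core then _ else if v ∈ hub then _ else _) = _
    rw [if_neg hv, if_neg hv']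
  have hmem : ∀ v, v ∉ core → v ∈ hub → v ∈ embHubs core cls hub (cls v) := fun v hv hv' =>
    Finset.mem_filter.2 ⟨Finset.mem_univ _, hv, hv', rfl⟩
  have hrank : ∀ v, v ∉ core → v ∈ hub →
      embRank (embHubs core cls hub (cls v)) v < hc t m (embCode m cls v) := fun v hv hv' => by
    rw [embCode_hc]
    exact (embRank_lt (hmem v hv hv')).trans_le (h3 (cls v))
  have hok : ∀ v, (ψ v).ok t m := by
    intro v
    by_cases hv : v ∈ core
    · rw [hψc v hv]; trivial
    · by_cases hv' : v ∈ hub
      · rw [hψh v hv hv']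
        exact ⟨embCode_lt m cls v, hrank v hv hv'⟩
      · rw [hψl v hv hv']
        exact embCode_lt m cls v
  have hψinj : Function.Injective ψ := by
    intro u v huv
    by_cases hu : u ∈ core <;> by_cases hv : v ∈ core
    · rw [hψc u hu, hψc v hv] at huv
      exact (HV.core.inj huv).2
    · by_cases hv' : v ∈ hub
      · rw [hψc u hu, hψh v hv hv'] at huv
        cases huv
      · rw [hψc u hu, hψl v hv hv'] at huv
        cases huv
    · by_cases hu' : u ∈ hub
      · rw [hψc v hv, hψh u hu hu'] at huv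
        cases huv
      · rw [hψc v hv, hψl u hu hu'] at huv
        cases huv
    · by_cases hu' : u ∈ hub <;> by_cases hv' : v ∈ hub
      · rw [hψh u hu hu', hψh v hv hv'] at huv
        obtain ⟨e1, e2⟩ := HV.hub.inj huv
        have e3 := embCode_inj m cls e1
        rw [e3] at e2
        exact embRank_inj (e3 ▸ hmem u hu hu') (hmem v hv hv') e2
      · rw [hψh u hu hu', hψl v hv hv'] at huv
        cases huv
      · rw [hψl u hu hu', hψh v hv hv'] at huv
        cases huv
      · rw [hψl u hu hu', hψl v hv hv'] at huv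
        exact (HV.leaf.inj huv).2
  have hcn : ∀ u v, u ∈ core → v ∉ core → H.Adj (φ (ψ u)) (φ (ψ v)) := by
    intro u v hu hv
    by_cases hv' : v ∈ hub
    · rw [hψc u hu, hψh v hv hv']
      exact hch _ _ _ _ (embCode_lt m cls v) (hrank v hv hv')
    · rw [hψc u hu, hψl v hv hv']
      exact hcl _ _ _ _ (embCode_lt m cls v)
  have hhl' : ∀ u v, u ∉ core → v ∉ core → u ∈ hub → v ∉ hub → cls u = cls v →
      H.Adj (φ (ψ u)) (φ (ψ v)) := by
    intro u v hu hv hu' hv' huv
    rw [hψh u hu hu', hψl v hv hv', ← embCode_congr m cls huv]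
    exact hhl _ _ _ (embCode_lt m cls u) (hrank u hu hu')
  have hadj : ∀ u v, F.Adj u v → H.Adj (φ (ψ u)) (φ (ψ v)) := by
    intro u v huv
    by_cases hu : u ∈ core <;> by_cases hv : v ∈ core
    · rw [hψc u hu, hψc v hv]
      exact hcc _ _ _ _ (h1 u v hu hv huv)
    · exact hcn u v hu hv
    · exact (hcn v u hv hu).symm
    · obtain ⟨e1, e2⟩ := h2 u v hu hv huv
      by_cases hu' : u ∈ hub
      · exact hhl' u v hu hv hu' (e2.1 hu') e1
      · have hv' : v ∈ hub := by
          by_contra hv'
          exact hu' (e2.2 hv')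
        exact (hhl' v u hv hu hv' hu' e1.symm).symm
  exact ⟨⟨⟨fun v => φ (ψ v), fun {u v} huv => hadj u v huv⟩, fun u v huv =>
    hψinj (hinj _ _ (hok u) (hok v) huv)⟩⟩

theorem embed_ks {k : ℕ} (F : SimpleGraph (Fin k)) (r : ℕ) (hF : F.Colorable r)
    {V : Type} (H : SimpleGraph V) (hH : HasKs H r k Set.univ) : F.IsContained H := by
  obtain ⟨col⟩ := hF
  obtain ⟨φ, -, hinj, hadj⟩ := hH
  exact ⟨⟨⟨fun v => φ (col v) v, fun {u v} huv => hadj _ _ _ _ (col.valid huv)⟩, fun u v huv =>
    (hinj _ _ _ _ huv).2⟩⟩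

end Pool.Bbc38
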