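import Pool.Agent.Lib.MP_bbc38a_co.Defs


set_option autoImplicit false
open Classical

namespace Pool.Bbc38

/-- class index of a role -/
def free_cls (m k : ℕ) : Role → ℕ
  | .gh i _ => i
  | .gl i _ => i
  | .h1 j _ => m + k + 2 * j
  | .r1 j => m + k + 2 * j
  | .h2 j _ => m + k + 2 * j + 1
  | .r2 j => m + k + 2 * j + 1
  | _ => 0

/-- hub roles -/
def free_hub : Role → Prop
  | .gh _ _ => True
  | .h1 _ _ => True
  | .h2 _ _ => True
  | _ => False

/-- rank of a hub -/
def free_rk : Role → ℕ
  | .gh _ h => h
  | .h1 _ h => h
  | .h2 _ h => h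
  | _ => 0

/-- core roles -/
def free_core (r : Role) : Prop := isA r ∨ isB r

lemma free_core_A {r : Role} (h : isA r) : r = .A := by
  cases r <;> simp [isA] at h ⊢

lemma free_core_B {r : Role} (h : isB r) : r = .B := by
  cases r <;> simp [isB] at h ⊢

lemma free_not_allowed_core {r r' : Role} (h : free_core r) (h' : free_core r') :
    ¬ Allowed r r' := by
  rcases h with h | h <;> rcases h' with h' | h' <;>
    first
      | (rw [free_core_A h, free_core_A h']; simp [Allowed])
      | (rw [free_core_A h, free_core_B h']; simp [Allowed])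
      | (rw [free_core_B h, free_core_A h']; simp [Allowed])
      | (rw [free_core_B h, free_core_B h']; simp [Allowed])

/-- allowed pairs outside the core -/
lemma free_allowed {m k : ℕ} {r r' : Role} (h : ¬ free_core r) (h' : ¬ free_core r')
    (ha : Allowed r r') :
    (∃ j, r = .X ∧ r' = .r1 j) ∨
      (free_cls m k r = free_cls m k r' ∧ free_hub r ∧ ¬ free_hub r') := by
  cases r <;> cases r' <;>
    simp_all [Allowed, free_core, isA, isB, free_cls, free_hub]

/-- the edges X-r1 lie in no triangle -/
lemma free_noTri {n s k t m : ℕ} {G : SimpleGraph (Fin n)} (c : Cfg n s k t m G)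
    {u v w : Fin n} {j : ℕ} (hu : c.role u = .X) (hv : c.role v = .r1 j)
    (huw : c.H0.Adj u w) (hvw : c.H0.Adj v w) : False := by
  obtain ⟨_, h1⟩ := huw
  obtain ⟨_, h2⟩ := hvw
  have hJu : ¬ c.J.Adj u w := by
    intro h
    rcases c.J_role _ _ h with ⟨a, _⟩ | ⟨a, _⟩ <;> rw [hu] at a <;> cases a
  have hJv : ¬ c.J.Adj v w := by
    intro h
    rcases c.J_role _ _ h with ⟨a, _⟩ | ⟨a, _⟩ <;> rw [hv] at a <;> cases a
  rw [hu] at h1
  rw [hv] at h2
  generalize c.role w = r at h1 h2
  rcases h1 with h1 | h1 | h1
  · exact hJu h1
  · rcases h2 with h2 | h2 | h2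
    · exact hJv h2
    · cases r <;> simp [Allowed] at h1 h2
    · cases r <;> simp [Allowed] at h1 h2
  · rcases h2 with h2 | h2 | h2
    · exact hJv h2
    · cases r <;> simp [Allowed] at h1 h2
    · cases r <;> simp [Allowed] at h1 h2

theorem H0_free {n s k t m : ℕ} {G : SimpleGraph (Fin n)} (c : Cfg n s k t m G)
    (F : SimpleGraph (Fin k)) (hF : ¬ InS F s t m)
    (htri : ∀ u v : Fin k, F.Adj u v → ∃ w : Fin k, F.Adj u w ∧ F.Adj v w) :
    ¬ F.IsContained c.H0 := by
  rintro ⟨f⟩
  apply hF
  have hadj : ∀ u v, F.Adj u v → c.H0.Adj (f u) (f v) := fun u v h => f.toHom.map_adj h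
  have hinj : Function.Injective (fun v => f v) := f.injective
  obtain ⟨c0, hc0⟩ := c.J_col (Finset.univ.image (fun v : Fin k => f v))
    (le_trans Finset.card_image_le (by simp))
  refine ⟨{v | free_core (c.role (f v))}, fun v => c0 (f v),
    fun v => free_cls m k (c.role (f v)), {v | free_hub (c.role (f v))}, ?_, ?_, ?_⟩
  · intro u v hu hv huv
    have h := hadj u v huv
    obtain ⟨_, h⟩ := h
    rcases h with h | h | h
    · exact hc0 _ (Finset.mem_image_of_mem _ (Finset.mem_univ u)) _
        (Finset.mem_image_of_mem _ (Finset.mem_univ v)) h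
    · exact absurd h (free_not_allowed_core hu hv)
    · exact absurd h (free_not_allowed_core hv hu)
  · intro u v hu hv huv
    simp only [Set.mem_setOf_eq] at hu hv ⊢
    obtain ⟨w, huw, hvw⟩ := htri u v huv
    obtain ⟨_, h⟩ := hadj u v huv
    rcases h with h | h | h
    · exfalso
      rcases c.J_role _ _ h with ⟨a, _⟩ | ⟨a, _⟩
      · exact hu (by rw [a]; exact Or.inl trivial)
      · exact hu (by rw [a]; exact Or.inr trivial)
    · rcases free_allowed (m := m) (k := k) hu hv h with ⟨j, h1, h2⟩ | ⟨h1, h2, h3⟩
      · exact (free_noTri c h1 h2 (hadj _ _ huw) (hadj _ _ hvw)).elim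
      · exact ⟨h1, ⟨fun _ => h3, fun _ => h2⟩⟩
    · rcases free_allowed (m := m) (k := k) hv hu h with ⟨j, h1, h2⟩ | ⟨h1, h2, h3⟩
      · exact (free_noTri c h1 h2 (hadj _ _ hvw) (hadj _ _ huw)).elim
      · exact ⟨h1.symm, ⟨fun h => absurd h h3, fun h => absurd h2 h⟩⟩
  · intro i
    have hlt : ∀ v, free_hub (c.role (f v)) → free_cls m k (c.role (f v)) = i →
        free_rk (c.role (f v)) < hc t m i := by
      intro v hv hi
      generalize hr : c.role (f v) = r at hv hi
      cases r with
      | gh i' h =>
        simp only [free_cls] at hi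
        subst hi
        exact (c.gh_lt _ _ _ hr).2
      | h1 j h =>
        simp only [free_cls] at hi
        have := (c.h1_lt _ _ _ hr).2
        simp only [free_rk, hc]
        split_ifs <;> omega
      | h2 j h =>
        simp only [free_cls] at hi
        have := (c.h2_lt _ _ _ hr).2
        simp only [free_rk, hc]
        split_ifs <;> omega
      | _ => simp [free_hub] at hv
    have hin : ∀ u v, free_hub (c.role (f u)) → free_cls m k (c.role (f u)) = i →
        free_hub (c.role (f v)) → free_cls m k (c.role (f v)) = i →
        free_rk (c.role (f u)) = free_rk (c.role (f v)) → u = v := by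
      intro u v hu hui hv hvi huv
      apply hinj
      show f u = f v
      generalize hr : c.role (f u) = r at hu hui huv
      generalize hr' : c.role (f v) = r' at hv hvi huv
      cases r with
      | gh i1 h =>
        have hb := (c.gh_lt _ _ _ hr).1
        cases r' with
        | gh i2 h' =>
          simp only [free_cls, free_rk] at hui hvi huv
          subst hui hvi huv
          exact c.gh_inj _ _ _ _ hr hr'
        | h1 j' h' => simp only [free_cls] at hui hvi; omega
        | h2 j' h' => simp only [free_cls] at hui hvi; omega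
        | _ => simp [free_hub] at hv
      | h1 j h =>
        cases r' with
        | gh i2 h' =>
          have hb := (c.gh_lt _ _ _ hr').1
          simp only [free_cls] at hui hvi; omega
        | h1 j' h' =>
          simp only [free_cls, free_rk] at hui hvi huv
          have hj : j = j' := by omega
          subst hj huv
          exact c.h1_inj _ _ _ _ hr hr'
        | h2 j' h' => simp only [free_cls] at hui hvi; omega
        | _ => simp [free_hub] at hv
      | h2 j h =>
        cases r' with
        | gh i2 h' =>
          have hb := (c.gh_lt _ _ _ hr').1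
          simp only [free_cls] at hui hvi; omega
        | h1 j' h' => simp only [free_cls] at hui hvi; omega
        | h2 j' h' =>
          simp only [free_cls, free_rk] at hui hvi huv
          have hj : j = j' := by omega
          subst hj huv
          exact c.h2_inj _ _ _ _ hr hr'
        | _ => simp [free_hub] at hv
      | _ => simp [free_hub] at hu
    calc _ ≤ (Finset.range (hc t m i)).card := by
          apply Finset.card_le_card_of_injOn (fun v => free_rk (c.role (f v)))
          · intro v hv
            simp only [Finset.coe_filter, Finset.mem_univ, true_and, Set.mem_setOf_eq] at hv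
            simp only [Finset.coe_range, Set.mem_Iio]
            exact hlt v hv.2.1 hv.2.2
          · intro u hu v hv huv
            simp only [Finset.coe_filter, Finset.mem_univ, true_and, Set.mem_setOf_eq] at hu hv
            exact hin u v hu.2.1 hu.2.2 hv.2.1 hv.2.2 huv
      _ = hc t m i := Finset.card_range _

end Pool.Bbc38
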