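import Pool.Agent.Lib.MP_bbc38a_co.Defs


set_option autoImplicit false
open Classical

namespace Pool.Bbc38

/-- vertex set of the `i`-th tuple -/
noncomputable def hypg_im {N M s : ℕ} (ω : Fin M → Fin s → Fin N) (i : Fin M) : Finset (Fin N) :=
  Finset.univ.image (ω i)

/-- a small nonempty finset is covered by a function on `Fin m` -/
theorem hypg_cover {N m : ℕ} (hN : 0 < N) (U : Finset (Fin N)) (hU : U.card ≤ m) :
    ∃ u : Fin m → Fin N, ∀ v ∈ U, ∃ k, u k = v := by
  refine ⟨fun k => if h : (k : ℕ) < U.card then (U.equivFin.symm ⟨k, h⟩ : Fin N) else ⟨0, hN⟩, ?_⟩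
  intro v hv
  have hk0 : ∃ k0 : Fin U.card, U.equivFin.symm k0 = ⟨v, hv⟩ :=
    ⟨U.equivFin ⟨v, hv⟩, Equiv.symm_apply_apply _ _⟩
  obtain ⟨k0, hk0⟩ := hk0
  refine ⟨⟨k0, lt_of_lt_of_le k0.2 hU⟩, ?_⟩
  have h1 : ((⟨k0, lt_of_lt_of_le k0.2 hU⟩ : Fin m) : ℕ) < U.card := k0.2
  show (if h : (k0 : ℕ) < U.card then (U.equivFin.symm ⟨k0, h⟩ : Fin N) else ⟨0, hN⟩) = v
  rw [dif_pos k0.2]
  have h2 : (⟨(k0 : ℕ), k0.2⟩ : Fin U.card) = k0 := rfl
  rw [h2, hk0]

/-- number of configurations for which `T` spans few vertices -/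
theorem hypg_bad_T {N M s : ℕ} (hN : 0 < N) (T : Finset (Fin M)) :
    (Finset.univ.filter (fun ω : Fin M → Fin s → Fin N =>
      (T.biUnion (hypg_im ω)).card ≤ (s - 1) * T.card)).card ≤
      N ^ ((s - 1) * T.card) * ((s - 1) * T.card) ^ (T.card * s) * N ^ ((M - T.card) * s) := by
  set m : ℕ := (s - 1) * T.card with hm
  set Φ : (Fin m → Fin N) × ({i // i ∈ T} × Fin s → Fin m) × ({i // i ∉ T} × Fin s → Fin N) →
      (Fin M → Fin s → Fin N) := fun p i x =>
    if h : i ∈ T then p.1 (p.2.1 (⟨i, h⟩, x)) else p.2.2 (⟨i, h⟩, x) with hΦ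
  have hsub : (Finset.univ.filter (fun ω : Fin M → Fin s → Fin N =>
      (T.biUnion (hypg_im ω)).card ≤ m)) ⊆ Finset.univ.image Φ := by
    intro ω hω
    rw [Finset.mem_filter] at hω
    obtain ⟨u, hu⟩ := hypg_cover hN _ hω.2
    have h1 : ∀ q : {i // i ∈ T} × Fin s, ∃ k, u k = ω q.1 q.2 := by
      intro q
      apply hu
      rw [Finset.mem_biUnion]
      exact ⟨q.1, q.1.2, Finset.mem_image.2 ⟨q.2, Finset.mem_univ _, rfl⟩⟩
    choose a ha using h1
    rw [Finset.mem_image]
    refine ⟨(u, a, fun q => ω q.1 q.2), Finset.mem_univ _, ?_⟩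
    funext i x
    by_cases h : i ∈ T
    · simp only [hΦ, dif_pos h]
      exact ha (⟨i, h⟩, x)
    · simp only [hΦ, dif_neg h]
  refine (Finset.card_le_card hsub).trans (Finset.card_image_le.trans ?_)
  rw [Finset.card_univ, Fintype.card_prod, Fintype.card_prod, Fintype.card_fun, Fintype.card_fun,
    Fintype.card_fun, Fintype.card_prod, Fintype.card_prod, Fintype.card_fin, Fintype.card_fin,
    Fintype.card_fin]
  have h1 : Fintype.card {i // i ∈ T} = T.card := Fintype.card_coe T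
  have h2 : Fintype.card {i // i ∉ T} = M - T.card := by
    rw [Fintype.card_subtype_compl, Fintype.card_fin, h1]
  rw [h1, h2, mul_assoc]

/-- exponential moment of the number of tuples inside `S` -/
theorem hypg_sum_S {N M s : ℕ} (S : Finset (Fin N)) :
    ∑ ω : Fin M → Fin s → Fin N,
      ((1 : ℝ) / 2) ^ (Finset.univ.filter (fun i => hypg_im ω i ⊆ S)).card =
      ((N : ℝ) ^ s - (S.card : ℝ) ^ s / 2) ^ M := by
  set f : (Fin s → Fin N) → ℝ := fun a => if (∀ x, a x ∈ S) then 1 / 2 else 1 with hf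
  have h1 : ∀ ω : Fin M → Fin s → Fin N,
      ((1 : ℝ) / 2) ^ (Finset.univ.filter (fun i => hypg_im ω i ⊆ S)).card = ∏ i, f (ω i) := by
    intro ω
    rw [hf, Finset.prod_ite, Finset.prod_const, Finset.prod_const_one, mul_one]
    congr 2
    ext i
    simp only [Finset.mem_filter, Finset.mem_univ, true_and, hypg_im, Finset.image_subset_iff,
      forall_true_left]
  have h2 : ∑ a, f a = (N : ℝ) ^ s - (S.card : ℝ) ^ s / 2 := by
    have h3 : ∀ a, f a = 1 - (if (∀ x, a x ∈ S) then (1 : ℝ) / 2 else 0) := by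
      intro a
      rw [hf]
      by_cases h : ∀ x, a x ∈ S
      · simp only [if_pos h]
        norm_num
      · simp only [if_neg h]
        norm_num
    simp only [h3]
    rw [Finset.sum_sub_distrib, Finset.sum_const, Finset.card_univ, Fintype.card_fun,
      Fintype.card_fin, Fintype.card_fin, ← Finset.sum_filter, Finset.sum_const]
    have h4 : (Finset.univ.filter (fun a : Fin s → Fin N => ∀ x, a x ∈ S)) =
        Fintype.piFinset (fun _ => S) := by
      ext a
      simp [Fintype.mem_piFinset]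
    rw [h4, Fintype.card_piFinset_const]
    simp only [nsmul_eq_mul]
    push_cast
    ring
  simp only [h1]
  rw [← h2, Fintype.sum_pow]

theorem hypg_core (s g : ℕ) (hs : 2 ≤ s) (δ : ℝ) (hδ : 0 < δ) (hδ1 : δ ≤ 1) :
    ∃ (N M t : ℕ) (ω : Fin M → Fin s → Fin N), 0 < N ∧
      (Finset.univ.filter (fun T : Finset (Fin M) => T.Nonempty ∧ T.card ≤ g ∧
        (T.biUnion (hypg_im ω)).card ≤ (s - 1) * T.card)).card < t ∧
      (∀ S : Finset (Fin N), δ * N ≤ (S.card : ℝ) →
        t ≤ (Finset.univ.filter (fun i => hypg_im ω i ⊆ S)).card) := by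
  set x : ℝ := 1 - δ ^ s / 2 with hx
  have hδs : 0 < δ ^ s := by positivity
  have hδs1 : δ ^ s ≤ 1 := pow_le_one₀ hδ.le hδ1
  have hx0 : 0 ≤ x := by rw [hx]; linarith
  have hx1 : x < 1 := by rw [hx]; linarith
  obtain ⟨K, hK⟩ := exists_pow_lt_of_lt_one (show (0 : ℝ) < 1 / 4 by norm_num) hx1
  set C : ℕ := ∑ j ∈ Finset.range (g + 1), K ^ j * ((s - 1) * j) ^ (j * s) with hC
  set t : ℕ := 2 * C + 1 with ht
  set N : ℕ := t + 2 with hNdef
  have hN : 0 < N := by omega
  set M : ℕ := K * N with hM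
  set Ω : ℝ := (N : ℝ) ^ (M * s) with hΩ
  have hΩ0 : 0 < Ω := by positivity
  -- bad sets
  set bad : (Fin M → Fin s → Fin N) → ℕ := fun ω =>
    (Finset.univ.filter (fun T : Finset (Fin M) => T.Nonempty ∧ T.card ≤ g ∧
        (T.biUnion (hypg_im ω)).card ≤ (s - 1) * T.card)).card with hbad
  have hbadsum : ∑ ω, bad ω ≤ C * N ^ (M * s) := by
    have h1 : ∑ ω, bad ω = ∑ T : Finset (Fin M), if (T.Nonempty ∧ T.card ≤ g) then
        (Finset.univ.filter (fun ω : Fin M → Fin s → Fin N =>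
          (T.biUnion (hypg_im ω)).card ≤ (s - 1) * T.card)).card else 0 := by
      simp only [hbad, Finset.card_filter]
      rw [Finset.sum_comm]
      apply Finset.sum_congr rfl
      intro T _
      by_cases h : T.Nonempty ∧ T.card ≤ g
      · rw [if_pos h]
        apply Finset.sum_congr rfl
        intro ω _
        simp [h.1, h.2]
      · rw [if_neg h]
        apply Finset.sum_eq_zero
        intro ω _
        rw [if_neg]
        intro h'
        exact h ⟨h'.1, h'.2.1⟩
    rw [h1]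
    have h2 : ∀ T : Finset (Fin M), (if (T.Nonempty ∧ T.card ≤ g) then
        (Finset.univ.filter (fun ω : Fin M → Fin s → Fin N =>
          (T.biUnion (hypg_im ω)).card ≤ (s - 1) * T.card)).card else 0) ≤
        ∑ j ∈ Finset.range (g + 1), if T.card = j then
          N ^ ((s - 1) * j) * ((s - 1) * j) ^ (j * s) * N ^ ((M - j) * s) else 0 := by
      intro T
      by_cases h : T.Nonempty ∧ T.card ≤ g
      · rw [if_pos h, Finset.sum_ite_eq, if_pos (Finset.mem_range.2 (by omega))]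
        exact hypg_bad_T hN T
      · rw [if_neg h]
        exact Nat.zero_le _
    refine (Finset.sum_le_sum (fun T _ => h2 T)).trans ?_
    rw [Finset.sum_comm, hC, Finset.sum_mul]
    apply Finset.sum_le_sum
    intro j hj
    rw [← Finset.sum_filter, Finset.sum_const, smul_eq_mul]
    have h3 : (Finset.univ.filter (fun T : Finset (Fin M) => T.card = j)).card = M.choose j := by
      have e1 : (Finset.univ.filter (fun T : Finset (Fin M) => T.card = j)) =
          Finset.powersetCard j Finset.univ := by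
        ext T
        simp [Finset.mem_powersetCard]
      rw [e1, Finset.card_powersetCard, Finset.card_univ, Fintype.card_fin]
    rw [h3]
    rcases Nat.lt_or_ge M j with hMj | hMj
    · rw [Nat.choose_eq_zero_of_lt hMj, zero_mul]
      exact Nat.zero_le _
    · have h4 : M.choose j ≤ M ^ j := Nat.choose_le_pow M j
      have h5 : N ^ j * (N ^ ((s - 1) * j) * N ^ ((M - j) * s)) = N ^ (M * s) := by
        rw [← pow_add, ← pow_add]
        congr 1
        obtain ⟨s', rfl⟩ : ∃ s', s = s' + 1 := ⟨s - 1, by omega⟩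
        obtain ⟨m', hm'⟩ := Nat.exists_eq_add_of_le hMj
        rw [hm']
        simp only [Nat.add_sub_cancel, Nat.add_sub_cancel_left]
        ring
      calc M.choose j * (N ^ ((s - 1) * j) * ((s - 1) * j) ^ (j * s) * N ^ ((M - j) * s))
          ≤ M ^ j * (N ^ ((s - 1) * j) * ((s - 1) * j) ^ (j * s) * N ^ ((M - j) * s)) :=
            Nat.mul_le_mul_right _ h4
        _ = K ^ j * ((s - 1) * j) ^ (j * s) *
            (N ^ j * (N ^ ((s - 1) * j) * N ^ ((M - j) * s))) := by
            rw [hM, mul_pow]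
            ring
        _ = K ^ j * ((s - 1) * j) ^ (j * s) * N ^ (M * s) := by rw [h5]
  -- the exponential moments
  set 𝒮 : Finset (Finset (Fin N)) := Finset.univ.filter (fun S => δ * N ≤ (S.card : ℝ)) with h𝒮
  set A : (Fin M → Fin s → Fin N) → ℝ := fun ω => ∑ S ∈ 𝒮,
    (2 : ℝ) ^ t * ((1 : ℝ) / 2) ^ (Finset.univ.filter (fun i => hypg_im ω i ⊆ S)).card with hA
  have hAsum : ∑ ω, A ω ≤ Ω / 4 := by
    rw [hA, Finset.sum_comm]
    have h1 : ∀ S ∈ 𝒮, ∑ ω : Fin M → Fin s → Fin N, (2 : ℝ) ^ t *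
        ((1 : ℝ) / 2) ^ (Finset.univ.filter (fun i => hypg_im ω i ⊆ S)).card ≤
        2 ^ t * (Ω * (1 / 4) ^ N) := by
      intro S hS
      rw [h𝒮, Finset.mem_filter] at hS
      rw [← Finset.mul_sum, hypg_sum_S]
      apply mul_le_mul_of_nonneg_left _ (by positivity)
      have h2 : (δ * N) ^ s ≤ (S.card : ℝ) ^ s := pow_le_pow_left₀ (by positivity) hS.2 s
      have h3 : (S.card : ℝ) ≤ N := by
        have := Finset.card_le_univ S
        rw [Fintype.card_fin] at this
        exact_mod_cast this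
      have h4 : (S.card : ℝ) ^ s ≤ (N : ℝ) ^ s := pow_le_pow_left₀ (by positivity) h3 s
      have h5 : (N : ℝ) ^ s - (S.card : ℝ) ^ s / 2 ≤ (N : ℝ) ^ s * x := by
        rw [mul_pow] at h2
        rw [hx]
        nlinarith
      have h6 : 0 ≤ (N : ℝ) ^ s - (S.card : ℝ) ^ s / 2 := by
        have : (0 : ℝ) ≤ (N : ℝ) ^ s := by positivity
        linarith
      calc ((N : ℝ) ^ s - (S.card : ℝ) ^ s / 2) ^ M ≤ ((N : ℝ) ^ s * x) ^ M :=
            pow_le_pow_left₀ h6 h5 M
        _ = Ω * (x ^ K) ^ N := by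
            rw [mul_pow, hΩ, ← pow_mul, ← pow_mul, mul_comm s M]
        _ ≤ Ω * (1 / 4) ^ N := by
            apply mul_le_mul_of_nonneg_left _ hΩ0.le
            exact pow_le_pow_left₀ (by positivity) hK.le N
    refine (Finset.sum_le_sum h1).trans ?_
    rw [Finset.sum_const, nsmul_eq_mul]
    have h2 : (𝒮.card : ℝ) ≤ 2 ^ N := by
      have h3 : 𝒮.card ≤ Fintype.card (Finset (Fin N)) := Finset.card_le_univ _
      rw [Fintype.card_finset, Fintype.card_fin] at h3
      exact_mod_cast h3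
    have h3 : (0 : ℝ) ≤ 2 ^ t * (Ω * (1 / 4) ^ N) := by positivity
    refine (mul_le_mul_of_nonneg_right h2 h3).trans ?_
    have h4 : (2 : ℝ) ^ N * (2 ^ t * (Ω * (1 / 4) ^ N)) = Ω * (2 ^ t * (1 / 2) ^ N) := by
      have : (2 : ℝ) ^ N * (1 / 4) ^ N = (1 / 2) ^ N := by
        rw [← mul_pow]
        norm_num
      calc (2 : ℝ) ^ N * (2 ^ t * (Ω * (1 / 4) ^ N)) = Ω * (2 ^ t * ((2 : ℝ) ^ N * (1 / 4) ^ N)) := by
            ring
        _ = _ := by rw [this]
    have h5 : (2 : ℝ) ^ t * (1 / 2) ^ N = 1 / 4 := by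
      rw [hNdef, pow_add (1 / 2 : ℝ) t 2, ← mul_assoc, ← mul_pow]
      norm_num
    rw [h4, h5]
    linarith
  -- combine
  have hcard : (Finset.univ : Finset (Fin M → Fin s → Fin N)).card = N ^ (M * s) := by
    rw [Finset.card_univ, Fintype.card_fun, Fintype.card_fun, Fintype.card_fin, Fintype.card_fin,
      Fintype.card_fin, ← pow_mul, mul_comm]
  have hex : ∃ ω : Fin M → Fin s → Fin N, (bad ω : ℝ) + t * A ω < t := by
    by_contra hcon
    push Not at hcon
    have h1 : ∑ ω : Fin M → Fin s → Fin N, (t : ℝ) ≤ ∑ ω, ((bad ω : ℝ) + t * A ω) :=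
      Finset.sum_le_sum (fun ω _ => hcon ω)
    rw [Finset.sum_const, hcard, Finset.sum_add_distrib, ← Finset.mul_sum, nsmul_eq_mul] at h1
    have h2 : ∑ ω, (bad ω : ℝ) ≤ C * Ω := by
      rw [hΩ]
      exact_mod_cast hbadsum
    have h3 : (t : ℝ) * ∑ ω, A ω ≤ t * (Ω / 4) :=
      mul_le_mul_of_nonneg_left hAsum (Nat.cast_nonneg t)
    have h4 : ((N ^ (M * s) : ℕ) : ℝ) = Ω := by
      rw [hΩ]
      push_cast
      ring
    rw [h4] at h1
    have h5 : (t : ℝ) = 2 * C + 1 := by
      rw [ht]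
      push_cast
      ring
    rw [h5] at h1 h3
    have h6 : (0 : ℝ) ≤ C := Nat.cast_nonneg C
    nlinarith
  obtain ⟨ω, hω⟩ := hex
  have ht0 : (0 : ℝ) < t := by
    have : 0 < t := by omega
    exact_mod_cast this
  have hA0 : ∀ S ∈ 𝒮, (0 : ℝ) ≤ (2 : ℝ) ^ t *
      ((1 : ℝ) / 2) ^ (Finset.univ.filter (fun i => hypg_im ω i ⊆ S)).card :=
    fun S _ => by positivity
  have hAω0 : 0 ≤ A ω := Finset.sum_nonneg hA0
  refine ⟨N, M, t, ω, hN, ?_, ?_⟩
  · have h1 : (bad ω : ℝ) < t := by nlinarith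
    exact_mod_cast h1
  · intro S hS
    by_contra hlt
    push Not at hlt
    have hb0 : (0 : ℝ) ≤ (bad ω : ℝ) := Nat.cast_nonneg _
    have h1 : A ω < 1 := by
      by_contra hc
      push Not at hc
      nlinarith
    have hSm : S ∈ 𝒮 := by
      rw [h𝒮, Finset.mem_filter]
      exact ⟨Finset.mem_univ _, hS⟩
    have h2 : (2 : ℝ) ^ t *
      ((1 : ℝ) / 2) ^ (Finset.univ.filter (fun i => hypg_im ω i ⊆ S)).card ≤ A ω :=
      Finset.single_le_sum hA0 hSm
    have h3 : ((1 : ℝ) / 2) ^ t ≤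
        ((1 : ℝ) / 2) ^ (Finset.univ.filter (fun i => hypg_im ω i ⊆ S)).card :=
      pow_le_pow_of_le_one (by norm_num) (by norm_num) hlt.le
    have h4 : (2 : ℝ) ^ t * ((1 : ℝ) / 2) ^ t = 1 := by
      rw [← mul_pow]
      norm_num
    have h5 : (0 : ℝ) < (2 : ℝ) ^ t := by positivity
    nlinarith

theorem exists_hyp (s g : ℕ) (hs : 2 ≤ s) (δ : ℝ) (hδ : 0 < δ) :
    ∃ (N M : ℕ) (e : Fin M → Finset (Fin N)), 0 < N ∧ (∀ i, (e i).card = s) ∧
      (∀ T : Finset (Fin M), T.Nonempty → T.card ≤ g →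
        (s - 1) * T.card + 1 ≤ (T.biUnion e).card) ∧
      (∀ S : Finset (Fin N), δ * N ≤ (S.card : ℝ) → ∃ i, e i ⊆ S) := by
  obtain ⟨N, M, t, ω, hN, hbad, hS⟩ := hypg_core s (max g 1) hs (min δ 1)
    (lt_min hδ one_pos) (min_le_right _ _)
  set B : Finset (Finset (Fin M)) := Finset.univ.filter (fun T : Finset (Fin M) => T.Nonempty ∧
    T.card ≤ max g 1 ∧ (T.biUnion (hypg_im ω)).card ≤ (s - 1) * T.card) with hB
  have hBne : ∀ T : B, ∃ i, i ∈ (T : Finset (Fin M)) := by
    intro T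
    have h1 := T.2
    exact (Finset.mem_filter.1 h1).2.1
  choose r hr using hBne
  set R : Finset (Fin M) := Finset.univ.image r with hR
  have hRcard : R.card < t := by
    have h1 : R.card ≤ B.card := by
      refine Finset.card_image_le.trans ?_
      rw [Finset.card_univ, Fintype.card_coe]
    exact lt_of_le_of_lt h1 hbad
  -- sets avoiding `R` are good
  have hgood : ∀ T : Finset (Fin M), T.Nonempty → T.card ≤ max g 1 → Disjoint T R →
      (s - 1) * T.card + 1 ≤ (T.biUnion (hypg_im ω)).card := by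
    intro T hT hTg hdis
    by_contra hlt
    have hTB : T ∈ B := by
      rw [hB, Finset.mem_filter]
      exact ⟨Finset.mem_univ _, hT, hTg, by omega⟩
    have h1 : r ⟨T, hTB⟩ ∈ T := hr ⟨T, hTB⟩
    have h2 : r ⟨T, hTB⟩ ∈ R := Finset.mem_image_of_mem r (Finset.mem_univ _)
    exact Finset.disjoint_left.1 hdis h1 h2
  set M' : ℕ := (Rᶜ).card with hM'
  set φ : Fin M' → Fin M := fun k => ((Rᶜ).equivFin.symm k : Fin M) with hφ
  have hφinj : Function.Injective φ := by
    intro a b hab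
    exact (Rᶜ).equivFin.symm.injective (Subtype.ext hab)
  have hφR : ∀ k, φ k ∉ R := by
    intro k
    have := ((Rᶜ).equivFin.symm k).2
    exact Finset.mem_compl.1 this
  have hφsurj : ∀ i, i ∉ R → ∃ k, φ k = i := by
    intro i hi
    refine ⟨(Rᶜ).equivFin ⟨i, Finset.mem_compl.2 hi⟩, ?_⟩
    simp only [hφ, Equiv.symm_apply_apply]
  refine ⟨N, M', fun k => hypg_im ω (φ k), hN, ?_, ?_, ?_⟩
  · intro k
    have h1 := hgood {φ k} (Finset.singleton_nonempty _) (by simp) (by
      rw [Finset.disjoint_singleton_left]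
      exact hφR k)
    rw [Finset.card_singleton, Finset.singleton_biUnion] at h1
    have h2 : (hypg_im ω (φ k)).card ≤ s := by
      rw [hypg_im]
      refine Finset.card_image_le.trans ?_
      simp
    show (hypg_im ω (φ k)).card = s
    omega
  · intro T hT hTg
    have h1 := hgood (T.image φ) (hT.image φ)
      (by rw [Finset.card_image_of_injective _ hφinj]; exact hTg.trans (le_max_left _ _))
      (by
        rw [Finset.disjoint_left]
        intro i hi
        rw [Finset.mem_image] at hi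
        obtain ⟨k, -, rfl⟩ := hi
        exact hφR k)
    rw [Finset.card_image_of_injective _ hφinj, Finset.image_biUnion] at h1
    exact h1
  · intro S hSc
    have h1 : min δ 1 * N ≤ (S.card : ℝ) :=
      (mul_le_mul_of_nonneg_right (min_le_left _ _) (Nat.cast_nonneg N)).trans hSc
    have h2 := hS S h1
    have h3 : ∃ i ∈ Finset.univ.filter (fun i => hypg_im ω i ⊆ S), i ∉ R := by
      by_contra hcon
      push Not at hcon
      have h4 : (Finset.univ.filter (fun i => hypg_im ω i ⊆ S)) ⊆ R := hcon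
      have := Finset.card_le_card h4
      omega
    obtain ⟨i, hi, hiR⟩ := h3
    rw [Finset.mem_filter] at hi
    obtain ⟨k, rfl⟩ := hφsurj i hiR
    exact ⟨k, hi.2⟩

end Pool.Bbc38
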