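import Pool.Agent.Lib.MP_bbc38a_co.PrBasic


set_option autoImplicit false
open Classical

namespace Pool.Bbc38

/-- all genuine pairs -/
noncomputable def pgf_Om (n : ℕ) : Finset (Sym2 (Fin n)) :=
  Finset.univ.filter (fun e => ¬ e.IsDiag)

theorem pgf_Om_card (n : ℕ) : (pgf_Om n).card = n.choose 2 := by
  have h := Sym2.card_subtype_not_diag (α := Fin n)
  rw [Fintype.card_fin] at h
  rw [← h, Fintype.card_subtype]
  unfold pgf_Om
  congr

theorem pgf_edge_sub {n : ℕ} (G : SimpleGraph (Fin n)) {e : Sym2 (Fin n)} (he : e ∈ G.edgeSet) :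
    e ∈ pgf_Om n := by
  unfold pgf_Om
  rw [Finset.mem_filter]
  exact ⟨Finset.mem_univ _, G.not_isDiag_of_mem_edgeSet he⟩

/-- the edges of a graph as a finset -/
noncomputable def pgf_ed {n : ℕ} (G : SimpleGraph (Fin n)) : Finset (Sym2 (Fin n)) :=
  (pgf_Om n).filter (fun e => e ∈ G.edgeSet)

theorem pgf_mem_ed {n : ℕ} (G : SimpleGraph (Fin n)) (e : Sym2 (Fin n)) :
    e ∈ pgf_ed G ↔ e ∈ pgf_Om n ∧ e ∈ G.edgeSet := by
  unfold pgf_ed
  rw [Finset.mem_filter]

theorem pgf_sum_graph (n : ℕ) (x y : Sym2 (Fin n) → ℝ) :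
    ∑ G : SimpleGraph (Fin n), ∏ e ∈ pgf_Om n, (if e ∈ G.edgeSet then x e else y e) =
      ∏ e ∈ pgf_Om n, (x e + y e) := by
  rw [Finset.prod_add]
  refine Finset.sum_bij' (fun G _ => pgf_ed G)
    (fun t _ => SimpleGraph.fromEdgeSet (t : Set (Sym2 (Fin n)))) ?_ ?_ ?_ ?_ ?_
  · intro G _
    rw [Finset.mem_powerset]
    exact Finset.filter_subset _ _
  · intro t _
    exact Finset.mem_univ _
  · intro G _
    ext u v
    rw [SimpleGraph.fromEdgeSet_adj, Finset.mem_coe, pgf_mem_ed, SimpleGraph.mem_edgeSet]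
    constructor
    · rintro ⟨⟨_, h⟩, _⟩
      exact h
    · intro h
      exact ⟨⟨pgf_edge_sub G h, h⟩, h.ne⟩
  · intro t ht
    rw [Finset.mem_powerset] at ht
    ext e
    constructor
    · intro h
      obtain ⟨_, h2⟩ := (pgf_mem_ed _ _).1 h
      rw [SimpleGraph.edgeSet_fromEdgeSet] at h2
      exact h2.1
    · intro h
      refine (pgf_mem_ed _ _).2 ⟨ht h, ?_⟩
      rw [SimpleGraph.edgeSet_fromEdgeSet]
      refine ⟨h, ?_⟩
      have h2 := ht h
      unfold pgf_Om at h2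
      rw [Finset.mem_filter] at h2
      exact h2.2
  · intro G _
    rw [Finset.prod_ite]
    congr 1
    apply Finset.prod_congr _ (fun _ _ => rfl)
    ext e
    rw [Finset.mem_filter, Finset.mem_sdiff, pgf_mem_ed]
    tauto

theorem pgf_wt (p : ℝ) {n : ℕ} (G : SimpleGraph (Fin n)) :
    wt p G = ∏ e ∈ pgf_Om n, (if e ∈ G.edgeSet then p else 1 - p) := by
  rw [Finset.prod_ite, Finset.prod_const, Finset.prod_const]
  unfold wt
  have h1 : ((pgf_Om n).filter (fun e => e ∈ G.edgeSet)).card = G.edgeSet.ncard := by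
    rw [← Set.ncard_coe_finset]
    congr 1
    ext e
    simp only [Finset.coe_filter, Set.mem_ofPred_eq]
    exact ⟨fun h => h.2, fun h => ⟨pgf_edge_sub G h, h⟩⟩
  have h2 : ((pgf_Om n).filter (fun e => e ∉ G.edgeSet)).card
      = n.choose 2 - G.edgeSet.ncard := by
    have h3 := Finset.card_filter_add_card_filter_not (s := pgf_Om n) (fun e => e ∈ G.edgeSet)
    rw [h1, pgf_Om_card] at h3
    omega
  rw [h1, h2]

/-- the indicator of a cylinder as a product -/
theorem pgf_ind {n : ℕ} (E1 E0 : Finset (Sym2 (Fin n))) (h1 : E1 ⊆ pgf_Om n)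
    (G : SimpleGraph (Fin n)) :
    (if Holds E1 E0 G then (1 : ℝ) else 0) = ∏ e ∈ pgf_Om n,
      (if e ∈ G.edgeSet then (if e ∈ E0 then (0 : ℝ) else 1) else (if e ∈ E1 then 0 else 1)) := by
  by_cases h : Holds E1 E0 G
  · rw [if_pos h]
    symm
    apply Finset.prod_eq_one
    intro e _
    by_cases he : e ∈ G.edgeSet
    · rw [if_pos he, if_neg (fun h' => h.2 e h' he)]
    · rw [if_neg he, if_neg (fun h' => he (h.1 e h'))]
  · rw [if_neg h]
    symm
    unfold Holds at h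
    rw [not_and_or] at h
    rcases h with h | h
    · push Not at h
      obtain ⟨e, he, he'⟩ := h
      apply Finset.prod_eq_zero (h1 he)
      rw [if_neg he', if_pos he]
    · push Not at h
      obtain ⟨e, he, he'⟩ := h
      apply Finset.prod_eq_zero (pgf_edge_sub G he')
      rw [if_pos he', if_pos he]

theorem pgf_sum_holds (p : ℝ) {n : ℕ} (E1 E0 : Finset (Sym2 (Fin n)))
    (hd : ∀ e ∈ E1 ∪ E0, ¬ e.IsDiag) (hdis : Disjoint E1 E0) :
    ∑ G : SimpleGraph (Fin n), wt p G * (if Holds E1 E0 G then (1 : ℝ) else 0)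
      = p ^ E1.card * (1 - p) ^ E0.card := by
  have h1 : E1 ⊆ pgf_Om n := by
    intro e he
    unfold pgf_Om
    rw [Finset.mem_filter]
    exact ⟨Finset.mem_univ _, hd e (Finset.mem_union_left _ he)⟩
  have h0 : E0 ⊆ pgf_Om n := by
    intro e he
    unfold pgf_Om
    rw [Finset.mem_filter]
    exact ⟨Finset.mem_univ _, hd e (Finset.mem_union_right _ he)⟩
  have h2 : ∀ G : SimpleGraph (Fin n), wt p G * (if Holds E1 E0 G then (1 : ℝ) else 0)
      = ∏ e ∈ pgf_Om n, (if e ∈ G.edgeSet then (p * if e ∈ E0 then (0 : ℝ) else 1)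
          else ((1 - p) * if e ∈ E1 then 0 else 1)) := by
    intro G
    rw [pgf_wt, pgf_ind E1 E0 h1 G, ← Finset.prod_mul_distrib]
    apply Finset.prod_congr rfl
    intro e _
    split_ifs <;> simp
  simp only [h2]
  rw [pgf_sum_graph]
  have h3 : ∀ e ∈ pgf_Om n, ((p * if e ∈ E0 then (0 : ℝ) else 1)
      + ((1 - p) * if e ∈ E1 then 0 else 1))
      = (if e ∈ E1 then p else 1) * (if e ∈ E0 then 1 - p else 1) := by
    intro e _
    by_cases he1 : e ∈ E1
    · have he0 : e ∉ E0 := Finset.disjoint_left.1 hdis he1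
      rw [if_neg he0, if_pos he1, if_pos he1, if_neg he0]
      ring
    · by_cases he0 : e ∈ E0
      · rw [if_pos he0, if_neg he1, if_neg he1, if_pos he0]
        ring
      · rw [if_neg he0, if_neg he1, if_neg he1, if_neg he0]
        ring
  rw [Finset.prod_congr rfl h3, Finset.prod_mul_distrib, Finset.prod_ite_mem,
    Finset.prod_ite_mem, Finset.inter_eq_right.2 h1, Finset.inter_eq_right.2 h0,
    Finset.prod_const, Finset.prod_const]

/-- probability of a cylinder -/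
theorem Pr_holds (p : ℝ) {n : ℕ} (E1 E0 : Finset (Sym2 (Fin n)))
    (hd : ∀ e ∈ E1 ∪ E0, ¬ e.IsDiag) (hdis : Disjoint E1 E0) :
    Pr p n {G | Holds E1 E0 G} = p ^ E1.card * (1 - p) ^ E0.card := by
  rw [← pgf_sum_holds p E1 E0 hd hdis]
  unfold Pr
  rw [Finset.sum_filter]
  apply Finset.sum_congr rfl
  intro G _
  simp only [Set.mem_ofPred_eq]
  split_ifs <;> simp

theorem pgf_holds_biUnion {n : ℕ} {ι : Type} (J : Finset ι) (E1 E0 : ι → Finset (Sym2 (Fin n)))
    (G : SimpleGraph (Fin n)) :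
    Holds (J.biUnion E1) (J.biUnion E0) G ↔ ∀ i ∈ J, Holds (E1 i) (E0 i) G := by
  unfold Holds
  simp only [Finset.mem_biUnion]
  constructor
  · rintro ⟨h1, h0⟩ i hi
    exact ⟨fun e he => h1 e ⟨i, hi, he⟩, fun e he => h0 e ⟨i, hi, he⟩⟩
  · intro h
    exact ⟨fun e ⟨i, hi, he⟩ => (h i hi).1 e he, fun e ⟨i, hi, he⟩ => (h i hi).2 e he⟩

/-- generating function of the number of patterns that hold -/
theorem pgf (p l : ℝ) {n : ℕ} {ι : Type} (I : Finset ι) (E1 E0 : ι → Finset (Sym2 (Fin n)))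
    (hD : Disj I E1 E0) :
    ∑ G : SimpleGraph (Fin n), wt p G * l ^ cnt I E1 E0 G =
      ∏ i ∈ I, (1 + (l - 1) * (p ^ (E1 i).card * (1 - p) ^ (E0 i).card)) := by
  have h1 : ∀ G : SimpleGraph (Fin n), l ^ cnt I E1 E0 G
      = ∑ J ∈ I.powerset, (l - 1) ^ J.card *
        (if Holds (J.biUnion E1) (J.biUnion E0) G then (1 : ℝ) else 0) := by
    intro G
    have h2 : l ^ cnt I E1 E0 G
        = ∏ i ∈ I, (1 + (l - 1) * (if Holds (E1 i) (E0 i) G then (1 : ℝ) else 0)) := by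
      unfold cnt
      rw [← Finset.prod_const, Finset.prod_filter]
      apply Finset.prod_congr rfl
      intro i _
      split_ifs <;> ring
    rw [h2, Finset.prod_one_add]
    apply Finset.sum_congr rfl
    intro J _
    rw [Finset.prod_mul_distrib, Finset.prod_const]
    congr 1
    by_cases h : Holds (J.biUnion E1) (J.biUnion E0) G
    · rw [if_pos h]
      apply Finset.prod_eq_one
      intro i hi
      rw [if_pos ((pgf_holds_biUnion J E1 E0 G).1 h i hi)]
    · rw [if_neg h]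
      rw [pgf_holds_biUnion] at h
      push Not at h
      obtain ⟨i, hi, hi'⟩ := h
      apply Finset.prod_eq_zero hi
      rw [if_neg hi']
  simp only [h1, Finset.mul_sum]
  rw [Finset.sum_comm, Finset.prod_one_add]
  apply Finset.sum_congr rfl
  intro J hJ
  rw [Finset.mem_powerset] at hJ
  have h3 : ∀ G : SimpleGraph (Fin n), wt p G * ((l - 1) ^ J.card *
        (if Holds (J.biUnion E1) (J.biUnion E0) G then (1 : ℝ) else 0))
      = (l - 1) ^ J.card * (wt p G *
        (if Holds (J.biUnion E1) (J.biUnion E0) G then (1 : ℝ) else 0)) := by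
    intro G
    ring
  simp only [h3]
  rw [← Finset.mul_sum, pgf_sum_holds, Finset.prod_mul_distrib, Finset.prod_const,
    Finset.prod_mul_distrib, Finset.prod_pow_eq_pow_sum, Finset.prod_pow_eq_pow_sum]
  · rw [Finset.card_biUnion, Finset.card_biUnion]
    · intro i hi j hj hij
      exact (hD.pair i (hJ hi) j (hJ hj) hij).mono Finset.subset_union_right
        Finset.subset_union_right
    · intro i hi j hj hij
      exact (hD.pair i (hJ hi) j (hJ hj) hij).mono Finset.subset_union_left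
        Finset.subset_union_left
  · intro e he
    rw [Finset.mem_union, Finset.mem_biUnion, Finset.mem_biUnion] at he
    rcases he with ⟨i, hi, he⟩ | ⟨i, hi, he⟩
    · exact hD.nd i (hJ hi) e (Finset.mem_union_left _ he)
    · exact hD.nd i (hJ hi) e (Finset.mem_union_right _ he)
  · rw [Finset.disjoint_biUnion_left]
    intro i hi
    rw [Finset.disjoint_biUnion_right]
    intro j hj
    by_cases hij : i = j
    · subst hij
      exact hD.self i (hJ hi)
    · exact (hD.pair i (hJ hi) j (hJ hj) hij).mono Finset.subset_union_left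
        Finset.subset_union_right

theorem pgf_q_nonneg {p : ℝ} (hp0 : 0 ≤ p) (hp1 : p ≤ 1) (a b : ℕ) :
    0 ≤ p ^ a * (1 - p) ^ b := mul_nonneg (pow_nonneg hp0 _) (pow_nonneg (by linarith) _)

theorem pgf_q_le_one {p : ℝ} (hp0 : 0 ≤ p) (hp1 : p ≤ 1) (a b : ℕ) :
    p ^ a * (1 - p) ^ b ≤ 1 :=
  mul_le_one₀ (pow_le_one₀ hp0 hp1) (pow_nonneg (by linarith) _)
    (pow_le_one₀ (by linarith) (by linarith))

theorem pgf_prod_le {ι : Type} (I : Finset ι) (f : ι → ℝ) (c : ℝ) (h0 : ∀ i ∈ I, 0 ≤ f i)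
    (h1 : ∀ i ∈ I, f i ≤ c) : ∏ i ∈ I, f i ≤ c ^ I.card := by
  rw [← Finset.prod_const]
  exact Finset.prod_le_prod h0 h1

theorem tail_zero {p : ℝ} (hp0 : 0 ≤ p) (hp1 : p ≤ 1) {n : ℕ} {ι : Type} (I : Finset ι)
    (E1 E0 : ι → Finset (Sym2 (Fin n))) (hD : Disj I E1 E0) (q : ℝ)
    (hq : ∀ i ∈ I, q ≤ p ^ (E1 i).card * (1 - p) ^ (E0 i).card) :
    Pr p n {G | cnt I E1 E0 G = 0} ≤ (1 - q) ^ I.card := by
  have h1 := Pr_markov hp0 hp1 {G | cnt I E1 E0 G = 0} (fun G => (0 : ℝ) ^ cnt I E1 E0 G)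
    (fun G => pow_nonneg le_rfl _) 1 (by
      intro G hG
      have hG' : cnt I E1 E0 G = 0 := hG
      rw [hG', pow_zero])
  rw [one_mul, pgf p 0 I E1 E0 hD] at h1
  refine h1.trans (pgf_prod_le I _ _ ?_ ?_)
  · intro i _
    have := pgf_q_le_one hp0 hp1 (E1 i).card (E0 i).card
    linarith
  · intro i hi
    have := hq i hi
    linarith

theorem tail_low {p : ℝ} (hp0 : 0 ≤ p) (hp1 : p ≤ 1) {n : ℕ} {ι : Type} (I : Finset ι)
    (E1 E0 : ι → Finset (Sym2 (Fin n))) (hD : Disj I E1 E0) (q : ℝ)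
    (hq : ∀ i ∈ I, q ≤ p ^ (E1 i).card * (1 - p) ^ (E0 i).card)
    (l : ℝ) (hl0 : 0 < l) (hl1 : l ≤ 1) (h : ℝ) :
    Pr p n {G | (cnt I E1 E0 G : ℝ) ≤ h} ≤ l ^ (-h) * (1 - (1 - l) * q) ^ I.card := by
  have h1 := Pr_markov hp0 hp1 {G | (cnt I E1 E0 G : ℝ) ≤ h} (fun G => l ^ cnt I E1 E0 G)
    (fun G => pow_nonneg hl0.le _) (l ^ h) (by
      intro G hG
      have hG' : (cnt I E1 E0 G : ℝ) ≤ h := hG
      rw [← Real.rpow_natCast]
      exact Real.rpow_le_rpow_of_exponent_ge hl0 hl1 hG')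
  rw [pgf p l I E1 E0 hD] at h1
  have h2 : ∏ i ∈ I, (1 + (l - 1) * (p ^ (E1 i).card * (1 - p) ^ (E0 i).card))
      ≤ (1 - (1 - l) * q) ^ I.card := by
    apply pgf_prod_le
    · intro i _
      have h3 := pgf_q_le_one hp0 hp1 (E1 i).card (E0 i).card
      have h4 := pgf_q_nonneg hp0 hp1 (E1 i).card (E0 i).card
      nlinarith
    · intro i hi
      have h3 := hq i hi
      nlinarith
  have h5 : 0 < l ^ h := Real.rpow_pos_of_pos hl0 h
  rw [Real.rpow_neg hl0.le, inv_mul_eq_div, le_div_iff₀ h5, mul_comm]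
  exact h1.trans h2

theorem tail_up {p : ℝ} (hp0 : 0 ≤ p) (hp1 : p ≤ 1) {n : ℕ} {ι : Type} (I : Finset ι)
    (E1 E0 : ι → Finset (Sym2 (Fin n))) (hD : Disj I E1 E0) (q : ℝ)
    (hq : ∀ i ∈ I, p ^ (E1 i).card * (1 - p) ^ (E0 i).card ≤ q)
    (l : ℝ) (hl1 : 1 ≤ l) (h : ℝ) :
    Pr p n {G | h ≤ (cnt I E1 E0 G : ℝ)} ≤ l ^ (-h) * (1 + (l - 1) * q) ^ I.card := by
  have hl0 : 0 < l := by linarith
  have h1 := Pr_markov hp0 hp1 {G | h ≤ (cnt I E1 E0 G : ℝ)} (fun G => l ^ cnt I E1 E0 G)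
    (fun G => pow_nonneg hl0.le _) (l ^ h) (by
      intro G hG
      have hG' : h ≤ (cnt I E1 E0 G : ℝ) := hG
      rw [← Real.rpow_natCast]
      exact Real.rpow_le_rpow_of_exponent_le hl1 hG')
  rw [pgf p l I E1 E0 hD] at h1
  have h2 : ∏ i ∈ I, (1 + (l - 1) * (p ^ (E1 i).card * (1 - p) ^ (E0 i).card))
      ≤ (1 + (l - 1) * q) ^ I.card := by
    apply pgf_prod_le
    · intro i _
      have h4 := pgf_q_nonneg hp0 hp1 (E1 i).card (E0 i).card
      nlinarith
    · intro i hi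
      have h3 := hq i hi
      nlinarith
  have h5 : 0 < l ^ h := Real.rpow_pos_of_pos hl0 h
  rw [Real.rpow_neg hl0.le, inv_mul_eq_div, le_div_iff₀ h5, mul_comm]
  exact h1.trans h2

end Pool.Bbc38
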