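import Pool.Agent.Lib.MP_bbc38a_co.Defs


set_option autoImplicit false
open Classical

namespace Pool.Bbc38

theorem wt_nonneg {n : ℕ} {p : ℝ} (hp0 : 0 ≤ p) (hp1 : p ≤ 1) (G : SimpleGraph (Fin n)) :
    0 ≤ wt p G := by
  unfold wt
  exact mul_nonneg (pow_nonneg hp0 _) (pow_nonneg (by linarith) _)

theorem Pr_nonneg {p : ℝ} (hp0 : 0 ≤ p) (hp1 : p ≤ 1) (n : ℕ) (S : Set (SimpleGraph (Fin n))) :
    0 ≤ Pr p n S := by
  unfold Pr
  exact Finset.sum_nonneg fun G _ => wt_nonneg hp0 hp1 G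

/-- sums over graphs as sums over sets of pairs -/
theorem prb_sum {n : ℕ} (f : Finset (Sym2 (Fin n)) → ℝ) :
    ∑ G : SimpleGraph (Fin n), f G.edgeFinset =
      ∑ T ∈ (⊤ : SimpleGraph (Fin n)).edgeFinset.powerset, f T := by
  have key : ∀ (G : SimpleGraph (Fin n)) (e : Sym2 (Fin n)), e ∈ G.edgeFinset ↔ e ∈ G.edgeSet :=
    fun G e => SimpleGraph.mem_edgeFinset
  refine Finset.sum_nbij' (fun G => G.edgeFinset)
    (fun T => SimpleGraph.fromEdgeSet (T : Set (Sym2 (Fin n)))) ?_ ?_ ?_ ?_ ?_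
  · intro G _
    rw [Finset.mem_powerset]
    exact SimpleGraph.edgeFinset_mono le_top
  · intro T _
    exact Finset.mem_univ _
  · intro G _
    rw [SimpleGraph.coe_edgeFinset, SimpleGraph.fromEdgeSet_edgeSet]
  · intro T hT
    rw [Finset.mem_powerset] at hT
    ext e
    refine (key _ e).trans ?_
    rw [SimpleGraph.edgeSet_fromEdgeSet]
    constructor
    · intro h
      exact h.1
    · intro h
      refine ⟨h, ?_⟩
      have h1 := hT h
      rw [SimpleGraph.mem_edgeFinset, SimpleGraph.edgeSet_top] at h1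
      exact h1
  · intro G _
    rfl

theorem prb_ncard {n : ℕ} (G : SimpleGraph (Fin n)) : G.edgeSet.ncard = G.edgeFinset.card := by
  rw [← SimpleGraph.coe_edgeFinset, Set.ncard_coe_finset]

theorem prb_top {n : ℕ} : (⊤ : SimpleGraph (Fin n)).edgeFinset.card = n.choose 2 := by
  have h := SimpleGraph.card_edgeFinset_top_eq_card_choose_two (V := Fin n)
  rw [Fintype.card_fin] at h
  rw [← h]

/-- the cylinder formula -/
theorem prb_cyl (p : ℝ) {n : ℕ} (E1 E0 : Finset (Sym2 (Fin n)))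
    (hd : ∀ e ∈ E1 ∪ E0, ¬ e.IsDiag) (hdis : Disjoint E1 E0) :
    Pr p n {G | Holds E1 E0 G} = p ^ E1.card * (1 - p) ^ E0.card := by
  set P : Finset (Sym2 (Fin n)) := (⊤ : SimpleGraph (Fin n)).edgeFinset with hP
  have hPc : P.card = n.choose 2 := prb_top
  have hE1 : E1 ⊆ P := by
    intro e he
    rw [hP, SimpleGraph.mem_edgeFinset, SimpleGraph.edgeSet_top]
    exact hd e (Finset.mem_union_left _ he)
  have hE0 : E0 ⊆ P := by
    intro e he
    rw [hP, SimpleGraph.mem_edgeFinset, SimpleGraph.edgeSet_top]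
    exact hd e (Finset.mem_union_right _ he)
  -- the two weights
  let x : Sym2 (Fin n) → ℝ := fun e => if e ∈ E0 then 0 else p
  let y : Sym2 (Fin n) → ℝ := fun e => if e ∈ E1 then 0 else 1 - p
  have hx : ∀ T : Finset (Sym2 (Fin n)), ∏ e ∈ T, x e = if Disjoint E0 T then p ^ T.card else 0 := by
    intro T
    split_ifs with h
    · rw [Finset.prod_congr rfl (g := fun _ => p), Finset.prod_const]
      intro e he
      have : e ∉ E0 := fun h' => (Finset.disjoint_left.mp h h') he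
      simp [x, this]
    · rw [Finset.not_disjoint_iff] at h
      obtain ⟨e, h1, h2⟩ := h
      exact Finset.prod_eq_zero h2 (by simp [x, h1])
  have hy : ∀ T : Finset (Sym2 (Fin n)), ∏ e ∈ P \ T, y e =
      if E1 ⊆ T then (1 - p) ^ (P \ T).card else 0 := by
    intro T
    split_ifs with h
    · rw [Finset.prod_congr rfl (g := fun _ => 1 - p), Finset.prod_const]
      intro e he
      have : e ∉ E1 := fun h' => (Finset.mem_sdiff.mp he).2 (h h')
      simp [y, this]
    · rw [Finset.not_subset] at h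
      obtain ⟨e, h1, h2⟩ := h
      exact Finset.prod_eq_zero (Finset.mem_sdiff.mpr ⟨hE1 h1, h2⟩) (by simp [y, h1])
  have h1 : Pr p n {G | Holds E1 E0 G} = ∑ T ∈ P.powerset, (∏ e ∈ T, x e) * ∏ e ∈ P \ T, y e := by
    unfold Pr
    rw [Finset.sum_filter]
    have h2 : ∀ G : SimpleGraph (Fin n), (if G ∈ {G | Holds E1 E0 G} then wt p G else 0) =
        (∏ e ∈ G.edgeFinset, x e) * ∏ e ∈ P \ G.edgeFinset, y e := by
      intro G
      have hG : G.edgeFinset ⊆ P := SimpleGraph.edgeFinset_mono le_top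
      have hH : G ∈ {G | Holds E1 E0 G} ↔ E1 ⊆ G.edgeFinset ∧ Disjoint E0 G.edgeFinset := by
        rw [Set.mem_ofPred_eq]
        unfold Holds
        refine and_congr ⟨fun h e he => ?_, fun h e he => ?_⟩ ?_
        · rw [SimpleGraph.mem_edgeFinset]; exact h e he
        · rw [← SimpleGraph.mem_edgeFinset]; exact h he
        · rw [Finset.disjoint_left]
          refine forall₂_congr fun e _ => ?_
          rw [SimpleGraph.mem_edgeFinset]
      rw [hx, hy, wt, prb_ncard, Finset.card_sdiff_of_subset hG, hPc]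
      by_cases h1 : E1 ⊆ G.edgeFinset
      · by_cases h2 : Disjoint E0 G.edgeFinset
        · rw [if_pos (hH.mpr ⟨h1, h2⟩), if_pos h1, if_pos h2]
        · rw [if_neg (fun h => h2 (hH.mp h).2), if_neg h2, zero_mul]
      · rw [if_neg (fun h => h1 (hH.mp h).1), if_neg h1, mul_zero]
    rw [Finset.sum_congr rfl (fun G _ => h2 G)]
    exact prb_sum (fun T => (∏ e ∈ T, x e) * ∏ e ∈ P \ T, y e)
  rw [h1, ← Finset.prod_add]
  have h3 : ∀ e ∈ P, x e + y e = (if e ∈ E1 then p else 1) * (if e ∈ E0 then 1 - p else 1) := by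
    intro e _
    by_cases ha : e ∈ E1
    · have hb : e ∉ E0 := Finset.disjoint_left.mp hdis ha
      simp [x, y, ha, hb]
    · by_cases hb : e ∈ E0
      · simp [x, y, ha, hb]
      · simp [x, y, ha, hb]
  rw [Finset.prod_congr rfl h3, Finset.prod_mul_distrib, Finset.prod_ite_mem, Finset.prod_ite_mem,
    Finset.inter_eq_right.mpr hE1, Finset.inter_eq_right.mpr hE0, Finset.prod_const,
    Finset.prod_const]

theorem Pr_univ (p : ℝ) (n : ℕ) : Pr p n Set.univ = 1 := by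
  have h := prb_cyl p (n := n) ∅ ∅ (by simp) (by simp)
  have h2 : {G : SimpleGraph (Fin n) | Holds ∅ ∅ G} = Set.univ := by
    ext G
    simp [Holds]
  rw [h2] at h
  rw [h]
  simp

theorem Pr_mono {p : ℝ} (hp0 : 0 ≤ p) (hp1 : p ≤ 1) {n : ℕ} {S T : Set (SimpleGraph (Fin n))}
    (h : S ⊆ T) : Pr p n S ≤ Pr p n T := by
  unfold Pr
  refine Finset.sum_le_sum_of_subset_of_nonneg ?_ (fun G _ _ => wt_nonneg hp0 hp1 G)
  intro G hG
  rw [Finset.mem_filter] at hG ⊢
  exact ⟨hG.1, h hG.2⟩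

theorem Pr_compl (p : ℝ) (n : ℕ) (S : Set (SimpleGraph (Fin n))) :
    Pr p n Sᶜ = 1 - Pr p n S := by
  rw [← Pr_univ p n]
  unfold Pr
  rw [eq_sub_iff_add_eq, add_comm]
  have h := Finset.sum_filter_add_sum_filter_not (Finset.univ : Finset (SimpleGraph (Fin n)))
    (fun G => G ∈ S) (fun G => wt p G)
  simpa using h

theorem Pr_union_le {p : ℝ} (hp0 : 0 ≤ p) (hp1 : p ≤ 1) {n : ℕ}
    (S T : Set (SimpleGraph (Fin n))) : Pr p n (S ∪ T) ≤ Pr p n S + Pr p n T := by
  unfold Pr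
  rw [Finset.sum_filter, Finset.sum_filter, Finset.sum_filter, ← Finset.sum_add_distrib]
  refine Finset.sum_le_sum fun G _ => ?_
  have h := wt_nonneg hp0 hp1 G
  by_cases h1 : G ∈ S <;> by_cases h2 : G ∈ T <;> simp [h1, h2, h]

/-- union bound -/
theorem Pr_exists_le {p : ℝ} (hp0 : 0 ≤ p) (hp1 : p ≤ 1) {n : ℕ} {ι : Type} (I : Finset ι)
    (S : ι → Set (SimpleGraph (Fin n))) :
    Pr p n {G | ∃ i ∈ I, G ∈ S i} ≤ ∑ i ∈ I, Pr p n (S i) := by
  induction I using Finset.induction_on with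
  | empty =>
    have h : {G : SimpleGraph (Fin n) | ∃ i ∈ (∅ : Finset ι), G ∈ S i} = ∅ := by
      ext G; simp
    rw [h]
    simp [Pr]
  | insert a I ha ih =>
    rw [Finset.sum_insert ha]
    have h : {G : SimpleGraph (Fin n) | ∃ i ∈ insert a I, G ∈ S i} =
        S a ∪ {G | ∃ i ∈ I, G ∈ S i} := by
      ext G; simp
    rw [h]
    exact (Pr_union_le hp0 hp1 _ _).trans (by gcongr)

/-- expectations: Markov -/
theorem Pr_markov {p : ℝ} (hp0 : 0 ≤ p) (hp1 : p ≤ 1) {n : ℕ} (S : Set (SimpleGraph (Fin n)))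
    (f : SimpleGraph (Fin n) → ℝ) (hf : ∀ G, 0 ≤ f G) (a : ℝ) (hS : ∀ G ∈ S, a ≤ f G) :
    a * Pr p n S ≤ ∑ G : SimpleGraph (Fin n), wt p G * f G := by
  unfold Pr
  rw [Finset.mul_sum, Finset.sum_filter]
  refine Finset.sum_le_sum fun G _ => ?_
  have h := wt_nonneg hp0 hp1 G
  split_ifs with h1
  · rw [mul_comm]
    exact mul_le_mul_of_nonneg_left (hS G h1) h
  · exact mul_nonneg h (hf G)

theorem whp_of_compl_le {p : ℝ} (hp0 : 0 ≤ p) (hp1 : p ≤ 1)
    (S : (n : ℕ) → Set (SimpleGraph (Fin n))) (u : ℕ → ℝ)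
    (hu : Filter.Tendsto u Filter.atTop (nhds 0))
    (h : ∀ᶠ n : ℕ in Filter.atTop, Pr p n (S n)ᶜ ≤ u n) : Whp p S := by
  unfold Whp
  have h1 : Filter.Tendsto (fun n => 1 - u n) Filter.atTop (nhds 1) := by
    have := hu.const_sub 1
    rwa [sub_zero] at this
  refine tendsto_of_tendsto_of_tendsto_of_le_of_le' h1 tendsto_const_nhds ?_ ?_
  · filter_upwards [h] with n hn
    rw [Pr_compl] at hn
    linarith
  · refine Filter.Eventually.of_forall fun n => ?_
    rw [← Pr_univ p n]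
    exact Pr_mono hp0 hp1 (Set.subset_univ _)

theorem Whp.inter {p : ℝ} (hp0 : 0 ≤ p) (hp1 : p ≤ 1) {S T : (n : ℕ) → Set (SimpleGraph (Fin n))}
    (hS : Whp p S) (hT : Whp p T) : Whp p (fun n => S n ∩ T n) := by
  refine whp_of_compl_le hp0 hp1 _ (fun n => (1 - Pr p n (S n)) + (1 - Pr p n (T n))) ?_ ?_
  · have h1 := (hS.const_sub 1).add (hT.const_sub 1)
    simpa using h1
  · refine Filter.Eventually.of_forall fun n => ?_
    rw [← Pr_compl, ← Pr_compl, Set.compl_inter]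
    exact Pr_union_le hp0 hp1 _ _

theorem Whp.mono {p : ℝ} (hp0 : 0 ≤ p) (hp1 : p ≤ 1) {S T : (n : ℕ) → Set (SimpleGraph (Fin n))}
    (hS : Whp p S) (h : ∀ᶠ n : ℕ in Filter.atTop, S n ⊆ T n) : Whp p T := by
  refine whp_of_compl_le hp0 hp1 _ (fun n => 1 - Pr p n (S n)) ?_ ?_
  · have h1 := hS.const_sub 1
    simpa using h1
  · filter_upwards [h] with n hn
    rw [← Pr_compl]
    exact Pr_mono hp0 hp1 (Set.compl_subset_compl.mpr hn)

end Pool.Bbc38
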