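import Pool.Agent.Lib.MP_bbc38a_co.Embed
import Pool.Agent.Lib.MP_bbc38a_co.Avg


set_option autoImplicit false
open Classical

namespace Pool.Bbc38

theorem star_host {n s k t m : ℕ} {G : SimpleGraph (Fin n)} (c : Cfg n s k t m G)
    (H : SimpleGraph (Fin n)) (hH0 : c.H0 ≤ H) (D : Set (Fin n)) (P : Role)
    (hP : P = .A ∨ P = .B) (hD : ∀ a ∈ D, c.role a = P)
    (hKs : HasKs c.J s k D) (hb : ℕ → Fin n) (lf : Fin k → Fin n)
    (hbr : ∀ h, h < t + 1 → ¬ isG (c.role (hb h)))
    (lfr : ∀ l, ¬ isG (c.role (lf l)))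
    (hbi : ∀ h h', h < t + 1 → h' < t + 1 → hb h = hb h' → h = h')
    (lfi : Function.Injective lf)
    (hbl : ∀ h l, h < t + 1 → H.Adj (hb h) (lf l))
    (hDb : ∀ a ∈ D, ∀ h, h < t + 1 → H.Adj a (hb h))
    (hDl : ∀ a ∈ D, ∀ l, H.Adj a (lf l)) : Host H s k t (m + 1) := by
  obtain ⟨GH, hGH⟩ : ∃ GH : ℕ → ℕ → Fin n, ∀ i h, i < m + k → h < hc t m i →
      c.role (GH i h) = .gh i h := by
    have : ∀ i h, ∃ u : Fin n, i < m + k → h < hc t m i → c.role u = .gh i h := by
      intro i h
      by_cases h1 : i < m + k ∧ h < hc t m i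
      · obtain ⟨u, hu⟩ := c.gh_ex i h h1.1 h1.2
        exact ⟨u, fun _ _ => hu⟩
      · exact ⟨hb 0, fun a b => absurd ⟨a, b⟩ h1⟩
    choose f hf using this
    exact ⟨f, hf⟩
  obtain ⟨Gle, hGle⟩ : ∃ Gle : ℕ → Fin k → Fin n, ∀ i l, i < m + k →
      c.role (Gle i l) = .gl i l := by
    have : ∀ (i : ℕ) (l : Fin k), ∃ u : Fin n, i < m + k → c.role u = .gl i l := by
      intro i l
      by_cases h1 : i < m + k
      · obtain ⟨u, hu⟩ := c.gl_ex i l h1 l.2
        exact ⟨u, fun _ => hu⟩
      · exact ⟨hb 0, fun a => absurd a h1⟩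
    choose f hf using this
    exact ⟨f, hf⟩
  obtain ⟨φ, hφD, hφi, hφa⟩ := hKs
  obtain ⟨σ, hσ⟩ : ∃ σ : ℕ → ℕ, ∀ i, σ i = if i < m then i else i - 1 := ⟨_, fun _ => rfl⟩
  have hσlt : ∀ i, i < m + 1 + k → i ≠ m → σ i < m + k := by
    intro i hi him
    rw [hσ]
    split_ifs <;> omega
  have hσinj : ∀ i j, i ≠ m → j ≠ m → σ i = σ j → i = j := by
    intro i j hi hj h
    rw [hσ, hσ] at h
    split_ifs at h <;> omega
  have hσhc : ∀ i, i ≠ m → hc t (m + 1) i = hc t m (σ i) := by
    intro i hi
    rw [hσ]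
    unfold hc
    split_ifs <;> omega
  have hcm : hc t (m + 1) m = t + 1 := by
    unfold hc
    rw [if_pos (Nat.lt_succ_self m)]
  have hAG : ∀ a ∈ D, ∀ v, isG (c.role v) → H.Adj a v := by
    intro a ha v hv
    apply hH0
    have hra := hD a ha
    cases hrv : c.role v with
    | gh i h =>
      rcases hP with hP | hP
      · refine ⟨c.adj_A_gh a v i h (hra.trans hP) hrv, Or.inr (Or.inl ?_)⟩
        rw [hra, hrv, hP]; trivial
      · refine ⟨c.adj_B_gh a v i h (hra.trans hP) hrv, Or.inr (Or.inl ?_)⟩
        rw [hra, hrv, hP]; trivial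
    | gl i h =>
      rcases hP with hP | hP
      · refine ⟨c.adj_A_gl a v i h (hra.trans hP) hrv, Or.inr (Or.inl ?_)⟩
        rw [hra, hrv, hP]; trivial
      · refine ⟨c.adj_B_gl a v i h (hra.trans hP) hrv, Or.inr (Or.inl ?_)⟩
        rw [hra, hrv, hP]; trivial
    | _ => rw [hrv] at hv; exact hv.elim
  have hcoreG : ∀ a ∈ D, ¬ isG (c.role a) := by
    intro a ha
    rw [hD a ha]
    rcases hP with hP | hP <;> rw [hP] <;> exact fun h => h
  -- the map
  let Φ : HV s k → Fin n := fun v => match v with
    | .core a b => φ a b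
    | .hub i h => if i = m then hb h else GH (σ i) h
    | .leaf i l => if i = m then lf l else Gle (σ i) l
  have hΦc : ∀ a b, Φ (.core a b) = φ a b := fun _ _ => rfl
  have hΦhm : ∀ h, Φ (.hub m h) = hb h := fun h => if_pos rfl
  have hΦh : ∀ i h, i ≠ m → Φ (.hub i h) = GH (σ i) h := fun i h hi => if_neg hi
  have hΦlm : ∀ l, Φ (.leaf m l) = lf l := fun h => if_pos rfl
  have hΦl : ∀ i l, i ≠ m → Φ (.leaf i l) = Gle (σ i) l := fun i h hi => if_neg hi
  have hrh : ∀ i h, i ≠ m → i < m + 1 + k → h < hc t (m + 1) i →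
      c.role (Φ (.hub i h)) = .gh (σ i) h := by
    intro i h him hi hh
    rw [hΦh i h him]
    exact hGH _ _ (hσlt i hi him) (hσhc i him ▸ hh)
  have hrl : ∀ i l, i ≠ m → i < m + 1 + k →
      c.role (Φ (.leaf i l)) = .gl (σ i) l := by
    intro i l him hi
    rw [hΦl i l him]
    exact hGle _ _ (hσlt i hi him)
  have hcoreadjhub : ∀ a b i h, i < m + 1 + k → h < hc t (m + 1) i →
      H.Adj (Φ (.core a b)) (Φ (.hub i h)) := by
    intro a b i h hi hh
    by_cases him : i = m
    · subst him
      rw [hΦhm, hΦc]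
      rw [hcm] at hh
      exact hDb _ (hφD a b) h hh
    · rw [hΦc]
      apply hAG _ (hφD a b)
      rw [hrh i h him hi hh]
      trivial
  have hcoreadjleaf : ∀ a b i l, i < m + 1 + k →
      H.Adj (Φ (.core a b)) (Φ (.leaf i l)) := by
    intro a b i l hi
    by_cases him : i = m
    · subst him
      rw [hΦlm, hΦc]
      exact hDl _ (hφD a b) l
    · rw [hΦc]
      apply hAG _ (hφD a b)
      rw [hrl i l him hi]
      trivial
  have hhubleaf : ∀ i h l, i < m + 1 + k → h < hc t (m + 1) i →
      H.Adj (Φ (.hub i h)) (Φ (.leaf i l)) := by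
    intro i h l hi hh
    by_cases him : i = m
    · subst him
      rw [hΦlm, hΦhm]
      rw [hcm] at hh
      exact hbl h l hh
    · have h1 := hrh i h him hi hh
      have h2 := hrl i l him hi
      apply hH0
      refine ⟨c.adj_gh_gl _ _ _ _ _ h1 h2, Or.inr (Or.inl ?_)⟩
      rw [h1, h2]
      exact rfl
  have hhubleaf' : ∀ i h j l, i < m + 1 + k → j < m + 1 + k → h < hc t (m + 1) i →
      Φ (.hub i h) ≠ Φ (.leaf j l) := by
    intro i h j l hi hj hh he
    by_cases hij : i = j
    · subst hij
      exact (hhubleaf i h l hi hh).ne he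
    · by_cases him : i = m
      · have hjm : j ≠ m := fun h => hij (him.trans h.symm)
        have h2 := hrl j l hjm hj
        subst him
        rw [hcm] at hh
        apply hbr h hh
        rw [← hΦhm, he, h2]
        trivial
      · have h1 := hrh i h him hi hh
        by_cases hjm : j = m
        · subst hjm
          apply lfr l
          rw [← hΦlm, ← he, h1]
          trivial
        · have h2 := hrl j l hjm hj
          rw [he, h2] at h1
          exact absurd h1 (by simp)
  refine ⟨Φ, ?_, ?_, ?_, ?_, ?_⟩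
  · intro x y hx hy hxy
    cases x with
    | core a b =>
      cases y with
      | core a' b' =>
        obtain ⟨h1, h2⟩ := hφi a b a' b' hxy
        rw [h1, h2]
      | hub i h => exact absurd hxy (hcoreadjhub a b i h hy.1 hy.2).ne
      | leaf i l => exact absurd hxy (hcoreadjleaf a b i l hy).ne
    | hub i h =>
      cases y with
      | core a' b' => exact absurd hxy.symm (hcoreadjhub a' b' i h hx.1 hx.2).ne
      | hub i' h' =>
        by_cases him : i = m
        · by_cases him' : i' = m
          · subst him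
            subst him'
            rw [hΦhm, hΦhm] at hxy
            have h1 := hx.2
            have h2 := hy.2
            rw [hcm] at h1 h2
            rw [hbi h h' h1 h2 hxy]
          · exfalso
            subst him
            have h2 := hrh i' h' him' hy.1 hy.2
            have h1 := hx.2
            rw [hcm] at h1
            apply hbr h h1
            rw [← hΦhm, hxy, h2]
            trivial
        · have h1 := hrh i h him hx.1 hx.2
          by_cases him' : i' = m
          · exfalso
            subst him'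
            have h2 := hy.2
            rw [hcm] at h2
            apply hbr h' h2
            rw [← hΦhm, ← hxy, h1]
            trivial
          · have h2 := hrh i' h' him' hy.1 hy.2
            rw [hxy, h2] at h1
            injection h1 with e1 e2
            rw [hσinj i i' him him' e1.symm, e2]
      | leaf j l => exact absurd hxy (hhubleaf' i h j l hx.1 hy hx.2)
    | leaf i l =>
      cases y with
      | core a' b' => exact absurd hxy.symm (hcoreadjleaf a' b' i l hx).ne
      | hub i' h' => exact absurd hxy.symm (hhubleaf' i' h' i l hy.1 hx hy.2)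
      | leaf j l' =>
        by_cases him : i = m
        · by_cases him' : j = m
          · subst him
            subst him'
            rw [hΦlm, hΦlm] at hxy
            rw [lfi hxy]
          · exfalso
            subst him
            have h2 := hrl j l' him' hy
            apply lfr l
            rw [← hΦlm, hxy, h2]
            trivial
        · have h1 := hrl i l him hx
          by_cases him' : j = m
          · exfalso
            subst him'
            apply lfr l'
            rw [← hΦlm, ← hxy, h1]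
            trivial
          · have h2 := hrl j l' him' hy
            rw [hxy, h2] at h1
            injection h1 with e1 e2
            rw [hσinj i j him him' e1.symm, Fin.ext e2.symm]
  · intro a b a' b' haa
    apply hH0
    have := hφa a b a' b' haa
    exact ⟨c.J_le this, Or.inl this⟩
  · intro a b j h hj hh
    exact hcoreadjhub a b j h hj hh
  · intro a b j l hj
    exact hcoreadjleaf a b j l hj
  · intro j h l hj hh
    exact hhubleaf j h l hj hh

theorem star_hubs {n t : ℕ} (x : Fin n) (P : ℕ → Fin n → Prop)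
    (hex : ∀ h, h < t → ∃ u, P h u) (hinj : ∀ h h' u, P h u → P h' u → h = h')
    (hx : ∀ h, ¬ P h x) :
    ∃ hb : ℕ → Fin n, hb t = x ∧ (∀ h, h < t → P h (hb h)) ∧
      (∀ h h', h < t + 1 → h' < t + 1 → hb h = hb h' → h = h') := by
  have : ∀ h, ∃ u : Fin n, h < t → P h u := by
    intro h
    by_cases h1 : h < t
    · obtain ⟨u, hu⟩ := hex h h1
      exact ⟨u, fun _ => hu⟩
    · exact ⟨x, fun a => absurd a h1⟩
  choose f hf using this
  refine ⟨fun h => if h < t then f h else x, by simp, ?_, ?_⟩
  · intro h hh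
    simp only [if_pos hh]
    exact hf h hh
  · intro h h' hh hh' he
    simp only at he
    by_cases h1 : h < t
    · by_cases h2 : h' < t
      · rw [if_pos h1, if_pos h2] at he
        exact hinj h h' (f h) (hf h h1) (he ▸ hf h' h2)
      · rw [if_pos h1, if_neg h2] at he
        exact absurd (he ▸ hf h h1) (hx h)
    · by_cases h2 : h' < t
      · rw [if_neg h1, if_pos h2] at he
        exact absurd (he ▸ hf h' h2) (hx h')
      · omega

theorem star1 {n s k t m : ℕ} {G : SimpleGraph (Fin n)} (c : Cfg n s k t m G)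
    (F : SimpleGraph (Fin k)) (hF : InS F s t (m + 1)) (H : SimpleGraph (Fin n))
    (hH0 : c.H0 ≤ H) (hfree : ¬ F.IsContained H) (d0 : ℝ) (hd0 : 0 < d0) (C : ℕ) (hC0 : 0 < C)
    (hC : 2 * k * ((c.verts isA).card : ℝ) ≤ C * d0)
    (hJA : ∀ D ⊆ c.verts isA, d0 / 2 / 2 ^ C ≤ (D.card : ℝ) → HasKs c.J s k (D : Set (Fin n)))
    (x : Fin n) (hx : isR1 (c.role x) ∨ isR2 (c.role x) ∨ isH2 (c.role x)) (j : ℕ) :
    (Finset.univ.filter (fun y => c.role y = .r1 j ∧ H.Adj x y ∧
      d0 ≤ ((cn G {x, y} (c.verts isA)).card : ℝ))).card < C := by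
  by_contra hcon
  push Not at hcon
  obtain ⟨I, hIs, hIc⟩ := Finset.exists_subset_card_eq hcon
  have hImem : ∀ y ∈ I, c.role y = .r1 j ∧ H.Adj x y ∧
      d0 ≤ ((cn G {x, y} (c.verts isA)).card : ℝ) := by
    intro y hy
    have := hIs hy
    rw [Finset.mem_filter] at this
    exact this.2
  have hI0 : 0 < I.card := by omega
  obtain ⟨y0, hy0⟩ := Finset.card_pos.1 hI0
  have hjm1 : j < c.m1 := c.r1_lt y0 j (hImem y0 hy0).1
  obtain ⟨T, hTI, hTc, hTD⟩ := averaging (c.verts isA) I (fun y => cn G {x, y} (c.verts isA)) k d0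
    hd0 (fun y _ => Finset.filter_subset _ _) (fun y hy => (hImem y hy).2.2)
    (by rw [hIc]; exact hC) hI0
  rw [hIc] at hTD
  set D := (c.verts isA).filter (fun a => ∀ i ∈ T, a ∈ cn G {x, i} (c.verts isA)) with hDdef
  have hDs : D ⊆ c.verts isA := Finset.filter_subset _ _
  have hTD' : d0 / 2 / 2 ^ C ≤ (D.card : ℝ) := by
    rw [hDdef]
    convert hTD
  have hKs := hJA D hDs hTD'
  have hDrole : ∀ a ∈ (D : Set (Fin n)), c.role a = .A := by
    intro a ha
    have := hDs (Finset.mem_coe.1 ha)
    unfold Cfg.verts at this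
    rw [Finset.mem_filter] at this
    have h2 := this.2
    cases hr : c.role a with
    | A => rfl
    | _ => rw [hr] at h2; exact h2.elim
  have hDadj : ∀ a ∈ (D : Set (Fin n)), ∀ y ∈ T, G.Adj a x ∧ G.Adj a y := by
    intro a ha y hy
    have h1 := (Finset.mem_filter.1 (Finset.mem_coe.1 ha)).2 y hy
    unfold cn at h1
    rw [Finset.mem_filter] at h1
    exact ⟨(h1.2 x (by simp)).symm, (h1.2 y (by simp)).symm⟩
  -- k = 0 is trivial
  rcases Nat.eq_zero_or_pos k with hk | hk
  · subst hk
    apply hfree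
    exact ⟨⟨⟨fun i => i.elim0, fun {a} => a.elim0⟩, fun a => a.elim0⟩⟩
  have hTne : T.Nonempty := Finset.card_pos.1 (by omega)
  obtain ⟨y1, hy1⟩ := hTne
  -- enumerate T
  have e : Fin k ≃ T := (Finset.equivFinOfCardEq hTc).symm
  have hxP : ∀ h, ¬ c.role x = .h1 j h := by
    intro h he
    rw [he] at hx
    rcases hx with hx | hx | hx <;> exact hx
  obtain ⟨hb, hbt, hbP, hbi⟩ := star_hubs (t := t) x (fun h u => c.role u = .h1 j h)
    (fun h hh => c.h1_ex j h hjm1 hh)
    (by
      intro h h' u h1 h2
      rw [h1] at h2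
      injection h2)
    hxP
  have hlr : ∀ l, c.role (e l : Fin n) = .r1 j := fun l => (hImem _ (hTI (e l).2)).1
  have hxA : ∀ a, c.role a = .A → Allowed (c.role a) (c.role x) := by
    intro a ha
    rw [ha]
    cases hr : c.role x with
    | r1 j => trivial
    | r2 j => trivial
    | h2 j h => trivial
    | _ => rw [hr] at hx; rcases hx with hx | hx | hx <;> exact hx.elim
  have hbcase : ∀ h, h < t + 1 → h ≠ t → h < t := by
    intro h h1 h2; omega
  apply hfree
  apply embed_host F s t (m + 1) hF H
  refine star_host c H hH0 D .A (Or.inl rfl) hDrole hKs hb (fun l => (e l : Fin n))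
    ?_ ?_ hbi ?_ ?_ ?_ ?_
  · intro h hh
    by_cases h1 : h = t
    · rw [h1, hbt]
      intro h2
      cases hr : c.role x with
      | gh i h => rw [hr] at hx; rcases hx with hx | hx | hx <;> exact hx
      | gl i h => rw [hr] at hx; rcases hx with hx | hx | hx <;> exact hx
      | _ => rw [hr] at h2; exact h2
    · rw [hbP h (hbcase h hh h1)]
      exact fun h => h
  · intro l
    show ¬ isG (c.role (e l : Fin n))
    rw [hlr l]
    exact fun h => h
  · intro l l' hll
    exact e.injective (Subtype.ext hll)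
  · intro h l hh
    show H.Adj (hb h) (e l : Fin n)
    by_cases h1 : h = t
    · rw [h1, hbt]
      exact (hImem _ (hTI (e l).2)).2.1
    · have h2 := hbP h (hbcase h hh h1)
      apply hH0
      refine ⟨c.adj_h1_r1 _ _ _ _ h2 (hlr l), Or.inr (Or.inl ?_)⟩
      rw [h2, hlr l]
      exact rfl
  · intro a ha h hh
    by_cases h1 : h = t
    · rw [h1, hbt]
      apply hH0
      refine ⟨(hDadj a ha y1 hy1).1, Or.inr (Or.inl ?_)⟩
      exact hxA a (hDrole a ha)
    · have h2 := hbP h (hbcase h hh h1)
      apply hH0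
      refine ⟨c.adj_A_h1 _ _ _ _ (hDrole a ha) h2, Or.inr (Or.inl ?_)⟩
      rw [h2, hDrole a ha]
      trivial
  · intro a ha l
    show H.Adj a (e l : Fin n)
    apply hH0
    refine ⟨(hDadj a ha _ (e l).2).2, Or.inr (Or.inl ?_)⟩
    rw [hlr l, hDrole a ha]
    trivial

theorem star2 {n s k t m : ℕ} {G : SimpleGraph (Fin n)} (c : Cfg n s k t m G)
    (F : SimpleGraph (Fin k)) (hF : InS F s t (m + 1)) (H : SimpleGraph (Fin n))
    (hH0 : c.H0 ≤ H) (hfree : ¬ F.IsContained H)
    (hB : ∀ X : Finset (Fin n), X.card ≤ k + 1 + t →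
      HasKs c.J s k (cn G X (c.verts isB) : Set (Fin n)))
    (x : Fin n) (hx : isR2 (c.role x)) (j : ℕ) :
    (Finset.univ.filter (fun y => c.role y = .r2 j ∧ H.Adj x y)).card < k := by
  by_contra hcon
  push Not at hcon
  obtain ⟨T, hTs, hTc⟩ := Finset.exists_subset_card_eq hcon
  have hTmem : ∀ y ∈ T, c.role y = .r2 j ∧ H.Adj x y := by
    intro y hy
    have := hTs hy
    rw [Finset.mem_filter] at this
    exact this.2
  rcases Nat.eq_zero_or_pos k with hk | hk
  · subst hk
    apply hfree
    exact ⟨⟨⟨fun i => i.elim0, fun {a} => a.elim0⟩, fun a => a.elim0⟩⟩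
  have hTne : T.Nonempty := Finset.card_pos.1 (by omega)
  obtain ⟨y1, hy1⟩ := hTne
  have hjm2 : j < c.m2 := c.r2_lt y1 j (hTmem y1 hy1).1
  have e : Fin k ≃ T := (Finset.equivFinOfCardEq hTc).symm
  have hxP : ∀ h, ¬ c.role x = .h2 j h := by
    intro h he
    rw [he] at hx
    exact hx
  obtain ⟨hb, hbt, hbP, hbi⟩ := star_hubs (t := t) x (fun h u => c.role u = .h2 j h)
    (fun h hh => c.h2_ex j h hjm2 hh)
    (by
      intro h h' u h1 h2
      rw [h1] at h2
      injection h2)
    hxP
  have hlr : ∀ l, c.role (e l : Fin n) = .r2 j := fun l => (hTmem _ (e l).2).1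
  have hbcase : ∀ h, h < t + 1 → h ≠ t → h < t := by
    intro h h1 h2; omega
  set X : Finset (Fin n) := T ∪ (Finset.range (t + 1)).image hb with hX
  have hXc : X.card ≤ k + 1 + t := by
    calc X.card ≤ T.card + ((Finset.range (t + 1)).image hb).card := Finset.card_union_le _ _
      _ ≤ k + (t + 1) := by
          have := Finset.card_image_le (s := Finset.range (t + 1)) (f := hb)
          rw [Finset.card_range] at this
          omega
      _ = k + 1 + t := by ring
  have hKs := hB X hXc
  set D := cn G X (c.verts isB) with hDdef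
  have hDs : D ⊆ c.verts isB := Finset.filter_subset _ _
  have hDrole : ∀ a ∈ (D : Set (Fin n)), c.role a = .B := by
    intro a ha
    have := hDs (Finset.mem_coe.1 ha)
    unfold Cfg.verts at this
    rw [Finset.mem_filter] at this
    have h2 := this.2
    cases hr : c.role a with
    | B => rfl
    | _ => rw [hr] at h2; exact h2.elim
  have hDadj : ∀ a ∈ (D : Set (Fin n)), ∀ y ∈ X, G.Adj a y := by
    intro a ha y hy
    have h1 := Finset.mem_coe.1 ha
    rw [hDdef] at h1
    unfold cn at h1
    rw [Finset.mem_filter] at h1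
    exact (h1.2 y hy).symm
  have hTX : ∀ y ∈ T, y ∈ X := fun y hy => Finset.mem_union_left _ hy
  have hbX : ∀ h, h < t + 1 → hb h ∈ X := fun h hh =>
    Finset.mem_union_right _ (Finset.mem_image_of_mem _ (Finset.mem_range.2 hh))
  apply hfree
  apply embed_host F s t (m + 1) hF H
  refine star_host c H hH0 D .B (Or.inr rfl) hDrole hKs hb (fun l => (e l : Fin n))
    ?_ ?_ hbi ?_ ?_ ?_ ?_
  · intro h hh
    by_cases h1 : h = t
    · rw [h1, hbt]
      intro h2
      cases hr : c.role x with
      | gh i h => rw [hr] at hx; exact hx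
      | gl i h => rw [hr] at hx; exact hx
      | _ => rw [hr] at h2; exact h2
    · rw [hbP h (hbcase h hh h1)]
      exact fun h => h
  · intro l
    show ¬ isG (c.role (e l : Fin n))
    rw [hlr l]
    exact fun h => h
  · intro l l' hll
    exact e.injective (Subtype.ext hll)
  · intro h l hh
    show H.Adj (hb h) (e l : Fin n)
    by_cases h1 : h = t
    · rw [h1, hbt]
      exact (hTmem _ (e l).2).2
    · have h2 := hbP h (hbcase h hh h1)
      apply hH0
      refine ⟨c.adj_h2_r2 _ _ _ _ h2 (hlr l), Or.inr (Or.inl ?_)⟩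
      rw [h2, hlr l]
      exact rfl
  · intro a ha h hh
    by_cases h1 : h = t
    · apply hH0
      refine ⟨hDadj a ha _ (hbX h hh), Or.inr (Or.inl ?_)⟩
      rw [h1, hbt, hDrole a ha]
      cases hr : c.role x with
      | r2 j => trivial
      | _ => rw [hr] at hx; exact hx.elim
    · have h2 := hbP h (hbcase h hh h1)
      apply hH0
      refine ⟨hDadj a ha _ (hbX h hh), Or.inr (Or.inl ?_)⟩
      rw [h2, hDrole a ha]
      trivial
  · intro a ha l
    show H.Adj a (e l : Fin n)
    apply hH0
    refine ⟨hDadj a ha _ (hTX _ (e l).2), Or.inr (Or.inl ?_)⟩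
    rw [hlr l, hDrole a ha]
    trivial

end Pool.Bbc38
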