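import Pool.Agent.Lib.MP_bbc38a_co.Pgf


set_option autoImplicit false
open Classical

namespace Pool.Bbc38

theorem tailxs_disj {n : ℕ} (X S : Finset (Fin n)) (hXS : Disjoint X S) :
    Disj (X ×ˢ S) (fun q : Fin n × Fin n => ({s(q.1, q.2)} : Finset (Sym2 (Fin n))))
      (fun _ => (∅ : Finset (Sym2 (Fin n)))) := by
  refine ⟨?_, ?_, ?_⟩
  · rintro ⟨x, y⟩ hi e he
    rw [Finset.mem_product] at hi
    simp only [Finset.union_empty, Finset.mem_singleton] at he
    subst he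
    rw [Sym2.mk_isDiag_iff]
    rintro rfl
    exact Finset.disjoint_left.1 hXS hi.1 hi.2
  · intro i _
    exact Finset.disjoint_empty_right _
  · rintro ⟨x, y⟩ hi ⟨x', y'⟩ hj hne
    rw [Finset.mem_product] at hi hj
    simp only [Finset.union_empty, Finset.disjoint_singleton]
    intro h
    rw [Sym2.eq_iff] at h
    rcases h with ⟨h1, h2⟩ | ⟨h1, h2⟩
    · exact hne (Prod.ext h1 h2)
    · have h3 : x ∈ S := by rw [h1]; exact hj.2
      exact Finset.disjoint_left.1 hXS hi.1 h3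

theorem tailxs_cnt {n : ℕ} (X S : Finset (Fin n)) (G : SimpleGraph (Fin n)) :
    (cnt (X ×ˢ S) (fun q : Fin n × Fin n => ({s(q.1, q.2)} : Finset (Sym2 (Fin n))))
      (fun _ => (∅ : Finset (Sym2 (Fin n)))) G : ℝ) = ∑ x ∈ X, ((cn G {x} S).card : ℝ) := by
  rw [← Nat.cast_sum]
  congr 1
  unfold cnt cn Holds
  rw [Finset.card_filter, Finset.sum_product]
  refine Finset.sum_congr rfl fun x _ => ?_
  rw [Finset.card_filter]
  refine Finset.sum_congr rfl fun y _ => ?_
  simp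

/-- number of edges between disjoint sets `X`, `S`, lower tail -/
theorem tailXS {p : ℝ} (hp0 : 0 ≤ p) (hp1 : p ≤ 1) {n : ℕ} (X S : Finset (Fin n))
    (hXS : Disjoint X S) (l : ℝ) (hl0 : 0 < l) (hl1 : l ≤ 1) (h : ℝ) :
    Pr p n {G | (∑ x ∈ X, ((cn G {x} S).card : ℝ)) ≤ h} ≤
      l ^ (-h) * (1 - (1 - l) * p) ^ (X.card * S.card) := by
  have := tail_low hp0 hp1 (X ×ˢ S)
    (fun q : Fin n × Fin n => ({s(q.1, q.2)} : Finset (Sym2 (Fin n))))
    (fun _ => (∅ : Finset (Sym2 (Fin n)))) (tailxs_disj X S hXS) p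
    (fun i _ => by simp) l hl0 hl1 h
  simp only [tailxs_cnt] at this
  rwa [Finset.card_product] at this

theorem tailxs_rpow {l : ℝ} (hl0 : 0 < l) (α : ℝ) (N : ℕ) :
    l ^ (-(α * (N : ℝ))) = (l ^ (-α)) ^ N := by
  rw [← Real.rpow_natCast, ← Real.rpow_mul hl0.le]
  congr 1
  ring

/-- exponential rate below any `α < p` -/
theorem tailXS_alpha {p : ℝ} (hp0 : 0 < p) (hp1 : p < 1) (α : ℝ) (hα : α < p) :
    ∃ ρ : ℝ, 0 < ρ ∧ ρ < 1 ∧ ∀ (n : ℕ) (X S : Finset (Fin n)), Disjoint X S →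
      Pr p n {G | (∑ x ∈ X, ((cn G {x} S).card : ℝ)) ≤ α * (X.card * S.card : ℕ)} ≤
        ρ ^ (X.card * S.card) := by
  set α' : ℝ := max α 0 with hα'
  have hα0 : 0 ≤ α' := le_max_right _ _
  have hαp : α' < p := max_lt hα hp0
  set l : ℝ := (1 + α' / p) / 2 with hl
  have hr0 : 0 ≤ α' / p := by positivity
  have hr1 : α' / p < 1 := (div_lt_one hp0).2 hαp
  have hl0 : 0 < l := by rw [hl]; linarith
  have hl1 : l < 1 := by rw [hl]; linarith
  have hlr : α' / p < l := by rw [hl]; linarith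
  have hbase : 0 < 1 - (1 - l) * p := by nlinarith
  refine ⟨l ^ (-α') * (1 - (1 - l) * p), by positivity, ?_, ?_⟩
  · have h1 : l ^ (-α') ≤ Real.exp (α' * ((1 - l) / l)) := by
      rw [Real.rpow_def_of_pos hl0]
      apply Real.exp_le_exp.2
      have h2 : 1 - l⁻¹ ≤ Real.log l := Real.one_sub_inv_le_log_of_pos hl0
      have h3 : (1 - l) / l = l⁻¹ - 1 := by field_simp
      rw [h3]
      nlinarith
    have h2 : 1 - (1 - l) * p ≤ Real.exp (-((1 - l) * p)) := by
      have := Real.add_one_le_exp (-((1 - l) * p))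
      linarith
    calc l ^ (-α') * (1 - (1 - l) * p)
        ≤ Real.exp (α' * ((1 - l) / l)) * Real.exp (-((1 - l) * p)) :=
          mul_le_mul h1 h2 hbase.le (Real.exp_pos _).le
      _ = Real.exp ((1 - l) * (α' / l - p)) := by
          rw [← Real.exp_add]; congr 1; ring
      _ < 1 := by
          rw [Real.exp_lt_one_iff]
          have h3 : α' / l < p := by
            rw [div_lt_iff₀ hl0]
            rw [div_lt_iff₀ hp0] at hlr
            linarith
          have h4 : 0 < 1 - l := by linarith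
          have h5 : α' / l - p < 0 := by linarith
          exact mul_neg_of_pos_of_neg h4 h5
  · intro n X S hXS
    set N := X.card * S.card with hN
    have hsub : {G : SimpleGraph (Fin n) | (∑ x ∈ X, ((cn G {x} S).card : ℝ)) ≤ α * (N : ℕ)} ⊆
        {G | (∑ x ∈ X, ((cn G {x} S).card : ℝ)) ≤ α' * (N : ℕ)} := by
      intro G hG
      have hG' : (∑ x ∈ X, ((cn G {x} S).card : ℝ)) ≤ α * (N : ℕ) := hG
      have : α * (N : ℝ) ≤ α' * (N : ℝ) :=
        mul_le_mul_of_nonneg_right (le_max_left _ _) (Nat.cast_nonneg _)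
      exact hG'.trans this
    refine (Pr_mono hp0.le hp1.le hsub).trans ?_
    refine (tailXS hp0.le hp1.le X S hXS l hl0 hl1.le _).trans (le_of_eq ?_)
    rw [tailxs_rpow hl0, ← hN, mul_pow]

/-- rate arbitrarily close to `1 - p` for small fractions -/
theorem tailXS_small {p : ℝ} (hp0 : 0 < p) (hp1 : p < 1) (θ : ℝ) (hθ : 1 - p < θ) :
    ∃ κ : ℝ, 0 < κ ∧ ∀ (n : ℕ) (X S : Finset (Fin n)), Disjoint X S →
      Pr p n {G | (∑ x ∈ X, ((cn G {x} S).card : ℝ)) ≤ κ * (X.card * S.card : ℕ)} ≤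
        θ ^ (X.card * S.card) := by
  set l : ℝ := min (1 / 2) ((θ - (1 - p)) / (2 * p)) with hl
  have hd : 0 < (θ - (1 - p)) / (2 * p) := div_pos (by linarith) (by linarith)
  have hl0 : 0 < l := lt_min (by norm_num) hd
  have hl1 : l < 1 := lt_of_le_of_lt (min_le_left _ _) (by norm_num)
  have hlp : l * p ≤ (θ - (1 - p)) / 2 := by
    calc l * p ≤ (θ - (1 - p)) / (2 * p) * p :=
          mul_le_mul_of_nonneg_right (min_le_right _ _) hp0.le
      _ = (θ - (1 - p)) / 2 := by field_simp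
  set θ1 : ℝ := (θ + (1 - p)) / 2 with hθ1
  have hθ1p : 0 < θ1 := by rw [hθ1]; linarith
  have hθ1θ : θ1 < θ := by rw [hθ1]; linarith
  have hbase : 1 - (1 - l) * p ≤ θ1 := by rw [hθ1]; linarith
  have hbase0 : 0 ≤ 1 - (1 - l) * p := by nlinarith
  have hlog : 0 < Real.log (θ / θ1) := Real.log_pos ((one_lt_div hθ1p).2 hθ1θ)
  have hlogl : Real.log l < 0 := Real.log_neg hl0 hl1
  refine ⟨Real.log (θ / θ1) / (-Real.log l), div_pos hlog (by linarith), ?_⟩
  intro n X S hXS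
  set κ : ℝ := Real.log (θ / θ1) / (-Real.log l) with hκ
  have hlk : l ^ (-κ) = θ / θ1 := by
    rw [Real.rpow_def_of_pos hl0]
    have : Real.log l * -κ = Real.log (θ / θ1) := by
      rw [hκ]
      have hne : Real.log l ≠ 0 := hlogl.ne
      field_simp
    rw [this, Real.exp_log (div_pos (by linarith) hθ1p)]
  refine (tailXS hp0.le hp1.le X S hXS l hl0 hl1.le _).trans ?_
  rw [tailxs_rpow hl0, ← mul_pow]
  apply pow_le_pow_left₀ (mul_nonneg (Real.rpow_nonneg hl0.le _) hbase0)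
  rw [hlk]
  calc θ / θ1 * (1 - (1 - l) * p) ≤ θ / θ1 * θ1 :=
        mul_le_mul_of_nonneg_left hbase (div_nonneg (by linarith) hθ1p.le)
    _ = θ := by field_simp

end Pool.Bbc38
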