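import Pool.Agent.Lib.MP_bbc38a_co.Star
import Pool.Agent.Lib.MP_bbc38a_co.Dense
import Pool.Agent.Lib.MP_bbc38a_co.Count
import Pool.Agent.Lib.MP_bbc38a_co.Free

set_option autoImplicit false
open Classical

namespace Pool.Bbc38

/-- every `F`-free graph extends to an `F`-saturated one -/
theorem exists_saturated {n k : ℕ} (G H0 : SimpleGraph (Fin n)) (F : SimpleGraph (Fin k))
    (hH0 : H0 ≤ G) (hfree : ¬ F.IsContained H0) :
    ∃ H : SimpleGraph (Fin n), H0 ≤ H ∧ H ≤ G ∧ ¬ F.IsContained H ∧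
      ∀ u v : Fin n, G.Adj u v → ¬ H.Adj u v →
        F.IsContained (H ⊔ SimpleGraph.fromEdgeSet {s(u, v)}) := by
  have hfin : (Set.univ : Set (SimpleGraph (Fin n))).Finite := Set.toFinite _
  have hfin2 : {H : SimpleGraph (Fin n) | H0 ≤ H ∧ H ≤ G ∧ ¬ F.IsContained H}.Finite :=
    Set.toFinite _
  obtain ⟨H, hH⟩ := hfin2.exists_maximal ⟨H0, le_refl _, hH0, hfree⟩
  refine ⟨H, hH.prop.1, hH.prop.2.1, hH.prop.2.2, ?_⟩
  intro u v huv hnuv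
  by_contra hcon
  have hmem : (H ⊔ SimpleGraph.fromEdgeSet {s(u, v)}) ∈
      {H : SimpleGraph (Fin n) | H0 ≤ H ∧ H ≤ G ∧ ¬ F.IsContained H} := by
    refine ⟨le_trans hH.prop.1 le_sup_left, sup_le hH.prop.2.1 ?_, hcon⟩
    intro a b hab
    rw [SimpleGraph.fromEdgeSet_adj] at hab
    have := hab.1
    rw [Set.mem_singleton_iff, Sym2.eq_iff] at this
    rcases this with ⟨rfl, rfl⟩ | ⟨rfl, rfl⟩
    · exact huv
    · exact huv.symm
  have hle := hH.le_of_ge hmem le_sup_left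
  apply hnuv
  apply hle
  right
  rw [SimpleGraph.fromEdgeSet_adj]
  exact ⟨rfl, huv.ne⟩

theorem Cfg.H0_le {n s k t m : ℕ} {G : SimpleGraph (Fin n)} (c : Cfg n s k t m G) : c.H0 ≤ G :=
  fun _ _ h => h.1

theorem upper_det {n s k t m : ℕ} {G : SimpleGraph (Fin n)} (c : Cfg n s k t m G)
    (F : SimpleGraph (Fin k)) (hcol : F.Colorable (s + 2)) (hnot : ¬ InS F s t m)
    (hin : InS F s t (m + 1))
    (htri : ∀ u v : Fin k, F.Adj u v → ∃ w : Fin k, F.Adj u w ∧ F.Adj v w)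
    (d0 : ℝ) (hd0 : 0 < d0) (C : ℕ) (hC0 : 0 < C)
    (hC : 2 * k * ((c.verts isA).card : ℝ) ≤ C * d0)
    (hJA : ∀ D ⊆ c.verts isA, d0 / 2 / 2 ^ C ≤ (D.card : ℝ) → HasKs c.J s k (D : Set (Fin n)))
    (hQ3 : ∀ X : Finset (Fin n), X.card ≤ k + 1 + t →
      HasKs c.J s k (cn G X (c.verts isB) : Set (Fin n)))
    (K0 : ℕ) (hX : (c.verts isX).card ≤ K0) (ε b0 : ℝ) (hε : 0 < ε) (hb0 : 0 < b0)
    (hB : ((c.verts isB).card : ℝ) ≤ b0)
    (hpairs : ((((c.verts isB) ×ˢ (c.verts isR1)).filter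
        (fun q => (cn G {q.1, q.2} (c.verts isX)).card < k)).card : ℝ) ≤ ε * b0 * n)
    (c1 : ℝ) (hc1 : c1 = ε / 2 ^ K0) (C2 : ℕ) (hC2 : 4 * k ≤ C2 * c1) (hC20 : 0 < C2)
    (hn : (C2 : ℝ) ≤ c1 / 2 * n)
    (hJB : ∀ D ⊆ c.verts isB, c1 / 4 * b0 / 2 ^ C2 ≤ (D.card : ℝ) →
      HasKs c.J s k (D : Set (Fin n)))
    (K1 : ℕ) (Δ : ℝ) (hΔ : ∀ v, ((cn G {v} Finset.univ).card : ℝ) ≤ Δ)
    (hbad : ∀ y, isR1 (c.role y) →
      (Finset.univ.filter (fun x => ¬ isA (c.role x) ∧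
        ((cn G {x, y} (c.verts isA)).card : ℝ) < d0)).card ≤ K1) :
    ∃ H : SimpleGraph (Fin n), (H ≤ G ∧ ¬ F.IsContained H ∧
      ∀ u v : Fin n, G.Adj u v → ¬ H.Adj u v →
        F.IsContained (H ⊔ SimpleGraph.fromEdgeSet {s(u, v)})) ∧
      (H.edgeSet.ncard : ℝ) ≤
      ((c.verts (fun r => ¬ isR1 r ∧ ¬ isR2 r)).card : ℝ) ^ 2
      + ((c.verts isA).card : ℝ) * Δ
      + ((c.verts isB).card : ℝ) * (c.verts isR2).card
      + 2 * ε * b0 * n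
      + ((c.verts (fun r => isX r ∨ isG r ∨ isH1 r)).card : ℝ) * n
      + ((c.verts isH2).card : ℝ) * (c.verts isR2).card
      + (n : ℝ) * c.m1 * C + (K1 : ℝ) * n
      + ((c.verts isR2).card : ℝ) * c.m2 * k := by
  obtain ⟨H, hH0, hHG, hfree, hsat⟩ := exists_saturated G c.H0 F c.H0_le (H0_free c F hnot htri)
  refine ⟨H, ⟨hHG, hfree, hsat⟩, ?_⟩
  refine edge_count c H hHG Δ (2 * ε * b0 * n) d0 C K1 k hΔ ?_ ?_ hbad ?_
  · exact dense_bound c F hcol H hH0 hfree K0 hX ε b0 hε hb0 hB hpairs c1 hc1 C2 hC2 hC20 hn hJB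
  · intro x hx j
    exact (star1 c F hin H hH0 hfree d0 hd0 C hC0 hC hJA x hx j).le
  · intro x hx j
    exact (star2 c F hin H hH0 hfree hQ3 x hx j).le

end Pool.Bbc38
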