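import Pool.Agent.Lib.MP_bbc38a_co.TailXS


set_option autoImplicit false
open Classical

namespace Pool.Bbc38

/-- the pattern: `x` is adjacent to all of `Q` -/
noncomputable def wcover_E {n : ℕ} (x : Fin n) (Q : Finset (Fin n)) : Finset (Sym2 (Fin n)) :=
  Q.image (fun u => s(x, u))

theorem wcover_mem {n : ℕ} (x : Fin n) (Q : Finset (Fin n)) (e : Sym2 (Fin n)) :
    e ∈ wcover_E x Q ↔ ∃ u ∈ Q, s(x, u) = e := by
  simp [wcover_E]

theorem wcover_card {n : ℕ} (x : Fin n) (Q : Finset (Fin n)) : (wcover_E x Q).card ≤ Q.card :=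
  Finset.card_image_le

theorem wcover_holds {n : ℕ} (x : Fin n) (Q : Finset (Fin n)) (G : SimpleGraph (Fin n)) :
    Holds (wcover_E x Q) ∅ G ↔ ∀ u ∈ Q, G.Adj x u := by
  constructor
  · intro h u hu
    exact h.1 _ ((wcover_mem x Q _).2 ⟨u, hu, rfl⟩)
  · intro h
    refine ⟨?_, by simp⟩
    intro e he
    obtain ⟨u, hu, rfl⟩ := (wcover_mem x Q _).1 he
    exact h u hu

theorem wcover_nd {n : ℕ} (x : Fin n) (Q : Finset (Fin n)) (hx : x ∉ Q) :
    ∀ e ∈ wcover_E x Q ∪ ∅, ¬ e.IsDiag := by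
  intro e he
  rw [Finset.union_empty] at he
  obtain ⟨u, hu, rfl⟩ := (wcover_mem x Q _).1 he
  rw [Sym2.mk_isDiag_iff]
  rintro rfl
  exact hx hu

theorem wcover_q {p : ℝ} (hp0 : 0 < p) (hp1 : p < 1) {n : ℕ} (t : ℕ) (x : Fin n)
    (Q : Finset (Fin n)) (hQ : Q.card ≤ t) :
    p ^ t ≤ p ^ (wcover_E x Q).card * (1 - p) ^ (∅ : Finset (Sym2 (Fin n))).card := by
  rw [Finset.card_empty, pow_zero, mul_one]
  exact pow_le_pow_of_le_one hp0.le hp1.le ((wcover_card x Q).trans hQ)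

theorem wcover_one {p : ℝ} (hp0 : 0 < p) (hp1 : p < 1) {n : ℕ} (t m : ℕ) (x : Fin n)
    (Q : ℕ → Finset (Fin n)) (hQ : ∀ j < m, (Q j).card ≤ t)
    (hd : ∀ i < m, ∀ j < m, i ≠ j → Disjoint (Q i) (Q j)) (hx : ∀ j < m, x ∉ Q j) :
    Pr p n {G | ∀ j < m, ¬ ∀ u ∈ Q j, G.Adj x u} ≤ (1 - p ^ t) ^ m := by
  have hD : Disj (Finset.range m) (fun j => wcover_E x (Q j))
      (fun _ => (∅ : Finset (Sym2 (Fin n)))) := by
    refine ⟨?_, ?_, ?_⟩
    · intro i hi
      exact wcover_nd x (Q i) (hx i (Finset.mem_range.1 hi))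
    · intro i _
      exact Finset.disjoint_empty_right _
    · intro i hi j hj hij
      rw [Finset.union_empty, Finset.union_empty, Finset.disjoint_left]
      intro e he he'
      obtain ⟨u, hu, rfl⟩ := (wcover_mem x (Q i) _).1 he
      obtain ⟨u', hu', h⟩ := (wcover_mem x (Q j) _).1 he'
      have : u' = u := by
        rw [Sym2.eq_iff] at h
        rcases h with ⟨-, h⟩ | ⟨h1, h2⟩
        · exact h
        · rw [h2, ← h1]
      subst this
      exact (Finset.disjoint_left.1 (hd i (Finset.mem_range.1 hi) j (Finset.mem_range.1 hj) hij))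
        hu hu'
  have h1 := tail_zero hp0.le hp1.le (Finset.range m) (fun j => wcover_E x (Q j))
    (fun _ => (∅ : Finset (Sym2 (Fin n)))) hD (p ^ t)
    (fun i hi => wcover_q hp0 hp1 t x (Q i) (hQ i (Finset.mem_range.1 hi)))
  rw [Finset.card_range] at h1
  refine le_trans (Pr_mono hp0.le hp1.le ?_) h1
  intro G hG
  change cnt _ _ _ G = 0
  unfold cnt
  rw [Finset.card_eq_zero, Finset.filter_eq_empty_iff]
  intro j hj
  rw [wcover_holds]
  exact hG j (Finset.mem_range.1 hj)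

theorem whp_cover2 {p : ℝ} (hp0 : 0 < p) (hp1 : p < 1) (t : ℕ) :
    ∃ C : ℝ, 0 < C ∧ ∀ (m2 : ℕ → ℕ) (Q : (n : ℕ) → ℕ → Finset (Fin n)),
      (∀ᶠ n : ℕ in Filter.atTop, C * Real.log n ≤ (m2 n : ℝ)) →
      (∀ᶠ n : ℕ in Filter.atTop, ∀ j < m2 n, (Q n j).card ≤ t) →
      (∀ᶠ n : ℕ in Filter.atTop, ∀ i < m2 n, ∀ j < m2 n, i ≠ j → Disjoint (Q n i) (Q n j)) →
      Whp p (fun n => {G | ∀ x : Fin n, (∀ j < m2 n, x ∉ Q n j) →
        ∃ j < m2 n, ∀ u ∈ Q n j, G.Adj x u}) := by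
  have hq : 0 < p ^ t := pow_pos hp0 t
  have hq1 : p ^ t ≤ 1 := pow_le_one₀ hp0.le hp1.le
  refine ⟨2 / p ^ t, by positivity, ?_⟩
  intro m2 Q hm hQ hd
  refine whp_of_compl_le hp0.le hp1.le _ (fun n : ℕ => 1 / (n : ℝ))
    tendsto_one_div_atTop_nhds_zero_nat ?_
  filter_upwards [hm, hQ, hd, Filter.eventually_ge_atTop 1] with n hm hQ hd hn
  have hn0 : (0 : ℝ) < n := by exact_mod_cast hn
  -- the bad event is a union over `x`
  have hsub : ({G | ∀ x : Fin n, (∀ j < m2 n, x ∉ Q n j) →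
        ∃ j < m2 n, ∀ u ∈ Q n j, G.Adj x u} : Set (SimpleGraph (Fin n)))ᶜ ⊆
      {G | ∃ x ∈ (Finset.univ : Finset (Fin n)).filter (fun x => ∀ j < m2 n, x ∉ Q n j),
        G ∈ ({G | ∀ j < m2 n, ¬ ∀ u ∈ Q n j, G.Adj x u} : Set (SimpleGraph (Fin n)))} := by
    intro G hG
    by_contra hcon
    apply hG
    intro x hx
    by_contra h2
    apply hcon
    refine ⟨x, by simpa using hx, ?_⟩
    intro j hj h3
    exact h2 ⟨j, hj, h3⟩
  refine (Pr_mono hp0.le hp1.le hsub).trans ?_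
  refine (Pr_exists_le hp0.le hp1.le _ _).trans ?_
  have hterm : ∀ x ∈ (Finset.univ : Finset (Fin n)).filter (fun x => ∀ j < m2 n, x ∉ Q n j),
      Pr p n {G | ∀ j < m2 n, ¬ ∀ u ∈ Q n j, G.Adj x u} ≤ 1 / (n : ℝ) ^ 2 := by
    intro x hx
    rw [Finset.mem_filter] at hx
    refine (wcover_one hp0 hp1 t (m2 n) x (Q n) hQ hd hx.2).trans ?_
    have h1 : (1 - p ^ t) ≤ Real.exp (-(p ^ t)) := by
      have := Real.add_one_le_exp (-(p ^ t))
      linarith
    have h2 : (1 - p ^ t) ^ m2 n ≤ Real.exp (-(p ^ t)) ^ m2 n :=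
      pow_le_pow_left₀ (by linarith) h1 _
    refine h2.trans ?_
    rw [← Real.exp_nat_mul]
    have h3 : (m2 n : ℝ) * -(p ^ t) ≤ -(2 * Real.log n) := by
      have h4 : 2 / p ^ t * Real.log n * p ^ t ≤ (m2 n : ℝ) * p ^ t :=
        mul_le_mul_of_nonneg_right hm hq.le
      have h5 : 2 / p ^ t * Real.log n * p ^ t = 2 * Real.log n := by
        field_simp
      rw [h5] at h4
      linarith
    refine (Real.exp_le_exp.2 h3).trans ?_
    rw [Real.exp_neg, one_div]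
    apply le_of_eq
    congr 1
    rw [two_mul, Real.exp_add, Real.exp_log hn0, sq]
  refine (Finset.sum_le_sum hterm).trans ?_
  rw [Finset.sum_const, nsmul_eq_mul]
  have hcard : (((Finset.univ : Finset (Fin n)).filter
      (fun x => ∀ j < m2 n, x ∉ Q n j)).card : ℝ) ≤ n := by
    have := Finset.card_filter_le (Finset.univ : Finset (Fin n)) (fun x => ∀ j < m2 n, x ∉ Q n j)
    rw [Finset.card_univ, Fintype.card_fin] at this
    exact_mod_cast this
  calc _ ≤ (n : ℝ) * (1 / (n : ℝ) ^ 2) := mul_le_mul_of_nonneg_right hcard (by positivity)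
    _ = 1 / (n : ℝ) := by field_simp

end Pool.Bbc38
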