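import Pool.Agent.Lib.MP_bbc38a_co.TailXS


set_option autoImplicit false
open Classical

namespace Pool.Bbc38

open Filter Topology

theorem wlow_card_small (n K : ℕ) :
    ((Finset.univ : Finset (Finset (Fin n))).filter (fun S => S.card ≤ K)).card ≤ (n + 1) ^ K := by
  have h1 : ((Finset.univ : Finset (Finset (Fin n))).filter (fun S => S.card ≤ K)) ⊆
      (Finset.range (K + 1)).biUnion (fun m => Finset.powersetCard m Finset.univ) := by
    intro S hS
    rw [Finset.mem_filter] at hS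
    rw [Finset.mem_biUnion]
    refine ⟨S.card, Finset.mem_range.2 (by omega), ?_⟩
    rw [Finset.mem_powersetCard]
    exact ⟨Finset.subset_univ _, rfl⟩
  refine (Finset.card_le_card h1).trans ?_
  refine Finset.card_biUnion_le.trans ?_
  rw [add_pow]
  apply Finset.sum_le_sum
  intro m hm
  rw [Finset.mem_range] at hm
  rw [Finset.card_powersetCard, Finset.card_univ, Fintype.card_fin, one_pow, mul_one]
  have h2 : 1 ≤ K.choose m := Nat.choose_pos (by omega)
  calc n.choose m ≤ n ^ m := Nat.choose_le_pow _ _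
    _ = n ^ m * 1 := (mul_one _).symm
    _ ≤ n ^ m * K.choose m := Nat.mul_le_mul_left _ h2

/-- patterns for a fixed pair `(v, S)` -/
noncomputable def wlowI {n : ℕ} (v : Fin n) (S : Finset (Fin n)) : Finset (Fin n) :=
  Finset.univ.filter (fun u => u ∉ S ∧ u ≠ v)

def wlowE1 {n : ℕ} (v : Fin n) (u : Fin n) : Finset (Sym2 (Fin n)) := {s(v, u)}

noncomputable def wlowE0 {n : ℕ} (S : Finset (Fin n)) (u : Fin n) : Finset (Sym2 (Fin n)) :=
  S.image (fun w => s(w, u))

theorem wlow_disj {n : ℕ} (v : Fin n) (S : Finset (Fin n)) (hv : v ∉ S) :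
    Disj (wlowI v S) (wlowE1 v) (wlowE0 S) := by
  refine ⟨?_, ?_, ?_⟩
  · intro u hu e he
    simp only [wlowI, Finset.mem_filter, Finset.mem_univ, true_and] at hu
    rw [Finset.mem_union] at he
    rcases he with he | he
    · simp only [wlowE1, Finset.mem_singleton] at he
      subst he
      rw [Sym2.mk_isDiag_iff]
      exact fun h => hu.2 h.symm
    · simp only [wlowE0, Finset.mem_image] at he
      obtain ⟨w, hw, rfl⟩ := he
      rw [Sym2.mk_isDiag_iff]
      rintro rfl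
      exact hu.1 hw
  · intro u hu
    simp only [wlowI, Finset.mem_filter, Finset.mem_univ, true_and] at hu
    rw [Finset.disjoint_left]
    intro e he he'
    simp only [wlowE1, Finset.mem_singleton] at he
    simp only [wlowE0, Finset.mem_image] at he'
    obtain ⟨w, hw, rfl⟩ := he'
    rw [Sym2.eq_iff] at he
    rcases he with ⟨h, _⟩ | ⟨h, h'⟩
    · exact hv (h ▸ hw)
    · exact hu.2 h'
  · intro u hu u' hu' huu'
    simp only [wlowI, Finset.mem_filter, Finset.mem_univ, true_and] at hu hu'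
    have key : ∀ x e, e ∈ wlowE1 v x ∪ wlowE0 S x → ∃ a, (a = v ∨ a ∈ S) ∧ e = s(a, x) := by
      intro x e he
      rw [Finset.mem_union] at he
      rcases he with he | he
      · simp only [wlowE1, Finset.mem_singleton] at he
        exact ⟨v, Or.inl rfl, he⟩
      · simp only [wlowE0, Finset.mem_image] at he
        obtain ⟨w, hw, rfl⟩ := he
        exact ⟨w, Or.inr hw, rfl⟩
    rw [Finset.disjoint_left]
    intro e he he'
    obtain ⟨a, ha, h1⟩ := key _ _ he
    obtain ⟨a', ha', h2⟩ := key _ _ he'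
    rw [h1, Sym2.eq_iff] at h2
    rcases h2 with ⟨_, h⟩ | ⟨h, _⟩
    · exact huu' h
    · rcases ha with h3 | h3
      · exact hu'.2 (h ▸ h3)
      · exact hu'.1 (h ▸ h3)

theorem wlow_cnt_le {n : ℕ} (v : Fin n) (S : Finset (Fin n)) (G : SimpleGraph (Fin n)) :
    cnt (wlowI v S) (wlowE1 v) (wlowE0 S) G ≤
      (Finset.univ.filter (fun u => u ∉ S ∧ G.Adj v u ∧ ∀ w ∈ S, ¬ G.Adj w u)).card := by
  unfold cnt
  apply Finset.card_le_card
  intro u hu
  simp only [wlowI, Finset.mem_filter, Finset.mem_univ, true_and] at hu ⊢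
  obtain ⟨hu1, hh1, hh0⟩ := hu
  refine ⟨hu1.1, ?_, ?_⟩
  · have := hh1 s(v, u) (by simp [wlowE1])
    exact this
  · intro w hw h
    exact hh0 s(w, u) (by simp only [wlowE0, Finset.mem_image]; exact ⟨w, hw, rfl⟩) h

/-- the tail bound for a fixed pair -/
theorem wlow_fixed {p : ℝ} (hp0 : 0 < p) (hp1 : p < 1) {n : ℕ} (v : Fin n) (S : Finset (Fin n))
    (hv : v ∉ S) (K : ℕ) (hS : S.card ≤ K) (h : ℝ) :
    Pr p n {G | ((Finset.univ.filter
      (fun u => u ∉ S ∧ G.Adj v u ∧ ∀ w ∈ S, ¬ G.Adj w u)).card : ℝ) < h} ≤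
      (1 / 2) ^ (-h) * (1 - (1 - 1 / 2) * (p * (1 - p) ^ K)) ^ (n - 1 - K) := by
  have hq0 : 0 ≤ p * (1 - p) ^ K := mul_nonneg hp0.le (pow_nonneg (by linarith) _)
  have hq1 : p * (1 - p) ^ K ≤ 1 :=
    mul_le_one₀ hp1.le (pow_nonneg (by linarith) _) (pow_le_one₀ (by linarith) (by linarith))
  have h1 := tail_low hp0.le hp1.le (wlowI v S) (wlowE1 v) (wlowE0 S) (wlow_disj v S hv)
    (p * (1 - p) ^ K) (by
      intro u _
      have e1 : (wlowE1 v u).card = 1 := by simp [wlowE1]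
      have e2 : (wlowE0 S u).card ≤ K := Finset.card_image_le.trans hS
      rw [e1, pow_one]
      exact mul_le_mul_of_nonneg_left
        (pow_le_pow_of_le_one (by linarith) (by linarith) e2) hp0.le)
    (1 / 2) (by norm_num) (by norm_num) h
  refine (Pr_mono hp0.le hp1.le ?_).trans (h1.trans ?_)
  · intro G hG
    simp only [Set.mem_setOf_eq] at hG ⊢
    have := wlow_cnt_le v S G
    have h2 : (cnt (wlowI v S) (wlowE1 v) (wlowE0 S) G : ℝ) ≤
      ((Finset.univ.filter (fun u => u ∉ S ∧ G.Adj v u ∧ ∀ w ∈ S, ¬ G.Adj w u)).card : ℝ) := by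
      exact_mod_cast this
    linarith
  · apply mul_le_mul_of_nonneg_left _ (by positivity)
    apply pow_le_pow_of_le_one (by linarith) (by linarith)
    have e3 : (wlowI v S) = Finset.univ \ (insert v S) := by
      ext u
      simp only [wlowI, Finset.mem_filter, Finset.mem_univ, true_and, Finset.mem_sdiff,
        Finset.mem_insert, not_or]
      tauto
    rw [e3, Finset.card_sdiff_of_subset (Finset.subset_univ _), Finset.card_univ, Fintype.card_fin]
    have := Finset.card_insert_le v S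
    omega

theorem wlow_tendsto (a b c ε : ℝ) (hε : 0 < ε) (hc : 0 < c) :
    Tendsto (fun n : ℕ => Real.exp (a * Real.log n ^ 2 + Real.log n + b * (n : ℝ) ^ (ε / 2)
      - c * (n : ℝ) ^ ε)) atTop (𝓝 0) := by
  apply Real.tendsto_exp_atBot.comp
  have hcast := tendsto_natCast_atTop_atTop (R := ℝ)
  have hpow : Tendsto (fun n : ℕ => (n : ℝ) ^ ε) atTop atTop := (tendsto_rpow_atTop hε).comp hcast
  have h1 : Tendsto (fun n : ℕ => Real.log n ^ 2 / (n : ℝ) ^ ε) atTop (𝓝 0) := by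
    have := (isLittleO_log_rpow_rpow_atTop 2 hε).tendsto_div_nhds_zero.comp hcast
    refine this.congr fun n => ?_
    simp only [Function.comp]
    norm_cast
  have h2 : Tendsto (fun n : ℕ => Real.log n / (n : ℝ) ^ ε) atTop (𝓝 0) := by
    have := (isLittleO_log_rpow_rpow_atTop 1 hε).tendsto_div_nhds_zero.comp hcast
    refine this.congr fun n => ?_
    simp only [Function.comp, Real.rpow_one]
  have h3 : Tendsto (fun n : ℕ => (n : ℝ) ^ (ε / 2) / (n : ℝ) ^ ε) atTop (𝓝 0) := by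
    have h4 : Tendsto (fun n : ℕ => ((n : ℝ) ^ (ε / 2))⁻¹) atTop (𝓝 0) :=
      tendsto_inv_atTop_zero.comp ((tendsto_rpow_atTop (by positivity)).comp hcast)
    refine h4.congr' ?_
    filter_upwards [eventually_gt_atTop 0] with n hn
    have hn' : (0 : ℝ) < n := by exact_mod_cast hn
    have e : (n : ℝ) ^ ε = (n : ℝ) ^ (ε / 2) * (n : ℝ) ^ (ε / 2) := by
      rw [← Real.rpow_add hn']; congr 1; ring
    rw [e]
    have : (n : ℝ) ^ (ε / 2) ≠ 0 := by positivity
    field_simp
  have h5 : Tendsto (fun n : ℕ => a * (Real.log n ^ 2 / (n : ℝ) ^ ε) + Real.log n / (n : ℝ) ^ ε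
      + b * ((n : ℝ) ^ (ε / 2) / (n : ℝ) ^ ε) - c) atTop (𝓝 (a * 0 + 0 + b * 0 - c)) :=
    (((h1.const_mul a).add h2).add (h3.const_mul b)).sub_const c
  have h6 := hpow.atTop_mul_neg (show a * 0 + 0 + b * 0 - c < 0 by linarith) h5
  refine h6.congr' ?_
  filter_upwards [eventually_gt_atTop 0] with n hn
  have hn' : (0 : ℝ) < n := by exact_mod_cast hn
  have : (n : ℝ) ^ ε ≠ 0 := by positivity
  field_simp

theorem whp_low {p : ℝ} (hp0 : 0 < p) (hp1 : p < 1) (ε : ℝ) (hε : 0 < ε) (hε1 : ε < 1) :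
    Whp p (fun n => {G | ∀ (v : Fin n) (S : Finset (Fin n)), v ∉ S →
      (S.card : ℝ) ≤ (1 - ε) * LL p n →
      (n : ℝ) ^ (ε / 2) ≤
        ((Finset.univ.filter (fun u => u ∉ S ∧ G.Adj v u ∧ ∀ w ∈ S, ¬ G.Adj w u)).card : ℝ)}) := by
  have h1p : 1 < 1 / (1 - p) := by
    rw [lt_div_iff₀ (by linarith)]; linarith
  set b : ℝ := Real.log (1 / (1 - p)) with hb
  have hb0 : 0 < b := Real.log_pos h1p
  have hLL : ∀ n : ℕ, LL p n = Real.log n / b := fun n => rfl
  have hlogp : Real.log (1 - p) = -b := by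
    rw [hb, one_div, Real.log_inv, neg_neg]
  set C : ℝ := (1 - ε) / b with hC
  have hC0 : 0 < C := div_pos (by linarith) hb0
  refine whp_of_compl_le hp0.le hp1.le _ (fun n : ℕ => Real.exp ((2 * C) * Real.log n ^ 2
    + Real.log n + Real.log 2 * (n : ℝ) ^ (ε / 2) - (p / 4) * (n : ℝ) ^ ε))
    (wlow_tendsto _ _ _ ε hε (by positivity)) ?_
  -- eventually `K + 1 ≤ n / 2`
  have hlogn : Tendsto (fun n : ℕ => Real.log n / (n : ℝ)) atTop (𝓝 0) := by
    have := (Real.isLittleO_log_id_atTop).tendsto_div_nhds_zero.comp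
      (tendsto_natCast_atTop_atTop (R := ℝ))
    exact this
  have hev : ∀ᶠ n : ℕ in atTop, Real.log n / (n : ℝ) < 1 / (4 * (C + 1)) :=
    hlogn.eventually_lt_const (by positivity)
  filter_upwards [hev, eventually_ge_atTop 4] with n hn1 hn4
  have hnR : (4 : ℝ) ≤ n := by exact_mod_cast hn4
  have hn0 : (0 : ℝ) < n := by linarith
  have hlog0 : 0 ≤ Real.log n := Real.log_nonneg (by linarith)
  set K : ℕ := ⌊(1 - ε) * LL p n⌋₊ with hK
  have hKle : (K : ℝ) ≤ C * Real.log n := by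
    have h1 : 0 ≤ (1 - ε) * LL p n := by
      rw [hLL]; exact mul_nonneg (by linarith) (div_nonneg hlog0 hb0.le)
    refine (Nat.floor_le h1).trans (le_of_eq ?_)
    rw [hLL, hC]; ring
  have hK1 : (1 : ℝ) + K ≤ n / 2 := by
    rw [div_lt_div_iff₀ hn0 (by positivity)] at hn1
    have h2 : C * Real.log n ≤ (C + 1) * Real.log n := by nlinarith
    have h3 : (C + 1) * Real.log n ≤ n / 4 := by linarith
    linarith
  -- union bound
  have hsub : (({G | ∀ (v : Fin n) (S : Finset (Fin n)), v ∉ S →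
      (S.card : ℝ) ≤ (1 - ε) * LL p n →
      (n : ℝ) ^ (ε / 2) ≤
        ((Finset.univ.filter (fun u => u ∉ S ∧ G.Adj v u ∧ ∀ w ∈ S, ¬ G.Adj w u)).card : ℝ)} :
        Set (SimpleGraph (Fin n))))ᶜ ⊆
      {G | ∃ i ∈ ((Finset.univ : Finset (Fin n)) ×ˢ
          ((Finset.univ : Finset (Finset (Fin n))).filter (fun S => S.card ≤ K))).filter
            (fun i => i.1 ∉ i.2), G ∈ {G : SimpleGraph (Fin n) | ((Finset.univ.filter
      (fun u => u ∉ i.2 ∧ G.Adj i.1 u ∧ ∀ w ∈ i.2, ¬ G.Adj w u)).card : ℝ) < (n : ℝ) ^ (ε / 2)}} := by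
    intro G hG
    simp only [Set.mem_compl_iff, Set.mem_setOf_eq, not_forall, not_le] at hG
    obtain ⟨v, S, hv, hS, hlt⟩ := hG
    refine ⟨(v, S), ?_, hlt⟩
    rw [Finset.mem_filter, Finset.mem_product, Finset.mem_filter]
    exact ⟨⟨Finset.mem_univ _, Finset.mem_univ _, Nat.le_floor hS⟩, hv⟩
  refine (Pr_mono hp0.le hp1.le hsub).trans ((Pr_exists_le hp0.le hp1.le _ _).trans ?_)
  have hterm : ∀ i ∈ ((Finset.univ : Finset (Fin n)) ×ˢ
          ((Finset.univ : Finset (Finset (Fin n))).filter (fun S => S.card ≤ K))).filter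
            (fun i => i.1 ∉ i.2), Pr p n {G : SimpleGraph (Fin n) | ((Finset.univ.filter
      (fun u => u ∉ i.2 ∧ G.Adj i.1 u ∧ ∀ w ∈ i.2, ¬ G.Adj w u)).card : ℝ) < (n : ℝ) ^ (ε / 2)} ≤
      (1 / 2) ^ (-(n : ℝ) ^ (ε / 2)) * (1 - (1 - 1 / 2) * (p * (1 - p) ^ K)) ^ (n - 1 - K) := by
    intro i hi
    rw [Finset.mem_filter, Finset.mem_product, Finset.mem_filter] at hi
    exact wlow_fixed hp0 hp1 i.1 i.2 hi.2 K hi.1.2.2 _
  refine (Finset.sum_le_sum hterm).trans ?_
  rw [Finset.sum_const, nsmul_eq_mul]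
  -- number of terms
  have hcount : ((((Finset.univ : Finset (Fin n)) ×ˢ
          ((Finset.univ : Finset (Finset (Fin n))).filter (fun S => S.card ≤ K))).filter
            (fun i => i.1 ∉ i.2)).card : ℝ) ≤ Real.exp (2 * C * Real.log n ^ 2 + Real.log n) := by
    have h1 : (((Finset.univ : Finset (Fin n)) ×ˢ
          ((Finset.univ : Finset (Finset (Fin n))).filter (fun S => S.card ≤ K))).filter
            (fun i => i.1 ∉ i.2)).card ≤ n * (n + 1) ^ K := by
      refine (Finset.card_filter_le _ _).trans ?_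
      rw [Finset.card_product, Finset.card_univ, Fintype.card_fin]
      exact Nat.mul_le_mul_left _ (wlow_card_small n K)
    have h2 : ((n * (n + 1) ^ K : ℕ) : ℝ) ≤ (n : ℝ) * ((n : ℝ) ^ 2) ^ K := by
      push_cast
      apply mul_le_mul_of_nonneg_left _ hn0.le
      apply pow_le_pow_left₀ (by positivity)
      nlinarith
    have h3 : (n : ℝ) * ((n : ℝ) ^ 2) ^ K ≤ Real.exp (2 * C * Real.log n ^ 2 + Real.log n) := by
      have e1 : ((n : ℝ) ^ 2) ^ K = Real.exp ((2 * K : ℕ) * Real.log n) := by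
        rw [← pow_mul, Real.exp_nat_mul, Real.exp_log hn0]
      rw [e1, Real.exp_add, mul_comm]
      apply mul_le_mul _ (Real.exp_log hn0).ge hn0.le (Real.exp_pos _).le
      rw [Real.exp_le_exp]
      push_cast
      nlinarith
    exact le_trans (by exact_mod_cast h1) (h2.trans h3)
  -- the power
  have hq0 : 0 ≤ p * (1 - p) ^ K := mul_nonneg hp0.le (pow_nonneg (by linarith) _)
  have hq1 : p * (1 - p) ^ K ≤ 1 :=
    mul_le_one₀ hp1.le (pow_nonneg (by linarith) _) (pow_le_one₀ (by linarith) (by linarith))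
  have hqlow : p * ((n : ℝ) ^ ε / n) ≤ p * (1 - p) ^ K := by
    apply mul_le_mul_of_nonneg_left _ hp0.le
    have e1 : (n : ℝ) ^ ε / n = Real.exp (-(1 - ε) * Real.log n) := by
      rw [Real.rpow_def_of_pos hn0]
      nth_rewrite 2 [← Real.exp_log hn0]
      rw [← Real.exp_sub]
      congr 1; ring
    have e2 : (1 - p) ^ K = Real.exp (-(b * K)) := by
      rw [← Real.exp_log (show (0 : ℝ) < 1 - p by linarith), ← Real.exp_nat_mul, hlogp]
      congr 1; ring
    rw [e1, e2, Real.exp_le_exp]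
    have e3 : b * C = 1 - ε := by rw [hC]; field_simp
    have e4 : b * (K : ℝ) ≤ b * (C * Real.log n) := mul_le_mul_of_nonneg_left hKle hb0.le
    rw [← mul_assoc, e3] at e4
    linarith
  have hpow : (1 - (1 - 1 / 2) * (p * (1 - p) ^ K)) ^ (n - 1 - K) ≤
      Real.exp (-(p / 4) * (n : ℝ) ^ ε) := by
    have h1 : 1 - (1 - 1 / 2) * (p * (1 - p) ^ K) ≤ Real.exp (-(p * ((n : ℝ) ^ ε / n)) / 2) := by
      have := Real.add_one_le_exp (-(p * ((n : ℝ) ^ ε / n)) / 2)
      linarith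
    refine (pow_le_pow_left₀ (by linarith) h1 _).trans ?_
    rw [← Real.exp_nat_mul, Real.exp_le_exp]
    have h2 : ((n - 1 - K : ℕ) : ℝ) ≥ n / 2 := by
      have h3 : ((n - 1 - K : ℕ) : ℝ) = (n : ℝ) - 1 - K := by
        have h4 : 1 + K ≤ n := by
          have : (1 : ℝ) + K ≤ n := by linarith
          exact_mod_cast this
        rw [Nat.sub_sub, Nat.cast_sub h4]
        push_cast; ring
      rw [h3]; linarith
    have h5 : 0 ≤ p * ((n : ℝ) ^ ε / n) := by positivity
    have h6 : (n / 2 : ℝ) * (p * ((n : ℝ) ^ ε / n) / 2) = (p / 4) * (n : ℝ) ^ ε := by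
      field_simp; ring
    nlinarith
  have hhalf : ((1 : ℝ) / 2) ^ (-(n : ℝ) ^ (ε / 2)) = Real.exp (Real.log 2 * (n : ℝ) ^ (ε / 2)) := by
    rw [Real.rpow_def_of_pos (by norm_num)]
    congr 1
    rw [one_div, Real.log_inv]; ring
  rw [hhalf]
  calc _ ≤ Real.exp (2 * C * Real.log n ^ 2 + Real.log n) *
        (Real.exp (Real.log 2 * (n : ℝ) ^ (ε / 2)) * Real.exp (-(p / 4) * (n : ℝ) ^ ε)) := by
        apply mul_le_mul hcount _ _ (Real.exp_pos _).le
        · exact mul_le_mul_of_nonneg_left hpow (Real.exp_pos _).le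
        · exact mul_nonneg (Real.exp_pos _).le (pow_nonneg (by linarith) _)
    _ = _ := by
        rw [← Real.exp_add, ← Real.exp_add]
        congr 1; ring

end Pool.Bbc38
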